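import Pool.Agent.Lib.MP_e32423_an.Defs

/-!
Orthonormal frames in the plane, Fubini's theorem for domains between two graphs.
-/

namespace Pool.Agent.MP_e32423_an

open MeasureTheory Set Filter
open scoped Topology RealInnerProductSpace

/-- The point with coordinates `x, y` in the frame `(p, b)`. -/
noncomputable def pt (p : Plane) (b : OrthonormalBasis (Fin 2) ℝ Plane) (x y : ℝ) : Plane :=
  p + (x • b 0 + y • b 1)

/-- first coordinate -/
noncomputable def cx (p : Plane) (b : OrthonormalBasis (Fin 2) ℝ Plane) (z : Plane) : ℝ :=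
  ⟪b 0, z - p⟫

/-- second coordinate -/
noncomputable def cy (p : Plane) (b : OrthonormalBasis (Fin 2) ℝ Plane) (z : Plane) : ℝ :=
  ⟪b 1, z - p⟫

variable (p : Plane) (b : OrthonormalBasis (Fin 2) ℝ Plane)

lemma inner00 : ⟪b 0, b 0⟫ = 1 := by
  rw [real_inner_self_eq_norm_sq, b.norm_eq_one]; norm_num

lemma inner11 : ⟪b 1, b 1⟫ = 1 := by
  rw [real_inner_self_eq_norm_sq, b.norm_eq_one]; norm_num

lemma inner01 : ⟪b 0, b 1⟫ = 0 := b.orthonormal.2 (by decide)

lemma inner10 : ⟪b 1, b 0⟫ = 0 := b.orthonormal.2 (by decide)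

@[simp] lemma cx_pt (x y : ℝ) : cx p b (pt p b x y) = x := by
  simp [cx, pt, inner_add_right, inner_smul_right, inner01 b]

@[simp] lemma cy_pt (x y : ℝ) : cy p b (pt p b x y) = y := by
  simp [cy, pt, inner_add_right, inner_smul_right, inner10 b]

lemma pt_c (z : Plane) : pt p b (cx p b z) (cy p b z) = z := by
  have := b.sum_repr' (z - p)
  rw [Fin.sum_univ_two] at this
  rw [pt, cx, cy, this]
  abel

lemma norm_sq_comb (x y : ℝ) : ‖x • b 0 + y • b 1‖ ^ 2 = x ^ 2 + y ^ 2 := by
  rw [← real_inner_self_eq_norm_sq]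
  simp only [inner_add_right, inner_add_left, inner_smul_right, inner_smul_left, inner00 b,
    inner01 b, inner10 b, inner11 b]
  simp
  ring

lemma dist_sq_pt (x y x' y' : ℝ) :
    dist (pt p b x y) (pt p b x' y') ^ 2 = (x - x') ^ 2 + (y - y') ^ 2 := by
  rw [dist_eq_norm, ← norm_sq_comb b]
  congr 2
  simp only [pt, sub_smul]
  abel

lemma dist_sq_eq (z z' : Plane) :
    dist z z' ^ 2 = (cx p b z - cx p b z') ^ 2 + (cy p b z - cy p b z') ^ 2 := by
  conv_lhs => rw [← pt_c p b z, ← pt_c p b z']
  exact dist_sq_pt p b _ _ _ _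

lemma continuous_pt : Continuous fun w : ℝ × ℝ => pt p b w.1 w.2 := by
  unfold pt; fun_prop

lemma continuous_cx : Continuous (cx p b) := by
  unfold cx; fun_prop

lemma continuous_cy : Continuous (cy p b) := by
  unfold cy; fun_prop

/-- the frame as a measurable equivalence -/
noncomputable def ptEquiv : ℝ × ℝ ≃ᵐ Plane where
  toFun w := pt p b w.1 w.2
  invFun z := (cx p b z, cy p b z)
  left_inv w := by simp
  right_inv z := pt_c p b z
  measurable_toFun := (continuous_pt p b).measurable
  measurable_invFun := ((continuous_cx p b).prodMk (continuous_cy p b)).measurable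

lemma measurePreserving_pt :
    MeasurePreserving (fun w : ℝ × ℝ => pt p b w.1 w.2) volume volume := by
  have h1 := (volume_preserving_finTwoArrow ℝ).symm
  have h2 := PiLp.volume_preserving_toLp (ι := Fin 2)
  have h3 := b.measurePreserving_repr_symm
  have h4 := measurePreserving_add_left (volume : Measure Plane) p
  have h5 := h4.comp (h3.comp (h2.comp h1))
  have e : (fun w : ℝ × ℝ => pt p b w.1 w.2) =
      (fun x => p + x) ∘ ⇑b.repr.symm ∘ WithLp.toLp 2 ∘ ⇑MeasurableEquiv.finTwoArrow.symm := by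
    funext w
    simp only [Function.comp_apply, pt]
    rw [← b.sum_repr_symm, Fin.sum_univ_two]
    simp [MeasurableEquiv.finTwoArrow]
  rw [e]
  exact h5

lemma measurePreserving_ptEquiv : MeasurePreserving (ptEquiv p b) volume volume :=
  measurePreserving_pt p b

/-- the norm of a linear form in terms of its values on the frame -/
lemma norm_sq_form (L : Plane →L[ℝ] ℝ) : ‖L‖ ^ 2 = L (b 0) ^ 2 + L (b 1) ^ 2 := by
  set v := (InnerProductSpace.toDual ℝ Plane).symm L with hv
  have h1 : ‖L‖ = ‖v‖ := by rw [hv, LinearIsometryEquiv.norm_map]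
  have h2 : ∀ w, L w = ⟪v, w⟫ := by
    intro w
    rw [hv, InnerProductSpace.toDual_symm_apply]
  rw [h1, h2, h2]
  conv_lhs => rw [← pt_c 0 b v, pt, zero_add, norm_sq_comb b]
  simp only [cx, cy, sub_zero]
  rw [real_inner_comm, real_inner_comm v]

/-- `Ω` is the region between the graphs of `f` and `g` over `(0, 1)` in the frame `(p, b)`. -/
structure IsGraph (Ω : Set Plane) (p : Plane) (b : OrthonormalBasis (Fin 2) ℝ Plane)
    (f g : ℝ → ℝ) : Prop where
  mem_iff : ∀ x y, pt p b x y ∈ Ω ↔ (0 < x ∧ x < 1) ∧ (f x < y ∧ y < g x)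
  lt : ∀ x, 0 < x → x < 1 → f x < g x

variable {p b}

lemma IsGraph.fubini {Ω : Set Plane} {f g : ℝ → ℝ} (h : IsGraph Ω p b f g)
    (hΩ : MeasurableSet Ω) {F : Plane → ℝ} (hF : IntegrableOn F Ω) :
    IntervalIntegrable (fun x => ∫ y in (f x)..(g x), F (pt p b x y)) volume 0 1 ∧
      ∫ z in Ω, F z = ∫ x in (0 : ℝ)..1, ∫ y in (f x)..(g x), F (pt p b x y) := by
  set O : Set (ℝ × ℝ) := ptEquiv p b ⁻¹' Ω with hO
  have hOm : MeasurableSet O := (ptEquiv p b).measurable hΩ
  set G : ℝ × ℝ → ℝ := fun w => F (pt p b w.1 w.2) with hG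
  have hGi : IntegrableOn G O := by
    have := (measurePreserving_ptEquiv p b).integrableOn_comp_preimage
      (ptEquiv p b).measurableEmbedding (f := F) (s := Ω)
    exact this.mpr hF
  have hGi2 : Integrable (O.indicator G) (volume.prod volume) := by
    rw [integrable_indicator_iff hOm]
    exact hGi
  have hin : ∀ x, ∫ y, O.indicator G (x, y) =
      (Ioc (0 : ℝ) 1).indicator (fun x => if x = 1 then 0 else
        ∫ y in (f x)..(g x), F (pt p b x y)) x := by
    intro x
    have hmem : ∀ y, (x, y) ∈ O ↔ (0 < x ∧ x < 1) ∧ (f x < y ∧ y < g x) :=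
      fun y => h.mem_iff x y
    by_cases hx : 0 < x ∧ x < 1
    · have hx1 : x ∈ Ioc (0 : ℝ) 1 := ⟨hx.1, hx.2.le⟩
      rw [indicator_of_mem hx1, if_neg hx.2.ne, intervalIntegral.integral_of_le
        (h.lt x hx.1 hx.2).le, integral_Ioc_eq_integral_Ioo, ← integral_indicator measurableSet_Ioo]
      congr 1
      ext y
      by_cases hy : f x < y ∧ y < g x
      · rw [indicator_of_mem ((hmem y).mpr ⟨hx, hy⟩), indicator_of_mem (show y ∈ Ioo _ _ from hy)]
      · rw [indicator_of_notMem (fun h' => hy ((hmem y).mp h').2),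
          indicator_of_notMem (show y ∉ Ioo _ _ from hy)]
    · have h0 : ∀ y, O.indicator G (x, y) = 0 := fun y =>
        indicator_of_notMem (fun h' => hx ((hmem y).mp h').1) _
      simp only [h0, integral_zero]
      by_cases hx1 : x ∈ Ioc (0 : ℝ) 1
      · rw [indicator_of_mem hx1, if_pos]
        by_contra hne
        exact hx ⟨hx1.1, lt_of_le_of_ne hx1.2 hne⟩
      · rw [indicator_of_notMem hx1]
  have hae : (fun x => if x = 1 then (0 : ℝ) else ∫ y in (f x)..(g x), F (pt p b x y))
      =ᵐ[volume.restrict (Ioc (0 : ℝ) 1)] fun x => ∫ y in (f x)..(g x), F (pt p b x y) := by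
    have : ∀ᵐ x ∂(volume : Measure ℝ), x ≠ 1 := Measure.ae_ne volume 1
    filter_upwards [ae_restrict_of_ae this] with x hx
    rw [if_neg hx]
  constructor
  · rw [intervalIntegrable_iff_integrableOn_Ioc_of_le zero_le_one]
    have h1 := hGi2.integral_prod_left
    simp only [hin] at h1
    rw [integrable_indicator_iff measurableSet_Ioc] at h1
    exact (integrable_congr hae).mp h1
  · have e1 : ∫ z in Ω, F z = ∫ w in O, G w := by
      rw [← (measurePreserving_ptEquiv p b).setIntegral_preimage_emb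
        (ptEquiv p b).measurableEmbedding]
      rfl
    rw [e1, ← integral_indicator hOm, Measure.volume_eq_prod, integral_prod _ hGi2]
    simp only [hin]
    rw [integral_indicator measurableSet_Ioc, integral_congr_ae hae,
      ← intervalIntegral.integral_of_le zero_le_one]

end Pool.Agent.MP_e32423_an
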