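import Pool.Agent.Lib.MP_e32423_an.Fiber
import Pool.Agent.Lib.MP_e32423_an.Frame

/-!
Averages over fibres of a `C¹` function.
-/

namespace Pool.Agent.MP_e32423_an

open MeasureTheory Set Filter
open scoped Topology RealInnerProductSpace NNReal

/-- clamp to `[δ, 1 - δ]` -/
noncomputable def cl (δ x : ℝ) : ℝ := max δ (min x (1 - δ))

lemma cl_lip (δ : ℝ) : LipschitzWith 1 (cl δ) := by
  unfold cl
  exact (LipschitzWith.id.min_const (1 - δ)).const_max δ

lemma cl_of_mem {δ x : ℝ} (h1 : δ ≤ x) (h2 : x ≤ 1 - δ) : cl δ x = x := by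
  unfold cl
  rw [min_eq_left h2, max_eq_right h1]

lemma cl_mem {δ : ℝ} (hδ : δ ≤ 1 - δ) (x : ℝ) : δ ≤ cl δ x ∧ cl δ x ≤ 1 - δ :=
  ⟨le_max_left _ _, max_le hδ (min_le_right _ _)⟩

/-- fibre average -/
noncomputable def avg (p : Plane) (b : OrthonormalBasis (Fin 2) ℝ Plane) (δ : ℝ) (F G : ℝ → ℝ)
    (u : Plane → ℝ) (x : ℝ) : ℝ :=
  ∫ t in (0 : ℝ)..1, u (pt p b (cl δ x) (F x + (G x - F x) * t))

section

variable {p : Plane} {b : OrthonormalBasis (Fin 2) ℝ Plane} {δ : ℝ} {F G : ℝ → ℝ} {s : ℝ≥0}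
  {u : Plane → ℝ}

lemma continuous_fib (hu : Continuous u) (x : ℝ) :
    Continuous fun t : ℝ => u (pt p b (cl δ x) (F x + (G x - F x) * t)) := by
  have : Continuous fun t : ℝ => pt p b (cl δ x) (F x + (G x - F x) * t) := by
    unfold pt; fun_prop
  exact hu.comp this

lemma avg_add {v : Plane → ℝ} (hu : Continuous u) (hv : Continuous v) (x : ℝ) :
    avg p b δ F G (u + v) x = avg p b δ F G u x + avg p b δ F G v x := by
  unfold avg
  rw [← intervalIntegral.integral_add ((continuous_fib hu x).intervalIntegrable 0 1)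
    ((continuous_fib hv x).intervalIntegrable 0 1)]
  rfl

lemma avg_smul (c : ℝ) (x : ℝ) :
    avg p b δ F G (c • u) x = c * avg p b δ F G u x := by
  unfold avg
  rw [← intervalIntegral.integral_const_mul]
  rfl

lemma avg_mul {x : ℝ} (hFG : F x < G x) :
    (G x - F x) * avg p b δ F G u x = ∫ y in (F x)..(G x), u (pt p b (cl δ x) y) := by
  unfold avg
  have h1 := intervalIntegral.integral_comp_add_mul (a := 0) (b := 1)
    (fun y => u (pt p b (cl δ x) y)) (sub_pos.mpr hFG).ne' (F x)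
  rw [h1]
  have e0 : F x + (G x - F x) * 0 = F x := by ring
  have e1 : F x + (G x - F x) * 1 = G x := by ring
  rw [e0, e1, smul_eq_mul, ← mul_assoc, mul_inv_cancel₀ (sub_pos.mpr hFG).ne', one_mul]

lemma dist_pt_le (x y x' y' : ℝ) :
    dist (pt p b x y) (pt p b x' y') ≤ |x - x'| + |y - y'| := by
  have h1 := dist_sq_pt p b x y x' y'
  have h2 : dist (pt p b x y) (pt p b x' y') ^ 2 ≤ (|x - x'| + |y - y'|) ^ 2 := by
    rw [h1]
    have := mul_nonneg (abs_nonneg (x - x')) (abs_nonneg (y - y'))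
    nlinarith [sq_abs (x - x'), sq_abs (y - y')]
  exact (pow_le_pow_iff_left₀ dist_nonneg (by positivity) (by norm_num)).mp h2

/-- the integrands are uniformly Lipschitz -/
lemma exists_lip (hu : ContDiff ℝ 1 u) (hδ0 : 0 < δ) (hδ : δ ≤ 1 - δ) (hF : LipschitzWith s F)
    (hG : LipschitzWith s G) (hFb : ∀ x, |F x| ≤ 1) (hGb : ∀ x, |G x| ≤ 1) :
    ∃ K : ℝ≥0, ∀ t ∈ Icc (0 : ℝ) 1,
      LipschitzWith K fun x => u (pt p b (cl δ x) (F x + (G x - F x) * t)) := by
  obtain ⟨K, hK⟩ := (hu.locallyLipschitz.locallyLipschitzOn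
    (s := Metric.closedBall p 5)).exists_lipschitzOnWith_of_compact (isCompact_closedBall p 5)
  refine ⟨K * (1 + s), fun t ht => LipschitzWith.of_dist_le_mul fun x y => ?_⟩
  have hmem : ∀ x, pt p b (cl δ x) (F x + (G x - F x) * t) ∈ Metric.closedBall p 5 := by
    intro x
    rw [Metric.mem_closedBall]
    have h1 := dist_pt_le (p := p) (b := b) (cl δ x) (F x + (G x - F x) * t) 0 0
    rw [show pt p b 0 0 = p by simp [pt]] at h1
    have h2 := cl_mem hδ x
    have h3 : |cl δ x - 0| ≤ 1 := by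
      rw [sub_zero, abs_le]
      constructor <;> linarith [h2.1, h2.2]
    have h4 : |F x + (G x - F x) * t - 0| ≤ 3 := by
      have hf := abs_le.mp (hFb x)
      have hg := abs_le.mp (hGb x)
      rw [sub_zero, abs_le]
      constructor <;> nlinarith [ht.1, ht.2, hf.1, hf.2, hg.1, hg.2]
    linarith
  have h1 := hK.dist_le_mul _ (hmem x) _ (hmem y)
  refine h1.trans ?_
  have h2 := dist_pt_le (p := p) (b := b) (cl δ x) (F x + (G x - F x) * t) (cl δ y)
    (F y + (G y - F y) * t)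
  have h3 := (cl_lip δ).dist_le_mul x y
  rw [Real.dist_eq, NNReal.coe_one, one_mul, Real.dist_eq] at h3
  have hf := hF.dist_le_mul x y
  have hg := hG.dist_le_mul x y
  rw [Real.dist_eq, Real.dist_eq] at hf hg
  have h4 : |F x + (G x - F x) * t - (F y + (G y - F y) * t)| ≤ s * |x - y| := by
    have e : F x + (G x - F x) * t - (F y + (G y - F y) * t)
        = (1 - t) * (F x - F y) + t * (G x - G y) := by ring
    rw [e]
    refine (abs_add_le _ _).trans ?_
    rw [abs_mul, abs_mul, abs_of_nonneg ht.1, abs_of_nonneg (by linarith [ht.2] : 0 ≤ 1 - t)]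
    nlinarith [ht.1, ht.2, mul_le_mul_of_nonneg_left hf (by linarith [ht.2] : 0 ≤ 1 - t),
      mul_le_mul_of_nonneg_left hg ht.1]
  push_cast
  rw [Real.dist_eq, mul_assoc]
  apply mul_le_mul_of_nonneg_left _ K.2
  linarith

lemma avg_lip (hu : ContDiff ℝ 1 u) (hδ0 : 0 < δ) (hδ : δ ≤ 1 - δ) (hF : LipschitzWith s F)
    (hG : LipschitzWith s G) (hFb : ∀ x, |F x| ≤ 1) (hGb : ∀ x, |G x| ≤ 1) :
    Lip (avg p b δ F G u) := by
  obtain ⟨K, hK⟩ := exists_lip (p := p) (b := b) hu hδ0 hδ hF hG hFb hGb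
  refine ⟨K, LipschitzWith.of_dist_le_mul fun x y => ?_⟩
  rw [Real.dist_eq]
  unfold avg
  rw [← intervalIntegral.integral_sub ((continuous_fib hu.continuous x).intervalIntegrable 0 1)
    ((continuous_fib hu.continuous y).intervalIntegrable 0 1)]
  have h1 : ∀ t ∈ uIoc (0 : ℝ) 1, ‖u (pt p b (cl δ x) (F x + (G x - F x) * t))
      - u (pt p b (cl δ y) (F y + (G y - F y) * t))‖ ≤ K * dist x y := by
    intro t ht
    rw [uIoc_of_le zero_le_one] at ht
    have := (hK t ⟨ht.1.le, ht.2⟩).dist_le_mul x y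
    rwa [Real.dist_eq] at this
  have h2 := intervalIntegral.norm_integral_le_of_norm_le_const h1
  simpa using h2

/-- The derivative of the average. -/
lemma avg_hasDerivAt (hu : ContDiff ℝ 1 u) (hδ0 : 0 < δ) (hδ : δ ≤ 1 - δ)
    (hF : LipschitzWith s F) (hG : LipschitzWith s G) (hFb : ∀ x, |F x| ≤ 1)
    (hGb : ∀ x, |G x| ≤ 1) {x F' G' : ℝ} (hx : x ∈ Ioo δ (1 - δ)) (hF' : HasDerivAt F F' x)
    (hG' : HasDerivAt G G' x) :
    HasDerivAt (avg p b δ F G u)
      (∫ t in (0 : ℝ)..1, (fderiv ℝ u (pt p b x (F x + (G x - F x) * t)) (b 0) +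
        (F' + (G' - F') * t) * fderiv ℝ u (pt p b x (F x + (G x - F x) * t)) (b 1))) x := by
  obtain ⟨K, hK⟩ := exists_lip (p := p) (b := b) hu hδ0 hδ hF hG hFb hGb
  have hclx : cl δ x = x := cl_of_mem hx.1.le hx.2.le
  have hcld : HasDerivAt (cl δ) 1 x := by
    have he : cl δ =ᶠ[𝓝 x] fun y => y := by
      filter_upwards [isOpen_Ioo.mem_nhds hx] with y hy
      exact cl_of_mem hy.1.le hy.2.le
    exact (hasDerivAt_id x).congr_of_eventuallyEq he
  have hfd : Continuous fun z => fderiv ℝ u z := hu.continuous_fderiv (by norm_num)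
  have hpt : Continuous fun t : ℝ => pt p b x (F x + (G x - F x) * t) := by
    unfold pt; fun_prop
  have hc0 : Continuous fun t : ℝ => fderiv ℝ u (pt p b x (F x + (G x - F x) * t)) (b 0) :=
    (hfd.comp hpt).clm_apply continuous_const
  have hc1 : Continuous fun t : ℝ => fderiv ℝ u (pt p b x (F x + (G x - F x) * t)) (b 1) :=
    (hfd.comp hpt).clm_apply continuous_const
  refine (intervalIntegral.hasDerivAt_integral_of_dominated_loc_of_lip (s := univ)
    (bound := fun _ => (K : ℝ)) univ_mem ?_ ?_ ?_ ?_ ?_ ?_).2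
  · filter_upwards with y
    exact (continuous_fib hu.continuous y).aestronglyMeasurable
  · exact (continuous_fib hu.continuous x).intervalIntegrable 0 1
  · apply Continuous.aestronglyMeasurable
    fun_prop
  · filter_upwards with t ht
    rw [uIoc_of_le zero_le_one] at ht
    have h1 : Real.nnabs (K : ℝ) = K := by
      ext
      simp
    rw [h1]
    exact (hK t ⟨ht.1.le, ht.2⟩).lipschitzOnWith
  · exact intervalIntegrable_const
  · filter_upwards with t ht
    have h1 : HasDerivAt (fun y => pt p b (cl δ y) (F y + (G y - F y) * t))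
        ((1 : ℝ) • b 0 + (F' + (G' - F') * t) • b 1) x := by
      unfold pt
      exact ((hcld.smul_const (b 0)).add ((hF'.add ((hG'.sub hF').mul_const t)).smul_const
        (b 1))).const_add p
    have h2 : HasFDerivAt u (fderiv ℝ u (pt p b (cl δ x) (F x + (G x - F x) * t)))
        (pt p b (cl δ x) (F x + (G x - F x) * t)) :=
      (hu.differentiable (by norm_num) _).hasFDerivAt
    have h3 := h2.comp_hasDerivAt x h1
    rw [hclx] at h3
    simpa [Function.comp_def] using h3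

/-- The kinetic inequality on a fibre. -/
lemma avg_deriv_le (hu : ContDiff ℝ 1 u) (hδ0 : 0 < δ) (hδ : δ ≤ 1 - δ)
    (hF : LipschitzWith s F) (hG : LipschitzWith s G) (hFb : ∀ x, |F x| ≤ 1)
    (hGb : ∀ x, |G x| ≤ 1) {x : ℝ} (hx : x ∈ Ioo δ (1 - δ)) (hFG : F x < G x)
    (hFd : DifferentiableAt ℝ F x) (hGd : DifferentiableAt ℝ G x) {η : ℝ} (hη : 0 < η) :
    (G x - F x) * (deriv (avg p b δ F G u) x) ^ 2 ≤
      (1 + η) * (∫ y in (F x)..(G x), fderiv ℝ u (pt p b x y) (b 0) ^ 2) +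
      (1 + 1 / η) * (s : ℝ) ^ 2 * (∫ y in (F x)..(G x), fderiv ℝ u (pt p b x y) (b 1) ^ 2) := by
  have hd := avg_hasDerivAt (p := p) (b := b) hu hδ0 hδ hF hG hFb hGb hx hFd.hasDerivAt
    hGd.hasDerivAt
  rw [hd.deriv]
  set F' := deriv F x with hF'
  set G' := deriv G x with hG'
  have hF's : |F'| ≤ s := norm_deriv_le_of_lipschitz hF
  have hG's : |G'| ≤ s := norm_deriv_le_of_lipschitz hG
  have hfd : Continuous fun z => fderiv ℝ u z := hu.continuous_fderiv (by norm_num)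
  have hpt : Continuous fun t : ℝ => pt p b x (F x + (G x - F x) * t) := by
    unfold pt; fun_prop
  have hc0 : Continuous fun t : ℝ => fderiv ℝ u (pt p b x (F x + (G x - F x) * t)) (b 0) :=
    (hfd.comp hpt).clm_apply continuous_const
  have hc1 : Continuous fun t : ℝ => fderiv ℝ u (pt p b x (F x + (G x - F x) * t)) (b 1) :=
    (hfd.comp hpt).clm_apply continuous_const
  set A : ℝ → ℝ := fun t => fderiv ℝ u (pt p b x (F x + (G x - F x) * t)) (b 0) with hA
  set B : ℝ → ℝ := fun t => fderiv ℝ u (pt p b x (F x + (G x - F x) * t)) (b 1) with hB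
  have hcc : Continuous fun t => A t + (F' + (G' - F') * t) * B t := by fun_prop
  have h1 : (∫ t in (0 : ℝ)..1, (A t + (F' + (G' - F') * t) * B t)) ^ 2 ≤
      (1 - 0) * ∫ t in (0 : ℝ)..1, (A t + (F' + (G' - F') * t) * B t) ^ 2 :=
    sq_integral_le zero_le_one (hcc.intervalIntegrable 0 1) ((hcc.pow 2).intervalIntegrable 0 1)
  have h2 : ∫ t in (0 : ℝ)..1, (A t + (F' + (G' - F') * t) * B t) ^ 2 ≤
      ∫ t in (0 : ℝ)..1, ((1 + η) * A t ^ 2 + (1 + 1 / η) * (s : ℝ) ^ 2 * B t ^ 2) := by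
    apply intervalIntegral.integral_mono_on zero_le_one ((hcc.pow 2).intervalIntegrable 0 1)
    · apply Continuous.intervalIntegrable
      fun_prop
    intro t ht
    have hσ : |F' + (G' - F') * t| ≤ s := by
      have e : F' + (G' - F') * t = (1 - t) * F' + t * G' := by ring
      rw [e]
      refine (abs_add_le _ _).trans ?_
      rw [abs_mul, abs_mul, abs_of_nonneg ht.1, abs_of_nonneg (by linarith [ht.2] : 0 ≤ 1 - t)]
      nlinarith [ht.1, ht.2, mul_le_mul_of_nonneg_left hF's (by linarith [ht.2] : 0 ≤ 1 - t),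
        mul_le_mul_of_nonneg_left hG's ht.1]
    set σ := F' + (G' - F') * t with hσdef
    have hσ2 : σ ^ 2 ≤ (s : ℝ) ^ 2 := by
      rw [← sq_abs σ]
      exact pow_le_pow_left₀ (abs_nonneg _) hσ 2
    have h3 : 0 ≤ (η * A t - σ * B t) ^ 2 := sq_nonneg _
    have h4 : 2 * (A t * (σ * B t)) ≤ η * A t ^ 2 + 1 / η * (σ * B t) ^ 2 := by
      have h5 : η * (2 * (A t * (σ * B t))) ≤ η * (η * A t ^ 2 + 1 / η * (σ * B t) ^ 2) := by
        have : η * (η * A t ^ 2 + 1 / η * (σ * B t) ^ 2) = η ^ 2 * A t ^ 2 + (σ * B t) ^ 2 := by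
          field_simp
        rw [this]
        nlinarith
      exact le_of_mul_le_mul_left h5 hη
    have h6 : (1 + 1 / η) * (σ * B t) ^ 2 ≤ (1 + 1 / η) * ((s : ℝ) ^ 2 * B t ^ 2) := by
      apply mul_le_mul_of_nonneg_left _ (by positivity)
      rw [mul_pow]
      exact mul_le_mul_of_nonneg_right hσ2 (sq_nonneg _)
    show (A t + σ * B t) ^ 2 ≤ (1 + η) * A t ^ 2 + (1 + 1 / η) * (s : ℝ) ^ 2 * B t ^ 2
    have e : (A t + σ * B t) ^ 2 = A t ^ 2 + 2 * (A t * (σ * B t)) + (σ * B t) ^ 2 := by ring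
    have e' : (1 + 1 / η) * (σ * B t) ^ 2 = (σ * B t) ^ 2 + 1 / η * (σ * B t) ^ 2 := by ring
    rw [e]
    linarith
  have hw : 0 < G x - F x := sub_pos.mpr hFG
  have e0 : F x + (G x - F x) * 0 = F x := by ring
  have e1 : F x + (G x - F x) * 1 = G x := by ring
  have hAint : (G x - F x) * ∫ t in (0 : ℝ)..1, A t ^ 2
      = ∫ y in (F x)..(G x), fderiv ℝ u (pt p b x y) (b 0) ^ 2 := by
    have h7 := intervalIntegral.integral_comp_add_mul (a := 0) (b := 1)
      (fun y => fderiv ℝ u (pt p b x y) (b 0) ^ 2) hw.ne' (F x)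
    rw [e0, e1] at h7
    simp only [hA]
    rw [h7, smul_eq_mul, ← mul_assoc, mul_inv_cancel₀ hw.ne', one_mul]
  have hBint : (G x - F x) * ∫ t in (0 : ℝ)..1, B t ^ 2
      = ∫ y in (F x)..(G x), fderiv ℝ u (pt p b x y) (b 1) ^ 2 := by
    have h7 := intervalIntegral.integral_comp_add_mul (a := 0) (b := 1)
      (fun y => fderiv ℝ u (pt p b x y) (b 1) ^ 2) hw.ne' (F x)
    rw [e0, e1] at h7
    simp only [hB]
    rw [h7, smul_eq_mul, ← mul_assoc, mul_inv_cancel₀ hw.ne', one_mul]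
  have h8 : ∫ t in (0 : ℝ)..1, ((1 + η) * A t ^ 2 + (1 + 1 / η) * (s : ℝ) ^ 2 * B t ^ 2)
      = (1 + η) * (∫ t in (0 : ℝ)..1, A t ^ 2) +
        (1 + 1 / η) * (s : ℝ) ^ 2 * (∫ t in (0 : ℝ)..1, B t ^ 2) := by
    rw [intervalIntegral.integral_add, intervalIntegral.integral_const_mul,
      intervalIntegral.integral_const_mul]
    · exact ((hc0.pow 2).const_mul _).intervalIntegrable 0 1
    · exact ((hc1.pow 2).const_mul _).intervalIntegrable 0 1
  rw [← hAint, ← hBint]
  rw [h8] at h2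
  rw [sub_zero, one_mul] at h1
  have h9 := mul_le_mul_of_nonneg_left (h1.trans h2) hw.le
  refine h9.trans (le_of_eq ?_)
  ring

end

end Pool.Agent.MP_e32423_an
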