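import Pool.Agent.Lib.MP_e32423_an.Thin

/-!
The boundary of a convex domain in the plane: upper bound for its length by the nearest point
projection, lower bound for boundary integrals by the projection to the first coordinate.
-/

namespace Pool.Agent.MP_e32423_an

open MeasureTheory Set Filter
open scoped Topology RealInnerProductSpace NNReal ENNReal

/-- arc length -/
noncomputable abbrev arc : Measure Plane := Measure.hausdorffMeasure 1

variable {p : Plane} {b : OrthonormalBasis (Fin 2) ℝ Plane} {Ω : Set Plane}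

section Projection

/-- nearest point projections are Lipschitz with constant one -/
lemma exists_projection {C : Set Plane} (hne : C.Nonempty) (hcl : IsClosed C)
    (hconv : Convex ℝ C) :
    ∃ π : Plane → Plane, LipschitzWith 1 π ∧
      ∀ z ∈ C, ∀ w, (∀ a ∈ C, ⟪w - z, a - z⟫ ≤ 0) → π w = z := by
  have h1 : ∀ w : Plane, ∃ c ∈ C, ∀ a ∈ C, ⟪w - c, a - c⟫ ≤ 0 := by
    intro w
    obtain ⟨c, hc, hm⟩ := exists_norm_eq_iInf_of_complete_convex hne hcl.isComplete hconv w
    exact ⟨c, hc, (norm_eq_iInf_iff_real_inner_le_zero hconv hc).mp hm⟩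
  choose π hπC hπ using h1
  have key : ∀ (w w' c c' : Plane), c ∈ C → c' ∈ C → (∀ a ∈ C, ⟪w - c, a - c⟫ ≤ 0) →
      (∀ a ∈ C, ⟪w' - c', a - c'⟫ ≤ 0) → ‖c - c'‖ ^ 2 ≤ ⟪w - w', c - c'⟫ := by
    intro w w' c c' hc hc' h h'
    have h2 := h c' hc'
    have h3 := h' c hc
    have e1 : ⟪w - c, c' - c⟫ + ⟪w' - c', c - c'⟫ = ‖c - c'‖ ^ 2 - ⟪w - w', c - c'⟫ := by
      rw [← real_inner_self_eq_norm_sq]
      simp only [inner_sub_left, inner_sub_right]
      ring
    linarith
  refine ⟨π, LipschitzWith.of_dist_le_mul fun w w' => ?_, ?_⟩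
  · have h2 := key w w' _ _ (hπC w) (hπC w') (hπ w) (hπ w')
    have h3 := real_inner_le_norm (w - w') (π w - π w')
    rw [NNReal.coe_one, one_mul, dist_eq_norm, dist_eq_norm]
    have h4 := norm_nonneg (π w - π w')
    have h5 := norm_nonneg (w - w')
    nlinarith
  · intro z hz w hw
    have h2 := key w w _ _ (hπC w) hz (hπ w) hw
    rw [sub_self, inner_zero_left] at h2
    have h3 : ‖π w - z‖ = 0 := by
      have := norm_nonneg (π w - z)
      nlinarith
    exact sub_eq_zero.mp (norm_eq_zero.mp h3)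

lemma exists_normal (hconv : Convex ℝ Ω) (hopen : IsOpen Ω) (hne : Ω.Nonempty) {z : Plane}
    (hz : z ∉ Ω) : ∃ v : Plane, v ≠ 0 ∧ ∀ a ∈ closure Ω, ⟪v, a - z⟫ ≤ 0 := by
  obtain ⟨L, hL⟩ := geometric_hahn_banach_open_point hconv hopen hz
  set v := (InnerProductSpace.toDual ℝ Plane).symm L with hv
  have h2 : ∀ w, L w = ⟪v, w⟫ := by
    intro w
    rw [hv, InnerProductSpace.toDual_symm_apply]
  refine ⟨v, ?_, ?_⟩
  · intro h0
    obtain ⟨a, ha⟩ := hne
    have := hL a ha
    rw [h2, h2, h0] at this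
    simp at this
  · intro a ha
    have hcl : IsClosed {a : Plane | ⟪v, a - z⟫ ≤ 0} := by
      apply isClosed_le _ continuous_const
      fun_prop
    refine closure_minimal ?_ hcl ha
    intro a ha
    have := hL a ha
    rw [h2, h2] at this
    simp only [mem_ofPred_eq, inner_sub_right]
    linarith

/-- exit time of a line from an interval -/
lemma exit_time {l u x v : ℝ} (hl : l ≤ x) (hu : x ≤ u) (hv : v ≠ 0) :
    ∃ t, 0 ≤ t ∧ (x + t * v = l ∨ x + t * v = u) ∧
      ∀ s, 0 ≤ s → s ≤ t → l ≤ x + s * v ∧ x + s * v ≤ u := by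
  rcases lt_or_gt_of_ne hv with h | h
  · refine ⟨(x - l) / (-v), div_nonneg (by linarith) (by linarith), Or.inl ?_, ?_⟩
    · field_simp
      ring
    · intro s hs hst
      rw [le_div_iff₀ (by linarith)] at hst
      constructor <;> nlinarith
  · refine ⟨(u - x) / v, div_nonneg (by linarith) h.le, Or.inr ?_, ?_⟩
    · field_simp
      ring
    · intro s hs hst
      rw [le_div_iff₀ h] at hst
      constructor <;> nlinarith

/-- a ray from a point of a rectangle meets its boundary -/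
lemma exit_rect {W x y v₁ v₂ : ℝ} (hx0 : 0 ≤ x) (hx1 : x ≤ 1) (hy0 : -W ≤ y) (hy1 : y ≤ W)
    (hv : v₁ ≠ 0 ∨ v₂ ≠ 0) :
    ∃ t, 0 ≤ t ∧ (((x + t * v₁ = 0 ∨ x + t * v₁ = 1) ∧ -W ≤ y + t * v₂ ∧ y + t * v₂ ≤ W) ∨
      ((y + t * v₂ = -W ∨ y + t * v₂ = W) ∧ 0 ≤ x + t * v₁ ∧ x + t * v₁ ≤ 1)) := by
  by_cases h1 : v₁ = 0
  · have h2 : v₂ ≠ 0 := by
      rcases hv with h | h
      · exact absurd h1 h
      · exact h
    obtain ⟨t, ht0, ht1, ht2⟩ := exit_time hy0 hy1 h2
    refine ⟨t, ht0, Or.inr ⟨ht1, ?_⟩⟩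
    rw [h1, mul_zero, add_zero]
    exact ⟨hx0, hx1⟩
  · obtain ⟨t, ht0, ht1, ht2⟩ := exit_time hx0 hx1 h1
    by_cases h2 : v₂ = 0
    · refine ⟨t, ht0, Or.inl ⟨ht1, ?_⟩⟩
      rw [h2, mul_zero, add_zero]
      exact ⟨hy0, hy1⟩
    · obtain ⟨s, hs0, hs1, hs2⟩ := exit_time hy0 hy1 h2
      rcases le_total t s with hts | hst
      · exact ⟨t, ht0, Or.inl ⟨ht1, hs2 t ht0 hts⟩⟩
      · exact ⟨s, hs0, Or.inr ⟨hs1, ht2 s hs0 hst⟩⟩

/-- the sides of a rectangle -/
def rectSides (p : Plane) (b : OrthonormalBasis (Fin 2) ℝ Plane) (W : ℝ) : Set Plane :=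
  (segment ℝ (pt p b 0 (-W)) (pt p b 0 W) ∪ segment ℝ (pt p b 1 (-W)) (pt p b 1 W)) ∪
    (segment ℝ (pt p b 0 (-W)) (pt p b 1 (-W)) ∪ segment ℝ (pt p b 0 W) (pt p b 1 W))

lemma mem_seg_vert {x y W : ℝ} (hW : 0 < W) (h1 : -W ≤ y) (h2 : y ≤ W) :
    pt p b x y ∈ segment ℝ (pt p b x (-W)) (pt p b x W) := by
  refine ⟨(W - y) / (2 * W), (W + y) / (2 * W), div_nonneg (by linarith) (by linarith),
    div_nonneg (by linarith) (by linarith), ?_, ?_⟩
  · field_simp; ring
  · rw [pt_comb _ _ _ _ _ _ (by field_simp; ring)]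
    congr 1
    · field_simp; ring
    · field_simp; ring

lemma mem_seg_hor {x y : ℝ} (h1 : 0 ≤ x) (h2 : x ≤ 1) :
    pt p b x y ∈ segment ℝ (pt p b 0 y) (pt p b 1 y) := by
  refine ⟨1 - x, x, by linarith, h1, by ring, ?_⟩
  rw [pt_comb _ _ _ _ _ _ (by ring)]
  congr 1 <;> ring

lemma arc_rectSides_le {W : ℝ} (hW : 0 < W) :
    arc (rectSides p b W) ≤ ENNReal.ofReal (2 + 4 * W) := by
  have hd1 : ∀ x, edist (pt p b x (-W)) (pt p b x W) = ENNReal.ofReal (2 * W) := by
    intro x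
    rw [edist_dist]
    congr 1
    have h1 := dist_sq_pt p b x (-W) x W
    have h2 : dist (pt p b x (-W)) (pt p b x W) ^ 2 = (2 * W) ^ 2 := by rw [h1]; ring
    exact (pow_left_inj₀ dist_nonneg (by linarith) (by norm_num)).mp h2
  have hd2 : ∀ y, edist (pt p b 0 y) (pt p b 1 y) = ENNReal.ofReal 1 := by
    intro y
    rw [edist_dist]
    congr 1
    have h1 := dist_sq_pt p b 0 y 1 y
    have h2 : dist (pt p b 0 y) (pt p b 1 y) ^ 2 = 1 ^ 2 := by rw [h1]; ring
    exact (pow_left_inj₀ dist_nonneg (by norm_num) (by norm_num)).mp h2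
  have h1 : arc (rectSides p b W) ≤ (ENNReal.ofReal (2 * W) + ENNReal.ofReal (2 * W)) +
      (ENNReal.ofReal 1 + ENNReal.ofReal 1) := by
    unfold rectSides
    refine (measure_union_le _ _).trans (add_le_add ?_ ?_)
    · refine (measure_union_le _ _).trans (add_le_add ?_ ?_)
      · rw [hausdorffMeasure_segment, hd1]
      · rw [hausdorffMeasure_segment, hd1]
    · refine (measure_union_le _ _).trans (add_le_add ?_ ?_)
      · rw [hausdorffMeasure_segment, hd2]
      · rw [hausdorffMeasure_segment, hd2]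
  refine h1.trans (le_of_eq ?_)
  rw [← ENNReal.ofReal_add (by linarith) (by linarith), ← ENNReal.ofReal_add zero_le_one
    zero_le_one, ← ENNReal.ofReal_add (by linarith) (by norm_num)]
  congr 1
  ring

/-- The boundary of a convex domain inside a rectangle is not longer than that of the
rectangle. -/
lemma arc_frontier_le (hconv : Convex ℝ Ω) (hopen : IsOpen Ω) (hne : Ω.Nonempty) {W : ℝ}
    (hW : 0 < W) (hR : ∀ z ∈ Ω, (0 ≤ cx p b z ∧ cx p b z ≤ 1) ∧ (-W ≤ cy p b z ∧ cy p b z ≤ W)) :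
    arc (frontier Ω) ≤ ENNReal.ofReal (2 + 4 * W) := by
  have hRc : ∀ z ∈ closure Ω,
      (0 ≤ cx p b z ∧ cx p b z ≤ 1) ∧ (-W ≤ cy p b z ∧ cy p b z ≤ W) := by
    intro z hz
    have hcl : IsClosed {z : Plane | (0 ≤ cx p b z ∧ cx p b z ≤ 1) ∧
        (-W ≤ cy p b z ∧ cy p b z ≤ W)} := by
      have c1 := continuous_cx p b
      have c2 := continuous_cy p b
      exact ((isClosed_le continuous_const c1).inter (isClosed_le c1 continuous_const)).inter
        ((isClosed_le continuous_const c2).inter (isClosed_le c2 continuous_const))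
    exact closure_minimal (fun z hz => hR z hz) hcl hz
  obtain ⟨π, hπ, hπ2⟩ := exists_projection hne.closure isClosed_closure hconv.closure
  have hsub : frontier Ω ⊆ π '' rectSides p b W := by
    intro z hz
    have hzc : z ∈ closure Ω := frontier_subset_closure hz
    have hzΩ : z ∉ Ω := by
      rw [hopen.frontier_eq] at hz
      exact hz.2
    obtain ⟨v, hv0, hv⟩ := exists_normal hconv hopen hne hzΩ
    set v₁ := ⟪b 0, v⟫ with hv₁
    set v₂ := ⟪b 1, v⟫ with hv₂
    have hvv : v = v₁ • b 0 + v₂ • b 1 := by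
      have := pt_c 0 b v
      rw [pt, zero_add] at this
      simp only [cx, cy, sub_zero] at this
      exact this.symm
    have hne' : v₁ ≠ 0 ∨ v₂ ≠ 0 := by
      by_contra hcon
      push Not at hcon
      apply hv0
      rw [hvv, hcon.1, hcon.2]
      simp
    have hr := hRc z hzc
    obtain ⟨t, ht0, ht⟩ := exit_rect hr.1.1 hr.1.2 hr.2.1 hr.2.2 hne'
    have hz1 : z + t • v = pt p b (cx p b z + t * v₁) (cy p b z + t * v₂) := by
      conv_lhs => rw [← pt_c p b z, hvv]
      simp only [pt, smul_add, add_smul, smul_smul]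
      abel
    refine ⟨z + t • v, ?_, ?_⟩
    · rw [hz1]
      rcases ht with ⟨h1 | h1, h2, h3⟩ | ⟨h1 | h1, h2, h3⟩
      · rw [h1]; exact Or.inl (Or.inl (mem_seg_vert hW h2 h3))
      · rw [h1]; exact Or.inl (Or.inr (mem_seg_vert hW h2 h3))
      · rw [h1]; exact Or.inr (Or.inl (mem_seg_hor h2 h3))
      · rw [h1]; exact Or.inr (Or.inr (mem_seg_hor h2 h3))
    · apply hπ2 z hzc
      intro a ha
      have e : z + t • v - z = t • v := by abel
      rw [e, inner_smul_left]
      exact mul_nonpos_of_nonneg_of_nonpos ht0 (hv a ha)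
  calc arc (frontier Ω) ≤ arc (π '' rectSides p b W) := measure_mono hsub
    _ ≤ ((1 : ℝ≥0) : ℝ≥0∞) ^ (1 : ℝ) * arc (rectSides p b W) :=
        hπ.hausdorffMeasure_image_le zero_le_one _
    _ ≤ ENNReal.ofReal (2 + 4 * W) := by
        simp only [ENNReal.coe_one, ENNReal.one_rpow, one_mul]
        exact arc_rectSides_le hW

end Projection

end Pool.Agent.MP_e32423_an
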