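import Pool.Agent.Lib.MP_e32423_an.Boundary

/-!
Lower bound for boundary integrals of a domain between two graphs.
-/

namespace Pool.Agent.MP_e32423_an

open MeasureTheory Set Filter
open scoped Topology RealInnerProductSpace NNReal ENNReal

variable {p : Plane} {b : OrthonormalBasis (Fin 2) ℝ Plane} {Ω : Set Plane} {f g : ℝ → ℝ}

lemma lipschitz_cx (p : Plane) (b : OrthonormalBasis (Fin 2) ℝ Plane) :
    LipschitzWith 1 (cx p b) := by
  refine LipschitzWith.of_dist_le_mul fun z z' => ?_
  rw [NNReal.coe_one, one_mul, Real.dist_eq]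
  have h := dist_sq_eq p b z z'
  have h2 : |cx p b z - cx p b z'| ^ 2 ≤ dist z z' ^ 2 := by
    rw [sq_abs, h]
    nlinarith [sq_nonneg (cy p b z - cy p b z')]
  exact (pow_le_pow_iff_left₀ (abs_nonneg _) dist_nonneg (by norm_num)).mp h2

/-- projecting a curve over a set of first coordinates does not increase length -/
lemma volume_le_arc {γ : ℝ → Plane} (hγ : ∀ x, cx p b (γ x) = x) (X : Set ℝ) :
    volume X ≤ arc (γ '' X) := by
  have h1 : X = cx p b '' (γ '' X) := by
    ext x
    simp only [mem_image, exists_exists_and_eq_and]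
    constructor
    · intro hx
      exact ⟨x, hx, hγ x⟩
    · rintro ⟨y, hy, rfl⟩
      rw [hγ]
      exact hy
  have h2 := (lipschitz_cx p b).hausdorffMeasure_image_le zero_le_one (γ '' X)
  rw [← h1, hausdorffMeasure_real] at h2
  simpa using h2

lemma IsGraph.mem_frontier_g (h : IsGraph Ω p b f g) {x : ℝ} (h0 : 0 < x) (h1 : x < 1) :
    pt p b x (g x) ∈ frontier Ω := by
  refine ⟨?_, ?_⟩
  · have hc : Continuous fun y : ℝ => pt p b x y :=
      (continuous_pt p b).comp (continuous_const.prodMk continuous_id)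
    have hlt := h.lt x h0 h1
    have h2 : g x ∈ closure (Ioo (f x) (g x)) := by
      rw [closure_Ioo hlt.ne]
      exact ⟨hlt.le, le_rfl⟩
    have h3 := (hc.continuousAt.continuousWithinAt (s := Ioo (f x) (g x))).mem_closure_image h2
    refine closure_mono ?_ h3
    rintro z ⟨y, hy, rfl⟩
    exact (h.mem_iff x y).mpr ⟨⟨h0, h1⟩, hy⟩
  · intro hint
    have := (h.mem_iff x (g x)).mp (interior_subset hint)
    exact lt_irrefl _ this.2.2

lemma IsGraph.mem_frontier_f (h : IsGraph Ω p b f g) {x : ℝ} (h0 : 0 < x) (h1 : x < 1) :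
    pt p b x (f x) ∈ frontier Ω := by
  refine ⟨?_, ?_⟩
  · have hc : Continuous fun y : ℝ => pt p b x y :=
      (continuous_pt p b).comp (continuous_const.prodMk continuous_id)
    have hlt := h.lt x h0 h1
    have h2 : f x ∈ closure (Ioo (f x) (g x)) := by
      rw [closure_Ioo hlt.ne]
      exact ⟨le_rfl, hlt.le⟩
    have h3 := (hc.continuousAt.continuousWithinAt (s := Ioo (f x) (g x))).mem_closure_image h2
    refine closure_mono ?_ h3
    rintro z ⟨y, hy, rfl⟩
    exact (h.mem_iff x y).mpr ⟨⟨h0, h1⟩, hy⟩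
  · intro hint
    have := (h.mem_iff x (f x)).mp (interior_subset hint)
    exact lt_irrefl _ this.2.1

lemma continuousOn_curve {f : ℝ → ℝ} (hf : ContinuousOn f (Ioo 0 1)) :
    ContinuousOn (fun x => pt p b x (f x)) (Ioo 0 1) := by
  unfold pt
  fun_prop

/-- Lower bound for boundary integrals. -/
theorem IsGraph.boundary_ge (h : IsGraph Ω p b f g) (hf : ContinuousOn f (Ioo 0 1))
    (hg : ContinuousOn g (Ioo 0 1))
    {F : Plane → ℝ} (hF : Continuous F) (hF0 : ∀ z, 0 ≤ F z) (hFi : IntegrableOn F (frontier Ω) arc) :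
    IntegrableOn (fun x => F (pt p b x (g x))) (Ioo 0 1) ∧
    IntegrableOn (fun x => F (pt p b x (f x))) (Ioo 0 1) ∧
    (∫ x in Ioo (0 : ℝ) 1, F (pt p b x (g x))) + (∫ x in Ioo (0 : ℝ) 1, F (pt p b x (f x)))
      ≤ ∫ z in frontier Ω, F z ∂arc := by
  set ρ : Measure ℝ := volume.restrict (Ioo 0 1) with hρ
  set γg : ℝ → Plane := fun x => pt p b x (g x) with hγg
  set γf : ℝ → Plane := fun x => pt p b x (f x) with hγf
  set m : ℝ → ℝ := fun x => (f x + g x) / 2 with hm
  have hmc : ContinuousOn m (Ioo 0 1) := (hf.add hg).div_const 2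
  set U : Set Plane := cx p b ⁻¹' Ioo 0 1 with hU
  have hUo : IsOpen U := isOpen_Ioo.preimage (continuous_cx p b)
  set Hg : Set Plane := U ∩ (fun z => cy p b z - m (cx p b z)) ⁻¹' Ioi 0 with hHg
  have hcont : ContinuousOn (fun z => cy p b z - m (cx p b z)) U :=
    (continuous_cy p b).continuousOn.sub (hmc.comp (continuous_cx p b).continuousOn
      fun z hz => hz)
  have hHgo : IsOpen Hg := hcont.isOpen_inter_preimage hUo isOpen_Ioi
  set μ : Measure Plane := arc.restrict (frontier Ω) with hμ
  have hγgm : AEMeasurable γg ρ := (continuousOn_curve hg).aemeasurable measurableSet_Ioo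
  have hγfm : AEMeasurable γf ρ := (continuousOn_curve hf).aemeasurable measurableSet_Ioo
  have hle : Measure.map γg ρ + Measure.map γf ρ ≤ μ := by
    rw [Measure.le_iff]
    intro B hB
    rw [Measure.add_apply, Measure.map_apply_of_aemeasurable hγgm hB,
      Measure.map_apply_of_aemeasurable hγfm hB, hρ, Measure.restrict_apply' measurableSet_Ioo,
      Measure.restrict_apply' measurableSet_Ioo]
    have h1 : volume (γg ⁻¹' B ∩ Ioo 0 1) ≤ arc (B ∩ frontier Ω ∩ Hg) := by
      refine (volume_le_arc (p := p) (b := b) (γ := γg) (fun x => by simp [hγg]) _).trans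
        (measure_mono ?_)
      rintro z ⟨x, ⟨hxB, hx⟩, rfl⟩
      refine ⟨⟨hxB, h.mem_frontier_g hx.1 hx.2⟩, ?_, ?_⟩
      · simpa [hU, hγg] using hx
      · have := h.lt x hx.1 hx.2
        simp only [mem_preimage, mem_Ioi, hγg, cx_pt, cy_pt, hm]
        linarith
    have h2 : volume (γf ⁻¹' B ∩ Ioo 0 1) ≤ arc ((B ∩ frontier Ω) \ Hg) := by
      refine (volume_le_arc (p := p) (b := b) (γ := γf) (fun x => by simp [hγf]) _).trans
        (measure_mono ?_)
      rintro z ⟨x, ⟨hxB, hx⟩, rfl⟩
      refine ⟨⟨hxB, h.mem_frontier_f hx.1 hx.2⟩, ?_⟩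
      rintro ⟨_, h3⟩
      have := h.lt x hx.1 hx.2
      simp only [mem_preimage, mem_Ioi, hγf, cx_pt, cy_pt, hm] at h3
      linarith
    refine (add_le_add h1 h2).trans ?_
    rw [measure_inter_add_sdiff _ hHgo.measurableSet, hμ, Measure.restrict_apply hB]
  have hFi' : Integrable F μ := hFi
  have hF0' : 0 ≤ᵐ[μ] F := Eventually.of_forall hF0
  have h3 := integral_mono_measure hle hF0' hFi'
  have hi1 : Integrable F (Measure.map γg ρ + Measure.map γf ρ) := hFi'.mono_measure hle
  rw [integral_add_measure hi1.left_of_add_measure hi1.right_of_add_measure,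
    integral_map hγgm hF.aestronglyMeasurable, integral_map hγfm hF.aestronglyMeasurable] at h3
  refine ⟨?_, ?_, h3⟩
  · exact (integrable_map_measure hF.aestronglyMeasurable hγgm).mp hi1.left_of_add_measure
  · exact (integrable_map_measure hF.aestronglyMeasurable hγfm).mp hi1.right_of_add_measure

/-- continuous functions are integrable over the boundary -/
lemma integrableOn_frontier (hb : Bornology.IsBounded Ω) (hfin : arc (frontier Ω) < ∞)
    {F : Plane → ℝ} (hF : Continuous F) : IntegrableOn F (frontier Ω) arc := by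
  have hc : IsCompact (frontier Ω) :=
    hb.isCompact_closure.of_isClosed_subset isClosed_frontier frontier_subset_closure
  obtain ⟨C, hC⟩ := hc.exists_bound_of_continuousOn hF.continuousOn
  exact Measure.integrableOn_of_bounded hfin.ne hF.aestronglyMeasurable
    (by filter_upwards [ae_restrict_mem isClosed_frontier.measurableSet] with z hz using hC z hz)

/-- Upper bound for boundary integrals of squares of functions of the first coordinate. -/
theorem IsGraph.boundary_le (h : IsGraph Ω p b f g) (hf : ContinuousOn f (Ioo 0 1))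
    (hg : ContinuousOn g (Ioo 0 1)) (hb : Bornology.IsBounded Ω) {W : ℝ} (hW : 0 ≤ W)
    (hfin : arc (frontier Ω) ≤ ENNReal.ofReal (2 + 4 * W))
    {k : ℝ → ℝ} (hk : Continuous k) (hk1 : ∀ x, 0 ≤ k x ∧ k x ≤ 1) :
    ∫ z in frontier Ω, k (cx p b z) ∂arc ≤ 2 * (∫ x in (0 : ℝ)..1, k x) + 4 * W := by
  have hfin' : arc (frontier Ω) < ∞ := lt_of_le_of_lt hfin ENNReal.ofReal_lt_top
  have hc : Continuous fun z => k (cx p b z) := hk.comp (continuous_cx p b)
  have hi := integrableOn_frontier hb hfin' hc
  have hi1 : IntegrableOn (fun _ : Plane => (1 : ℝ)) (frontier Ω) arc :=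
    integrableOn_frontier hb hfin' continuous_const
  have h1 := (h.boundary_ge hf hg (F := fun z => 1 - k (cx p b z))
    (continuous_const.sub hc) (fun z => by linarith [(hk1 (cx p b z)).2])
    (hi1.sub hi)).2.2
  simp only [cx_pt] at h1
  rw [integral_sub hi1 hi] at h1
  have h2 : ∫ z in frontier Ω, (1 : ℝ) ∂arc ≤ 2 + 4 * W := by
    rw [setIntegral_const, smul_eq_mul, mul_one, Measure.real]
    exact ENNReal.toReal_le_of_le_ofReal (by linarith) hfin
  have h3 : ∫ x in Ioo (0 : ℝ) 1, (1 - k x) = 1 - ∫ x in (0 : ℝ)..1, k x := by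
    rw [← integral_Ioc_eq_integral_Ioo, ← intervalIntegral.integral_of_le zero_le_one,
      intervalIntegral.integral_sub intervalIntegrable_const (hk.intervalIntegrable 0 1)]
    simp
  rw [h3] at h1
  linarith

end Pool.Agent.MP_e32423_an
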