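import Pool.Agent.Lib.MP_e32423_an.Avg

/-!
The mass of a `C¹` function near one end of a convex domain, by a homothety towards the other end.
-/

namespace Pool.Agent.MP_e32423_an

open MeasureTheory Set Filter
open scoped Topology RealInnerProductSpace NNReal

lemma integrableOn_of_bounded' {A : Set Plane} (hb : Bornology.IsBounded A)
    {φ : Plane → ℝ} (hφ : Continuous φ) : IntegrableOn φ A := by
  have h1 : IntegrableOn φ (closure A) :=
    hφ.continuousOn.integrableOn_compact hb.isCompact_closure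
  exact h1.mono_set subset_closure

lemma scaling {A B : Set Plane} (hA : MeasurableSet A) (hB : MeasurableSet B)
    (hBb : Bornology.IsBounded B) {φ : Plane → ℝ} (hφ : Continuous φ) (hφ0 : ∀ z, 0 ≤ φ z)
    {c : ℝ} (hc0 : 0 < c) (q₀ : Plane) (hAB : ∀ z ∈ A, c • z + (1 - c) • q₀ ∈ B) :
    ∫ z in A, φ (c • z + (1 - c) • q₀) ≤ (c ^ 2)⁻¹ * ∫ z in B, φ z := by
  set d := (1 - c) • q₀ with hd
  set ψ : Plane → ℝ := B.indicator φ with hψ
  have hψi : Integrable ψ := (integrable_indicator_iff hB).mpr (integrableOn_of_bounded' hBb hφ)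
  have hψi2 : Integrable (fun y => ψ (y + d)) := hψi.comp_add_right d
  have hψi3 : Integrable (fun z : Plane => ψ (c • z + d)) := hψi2.comp_smul hc0.ne'
  have h1 : ∫ z in A, φ (c • z + d) ≤ ∫ z, ψ (c • z + d) := by
    rw [← integral_indicator hA]
    apply integral_mono_of_nonneg
    · filter_upwards with z
      exact indicator_nonneg (fun z _ => hφ0 _) z
    · exact hψi3
    · filter_upwards with z
      by_cases hz : z ∈ A
      · rw [indicator_of_mem hz, hψ, indicator_of_mem (hAB z hz)]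
      · rw [indicator_of_notMem hz]
        exact indicator_nonneg (fun z _ => hφ0 _) _
  have h2 : ∫ z, ψ (c • z + d) = (c ^ 2)⁻¹ * ∫ z in B, φ z := by
    have h3 := Measure.integral_comp_smul (volume : Measure Plane) (fun y => ψ (y + d)) c
    rw [h3, integral_add_right_eq_self ψ d, hψ, integral_indicator hB, smul_eq_mul]
    congr 1
    have : Module.finrank ℝ Plane = 2 := by simp
    rw [this, abs_of_pos (by positivity)]
  rw [← h2]
  exact h1

lemma homothety_bound {A B G : Set Plane} (hA : MeasurableSet A) (hB : MeasurableSet B)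
    (hG : MeasurableSet G) (hAb : Bornology.IsBounded A) (hBb : Bornology.IsBounded B)
    (hGb : Bornology.IsBounded G) {u : Plane → ℝ} (hu : ContDiff ℝ 1 u) (q₀ : Plane) {l : ℝ}
    (hl0 : 0 < l) (hl1 : l < 1) (hd : ∀ z ∈ A, ‖q₀ - z‖ ≤ 1)
    (hAB : ∀ z ∈ A, (1 - l) • z + l • q₀ ∈ B)
    (hAG : ∀ z ∈ A, ∀ t ∈ Icc 0 l, (1 - t) • z + t • q₀ ∈ G) :
    ∫ z in A, u z ^ 2 ≤ ((1 - l) ^ 2)⁻¹ *
      (2 * (∫ z in B, u z ^ 2) + 2 * l ^ 2 * ∫ z in G, ‖fderiv ℝ u z‖ ^ 2) := by
  have hfd : Continuous fun z => fderiv ℝ u z := hu.continuous_fderiv (by norm_num)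
  set N : Plane → ℝ := fun z => ‖fderiv ℝ u z‖ ^ 2 with hN
  have hNc : Continuous N := hfd.norm.pow 2
  have hN0 : ∀ z, 0 ≤ N z := fun z => sq_nonneg _
  have huc : Continuous u := hu.continuous
  have hl' : (0 : ℝ) < 1 - l := by linarith
  -- pointwise inequality
  have hpt : ∀ z ∈ A, u z ^ 2 ≤ 2 * u ((1 - l) • z + l • q₀) ^ 2 +
      2 * l * ∫ t in (0 : ℝ)..l, N ((1 - t) • z + t • q₀) := by
    intro z hz
    set γ : ℝ → Plane := fun t => (1 - t) • z + t • q₀ with hγ
    have hγc : Continuous γ := by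
      rw [hγ]; fun_prop
    have hγd : ∀ t, HasDerivAt γ (q₀ - z) t := by
      intro t
      have h1 : HasDerivAt (fun t : ℝ => (1 - t) • z + t • q₀)
          ((-1 : ℝ) • z + (1 : ℝ) • q₀) t :=
        (((hasDerivAt_id t).const_sub 1).smul_const z).add ((hasDerivAt_id t).smul_const q₀)
      have e : (-1 : ℝ) • z + (1 : ℝ) • q₀ = q₀ - z := by
        rw [one_smul, neg_one_smul]; abel
      rw [e] at h1
      exact h1
    have hφ : ∀ t, HasDerivAt (fun t => u (γ t)) (fderiv ℝ u (γ t) (q₀ - z)) t := by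
      intro t
      exact ((hu.differentiable (by norm_num) _).hasFDerivAt).comp_hasDerivAt t (hγd t)
    have hψ : Continuous fun t => fderiv ℝ u (γ t) (q₀ - z) :=
      (hfd.comp hγc).clm_apply continuous_const
    have h1 := c1_sub_sq_le hφ hψ hl0.le
    have h2 : ∫ t in (0 : ℝ)..l, (fderiv ℝ u (γ t) (q₀ - z)) ^ 2 ≤
        ∫ t in (0 : ℝ)..l, N (γ t) := by
      apply intervalIntegral.integral_mono_on hl0.le ((hψ.pow 2).intervalIntegrable 0 l)
        ((hNc.comp hγc).intervalIntegrable 0 l)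
      intro t ht
      have h3 := (fderiv ℝ u (γ t)).le_opNorm (q₀ - z)
      have h4 : ‖fderiv ℝ u (γ t)‖ * ‖q₀ - z‖ ≤ ‖fderiv ℝ u (γ t)‖ := by
        have := mul_le_mul_of_nonneg_left (hd z hz) (norm_nonneg (fderiv ℝ u (γ t)))
        linarith
      have h5 : |fderiv ℝ u (γ t) (q₀ - z)| ≤ ‖fderiv ℝ u (γ t)‖ := by
        rw [← Real.norm_eq_abs]
        exact h3.trans h4
      have h6 := pow_le_pow_left₀ (abs_nonneg _) h5 2
      rw [sq_abs] at h6
      exact h6
    have e0 : γ 0 = z := by simp [hγ]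
    rw [e0, sub_zero] at h1
    have h3 : u z ^ 2 ≤ 2 * u (γ l) ^ 2 + 2 * (u (γ l) - u z) ^ 2 := by
      nlinarith [sq_nonneg (2 * u (γ l) - u z)]
    have h4 := mul_le_mul_of_nonneg_left h2 hl0.le
    calc u z ^ 2 ≤ 2 * u (γ l) ^ 2 + 2 * (u (γ l) - u z) ^ 2 := h3
      _ ≤ 2 * u (γ l) ^ 2 + 2 * l * ∫ t in (0 : ℝ)..l, N (γ t) := by linarith
  -- integrate
  have hcont : Continuous fun w : Plane × ℝ => N ((1 - w.2) • w.1 + w.2 • q₀) :=
    hNc.comp (by fun_prop)
  have hint : IntegrableOn (fun w : Plane × ℝ => N ((1 - w.2) • w.1 + w.2 • q₀))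
      (A ×ˢ Ioc 0 l) (volume.prod volume) := by
    have h1 : IsCompact (closure A ×ˢ Icc (0 : ℝ) l) := hAb.isCompact_closure.prod isCompact_Icc
    exact (hcont.continuousOn.integrableOn_compact h1).mono_set
      (prod_mono subset_closure Ioc_subset_Icc_self)
  have hint' : Integrable (Function.uncurry fun (z : Plane) (t : ℝ) =>
      N ((1 - t) • z + t • q₀)) ((volume.restrict A).prod (volume.restrict (Ioc 0 l))) := by
    rw [Measure.prod_restrict]
    exact hint
  have hJ : ∀ z, ∫ t in (0 : ℝ)..l, N ((1 - t) • z + t • q₀)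
      = ∫ t in Ioc 0 l, N ((1 - t) • z + t • q₀) := fun z =>
    intervalIntegral.integral_of_le hl0.le
  have hJi : IntegrableOn (fun z => ∫ t in (0 : ℝ)..l, N ((1 - t) • z + t • q₀)) A := by
    simp only [hJ]
    exact hint'.integral_prod_left
  have hswap : ∫ z in A, ∫ t in (0 : ℝ)..l, N ((1 - t) • z + t • q₀)
      ≤ l * (((1 - l) ^ 2)⁻¹ * ∫ z in G, N z) := by
    simp only [hJ]
    rw [integral_integral_swap hint']
    have h1 : ∀ t ∈ Ioc 0 l, ∫ z in A, N ((1 - t) • z + t • q₀)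
        ≤ ((1 - l) ^ 2)⁻¹ * ∫ z in G, N z := by
      intro t ht
      have h2 := scaling hA hG hGb hNc hN0 (c := 1 - t) (by linarith [ht.2]) q₀ (by
        intro z hz
        have := hAG z hz t ⟨ht.1.le, ht.2⟩
        rwa [sub_sub_cancel])
      rw [sub_sub_cancel] at h2
      refine h2.trans ?_
      apply mul_le_mul_of_nonneg_right _ (setIntegral_nonneg hG fun z _ => hN0 z)
      apply inv_anti₀ (by positivity)
      exact pow_le_pow_left₀ hl'.le (by linarith [ht.2]) 2
    have h3 : ∫ t in Ioc 0 l, ∫ z in A, N ((1 - t) • z + t • q₀)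
        ≤ ∫ t in Ioc 0 l, ((1 - l) ^ 2)⁻¹ * ∫ z in G, N z := by
      apply setIntegral_mono_on (hint'.integral_prod_right) (integrable_const _) measurableSet_Ioc
      intro t ht
      exact h1 t ht
    refine h3.trans (le_of_eq ?_)
    rw [setIntegral_const, Real.volume_real_Ioc_of_le hl0.le, sub_zero, smul_eq_mul]
  have hmain : ∫ z in A, u z ^ 2 ≤ ∫ z in A, (2 * u ((1 - l) • z + l • q₀) ^ 2 +
      2 * l * ∫ t in (0 : ℝ)..l, N ((1 - t) • z + t • q₀)) := by
    apply setIntegral_mono_on (integrableOn_of_bounded' hAb (huc.pow 2)) _ hA hpt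
    refine Integrable.add ?_ (hJi.const_mul _)
    exact integrableOn_of_bounded' hAb (by fun_prop)
  rw [integral_add (integrableOn_of_bounded' hAb (by fun_prop)) (hJi.const_mul _),
    integral_const_mul, integral_const_mul] at hmain
  have hscal := scaling hA hB hBb (huc.pow 2) (fun z => sq_nonneg _) (c := 1 - l) hl' q₀ (by
    intro z hz
    rw [sub_sub_cancel]
    exact hAB z hz)
  rw [sub_sub_cancel] at hscal
  simp only [Pi.pow_apply] at hscal
  have h5 := mul_le_mul_of_nonneg_left hswap (show 0 ≤ 2 * l by linarith)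
  calc ∫ z in A, u z ^ 2 ≤ _ := hmain
    _ ≤ 2 * (((1 - l) ^ 2)⁻¹ * ∫ z in B, u z ^ 2) +
        2 * l * (l * (((1 - l) ^ 2)⁻¹ * ∫ z in G, N z)) := by linarith
    _ = _ := by ring

end Pool.Agent.MP_e32423_an
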