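import Pool.Agent.Lib.MP_e32423_an.Boundary2
import Pool.Agent.Lib.MP_e32423_an.EndRegion

/-!
Thin convex domains in coordinates: fibre integrals, end regions, clamped graph functions.
-/

namespace Pool.Agent.MP_e32423_an

open MeasureTheory Set Filter
open scoped Topology RealInnerProductSpace NNReal ENNReal

/-- A convex domain of diameter one, seen as the region between two graphs over one of its
diameters, of width at most `W`. -/
structure Thin (Ω : Set Plane) (p : Plane) (b : OrthonormalBasis (Fin 2) ℝ Plane)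
    (f g : ℝ → ℝ) (W : ℝ) : Prop where
  dom : IsConvexDomain 1 Ω
  hp : p ∈ closure Ω
  hq : p + b 0 ∈ closure Ω
  graph : IsGraph Ω p b f g
  fconv : ConvexOn ℝ (Ioo 0 1) f
  gconc : ConcaveOn ℝ (Ioo 0 1) g
  sgn : ∀ x ∈ Ioo (0 : ℝ) 1, f x ≤ 0 ∧ 0 ≤ g x
  width : ∀ x ∈ Ioo (0 : ℝ) 1, g x - f x ≤ W
  W0 : 0 < W

/-- fibre integral -/
noncomputable def fib (p : Plane) (b : OrthonormalBasis (Fin 2) ℝ Plane) (f g : ℝ → ℝ)
    (φ : Plane → ℝ) (x : ℝ) : ℝ :=
  ∫ y in (f x)..(g x), φ (pt p b x y)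

namespace Thin

variable {Ω : Set Plane} {p : Plane} {b : OrthonormalBasis (Fin 2) ℝ Plane}
    {f g : ℝ → ℝ} {W : ℝ}

lemma fcont (h : Thin Ω p b f g W) : ContinuousOn f (Ioo 0 1) := h.fconv.continuousOn isOpen_Ioo

lemma gcont (h : Thin Ω p b f g W) : ContinuousOn g (Ioo 0 1) := h.gconc.continuousOn isOpen_Ioo

lemma wconc (h : Thin Ω p b f g W) : ConcaveOn ℝ (Ioo 0 1) (fun x => g x - f x) :=
  h.gconc.sub h.fconv

lemma wpos (h : Thin Ω p b f g W) : ∀ x ∈ Ioo (0 : ℝ) 1, 0 < g x - f x :=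
  fun x hx => sub_pos.mpr (h.graph.lt x hx.1 hx.2)

lemma fb (h : Thin Ω p b f g W) {x : ℝ} (hx : x ∈ Ioo (0 : ℝ) 1) : -W ≤ f x ∧ f x ≤ 0 := by
  have := h.sgn x hx
  have := h.width x hx
  constructor <;> linarith

lemma gb (h : Thin Ω p b f g W) {x : ℝ} (hx : x ∈ Ioo (0 : ℝ) 1) : 0 ≤ g x ∧ g x ≤ W := by
  have := h.sgn x hx
  have := h.width x hx
  constructor <;> linarith

lemma meas (h : Thin Ω p b f g W) : MeasurableSet Ω := h.dom.isOpen.measurableSet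

lemma mem_coords (h : Thin Ω p b f g W) {z : Plane} (hz : z ∈ Ω) :
    (0 < cx p b z ∧ cx p b z < 1) ∧ (f (cx p b z) < cy p b z ∧ cy p b z < g (cx p b z)) := by
  rw [← pt_c p b z] at hz
  exact (h.graph.mem_iff _ _).mp hz

lemma arc_le (h : Thin Ω p b f g W) : arc (frontier Ω) ≤ ENNReal.ofReal (2 + 4 * W) := by
  apply arc_frontier_le (p := p) (b := b) h.dom.convex h.dom.isOpen h.dom.nonempty h.W0
  intro z hz
  have h1 := h.mem_coords hz
  have h2 := h.fb ⟨h1.1.1, h1.1.2⟩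
  have h3 := h.gb ⟨h1.1.1, h1.1.2⟩
  exact ⟨⟨h1.1.1.le, h1.1.2.le⟩, ⟨by linarith [h1.2.1], by linarith [h1.2.2]⟩⟩

lemma arc_lt (h : Thin Ω p b f g W) : arc (frontier Ω) < ∞ :=
  lt_of_le_of_lt h.arc_le ENNReal.ofReal_lt_top

lemma integrableOn (h : Thin Ω p b f g W) {φ : Plane → ℝ} (hφ : Continuous φ) :
    IntegrableOn φ Ω := integrableOn_of_bounded' h.dom.isBounded hφ

lemma fib_int (h : Thin Ω p b f g W) {φ : Plane → ℝ} (hφ : Continuous φ) :
    IntervalIntegrable (fib p b f g φ) volume 0 1 :=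
  (h.graph.fubini h.meas (h.integrableOn hφ)).1

lemma fib_int' (h : Thin Ω p b f g W) {φ : Plane → ℝ} (hφ : Continuous φ) {a c : ℝ}
    (ha : a ∈ Icc (0 : ℝ) 1) (hc : c ∈ Icc (0 : ℝ) 1) :
    IntervalIntegrable (fib p b f g φ) volume a c := by
  apply (h.fib_int hφ).mono_set
  rw [uIcc_of_le (zero_le_one (α := ℝ))]
  exact uIcc_subset_Icc ha hc

lemma integral_eq (h : Thin Ω p b f g W) {φ : Plane → ℝ} (hφ : Continuous φ) :
    ∫ z in Ω, φ z = ∫ x in (0 : ℝ)..1, fib p b f g φ x :=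
  (h.graph.fubini h.meas (h.integrableOn hφ)).2

/-- integrals over slabs -/
lemma integral_slab (h : Thin Ω p b f g W) {φ : Plane → ℝ} (hφ : Continuous φ) {a c : ℝ}
    (ha : 0 ≤ a) (hac : a ≤ c) (hc : c ≤ 1) :
    ∫ z in Ω ∩ cx p b ⁻¹' Ioc a c, φ z = ∫ x in a..c, fib p b f g φ x := by
  have hS : MeasurableSet (cx p b ⁻¹' Ioc a c) := (continuous_cx p b).measurable measurableSet_Ioc
  have hi : IntegrableOn ((cx p b ⁻¹' Ioc a c).indicator φ) Ω :=
    (h.integrableOn hφ).indicator hS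
  have h1 := (h.graph.fubini h.meas hi).2
  rw [setIntegral_indicator hS] at h1
  rw [h1, intervalIntegral.integral_of_le zero_le_one, intervalIntegral.integral_of_le hac]
  have h2 : ∀ x, (∫ y in (f x)..(g x), (cx p b ⁻¹' Ioc a c).indicator φ (pt p b x y))
      = (Ioc a c).indicator (fib p b f g φ) x := by
    intro x
    by_cases hx : x ∈ Ioc a c
    · rw [indicator_of_mem hx, fib]
      congr 1
      ext y
      rw [indicator_of_mem]
      simpa using hx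
    · rw [indicator_of_notMem hx]
      have : ∀ y, (cx p b ⁻¹' Ioc a c).indicator φ (pt p b x y) = 0 := by
        intro y
        rw [indicator_of_notMem]
        simpa using hx
      simp only [this, intervalIntegral.integral_zero]
  simp only [h2]
  rw [setIntegral_indicator measurableSet_Ioc]
  congr 2
  rw [inter_eq_right]
  exact Ioc_subset_Ioc ha hc

lemma mem_of_comb (h : Thin Ω p b f g W) {z q₀ : Plane} (hz : z ∈ Ω) (hq₀ : q₀ ∈ closure Ω)
    {t : ℝ} (ht0 : 0 ≤ t) (ht1 : t < 1) : (1 - t) • z + t • q₀ ∈ Ω := by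
  rcases ht0.eq_or_lt with rfl | htpos
  · simpa using hz
  have h1 := h.dom.convex.openSegment_interior_closure_subset_interior
    (show z ∈ interior Ω by rw [h.dom.isOpen.interior_eq]; exact hz) hq₀
  rw [h.dom.isOpen.interior_eq] at h1
  exact h1 ⟨1 - t, t, by linarith, htpos, by ring, rfl⟩

/-- mass near the left end -/
lemma left_end (h : Thin Ω p b f g W) {u : Plane → ℝ} (hu : ContDiff ℝ 1 u) {δ : ℝ}
    (hδ0 : 0 < δ) (hδ1 : δ ≤ 1 / 12) :
    ∫ x in (0 : ℝ)..δ, fib p b f g (fun z => u z ^ 2) x ≤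
      3 * (∫ x in (2 * δ)..(3 * δ), fib p b f g (fun z => u z ^ 2) x) +
      12 * δ ^ 2 * ∫ x in (0 : ℝ)..(3 * δ), fib p b f g (fun z => ‖fderiv ℝ u z‖ ^ 2) x := by
  have hfd : Continuous fun z => fderiv ℝ u z := hu.continuous_fderiv (by norm_num)
  have hcu : Continuous fun z => u z ^ 2 := hu.continuous.pow 2
  have hcN : Continuous fun z => ‖fderiv ℝ u z‖ ^ 2 := hfd.norm.pow 2
  rw [← h.integral_slab hcu le_rfl hδ0.le (by linarith),
    ← h.integral_slab hcu (by linarith) (by linarith) (by linarith),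
    ← h.integral_slab hcN le_rfl (by linarith) (by linarith)]
  have hm : ∀ a c, MeasurableSet (Ω ∩ cx p b ⁻¹' Ioc a c) := fun a c =>
    h.meas.inter ((continuous_cx p b).measurable measurableSet_Ioc)
  have hb : ∀ a c, Bornology.IsBounded (Ω ∩ cx p b ⁻¹' Ioc a c) := fun a c =>
    h.dom.isBounded.subset inter_subset_left
  have hcxq : cx p b (p + b 0) = 1 := by rw [← pt_one, cx_pt]
  have key := homothety_bound (hm 0 δ) (hm (2 * δ) (3 * δ)) (hm 0 (3 * δ)) (hb _ _) (hb _ _)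
    (hb _ _) hu (p + b 0) (l := 2 * δ) (by linarith) (by linarith) ?_ ?_ ?_
  · have h1 : ((1 - 2 * δ) ^ 2)⁻¹ ≤ 3 / 2 := by
      rw [inv_le_comm₀ (by nlinarith) (by norm_num)]
      nlinarith
    have h2 : 0 ≤ 2 * (∫ z in Ω ∩ cx p b ⁻¹' Ioc (2 * δ) (3 * δ), u z ^ 2) +
        2 * (2 * δ) ^ 2 * ∫ z in Ω ∩ cx p b ⁻¹' Ioc 0 (3 * δ), ‖fderiv ℝ u z‖ ^ 2 := by
      have n1 : 0 ≤ ∫ z in Ω ∩ cx p b ⁻¹' Ioc (2 * δ) (3 * δ), u z ^ 2 :=
        setIntegral_nonneg (hm _ _) fun z _ => sq_nonneg _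
      have n2 : 0 ≤ ∫ z in Ω ∩ cx p b ⁻¹' Ioc 0 (3 * δ), ‖fderiv ℝ u z‖ ^ 2 :=
        setIntegral_nonneg (hm _ _) fun z _ => sq_nonneg _
      positivity
    have h3 := mul_le_mul_of_nonneg_right h1 h2
    calc _ ≤ _ := key
      _ ≤ _ := h3
      _ = _ := by ring
  · rintro z ⟨hz, _⟩
    rw [← dist_eq_norm]
    exact dist_closure_le h.dom h.hq (subset_closure hz)
  · rintro z ⟨hz, hzx⟩
    refine ⟨h.mem_of_comb hz h.hq (by linarith) (by linarith), ?_⟩
    rw [mem_preimage, cx_comb _ _ _ _ (by ring), hcxq]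
    have h1 := hzx.1
    have h2 := hzx.2
    constructor <;> nlinarith
  · rintro z ⟨hz, hzx⟩ t ht
    refine ⟨h.mem_of_comb hz h.hq ht.1 (by linarith [ht.2]), ?_⟩
    rw [mem_preimage, cx_comb _ _ _ _ (by ring), hcxq]
    have h1 := hzx.1
    have h2 := hzx.2
    have h3 := ht.1
    have h4 := ht.2
    constructor <;> nlinarith

/-- mass near the right end -/
lemma right_end (h : Thin Ω p b f g W) {u : Plane → ℝ} (hu : ContDiff ℝ 1 u) {δ : ℝ}
    (hδ0 : 0 < δ) (hδ1 : δ ≤ 1 / 12) :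
    ∫ x in (1 - δ)..(1 : ℝ), fib p b f g (fun z => u z ^ 2) x ≤
      3 * (∫ x in (1 - 3 * δ)..(1 - 2 * δ), fib p b f g (fun z => u z ^ 2) x) +
      12 * δ ^ 2 * ∫ x in (1 - 3 * δ)..(1 : ℝ), fib p b f g (fun z => ‖fderiv ℝ u z‖ ^ 2) x := by
  have hfd : Continuous fun z => fderiv ℝ u z := hu.continuous_fderiv (by norm_num)
  have hcu : Continuous fun z => u z ^ 2 := hu.continuous.pow 2
  have hcN : Continuous fun z => ‖fderiv ℝ u z‖ ^ 2 := hfd.norm.pow 2
  rw [← h.integral_slab hcu (by linarith) (by linarith) le_rfl,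
    ← h.integral_slab hcu (by linarith) (by linarith) (by linarith),
    ← h.integral_slab hcN (by linarith) (by linarith) le_rfl]
  have hm : ∀ a c, MeasurableSet (Ω ∩ cx p b ⁻¹' Ioc a c) := fun a c =>
    h.meas.inter ((continuous_cx p b).measurable measurableSet_Ioc)
  have hb : ∀ a c, Bornology.IsBounded (Ω ∩ cx p b ⁻¹' Ioc a c) := fun a c =>
    h.dom.isBounded.subset inter_subset_left
  have hcxp : cx p b p = 0 := by simp [cx]
  have key := homothety_bound (hm (1 - δ) 1) (hm (1 - 3 * δ) (1 - 2 * δ)) (hm (1 - 3 * δ) 1)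
    (hb _ _) (hb _ _) (hb _ _) hu p (l := 2 * δ) (by linarith) (by linarith) ?_ ?_ ?_
  · have h1 : ((1 - 2 * δ) ^ 2)⁻¹ ≤ 3 / 2 := by
      rw [inv_le_comm₀ (by nlinarith) (by norm_num)]
      nlinarith
    have h2 : 0 ≤ 2 * (∫ z in Ω ∩ cx p b ⁻¹' Ioc (1 - 3 * δ) (1 - 2 * δ), u z ^ 2) +
        2 * (2 * δ) ^ 2 * ∫ z in Ω ∩ cx p b ⁻¹' Ioc (1 - 3 * δ) 1, ‖fderiv ℝ u z‖ ^ 2 := by
      have n1 : 0 ≤ ∫ z in Ω ∩ cx p b ⁻¹' Ioc (1 - 3 * δ) (1 - 2 * δ), u z ^ 2 :=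
        setIntegral_nonneg (hm _ _) fun z _ => sq_nonneg _
      have n2 : 0 ≤ ∫ z in Ω ∩ cx p b ⁻¹' Ioc (1 - 3 * δ) 1, ‖fderiv ℝ u z‖ ^ 2 :=
        setIntegral_nonneg (hm _ _) fun z _ => sq_nonneg _
      positivity
    have h3 := mul_le_mul_of_nonneg_right h1 h2
    calc _ ≤ _ := key
      _ ≤ _ := h3
      _ = _ := by ring
  · rintro z ⟨hz, _⟩
    rw [← dist_eq_norm]
    exact dist_closure_le h.dom h.hp (subset_closure hz)
  · rintro z ⟨hz, hzx⟩
    refine ⟨h.mem_of_comb hz h.hp (by linarith) (by linarith), ?_⟩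
    rw [mem_preimage, cx_comb _ _ _ _ (by ring), hcxp]
    have h1 := hzx.1
    have h2 := hzx.2
    constructor <;> nlinarith
  · rintro z ⟨hz, hzx⟩ t ht
    refine ⟨h.mem_of_comb hz h.hp ht.1 (by linarith [ht.2]), ?_⟩
    rw [mem_preimage, cx_comb _ _ _ _ (by ring), hcxp]
    have h1 := hzx.1
    have h2 := hzx.2
    have h3 := ht.1
    have h4 := ht.2
    constructor <;> nlinarith

end Thin

end Pool.Agent.MP_e32423_an
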