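import Mathlib

/-!
Definitions for the Robin eigenvalue problem with a potential on plane domains.
-/

namespace Pool.Agent.MP_e32423_an

open MeasureTheory Set Filter
open scoped Topology

/-- The Euclidean plane. -/
abbrev Plane : Type := EuclideanSpace ℝ (Fin 2)

/-- The quadratic form of the Robin problem with constant `α` and potential `V` on `Ω`:
the integral of `|∇u|² + V u²` over `Ω` plus `α` times the integral of `u²` over the boundary of
`Ω` with respect to arc length (the one-dimensional Hausdorff measure). -/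
noncomputable def robinForm (α : ℝ) (Ω : Set Plane) (V : Plane → ℝ) (u : Plane → ℝ) : ℝ :=
  (∫ z in Ω, (‖fderiv ℝ u z‖ ^ 2 + V z * u z ^ 2)) +
    α * ∫ z in frontier Ω, u z ^ 2 ∂(Measure.hausdorffMeasure 1)

/-- The `k`-th eigenvalue, counted with multiplicity, of the Robin problem
`-Δu + V u = λ u` in `Ω`, `∂u/∂ν = -α u` on the boundary of `Ω`, given by the minimum-maximum
principle: the infimum of the numbers `Λ` for which there is a `k`-dimensional space `W` of
`C¹` functions, none of which except `0` vanishes on all of `Ω`, such that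
`robinForm α Ω V u ≤ Λ ∫_Ω u²` for all `u` in `W`. -/
noncomputable def robinEigenvalue (α : ℝ) (Ω : Set Plane) (V : Plane → ℝ) (k : ℕ) : ℝ :=
  sInf {Λ : ℝ | ∃ W : Submodule ℝ (Plane → ℝ), Module.finrank ℝ W = k ∧
    (∀ u ∈ W, ContDiff ℝ 1 u) ∧ (∀ u ∈ W, u ≠ 0 → ∃ z ∈ Ω, u z ≠ 0) ∧
    ∀ u ∈ W, robinForm α Ω V u ≤ Λ * ∫ z in Ω, u z ^ 2}

/-- The fundamental gap `λ₂ - λ₁`. -/
noncomputable def fundamentalGap (α : ℝ) (Ω : Set Plane) (V : Plane → ℝ) : ℝ :=
  robinEigenvalue α Ω V 2 - robinEigenvalue α Ω V 1

/-- `Ω` is a bounded convex domain of diameter `d` in the plane. -/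
structure IsConvexDomain (d : ℝ) (Ω : Set Plane) : Prop where
  isOpen : IsOpen Ω
  convex : Convex ℝ Ω
  nonempty : Ω.Nonempty
  isBounded : Bornology.IsBounded Ω
  diam_eq : Metric.diam Ω = d

/-- The sequence `Ω` of bounded convex domains of diameter `d` degenerates to a segment: it
converges in Hausdorff distance to a segment of length `d`. -/
def DegeneratesToSegment (d : ℝ) (Ω : ℕ → Set Plane) : Prop :=
  (∀ k, IsConvexDomain d (Ω k)) ∧
    ∃ p q : Plane, dist p q = d ∧
      Tendsto (fun k => Metric.hausdorffDist (Ω k) (segment ℝ p q)) atTop (𝓝 0)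

/-- `Γ_seg(2, d, α)`: the infimum, over all sequences of convex domains of diameter `d` in the
plane which degenerate to a segment, of the limit inferior of the fundamental gaps with zero
potential. -/
noncomputable def gammaSeg (d α : ℝ) : EReal :=
  ⨅ (Ω : ℕ → Set Plane) (_ : DegeneratesToSegment d Ω),
    liminf (fun k => ((fundamentalGap α (Ω k) (fun _ => 0) : ℝ) : EReal)) atTop

end Pool.Agent.MP_e32423_an
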