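import Pool.Agent.Lib.MP_e32423_an.Lip

/-!
Estimates on one fibre.
-/

namespace Pool.Agent.MP_e32423_an

open MeasureTheory Set Filter
open scoped Topology

section

variable {φ ψ : ℝ → ℝ} {c d : ℝ}

lemma c1_sub_sq_le (hφ : ∀ y, HasDerivAt φ (ψ y) y) (hψ : Continuous ψ) {x y : ℝ} (hxy : x ≤ y) :
    (φ y - φ x) ^ 2 ≤ (y - x) * ∫ t in x..y, ψ t ^ 2 := by
  rw [← intervalIntegral.integral_eq_sub_of_hasDerivAt (fun t _ => hφ t)
    (hψ.intervalIntegrable x y)]
  exact sq_integral_le hxy (hψ.intervalIntegrable x y) ((hψ.pow 2).intervalIntegrable x y)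

lemma c1_osc (hφ : ∀ y, HasDerivAt φ (ψ y) y) (hψ : Continuous ψ) {x y : ℝ}
    (hx : x ∈ Icc c d) (hy : y ∈ Icc c d) :
    (φ y - φ x) ^ 2 ≤ (d - c) * ∫ t in c..d, ψ t ^ 2 := by
  wlog hxy : x ≤ y generalizing x y with H
  · have := H hy hx (not_le.mp hxy).le
    rwa [← neg_sub, neg_sq] at this
  have hi : ∀ s t, IntervalIntegrable (fun t => ψ t ^ 2) volume s t :=
    fun s t => (hψ.pow 2).intervalIntegrable s t
  have h1 := c1_sub_sq_le hφ hψ hxy
  have h2 := intervalIntegral.integral_add_adjacent_intervals (hi c x) (hi x y)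
  have h3 := intervalIntegral.integral_add_adjacent_intervals (hi c y) (hi y d)
  have n1 : 0 ≤ ∫ t in c..x, ψ t ^ 2 :=
    intervalIntegral.integral_nonneg hx.1 fun _ _ => sq_nonneg _
  have n2 : 0 ≤ ∫ t in y..d, ψ t ^ 2 :=
    intervalIntegral.integral_nonneg hy.2 fun _ _ => sq_nonneg _
  have n3 : 0 ≤ ∫ t in x..y, ψ t ^ 2 :=
    intervalIntegral.integral_nonneg hxy fun _ _ => sq_nonneg _
  have h4 : (y - x) * ∫ t in x..y, ψ t ^ 2 ≤ (d - c) * ∫ t in c..d, ψ t ^ 2 :=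
    mul_le_mul (by linarith [hx.1, hy.2]) (by linarith) n3 (by linarith [hx.1, hx.2])
  linarith

/-- deviation from the mean -/
lemma fiber_dev (hcd : c < d) (hφ : ∀ y, HasDerivAt φ (ψ y) y) (hψ : Continuous ψ) {m : ℝ}
    (hm : (d - c) * m = ∫ t in c..d, φ t) {y : ℝ} (hy : y ∈ Icc c d) :
    (φ y - m) ^ 2 ≤ (d - c) * ∫ t in c..d, ψ t ^ 2 := by
  have hw : 0 < d - c := sub_pos.mpr hcd
  have hφc : Continuous φ := continuous_iff_continuousAt.mpr fun y => (hφ y).continuousAt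
  set T := ∫ t in c..d, ψ t ^ 2 with hT
  have h1 : ∫ t in c..d, (φ y - φ t) = (d - c) * (φ y - m) := by
    rw [intervalIntegral.integral_sub intervalIntegrable_const (hφc.intervalIntegrable c d),
      intervalIntegral.integral_const, smul_eq_mul, ← hm]
    ring
  have h2 : (∫ t in c..d, (φ y - φ t)) ^ 2 ≤ (d - c) * ∫ t in c..d, (φ y - φ t) ^ 2 :=
    sq_integral_le hcd.le ((continuous_const.sub hφc).intervalIntegrable c d)
      (((continuous_const.sub hφc).pow 2).intervalIntegrable c d)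
  have h3 : ∫ t in c..d, (φ y - φ t) ^ 2 ≤ ∫ t in c..d, (d - c) * T := by
    apply intervalIntegral.integral_mono_on hcd.le
      (((continuous_const.sub hφc).pow 2).intervalIntegrable c d) intervalIntegrable_const
    intro t ht
    exact c1_osc hφ hψ ht hy
  rw [intervalIntegral.integral_const, smul_eq_mul] at h3
  rw [h1] at h2
  have h4 : (d - c) ^ 2 * (φ y - m) ^ 2 ≤ (d - c) ^ 2 * ((d - c) * T) := by
    have := mul_le_mul_of_nonneg_left h3 hw.le
    nlinarith
  exact le_of_mul_le_mul_left h4 (by positivity)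

/-- mass on the fibre -/
lemma fiber_mass (hcd : c < d) (hφ : ∀ y, HasDerivAt φ (ψ y) y) (hψ : Continuous ψ) {m : ℝ}
    (hm : (d - c) * m = ∫ t in c..d, φ t) :
    ∫ t in c..d, φ t ^ 2 ≤ (d - c) * m ^ 2 + (d - c) ^ 2 * ∫ t in c..d, ψ t ^ 2 := by
  have hφc : Continuous φ := continuous_iff_continuousAt.mpr fun y => (hφ y).continuousAt
  set T := ∫ t in c..d, ψ t ^ 2 with hT
  have h1 : ∫ t in c..d, (φ t - m) ^ 2 ≤ ∫ t in c..d, (d - c) * T := by
    apply intervalIntegral.integral_mono_on hcd.le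
      (((hφc.sub continuous_const).pow 2).intervalIntegrable c d) intervalIntegrable_const
    intro t ht
    exact fiber_dev hcd hφ hψ hm ht
  rw [intervalIntegral.integral_const, smul_eq_mul] at h1
  have h2 : ∫ t in c..d, (φ t - m) ^ 2
      = (∫ t in c..d, φ t ^ 2) - 2 * m * (∫ t in c..d, φ t) + (d - c) * m ^ 2 := by
    have : (fun t => (φ t - m) ^ 2) = fun t => φ t ^ 2 - 2 * m * φ t + m ^ 2 := by
      ext t; ring
    have i1 : IntervalIntegrable (fun t => φ t ^ 2) volume c d :=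
      (hφc.pow 2).intervalIntegrable c d
    have i2 : IntervalIntegrable (fun t => 2 * m * φ t) volume c d :=
      (continuous_const.mul hφc).intervalIntegrable c d
    rw [this, intervalIntegral.integral_add (i1.sub i2) intervalIntegrable_const,
      intervalIntegral.integral_sub i1 i2, intervalIntegral.integral_const_mul,
      intervalIntegral.integral_const, smul_eq_mul]
  rw [h2, ← hm] at h1
  nlinarith

/-- boundary values on the fibre -/
lemma fiber_bdry (hcd : c < d) (hφ : ∀ y, HasDerivAt φ (ψ y) y) (hψ : Continuous ψ) {m α : ℝ}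
    (hα : 0 ≤ α) (hm : (d - c) * m = ∫ t in c..d, φ t) :
    2 * α * m ^ 2 - 16 * α ^ 2 * (d - c) * m ^ 2 - 1 / 4 * ∫ t in c..d, ψ t ^ 2
      ≤ α * (φ d ^ 2 + φ c ^ 2) := by
  set T := ∫ t in c..d, ψ t ^ 2 with hT
  have h1 := fiber_dev hcd hφ hψ hm (left_mem_Icc.mpr hcd.le)
  have h2 := fiber_dev hcd hφ hψ hm (right_mem_Icc.mpr hcd.le)
  rw [← hT] at h1 h2
  have hT0 : 0 ≤ T := intervalIntegral.integral_nonneg hcd.le fun _ _ => sq_nonneg _
  have hw : 0 < d - c := sub_pos.mpr hcd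
  -- for each end: α φ² ≥ α m² + 2 α m e with e² ≤ w T
  have key : ∀ e : ℝ, e ^ 2 ≤ (d - c) * T →
      α * m ^ 2 - 8 * α ^ 2 * (d - c) * m ^ 2 - 1 / 8 * T ≤ α * (m + e) ^ 2 := by
    intro e he
    have h3 : 0 ≤ (e + 8 * α * (d - c) * m) ^ 2 := sq_nonneg _
    have h4 : α * (m + e) ^ 2 = α * m ^ 2 + 2 * α * m * e + α * e ^ 2 := by ring
    have h5 : 0 ≤ α * e ^ 2 := mul_nonneg hα (sq_nonneg _)
    -- 8 w (2 α m e + 8 α² w m²) + e² ... = (e + 8 α w m)² ≥ 0
    have h6 : 0 ≤ 8 * (d - c) * (2 * α * m * e + 8 * α ^ 2 * (d - c) * m ^ 2) + e ^ 2 := by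
      nlinarith
    have h7 : 0 ≤ 8 * (d - c) * (2 * α * m * e + 8 * α ^ 2 * (d - c) * m ^ 2 + 1 / 8 * T) := by
      nlinarith
    have h8 : 0 ≤ 2 * α * m * e + 8 * α ^ 2 * (d - c) * m ^ 2 + 1 / 8 * T :=
      nonneg_of_mul_nonneg_right h7 (by positivity)
    linarith
  have k1 := key (φ c - m) h1
  have k2 := key (φ d - m) h2
  have e1 : m + (φ c - m) = φ c := by ring
  have e2 : m + (φ d - m) = φ d := by ring
  rw [e1] at k1
  rw [e2] at k2
  linarith

end

end Pool.Agent.MP_e32423_an
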