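import Pool.Agent.Lib.MP_e32423_an.OneD

/-!
The one-dimensional estimate, main step.
-/

namespace Pool.Agent.MP_e32423_an

open MeasureTheory Set Filter
open scoped NNReal Topology

lemma En_congr {θ : ℝ} {ω q f g : ℝ → ℝ} {s t : ℝ} (hst : s ≤ t)
    (h : ∀ x ∈ Ioo s t, f x = g x) : En θ ω q s t f = En θ ω q s t g := by
  unfold En
  apply intervalIntegral.integral_congr_ae
  have : ∀ᵐ x ∂volume, x ≠ t := Measure.ae_ne volume t
  filter_upwards [this] with x hx hx2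
  rw [uIoc_of_le hst] at hx2
  have hx3 : x ∈ Ioo s t := ⟨hx2.1, lt_of_le_of_ne hx2.2 hx⟩
  have he : f =ᶠ[𝓝 x] g := by
    filter_upwards [isOpen_Ioo.mem_nhds hx3] with y hy
    exact h y hy
  rw [he.deriv_eq, h x hx3]

lemma kin_congr {ω f g : ℝ → ℝ} {s t : ℝ} (hst : s ≤ t)
    (h : ∀ x ∈ Ioo s t, f x = g x) :
    ∫ x in s..t, ω x * (deriv f x) ^ 2 = ∫ x in s..t, ω x * (deriv g x) ^ 2 := by
  apply intervalIntegral.integral_congr_ae
  have : ∀ᵐ x ∂volume, x ≠ t := Measure.ae_ne volume t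
  filter_upwards [this] with x hx hx2
  rw [uIoc_of_le hst] at hx2
  have hx3 : x ∈ Ioo s t := ⟨hx2.1, lt_of_le_of_ne hx2.2 hx⟩
  have he : f =ᶠ[𝓝 x] g := by
    filter_upwards [isOpen_Ioo.mem_nhds hx3] with y hy
    exact h y hy
  rw [he.deriv_eq]

section

variable {a b : ℝ} {ω q : ℝ → ℝ} {θ D j₁ j₂ : ℝ}

lemma Data1.right_quant (h : Data1 a b ω q θ D j₁ j₂) {z : ℝ} (hzb : z ≤ b) (hzj : j₁ ≤ z)
    (hz : RightGood θ ω q b z) : z < j₂ ∧ 2 / 3 * θ < D * (j₂ - z) ^ 2 := by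
  have h1 := h.reflect.left_quant (z := a + b - z) (by linarith) (by linarith) hz.reflect
  refine ⟨by linarith [h1.1], ?_⟩
  have h2 := h1.2
  have : a + b - z - (a + b - j₂) = j₂ - z := by ring
  rwa [this] at h2

lemma Data1.right_piece (h : Data1 a b ω q θ D j₁ j₂) {z : ℝ} (hzb : z ≤ b) (hzj : j₁ ≤ z)
    (hz : RightGood θ ω q b z) :
    ∃ f, Lip f ∧ (∀ x, 0 ≤ f x ∧ f x ≤ 1) ∧ f z = 0 ∧ (∃ x₁ ∈ Icc z j₂, f x₁ = 1) ∧
      En θ ω q z b f < 0 := by
  obtain ⟨f, hf, hf1, hf0, ⟨x₀, hx₀, hfx⟩, hE⟩ :=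
    h.reflect.left_piece (z := a + b - z) (by linarith) (by linarith) hz.reflect
  refine ⟨fun x => f (a + b - x), hf.reflect _, fun x => hf1 _, hf0, ⟨a + b - x₀, ?_, ?_⟩, ?_⟩
  · exact ⟨by linarith [hx₀.2], by linarith [hx₀.1]⟩
  · simpa using hfx
  · have h1 := En_reflect θ (fun x => ω (a + b - x)) (fun x => q (a + b - x)) f (a + b) z b
    simp only [sub_sub_cancel] at h1
    rw [h1]
    have h2 : a + b - b = a := by ring
    rw [h2]
    exact hE

/-- kinetic bound for left pieces -/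
lemma Data1.left_kin (h : Data1 a b ω q θ D j₁ j₂) {f : ℝ → ℝ} (hf : Lip f)
    (hf1 : ∀ x, 0 ≤ f x ∧ f x ≤ 1) {z : ℝ} (haz : j₁ ≤ z) (hzj : z ≤ j₂)
    (hE : En θ ω q a z f < 0) :
    θ * ∫ x in a..z, ω x * (deriv f x) ^ 2 ≤ D * (j₂ - j₁) := by
  rw [En_eq θ h.hω h.hq hf] at hE
  have h1 := h.q_nonpos_ae f le_rfl h.ha
  have h2 : ∫ x in j₁..z, q x * f x ^ 2 ≤ ∫ x in j₁..z, D := by
    apply intervalIntegral.integral_mono_on haz (pot_integrable h.hq hf j₁ z)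
      intervalIntegrable_const
    intro x hx
    have hx' : x ∈ Icc a b := ⟨h.ha.trans hx.1, hx.2.trans (hzj.trans h.hb)⟩
    have h3 := (h.hJ x ⟨hx.1, hx.2.trans hzj⟩).1
    have h4 := h.hD x hx'
    have h5 : f x ^ 2 ≤ 1 := by nlinarith [(hf1 x).1, (hf1 x).2]
    nlinarith [sq_nonneg (f x)]
  rw [intervalIntegral.integral_const, smul_eq_mul] at h2
  have h3 := intervalIntegral.integral_add_adjacent_intervals (pot_integrable h.hq hf a j₁)
    (pot_integrable h.hq hf j₁ z)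
  have h4 : (z - j₁) * D ≤ D * (j₂ - j₁) := by
    have := h.hD0
    nlinarith
  linarith

lemma Data1.right_kin (h : Data1 a b ω q θ D j₁ j₂) {f : ℝ → ℝ} (hf : Lip f)
    (hf1 : ∀ x, 0 ≤ f x ∧ f x ≤ 1) {z : ℝ} (haz : j₁ ≤ z) (hzj : z ≤ j₂)
    (hE : En θ ω q z b f < 0) :
    θ * ∫ x in z..b, ω x * (deriv f x) ^ 2 ≤ D * (j₂ - j₁) := by
  have hE' : En θ (fun x => ω (a + b - x)) (fun x => q (a + b - x)) a (a + b - z)
      (fun x => f (a + b - x)) < 0 := by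
    rw [En_reflect]
    simpa using hE
  have h1 := h.reflect.left_kin (hf.reflect (a + b)) (fun x => hf1 _) (z := a + b - z)
    (by linarith) (by linarith) hE'
  have h2 : ∫ x in a..(a + b - z), ω (a + b - x) * (deriv (fun x => f (a + b - x)) x) ^ 2
      = ∫ x in z..b, ω x * (deriv f x) ^ 2 := by
    have h3 := intervalIntegral.integral_comp_sub_left (a := a) (b := a + b - z)
      (fun x => ω x * (deriv f x) ^ 2) (a + b)
    have h4 : a + b - (a + b - z) = z := by ring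
    have h5 : a + b - a = b := by ring
    rw [h4, h5] at h3
    rw [← h3]
    congr 1
    ext x
    rw [deriv_comp_const_sub]
    ring
  rw [h2] at h1
  have h6 : a + b - j₁ - (a + b - j₂) = j₂ - j₁ := by ring
  rwa [h6] at h1

/-- energy of a piece between the maximum and the zero -/
lemma Data1.piece_ge (h : Data1 a b ω q θ D j₁ j₂) {f : ℝ → ℝ} (hf : Lip f)
    (hf1 : ∀ x, 0 ≤ f x ∧ f x ≤ 1) {s t : ℝ} (hs : j₁ ≤ s) (hst : s < t) (ht : t ≤ j₂)
    (hd : (f t - f s) ^ 2 = 1) :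
    2 / 3 * θ / (j₂ - j₁) - ∫ x in s..t, q x ≤ En θ ω q s t f := by
  rw [En_eq θ h.hω h.hq hf]
  have h1 := h.kin_ge hf hs hst.le ht
  have h2 := hf.sq_sub_le hst.le
  rw [hd] at h2
  have hL : 0 < j₂ - j₁ := sub_pos.mpr h.hj
  have h3 : 1 / (j₂ - j₁) ≤ ∫ x in s..t, (deriv f x) ^ 2 := by
    rw [div_le_iff₀ hL]
    have h4 : 0 ≤ ∫ x in s..t, (deriv f x) ^ 2 :=
      intervalIntegral.integral_nonneg hst.le fun x _ => sq_nonneg _
    nlinarith
  have h5 : ∫ x in s..t, q x * f x ^ 2 ≤ ∫ x in s..t, q x := by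
    apply intervalIntegral.integral_mono_on hst.le (pot_integrable h.hq hf s t)
      (h.hq.intervalIntegrable s t)
    intro x hx
    have h6 := (h.hJ x ⟨hs.trans hx.1, hx.2.trans ht⟩).1
    have h7 : f x ^ 2 ≤ 1 := by nlinarith [(hf1 x).1, (hf1 x).2]
    nlinarith
  have h6 : 2 / 3 * θ / (j₂ - j₁) = θ * (2 / 3 * (1 / (j₂ - j₁))) := by ring
  have h7 : θ * (2 / 3 * (1 / (j₂ - j₁))) ≤ θ * ∫ x in s..t, ω x * (deriv f x) ^ 2 := by
    apply mul_le_mul_of_nonneg_left _ h.hθ.le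
    linarith
  linarith

/-- Combination of a left piece and a right piece. -/
lemma Data1.combine (h : Data1 a b ω q θ D j₁ j₂) {z₁ z₂ : ℝ} (hz1 : j₁ ≤ z₁) (hz : z₁ < z₂)
    (hz2 : z₂ ≤ j₂) (hη : 3 * D * (j₂ - j₁) * (z₂ - z₁) < θ)
    (hη2 : D * (z₂ - z₁) ≤ 1 / 10 * θ / (j₂ - j₁))
    (hL : LeftGood θ ω q a z₂) (hR : RightGood θ ω q b z₁) :
    ∃ f, Lip f ∧ (∀ x, 0 ≤ f x ∧ f x ≤ 1) ∧ (∃ x ∈ Icc j₁ j₂, f x = 1) ∧
      En θ ω q a b f ≤ - (6 / 5 * θ / (j₂ - j₁)) ∧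
      θ * (∫ x in a..b, ω x * (deriv f x) ^ 2) ≤ 2 * D * (j₂ - j₁) := by
  have hLpos : 0 < j₂ - j₁ := sub_pos.mpr h.hj
  have hD0 := h.hD0
  have hθ := h.hθ
  have haj := h.ha
  have hjb := h.hb
  obtain ⟨f₁, hf₁, hf₁1, hf₁0, ⟨x₀, hx₀, hfx₀⟩, hE₁⟩ :=
    h.left_piece (by linarith) hz2 hL
  obtain ⟨f₂, hf₂, hf₂1, hf₂0, ⟨x₁, hx₁, hfx₁⟩, hE₂⟩ :=
    h.right_piece (by linarith) hz1 hR
  have hk₁ := h.left_kin hf₁ hf₁1 (by linarith) hz2 hE₁
  have hk₂ := h.right_kin hf₂ hf₂1 hz1 (by linarith) hE₂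
  -- x₀ ≤ z₁
  have hx₀z : x₀ ≤ z₁ := by
    by_contra hcon
    push Not at hcon
    have h1 := hf₁.sq_sub_le hx₀.2
    rw [hf₁0, hfx₀] at h1
    have h2 := h.kin_ge hf₁ hx₀.1 hx₀.2 hz2
    have h3 : ∫ x in x₀..z₂, ω x * (deriv f₁ x) ^ 2 ≤ ∫ x in a..z₂, ω x * (deriv f₁ x) ^ 2 := by
      rw [← intervalIntegral.integral_add_adjacent_intervals (kin_integrable h.hω hf₁ a x₀)
        (kin_integrable h.hω hf₁ x₀ z₂)]
      have := kin_nonneg h f₁ le_rfl (b' := x₀) (by linarith [hx₀.2]) (by linarith [hx₀.1])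
      linarith
    set K := ∫ x in x₀..z₂, (deriv f₁ x) ^ 2 with hK
    have hK0 : 0 ≤ K := intervalIntegral.integral_nonneg hx₀.2 fun x _ => sq_nonneg _
    have h4 : θ * (2 / 3 * K) ≤ D * (j₂ - j₁) :=
      (mul_le_mul_of_nonneg_left (h2.trans h3) hθ.le).trans hk₁
    have h5 : (z₂ - x₀) * K ≤ (z₂ - z₁) * K :=
      mul_le_mul_of_nonneg_right (by linarith) hK0
    have h6 : 1 ≤ (z₂ - z₁) * K := by linarith
    have h7 : θ * 1 ≤ θ * ((z₂ - z₁) * K) := mul_le_mul_of_nonneg_left h6 hθ.le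
    have h8 : (z₂ - z₁) * (θ * (2 / 3 * K)) ≤ (z₂ - z₁) * (D * (j₂ - j₁)) :=
      mul_le_mul_of_nonneg_left h4 (by linarith)
    nlinarith
  have hx₁z : z₂ ≤ x₁ := by
    by_contra hcon
    push Not at hcon
    have h1 := hf₂.sq_sub_le hx₁.1
    rw [hf₂0, hfx₁] at h1
    have h2 := h.kin_ge hf₂ hz1 hx₁.1 (by linarith [hx₁.2])
    have h3 : ∫ x in z₁..x₁, ω x * (deriv f₂ x) ^ 2 ≤ ∫ x in z₁..b, ω x * (deriv f₂ x) ^ 2 := by
      rw [← intervalIntegral.integral_add_adjacent_intervals (kin_integrable h.hω hf₂ z₁ x₁)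
        (kin_integrable h.hω hf₂ x₁ b)]
      have := kin_nonneg h f₂ (a' := x₁) (b' := b) (by linarith [hx₁.1]) le_rfl
        (by linarith [hx₁.2])
      linarith
    set K := ∫ x in z₁..x₁, (deriv f₂ x) ^ 2 with hK
    have hK0 : 0 ≤ K := intervalIntegral.integral_nonneg hx₁.1 fun x _ => sq_nonneg _
    have h4 : θ * (2 / 3 * K) ≤ D * (j₂ - j₁) :=
      (mul_le_mul_of_nonneg_left (h2.trans h3) hθ.le).trans hk₂
    have h5 : (x₁ - z₁) * K ≤ (z₂ - z₁) * K :=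
      mul_le_mul_of_nonneg_right (by linarith) hK0
    have h6 : 1 ≤ (z₂ - z₁) * K := by linarith
    have h7 : θ * 1 ≤ θ * ((z₂ - z₁) * K) := mul_le_mul_of_nonneg_left h6 hθ.le
    have h8 : (z₂ - z₁) * (θ * (2 / 3 * K)) ≤ (z₂ - z₁) * (D * (j₂ - j₁)) :=
      mul_le_mul_of_nonneg_left h4 (by linarith)
    nlinarith
  have hx01 : x₀ ≤ x₁ := by linarith
  set f : ℝ → ℝ := fun x => f₁ (min x x₀) + (f₂ (max x x₁) + (-1)) with hf
  have hflip : Lip f :=
    (hf₁.comp (Lip.min_const x₀)).add ((hf₂.comp (Lip.max_const x₁)).add (Lip.const (-1)))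
  have hleft : ∀ x, x ≤ x₀ → f x = f₁ x := by
    intro x hx
    simp only [hf, min_eq_left hx, max_eq_right (hx.trans hx01), hfx₁]
    ring
  have hmid : ∀ x, x₀ ≤ x → x ≤ x₁ → f x = 1 := by
    intro x hx hx'
    simp only [hf, min_eq_right hx, max_eq_right hx', hfx₁, hfx₀]
    ring
  have hright : ∀ x, x₁ ≤ x → f x = f₂ x := by
    intro x hx
    simp only [hf, min_eq_right (hx01.trans hx), max_eq_left hx, hfx₀]
    ring
  refine ⟨f, hflip, ?_, ⟨x₀, ⟨hx₀.1, by linarith [hx₀.2]⟩, hmid x₀ le_rfl hx01⟩, ?_, ?_⟩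
  · intro x
    rcases le_total x x₀ with hx | hx
    · rw [hleft x hx]; exact hf₁1 x
    · rcases le_total x x₁ with hx' | hx'
      · rw [hmid x hx hx']; norm_num
      · rw [hright x hx']; exact hf₂1 x
  · have e1 : En θ ω q a x₀ f = En θ ω q a x₀ f₁ :=
      En_congr (by linarith [hx₀.1]) fun x hx => hleft x hx.2.le
    have e2 : En θ ω q x₀ x₁ f = - ∫ x in x₀..x₁, q x := by
      have : En θ ω q x₀ x₁ f = En θ ω q x₀ x₁ (fun _ => 1) :=
        En_congr hx01 fun x hx => hmid x hx.1.le hx.2.le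
      rw [this, En]
      simp
    have e3 : En θ ω q x₁ b f = En θ ω q x₁ b f₂ :=
      En_congr (by linarith [hx₁.2]) fun x hx => hright x hx.1.le
    have s1 := En_add θ h.hω h.hq hflip a x₀ x₁
    have s2 := En_add θ h.hω h.hq hflip a x₁ b
    have t1 := En_add θ h.hω h.hq hf₁ a x₀ z₂
    have t2 := En_add θ h.hω h.hq hf₂ z₁ x₁ b
    have p1 := h.piece_ge hf₁ hf₁1 (s := x₀) (t := z₂) hx₀.1 (by linarith) hz2
      (by rw [hf₁0, hfx₀]; norm_num)
    have p2 := h.piece_ge hf₂ hf₂1 (s := z₁) (t := x₁) hz1 (by linarith) hx₁.2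
      (by rw [hf₂0, hfx₁]; norm_num)
    have hqi : ∀ s t, IntervalIntegrable q volume s t := fun s t => h.hq.intervalIntegrable s t
    have i1 := intervalIntegral.integral_add_adjacent_intervals (hqi x₀ z₁) (hqi z₁ z₂)
    have i2 := intervalIntegral.integral_add_adjacent_intervals (hqi z₁ z₂) (hqi z₂ x₁)
    have i3 := intervalIntegral.integral_add_adjacent_intervals (hqi x₀ z₂) (hqi z₂ x₁)
    have i4 : ∫ x in z₁..z₂, q x ≤ D * (z₂ - z₁) := by
      have : ∫ x in z₁..z₂, q x ≤ ∫ x in z₁..z₂, D := by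
        apply intervalIntegral.integral_mono_on hz.le (hqi _ _) intervalIntegrable_const
        intro x hx
        exact h.hD x ⟨by linarith [hx.1], by linarith [hx.2]⟩
      rw [intervalIntegral.integral_const, smul_eq_mul] at this
      linarith
    have hfin : 2 / 3 * θ / (j₂ - j₁) + 2 / 3 * θ / (j₂ - j₁) - 1 / 10 * θ / (j₂ - j₁)
        ≥ 6 / 5 * θ / (j₂ - j₁) := by
      have : 0 < θ / (j₂ - j₁) := by positivity
      have e : ∀ c : ℝ, c * θ / (j₂ - j₁) = c * (θ / (j₂ - j₁)) := fun c => by ring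
      rw [e, e, e]
      linarith
    linarith
  · have e1 : ∫ x in a..x₀, ω x * (deriv f x) ^ 2 = ∫ x in a..x₀, ω x * (deriv f₁ x) ^ 2 :=
      kin_congr (by linarith [hx₀.1]) fun x hx => hleft x hx.2.le
    have e2 : ∫ x in x₀..x₁, ω x * (deriv f x) ^ 2 = 0 := by
      have : ∫ x in x₀..x₁, ω x * (deriv f x) ^ 2
          = ∫ x in x₀..x₁, ω x * (deriv (fun _ : ℝ => (1 : ℝ)) x) ^ 2 :=
        kin_congr hx01 fun x hx => hmid x hx.1.le hx.2.le
      rw [this]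
      simp
    have e3 : ∫ x in x₁..b, ω x * (deriv f x) ^ 2 = ∫ x in x₁..b, ω x * (deriv f₂ x) ^ 2 :=
      kin_congr (by linarith [hx₁.2]) fun x hx => hright x hx.1.le
    have ki : ∀ s t, IntervalIntegrable (fun x => ω x * (deriv f x) ^ 2) volume s t :=
      fun s t => kin_integrable h.hω hflip s t
    have s1 := intervalIntegral.integral_add_adjacent_intervals (ki a x₀) (ki x₀ x₁)
    have s2 := intervalIntegral.integral_add_adjacent_intervals (ki a x₁) (ki x₁ b)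
    have t1 := intervalIntegral.integral_add_adjacent_intervals (kin_integrable h.hω hf₁ a x₀)
      (kin_integrable h.hω hf₁ x₀ z₂)
    have t2 := intervalIntegral.integral_add_adjacent_intervals (kin_integrable h.hω hf₂ z₁ x₁)
      (kin_integrable h.hω hf₂ x₁ b)
    have n1 := kin_nonneg h f₁ (a' := x₀) (b' := z₂) (by linarith [hx₀.1]) (by linarith)
      (by linarith)
    have n2 := kin_nonneg h f₂ (a' := z₁) (b' := x₁) (by linarith) (by linarith [hx₁.2])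
      (by linarith)
    have : ∫ x in a..b, ω x * (deriv f x) ^ 2
        ≤ (∫ x in a..z₂, ω x * (deriv f₁ x) ^ 2) + ∫ x in z₁..b, ω x * (deriv f₂ x) ^ 2 := by
      linarith
    have := mul_le_mul_of_nonneg_left this hθ.le
    linarith

/-- The one-dimensional main estimate. -/
theorem Data1.main (h : Data1 a b ω q θ D j₁ j₂)
    (hz : ∀ z ∈ Icc a b, ∃ g, Lip g ∧ g z = 0 ∧ En θ ω q a b g < 0) :
    ∃ f, Lip f ∧ (∀ x, 0 ≤ f x ∧ f x ≤ 1) ∧ (∃ x ∈ Icc j₁ j₂, f x = 1) ∧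
      En θ ω q a b f ≤ - (6 / 5 * θ / (j₂ - j₁)) ∧
      θ * (∫ x in a..b, ω x * (deriv f x) ^ 2) ≤ 2 * D * (j₂ - j₁) := by
  have hLpos : 0 < j₂ - j₁ := sub_pos.mpr h.hj
  have hD0 := h.hD0
  have hθ := h.hθ
  have haj := h.ha
  have hjb := h.hb
  have hab : a ≤ b := by linarith
  have hLR : ∀ z ∈ Icc a b, LeftGood θ ω q a z ∨ RightGood θ ω q b z := by
    intro z hz'
    obtain ⟨g, hg, hg0, hE⟩ := hz z hz'
    have := En_add θ h.hω h.hq hg a z b
    by_cases h1 : En θ ω q a z g < 0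
    · exact Or.inl ⟨g, hg, hg0, h1⟩
    · exact Or.inr ⟨g, hg, hg0, by linarith [not_lt.mp h1]⟩
  -- a uniform distance
  obtain ⟨c, hc0, hcL, hcq⟩ : ∃ c, 0 < c ∧ c ≤ j₂ - j₁ ∧ D * c ^ 2 ≤ 2 / 3 * θ := by
    refine ⟨min (Real.sqrt (2 / 3 * θ / D)) (j₂ - j₁), lt_min (Real.sqrt_pos.mpr (by positivity))
      hLpos, min_le_right _ _, ?_⟩
    have h1 : (min (Real.sqrt (2 / 3 * θ / D)) (j₂ - j₁)) ^ 2 ≤ (Real.sqrt (2 / 3 * θ / D)) ^ 2 :=
      pow_le_pow_left₀ (le_min (Real.sqrt_nonneg _) hLpos.le) (min_le_left _ _) 2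
    rw [Real.sq_sqrt (by positivity)] at h1
    have := mul_le_mul_of_nonneg_left h1 hD0.le
    rwa [mul_div_cancel₀ _ hD0.ne'] at this
  have hLq : ∀ z ∈ Icc a b, LeftGood θ ω q a z → j₁ + c ≤ z := by
    intro z hz' hg
    by_cases h1 : z ≤ j₂
    · obtain ⟨h2, h3⟩ := h.left_quant hz'.1 h1 hg
      by_contra hcon
      push Not at hcon
      have h4 : (z - j₁) ^ 2 ≤ c ^ 2 := pow_le_pow_left₀ (by linarith) (by linarith) 2
      have := mul_le_mul_of_nonneg_left h4 hD0.le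
      linarith
    · linarith
  have hRq : ∀ z ∈ Icc a b, RightGood θ ω q b z → z ≤ j₂ - c := by
    intro z hz' hg
    by_cases h1 : j₁ ≤ z
    · obtain ⟨h2, h3⟩ := h.right_quant hz'.2 h1 hg
      by_contra hcon
      push Not at hcon
      have h4 : (j₂ - z) ^ 2 ≤ c ^ 2 := pow_le_pow_left₀ (by linarith) (by linarith) 2
      have := mul_le_mul_of_nonneg_left h4 hD0.le
      linarith
    · linarith
  set S := {z | z ∈ Icc a b ∧ LeftGood θ ω q a z} with hS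
  have hbS : b ∈ S := by
    refine ⟨⟨hab, le_rfl⟩, ?_⟩
    rcases hLR b ⟨hab, le_rfl⟩ with h1 | h1
    · exact h1
    · obtain ⟨g, hg, hg0, hE⟩ := h1
      rw [En, intervalIntegral.integral_same] at hE
      exact absurd hE (lt_irrefl _)
  have hSb : BddBelow S := ⟨a, fun z hz' => hz'.1.1⟩
  set t := sInf S with ht
  have ht1 : j₁ + c ≤ t := le_csInf ⟨b, hbS⟩ fun z hz' => hLq z hz'.1 hz'.2
  have htb : t ≤ b := csInf_le hSb hbS
  have hlow : ∀ z, a ≤ z → z < t → RightGood θ ω q b z := by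
    intro z hz1 hz2
    have hz' : z ∈ Icc a b := ⟨hz1, by linarith⟩
    rcases hLR z hz' with h1 | h1
    · exact absurd (csInf_le hSb (show z ∈ S from ⟨hz', h1⟩)) (not_le.mpr hz2)
    · exact h1
  have ht2 : t ≤ j₂ - c := by
    by_contra hcon
    push Not at hcon
    have h1 : max a ((j₂ - c + t) / 2) < t := max_lt (by linarith) (by linarith)
    have h2 := hRq _ ⟨le_max_left _ _, by linarith⟩ (hlow _ (le_max_left _ _) h1)
    have h3 := le_max_right a ((j₂ - c + t) / 2)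
    linarith
  obtain ⟨η, hη0, hηc, hη1, hη2⟩ : ∃ η, 0 < η ∧ η ≤ c ∧ 3 * D * (j₂ - j₁) * (2 * η) < θ ∧
      D * (2 * η) ≤ 1 / 10 * θ / (j₂ - j₁) := by
    refine ⟨min c (min (θ / (12 * D * (j₂ - j₁))) (1 / 20 * θ / (j₂ - j₁) / D)),
      lt_min hc0 (lt_min (by positivity) (by positivity)), min_le_left _ _, ?_, ?_⟩
    · have h1 : min c (min (θ / (12 * D * (j₂ - j₁))) (1 / 20 * θ / (j₂ - j₁) / D))
        ≤ θ / (12 * D * (j₂ - j₁)) := (min_le_right _ _).trans (min_le_left _ _)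
      rw [le_div_iff₀ (by positivity)] at h1
      nlinarith
    · have h1 : min c (min (θ / (12 * D * (j₂ - j₁))) (1 / 20 * θ / (j₂ - j₁) / D))
        ≤ 1 / 20 * θ / (j₂ - j₁) / D := (min_le_right _ _).trans (min_le_right _ _)
      rw [le_div_iff₀ hD0] at h1
      have e : 1 / 10 * θ / (j₂ - j₁) = 2 * (1 / 20 * θ / (j₂ - j₁)) := by ring
      rw [e]
      linarith
  obtain ⟨z₂, hz₂S, hz₂⟩ : ∃ z ∈ S, z < t + η := exists_lt_of_csInf_lt ⟨b, hbS⟩ (by linarith)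
  have hz₂t : t ≤ z₂ := csInf_le hSb hz₂S
  have hz₁ : RightGood θ ω q b (t - η / 2) := hlow _ (by linarith) (by linarith)
  refine h.combine (z₁ := t - η / 2) (z₂ := z₂) (by linarith) (by linarith) (by linarith) ?_ ?_
    hz₂S.2 hz₁
  · have h1 : z₂ - (t - η / 2) ≤ 2 * η := by linarith
    have h2 : 3 * D * (j₂ - j₁) * (z₂ - (t - η / 2)) ≤ 3 * D * (j₂ - j₁) * (2 * η) :=
      mul_le_mul_of_nonneg_left h1 (by positivity)
    linarith
  · have h1 : z₂ - (t - η / 2) ≤ 2 * η := by linarith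
    have h2 : D * (z₂ - (t - η / 2)) ≤ D * (2 * η) :=
      mul_le_mul_of_nonneg_left h1 hD0.le
    linarith

end

end Pool.Agent.MP_e32423_an
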