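import Pool.Agent.Lib.MP_e32423_an.OneD

/-!
Smoothing of Lipschitz functions of one variable.
-/

namespace Pool.Agent.MP_e32423_an

open MeasureTheory Set Filter
open scoped NNReal Topology Interval

/-- one-sided average -/
noncomputable def sm (ε : ℝ) (h : ℝ → ℝ) (x : ℝ) : ℝ := ε⁻¹ * ∫ t in x..(x + ε), h t

lemma sm_hasDerivAt {ε : ℝ} {h : ℝ → ℝ} (hc : Continuous h) (x : ℝ) :
    HasDerivAt (sm ε h) (ε⁻¹ * (h (x + ε) - h x)) x := by
  have hi : ∀ a b, IntervalIntegrable h volume a b := fun a b => hc.intervalIntegrable a b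
  have h1 : HasDerivAt (fun x => ∫ t in (0 : ℝ)..x, h t) (h x) x :=
    intervalIntegral.integral_hasDerivAt_right (hi 0 x)
      (hc.stronglyMeasurableAtFilter _ _) hc.continuousAt
  have h2 : HasDerivAt (fun x => ∫ t in (0 : ℝ)..x, h t) (h (x + ε)) (x + ε) :=
    intervalIntegral.integral_hasDerivAt_right (hi 0 (x + ε))
      (hc.stronglyMeasurableAtFilter _ _) hc.continuousAt
  have h3 : HasDerivAt (fun x => ∫ t in (0 : ℝ)..(x + ε), h t) (h (x + ε)) x :=
    h2.comp_add_const x ε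
  have h4 : sm ε h = fun x => ε⁻¹ * ((∫ t in (0 : ℝ)..(x + ε), h t) - ∫ t in (0 : ℝ)..x, h t) := by
    ext x
    rw [sm]
    congr 1
    rw [eq_sub_iff_add_eq, add_comm]
    exact intervalIntegral.integral_add_adjacent_intervals (hi 0 x) (hi x (x + ε))
  rw [h4]
  exact (h3.sub h1).const_mul ε⁻¹

lemma sm_contDiff {ε : ℝ} {h : ℝ → ℝ} (hc : Continuous h) : ContDiff ℝ 1 (sm ε h) := by
  rw [contDiff_one_iff_deriv]
  refine ⟨fun x => (sm_hasDerivAt hc x).differentiableAt, ?_⟩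
  have : deriv (sm ε h) = fun x => ε⁻¹ * (h (x + ε) - h x) :=
    funext fun x => (sm_hasDerivAt hc x).deriv
  rw [this]
  fun_prop

lemma sm_bounds {ε : ℝ} (hε : 0 < ε) {h : ℝ → ℝ} (hc : Continuous h)
    (hb : ∀ x, 0 ≤ h x ∧ h x ≤ 1) (x : ℝ) : 0 ≤ sm ε h x ∧ sm ε h x ≤ 1 := by
  have hi : ∀ a b, IntervalIntegrable h volume a b := fun a b => hc.intervalIntegrable a b
  have h1 : 0 ≤ ∫ t in x..(x + ε), h t :=
    intervalIntegral.integral_nonneg (by linarith) fun t _ => (hb t).1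
  have h2 : ∫ t in x..(x + ε), h t ≤ ∫ t in x..(x + ε), (1 : ℝ) :=
    intervalIntegral.integral_mono_on (by linarith) (hi _ _) intervalIntegrable_const
      fun t _ => (hb t).2
  rw [intervalIntegral.integral_const, smul_eq_mul, mul_one, add_sub_cancel_left] at h2
  constructor
  · exact mul_nonneg (inv_nonneg.mpr hε.le) h1
  · rw [sm, inv_mul_le_iff₀ hε]
    linarith

lemma sm_sub_le {ε C : ℝ} (hε : 0 < ε) {h : ℝ → ℝ} (hc : Continuous h)
    (hC : ∀ x y, |h x - h y| ≤ C * |x - y|) (hC0 : 0 ≤ C) (x : ℝ) : |sm ε h x - h x| ≤ C * ε := by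
  have hi : ∀ a b, IntervalIntegrable h volume a b := fun a b => hc.intervalIntegrable a b
  have h1 : sm ε h x - h x = ε⁻¹ * ∫ t in x..(x + ε), (h t - h x) := by
    rw [intervalIntegral.integral_sub (hi _ _) intervalIntegrable_const,
      intervalIntegral.integral_const, smul_eq_mul, add_sub_cancel_left, mul_sub, sm,
      ← mul_assoc, inv_mul_cancel₀ hε.ne', one_mul]
  have h2 : ‖∫ t in x..(x + ε), (h t - h x)‖ ≤ C * ε * |x + ε - x| := by
    apply intervalIntegral.norm_integral_le_of_norm_le_const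
    intro t ht
    rw [uIoc_of_le (by linarith)] at ht
    rw [Real.norm_eq_abs]
    refine (hC t x).trans ?_
    apply mul_le_mul_of_nonneg_left _ hC0
    rw [abs_of_pos (by linarith [ht.1])]
    linarith [ht.2]
  rw [add_sub_cancel_left, abs_of_pos hε, Real.norm_eq_abs] at h2
  rw [h1, abs_mul, abs_of_pos (inv_pos.mpr hε), inv_mul_le_iff₀ hε]
  linarith

/-- Smoothing lemma. -/
lemma exists_smooth {h w : ℝ → ℝ} (hl : Lip h) (hb : ∀ x, 0 ≤ h x ∧ h x ≤ 1) {W : ℝ}
    (hwi : IntervalIntegrable w volume 0 1) (hw : ∀ x ∈ Ioo (0 : ℝ) 1, 0 ≤ w x ∧ w x ≤ W)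
    {e : ℝ} (he : 0 < e) :
    ∃ k : ℝ → ℝ, ContDiff ℝ 1 k ∧ (∀ x, 0 ≤ k x ∧ k x ≤ 1) ∧
      ∫ x in (0 : ℝ)..1, w x * (deriv k x) ^ 2 ≤ (∫ x in (0 : ℝ)..1, w x * (deriv h x) ^ 2) + e ∧
      ∫ x in (0 : ℝ)..1, k x ^ 2 ≤ (∫ x in (0 : ℝ)..1, h x ^ 2) + e ∧
      (∫ x in (0 : ℝ)..1, w x * h x ^ 2) - e ≤ ∫ x in (0 : ℝ)..1, w x * k x ^ 2 := by
  have hc := hl.continuous
  obtain ⟨C, hC⟩ := hl
  have hCd : ∀ x y, |h x - h y| ≤ C * |x - y| := fun x y => by
    have := hC.dist_le_mul x y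
    rwa [Real.dist_eq, Real.dist_eq] at this
  set ε : ℕ → ℝ := fun n => 1 / ((n : ℝ) + 1) with hε
  have hε0 : ∀ n, 0 < ε n := fun n => by simp only [hε]; positivity
  have hεlim : Tendsto ε atTop (𝓝 0) := tendsto_one_div_add_atTop_nhds_zero_nat
  have hεlim' : Tendsto ε atTop (𝓝[≠] 0) :=
    tendsto_nhdsWithin_iff.mpr ⟨hεlim, Eventually.of_forall fun n => (hε0 n).ne'⟩
  have hwm : AEStronglyMeasurable w (volume.restrict (Ι (0 : ℝ) 1)) :=
    (intervalIntegrable_iff.mp hwi).aestronglyMeasurable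
  have hae1 : ∀ᵐ x ∂(volume : Measure ℝ), x ≠ 1 := Measure.ae_ne volume 1
  have hkd : ∀ n x, deriv (sm (ε n) h) x = (ε n)⁻¹ * (h (x + ε n) - h x) :=
    fun n x => (sm_hasDerivAt hc x).deriv
  have hkdb : ∀ n x, |deriv (sm (ε n) h) x| ≤ C := by
    intro n x
    rw [hkd, abs_mul, abs_of_pos (inv_pos.mpr (hε0 n)), inv_mul_le_iff₀ (hε0 n)]
    have := hCd (x + ε n) x
    rw [add_sub_cancel_left, abs_of_pos (hε0 n)] at this
    linarith
  have hkx : ∀ x, Tendsto (fun n => sm (ε n) h x) atTop (𝓝 (h x)) := by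
    intro x
    rw [tendsto_iff_norm_sub_tendsto_zero]
    have h1 : Tendsto (fun n => (C : ℝ) * ε n) atTop (𝓝 0) := by
      simpa using hεlim.const_mul (C : ℝ)
    exact squeeze_zero (fun n => norm_nonneg _)
      (fun n => sm_sub_le (hε0 n) hc hCd C.2 x) h1
  -- kinetic part
  have lim1 : Tendsto (fun n => ∫ x in (0 : ℝ)..1, w x * (deriv (sm (ε n) h) x) ^ 2) atTop
      (𝓝 (∫ x in (0 : ℝ)..1, w x * (deriv h x) ^ 2)) := by
    apply intervalIntegral.tendsto_integral_filter_of_dominated_convergence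
      (fun _ => W * (C : ℝ) ^ 2)
    · filter_upwards with n
      exact hwm.mul ((measurable_deriv _).pow_const 2).aestronglyMeasurable
    · filter_upwards with n
      filter_upwards [hae1] with x hx1 hx
      rw [uIoc_of_le zero_le_one] at hx
      have hx' := hw x ⟨hx.1, lt_of_le_of_ne hx.2 hx1⟩
      rw [Real.norm_eq_abs, abs_mul, abs_of_nonneg hx'.1, abs_pow, ]
      have h1 := pow_le_pow_left₀ (abs_nonneg _) (hkdb n x) 2
      exact mul_le_mul hx'.2 h1 (by positivity) (hx'.1.trans hx'.2)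
    · exact intervalIntegrable_const
    · have hd : ∀ᵐ x, DifferentiableAt ℝ h x := hC.ae_differentiableAt_real
      filter_upwards [hd] with x hx _
      have h1 := hasDerivAt_iff_tendsto_slope_zero.mp hx.hasDerivAt
      have h2 := h1.comp hεlim'
      have h3 : Tendsto (fun n => deriv (sm (ε n) h) x) atTop (𝓝 (deriv h x)) := by
        simp only [hkd]
        exact h2
      exact (h3.pow 2).const_mul _
  have lim2 : Tendsto (fun n => ∫ x in (0 : ℝ)..1, (sm (ε n) h x) ^ 2) atTop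
      (𝓝 (∫ x in (0 : ℝ)..1, h x ^ 2)) := by
    apply intervalIntegral.tendsto_integral_filter_of_dominated_convergence (fun _ => 1)
    · filter_upwards with n
      exact ((sm_contDiff hc).continuous.pow 2).aestronglyMeasurable
    · filter_upwards with n
      filter_upwards with x _
      have h1 := sm_bounds (hε0 n) hc hb x
      rw [Real.norm_eq_abs, abs_of_nonneg (sq_nonneg _)]
      nlinarith
    · exact intervalIntegrable_const
    · filter_upwards with x _
      exact (hkx x).pow 2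
  have lim3 : Tendsto (fun n => ∫ x in (0 : ℝ)..1, w x * (sm (ε n) h x) ^ 2) atTop
      (𝓝 (∫ x in (0 : ℝ)..1, w x * h x ^ 2)) := by
    apply intervalIntegral.tendsto_integral_filter_of_dominated_convergence (fun _ => W)
    · filter_upwards with n
      exact hwm.mul ((sm_contDiff hc).continuous.pow 2).aestronglyMeasurable
    · filter_upwards with n
      filter_upwards [hae1] with x hx1 hx
      rw [uIoc_of_le zero_le_one] at hx
      have hx' := hw x ⟨hx.1, lt_of_le_of_ne hx.2 hx1⟩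
      have h1 := sm_bounds (hε0 n) hc hb x
      rw [Real.norm_eq_abs, abs_mul, abs_of_nonneg hx'.1, abs_of_nonneg (sq_nonneg _)]
      have h2 : (sm (ε n) h x) ^ 2 ≤ 1 := by nlinarith
      calc w x * (sm (ε n) h x) ^ 2 ≤ w x * 1 := mul_le_mul_of_nonneg_left h2 hx'.1
        _ ≤ W := by linarith [hx'.2]
    · exact intervalIntegrable_const
    · filter_upwards with x _
      exact ((hkx x).pow 2).const_mul _
  have ev1 := (tendsto_order.mp lim1).2 _ (lt_add_of_pos_right _ he)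
  have ev2 := (tendsto_order.mp lim2).2 _ (lt_add_of_pos_right _ he)
  have ev3 := (tendsto_order.mp lim3).1 _ (sub_lt_self _ he)
  obtain ⟨n, h1, h2, h3⟩ := (ev1.and (ev2.and ev3)).exists
  exact ⟨sm (ε n) h, sm_contDiff hc, sm_bounds (hε0 n) hc hb, h1.le, h2.le, h3.le⟩

end Pool.Agent.MP_e32423_an
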