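import Pool.Agent.Lib.MP_e32423_an.Upper
import Pool.Agent.Lib.MP_e32423_an.OneD2
import Pool.Agent.Lib.MP_e32423_an.Smooth

/-!
Ingredients of the lower bound for the gap of thin domains.
-/

namespace Pool.Agent.MP_e32423_an

open MeasureTheory Set Filter
open scoped Topology RealInnerProductSpace NNReal ENNReal

/-- zero potential -/
lemma eig_zero_bdd {α : ℝ} (hα : 0 ≤ α) {Ω : Set Plane} (ho : IsOpen Ω)
    (hb : Bornology.IsBounded Ω) {k : ℕ} (hk : k ≠ 0) :
    BddBelow (specSet α Ω (fun _ => 0) k) :=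
  specSet_bddBelow hα (fun _ => le_rfl) ho hb hk

/-- concave functions on an interval: a quarter of the maximum -/
lemma concave_quarter {q : ℝ → ℝ} {j₁ j₂ m D x : ℝ} (hq : ConcaveOn ℝ (Icc j₁ j₂) q)
    (hj : j₁ < j₂) (h1 : 0 ≤ q j₁) (h2 : 0 ≤ q j₂) (hm : m ∈ Icc j₁ j₂) (hD : q m = D)
    (hD0 : 0 < D) (hx1 : j₁ + (j₂ - j₁) / 4 ≤ x) (hx2 : x ≤ j₂ - (j₂ - j₁) / 4) : D / 4 ≤ q x := by
  have hL : 0 < j₂ - j₁ := sub_pos.mpr hj
  have hq2 := hq.2
  rcases le_total x m with hxm | hxm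
  · have hpos : 0 < m - j₁ := by linarith
    have h := hq2 (left_mem_Icc.mpr hj.le) hm (a := (m - x) / (m - j₁)) (b := (x - j₁) / (m - j₁))
      (div_nonneg (by linarith) hpos.le) (div_nonneg (by linarith) hpos.le)
      (by field_simp; ring)
    simp only [smul_eq_mul] at h
    have e : (m - x) / (m - j₁) * j₁ + (x - j₁) / (m - j₁) * m = x := by
      field_simp
      ring
    rw [e, hD] at h
    have h3 : 0 ≤ (m - x) / (m - j₁) * q j₁ := mul_nonneg (div_nonneg (by linarith) hpos.le) h1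
    have h4 : 1 / 4 ≤ (x - j₁) / (m - j₁) := by
      rw [le_div_iff₀ hpos]
      linarith [hm.2]
    have h5 := mul_le_mul_of_nonneg_right h4 hD0.le
    linarith
  · have hpos : 0 < j₂ - m := by linarith
    have h := hq2 hm (right_mem_Icc.mpr hj.le) (a := (j₂ - x) / (j₂ - m))
      (b := (x - m) / (j₂ - m))
      (div_nonneg (by linarith) hpos.le) (div_nonneg (by linarith) hpos.le)
      (by field_simp; ring)
    simp only [smul_eq_mul] at h
    have e : (j₂ - x) / (j₂ - m) * m + (x - m) / (j₂ - m) * j₂ = x := by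
      field_simp
      ring
    rw [e, hD] at h
    have h3 : 0 ≤ (x - m) / (j₂ - m) * q j₂ := mul_nonneg (div_nonneg (by linarith) hpos.le) h2
    have h4 : 1 / 4 ≤ (j₂ - x) / (j₂ - m) := by
      rw [le_div_iff₀ hpos]
      linarith [hm.1]
    have h5 := mul_le_mul_of_nonneg_right h4 hD0.le
    linarith

namespace Thin

variable {Ω : Set Plane} {p : Plane} {b : OrthonormalBasis (Fin 2) ℝ Plane}
    {f g : ℝ → ℝ} {W : ℝ}

/-- We may take `W` to be the supremum of the width. -/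
lemma exists_sup (h : Thin Ω p b f g W) :
    ∃ W' ≤ W, Thin Ω p b f g W' ∧ ∃ M ∈ Ioo (0 : ℝ) 1, 99 / 100 * W' ≤ g M - f M := by
  set S : Set ℝ := (fun x => g x - f x) '' Ioo 0 1 with hS
  have hbd : BddAbove S := ⟨W, by rintro _ ⟨x, hx, rfl⟩; exact h.width x hx⟩
  have hmem : (1 / 2 : ℝ) ∈ Ioo (0 : ℝ) 1 := by norm_num
  have hne : S.Nonempty := ⟨_, 1 / 2, hmem, rfl⟩
  have hpos : 0 < sSup S :=
    lt_of_lt_of_le (h.wpos _ hmem) (le_csSup hbd ⟨1 / 2, hmem, rfl⟩)
  refine ⟨sSup S, csSup_le hne (by rintro _ ⟨x, hx, rfl⟩; exact h.width x hx), ?_, ?_⟩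
  · exact { dom := h.dom, hp := h.hp, hq := h.hq, graph := h.graph, fconv := h.fconv,
            gconc := h.gconc, sgn := h.sgn,
            width := fun x hx => le_csSup hbd ⟨x, hx, rfl⟩, W0 := hpos }
  · obtain ⟨_, ⟨M, hM, rfl⟩, hlt⟩ := exists_lt_of_lt_csSup hne
      (show 99 / 100 * sSup S < sSup S by linarith)
    exact ⟨M, hM, hlt.le⟩

/-- upper bound for the form of a bump -/
lemma bump_le (h : Thin Ω p b f g W) {c r α Λ A : ℝ} (hα : 0 ≤ α) (h0 : 0 ≤ c - r) (hr : 0 < r)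
    (h1 : c + r ≤ 1) (hA : 0 ≤ A)
    (hq : ∀ x ∈ Ioo (c - r) (c + r), 2 * α - Λ * (g x - f x) ≤ -(A * W))
    (hc : 32 / r + 4 * α ≤ A * (81 / 256 * r)) :
    robinForm α Ω (fun _ => 0) (fun z => bump c r (cx p b z)) ≤
      Λ * ∫ z in Ω, (fun z => bump c r (cx p b z)) z ^ 2 := by
  have hW0 := h.W0
  have hC := bump_contDiff c r
  have k1 := h.form_cx_le hC (bump_bounds c r) hα
  have k2 := bump_kin_integral h0 hr h1 (w := fun x => g x - f x) (W := W)
    (fun x hx => ⟨(h.wpos x hx).le, h.width x hx⟩) hW0.le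
    (h.width_int (F := fun x => deriv (bump c r) x ^ 2) ((hC.continuous_deriv (by norm_num)).pow 2))
  have hi1 := h.width_int (F := fun x => bump c r x ^ 2) (hC.continuous.pow 2)
  have hi2 : IntervalIntegrable (fun x => bump c r x ^ 2) volume 0 1 :=
    (hC.continuous.pow 2).intervalIntegrable 0 1
  have k3 : 2 * α * (∫ x in (0 : ℝ)..1, bump c r x ^ 2) -
      Λ * (∫ x in (0 : ℝ)..1, (g x - f x) * bump c r x ^ 2) ≤ -(A * W) * (81 / 256 * r) := by
    have e1 : 2 * α * (∫ x in (0 : ℝ)..1, bump c r x ^ 2) -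
        Λ * (∫ x in (0 : ℝ)..1, (g x - f x) * bump c r x ^ 2)
        = ∫ x in (0 : ℝ)..1, (2 * α * bump c r x ^ 2 - Λ * ((g x - f x) * bump c r x ^ 2)) := by
      rw [intervalIntegral.integral_sub (hi2.const_mul _) (hi1.const_mul _),
        intervalIntegral.integral_const_mul, intervalIntegral.integral_const_mul]
    have e2 : ∫ x in (0 : ℝ)..1, (2 * α * bump c r x ^ 2 - Λ * ((g x - f x) * bump c r x ^ 2)) ≤
        ∫ x in (0 : ℝ)..1, -(A * W) * bump c r x ^ 2 := by
      apply intervalIntegral.integral_mono_on_of_le_Ioo zero_le_one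
        ((hi2.const_mul _).sub (hi1.const_mul _)) (hi2.const_mul _)
      intro x hx
      by_cases hx' : r ≤ |x - c|
      · rw [(bump_eq_zero hr hx').1]
        norm_num
      · push Not at hx'
        rw [abs_lt] at hx'
        have := hq x ⟨by linarith, by linarith⟩
        have h5 := mul_le_mul_of_nonneg_right this (sq_nonneg (bump c r x))
        linarith
    rw [e1]
    refine e2.trans ?_
    rw [intervalIntegral.integral_const_mul]
    have := (bump_sq_integral h0 hr h1).1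
    have hAW : 0 ≤ A * W := by positivity
    nlinarith
  have hm := h.mass_cx hC
  have e3 : ∫ z in Ω, (fun z => bump c r (cx p b z)) z ^ 2
      = ∫ x in (0 : ℝ)..1, (g x - f x) * bump c r x ^ 2 := hm
  rw [e3]
  have k4 := mul_le_mul_of_nonneg_left hc hW0.le
  nlinarith

lemma center_mem (h : Thin Ω p b f g W) {c : ℝ} (hc : c ∈ Ioo (0 : ℝ) 1) :
    ∃ z ∈ Ω, cx p b z = c := by
  have h1 := h.graph.lt c hc.1 hc.2
  refine ⟨pt p b c ((f c + g c) / 2), ?_, by simp⟩
  exact (h.graph.mem_iff _ _).mpr ⟨⟨hc.1, hc.2⟩, by constructor <;> linarith⟩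

lemma bump_center {c r : ℝ} : bump c r c = 1 := by simp [bump]

lemma mem_two_bumps (h : Thin Ω p b f g W) {c c' r α Λ A : ℝ} (hα : 0 ≤ α) (h0 : 0 ≤ c - r)
    (hr : 0 < r) (hcc : c + r ≤ c' - r) (h1 : c' + r ≤ 1) (hA : 0 ≤ A)
    (hq : ∀ x ∈ Ioo (c - r) (c' + r), 2 * α - Λ * (g x - f x) ≤ -(A * W))
    (hc : 32 / r + 4 * α ≤ A * (81 / 256 * r)) : Λ ∈ specSet α Ω (fun _ => 0) 2 := by
  obtain ⟨z, hz, hzc⟩ := h.center_mem (c := c) ⟨by linarith, by linarith⟩
  obtain ⟨z', hz', hzc'⟩ := h.center_mem (c := c') ⟨by linarith, by linarith⟩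
  refine mem_specSet_two h.dom.isBounded h.arc_lt continuous_const
    (u := fun z => bump c r (cx p b z)) (v := fun z => bump c' r (cx p b z))
    (contDiff_comp_cx p b (bump_contDiff c r)) (contDiff_comp_cx p b (bump_contDiff c' r))
    (bump_disj p b hr hcc) hz hz' ?_ ?_ ?_ ?_
  · simp only [hzc, bump_center]
    norm_num
  · simp only [hzc', bump_center]
    norm_num
  · exact h.bump_le hα h0 hr (by linarith) hA
      (fun x hx => hq x ⟨hx.1, by linarith [hx.2]⟩) hc
  · exact h.bump_le hα (by linarith) hr h1 hA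
      (fun x hx => hq x ⟨by linarith [hx.1], hx.2⟩) hc

/-- In a two-dimensional space there is a function with prescribed zero of the fibre average. -/
lemma exists_vanish {α Λ Λ' : ℝ} {Ω : Set Plane} (ho : IsOpen Ω) (hb : Bornology.IsBounded Ω)
    (hΛ' : Λ' ∈ specSet α Ω (fun _ => 0) 2) (hlt : Λ' < Λ) {f g : ℝ → ℝ} (δ z : ℝ) :
    ∃ u : Plane → ℝ, ContDiff ℝ 1 u ∧ av p b f g δ u z = 0 ∧
      robinForm α Ω (fun _ => 0) u - Λ * ∫ z in Ω, u z ^ 2 < 0 := by
  obtain ⟨E, hE, hc, hne, hle⟩ := hΛ'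
  let φ : E →ₗ[ℝ] ℝ :=
    { toFun := fun u => av p b f g δ (u : Plane → ℝ) z
      map_add' := fun u v => avg_add (hc u u.2).continuous (hc v v.2).continuous z
      map_smul' := fun c u => avg_smul c z }
  have : FiniteDimensional ℝ E := Module.finite_of_finrank_pos (by rw [hE]; norm_num)
  have hker : LinearMap.ker φ ≠ ⊥ :=
    LinearMap.ker_ne_bot_of_finrank_lt (by rw [hE, Module.finrank_self]; norm_num)
  obtain ⟨u, huk, hu0⟩ := (LinearMap.ker φ).exists_mem_ne_zero_of_ne_bot hker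
  refine ⟨u, hc u u.2, LinearMap.mem_ker.mp huk, ?_⟩
  obtain ⟨w, hw, huw⟩ := hne u u.2 (fun h => hu0 (Subtype.ext h))
  have hpos := mass_pos ho hb (hc u u.2).continuous hw huw
  have := hle u u.2
  nlinarith

/-- trial functions from clamped functions of one variable -/
lemma trial (h : Thin Ω p b f g W) {δ : ℝ} (hδ0 : 0 < δ) (hδ1 : δ ≤ 1 / 12) {v : ℝ → ℝ}
    (hv : Lip v) (hv1 : ∀ x, 0 ≤ v x ∧ v x ≤ 1) {α Λ e : ℝ} (hα : 0 ≤ α) (hΛ : 0 ≤ Λ)
    (he : 0 < e) :
    ∃ k : ℝ → ℝ, ContDiff ℝ 1 k ∧ (∀ x, 0 ≤ k x ∧ k x ≤ 1) ∧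
      robinForm α Ω (fun _ => 0) (fun z => k (cx p b z)) - Λ * ∫ z in Ω, k (cx p b z) ^ 2 ≤
        (∫ x in δ..(1 - δ), cw f g δ x * deriv v x ^ 2) +
          (∫ x in δ..(1 - δ), (2 * α - Λ * cw f g δ x) * v x ^ 2) +
          4 * α * δ + 4 * α * W + e * (1 + 2 * α + Λ) := by
  have hδ2 : δ ≤ 1 - δ := by linarith
  have hlc : Lip (cl δ) := ⟨1, cl_lip δ⟩
  have hvc := hv.comp hlc
  have hcw := h.cw_cont hδ0 hδ1
  have hwi : IntervalIntegrable (fun x => g x - f x) volume 0 1 := by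
    have := h.width_int (F := fun _ => 1) continuous_const
    simpa using this
  obtain ⟨k, hk, hk1, a1, a2, a3⟩ := exists_smooth (h := fun x => v (cl δ x)) hvc
    (fun x => hv1 _) (W := W) hwi (fun x hx => ⟨(h.wpos x hx).le, h.width x hx⟩) he
  refine ⟨k, hk, hk1, ?_⟩
  have b1 := h.form_cx_le hk hk1 hα
  have b2 := h.mass_cx hk
  rw [b2]
  have m0 : (0 : ℝ) ∈ Icc (0 : ℝ) 1 := ⟨le_rfl, zero_le_one⟩
  have m1 : (1 : ℝ) ∈ Icc (0 : ℝ) 1 := ⟨zero_le_one, le_rfl⟩
  have ma : δ ∈ Icc (0 : ℝ) 1 := ⟨hδ0.le, by linarith⟩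
  have mb : 1 - δ ∈ Icc (0 : ℝ) 1 := ⟨by linarith, by linarith⟩
  have hmono : ∀ {F : ℝ → ℝ}, IntervalIntegrable F volume 0 1 → ∀ {s t : ℝ}, s ∈ Icc (0 : ℝ) 1 →
      t ∈ Icc (0 : ℝ) 1 → IntervalIntegrable F volume s t := by
    intro F hF s t hs ht
    apply hF.mono_set
    rw [uIcc_of_le (zero_le_one (α := ℝ))]
    exact uIcc_subset_Icc hs ht
  -- kinetic part
  have hki : IntervalIntegrable (fun x => (g x - f x) * deriv (fun x => v (cl δ x)) x ^ 2)
      volume 0 1 := by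
    obtain ⟨C, hC0, hC⟩ := hvc.exists_bound
    have hbd : ∀ᵐ x ∂(volume.restrict (uIoc (0 : ℝ) 1)),
        ‖deriv (fun x => v (cl δ x)) x ^ 2‖ ≤ C ^ 2 := by
      filter_upwards with x
      rw [Real.norm_eq_abs, abs_pow]
      exact pow_le_pow_left₀ (abs_nonneg _) (hC x) 2
    rw [intervalIntegrable_iff] at hwi ⊢
    exact hwi.mul_bdd ((measurable_deriv _).pow_const 2).aestronglyMeasurable hbd
  have c1 : ∫ x in (0 : ℝ)..1, (g x - f x) * deriv (fun x => v (cl δ x)) x ^ 2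
      = ∫ x in δ..(1 - δ), cw f g δ x * deriv v x ^ 2 := by
    rw [← intervalIntegral.integral_add_adjacent_intervals (hmono hki m0 ma) (hmono hki ma m1),
      ← intervalIntegral.integral_add_adjacent_intervals (hmono hki ma mb) (hmono hki mb m1)]
    have z1 : ∫ x in (0 : ℝ)..δ, (g x - f x) * deriv (fun x => v (cl δ x)) x ^ 2 = 0 := by
      rw [intervalIntegral.integral_congr_ae (g := fun _ => 0), intervalIntegral.integral_zero]
      filter_upwards [Measure.ae_ne volume δ] with x hx hx2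
      rw [uIoc_of_le hδ0.le] at hx2
      have hlt : x < δ := lt_of_le_of_ne hx2.2 hx
      have : (fun x => v (cl δ x)) =ᶠ[𝓝 x] fun _ => v δ := by
        filter_upwards [Iio_mem_nhds hlt] with y hy
        unfold cl
        rw [max_eq_left]
        exact (min_le_left _ _).trans (le_of_lt hy)
      rw [this.deriv_eq]
      simp
    have z2 : ∫ x in (1 - δ)..(1 : ℝ), (g x - f x) * deriv (fun x => v (cl δ x)) x ^ 2 = 0 := by
      rw [intervalIntegral.integral_congr_ae (g := fun _ => 0), intervalIntegral.integral_zero]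
      filter_upwards with x hx2
      rw [uIoc_of_le (by linarith)] at hx2
      have : (fun x => v (cl δ x)) =ᶠ[𝓝 x] fun _ => v (1 - δ) := by
        filter_upwards [Ioi_mem_nhds hx2.1] with y hy
        unfold cl
        rw [min_eq_right (le_of_lt hy), max_eq_right hδ2]
      rw [this.deriv_eq]
      simp
    have z3 : ∫ x in δ..(1 - δ), (g x - f x) * deriv (fun x => v (cl δ x)) x ^ 2
        = ∫ x in δ..(1 - δ), cw f g δ x * deriv v x ^ 2 := by
      apply intervalIntegral.integral_congr_ae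
      filter_upwards [Measure.ae_ne volume (1 - δ)] with x hx hx2
      rw [uIoc_of_le hδ2] at hx2
      have hlt : x < 1 - δ := lt_of_le_of_ne hx2.2 hx
      have : (fun x => v (cl δ x)) =ᶠ[𝓝 x] v := by
        filter_upwards [Ioo_mem_nhds hx2.1 hlt] with y hy
        rw [cl_of_mem hy.1.le hy.2.le]
      rw [this.deriv_eq, cw_eq ⟨hx2.1.le, hx2.2⟩]
    rw [z1, z2, z3]
    ring
  -- mass part
  have hvcont := hv.continuous
  have hvccont := hvc.continuous
  have c2 : ∫ x in (0 : ℝ)..1, (fun x => v (cl δ x)) x ^ 2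
      ≤ (∫ x in δ..(1 - δ), v x ^ 2) + 2 * δ := by
    have hi : ∀ s t, IntervalIntegrable (fun x => (fun x => v (cl δ x)) x ^ 2) volume s t :=
      fun s t => (hvccont.pow 2).intervalIntegrable s t
    rw [← intervalIntegral.integral_add_adjacent_intervals (hi 0 δ) (hi δ 1),
      ← intervalIntegral.integral_add_adjacent_intervals (hi δ (1 - δ)) (hi (1 - δ) 1)]
    have z1 : ∫ x in (0 : ℝ)..δ, (fun x => v (cl δ x)) x ^ 2 ≤ ∫ x in (0 : ℝ)..δ, (1 : ℝ) :=
      intervalIntegral.integral_mono_on hδ0.le (hi _ _) intervalIntegrable_const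
        (fun x _ => by have := hv1 (cl δ x); simp only []; nlinarith)
    have z2 : ∫ x in (1 - δ)..(1 : ℝ), (fun x => v (cl δ x)) x ^ 2
        ≤ ∫ x in (1 - δ)..(1 : ℝ), (1 : ℝ) :=
      intervalIntegral.integral_mono_on (by linarith) (hi _ _) intervalIntegrable_const
        (fun x _ => by have := hv1 (cl δ x); simp only []; nlinarith)
    have z3 : ∫ x in δ..(1 - δ), (fun x => v (cl δ x)) x ^ 2 = ∫ x in δ..(1 - δ), v x ^ 2 := by
      apply intervalIntegral.integral_congr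
      intro x hx
      rw [uIcc_of_le hδ2] at hx
      simp only [cl_of_mem hx.1 hx.2]
    rw [intervalIntegral.integral_const, smul_eq_mul] at z1 z2
    rw [z3]
    linarith
  have c3 : ∫ x in δ..(1 - δ), cw f g δ x * v x ^ 2
      ≤ ∫ x in (0 : ℝ)..1, (g x - f x) * (fun x => v (cl δ x)) x ^ 2 := by
    have hi := h.width_int (F := fun x => (fun x => v (cl δ x)) x ^ 2) (hvccont.pow 2)
    rw [← intervalIntegral.integral_add_adjacent_intervals (hmono hi m0 ma) (hmono hi ma m1),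
      ← intervalIntegral.integral_add_adjacent_intervals (hmono hi ma mb) (hmono hi mb m1)]
    have z1 : 0 ≤ ∫ x in (0 : ℝ)..δ, (g x - f x) * (fun x => v (cl δ x)) x ^ 2 := by
      rw [intervalIntegral.integral_of_le hδ0.le]
      apply setIntegral_nonneg measurableSet_Ioc
      intro x hx
      exact mul_nonneg (h.wpos x ⟨hx.1, by linarith [hx.2]⟩).le (sq_nonneg _)
    have z2 : 0 ≤ ∫ x in (1 - δ)..(1 : ℝ), (g x - f x) * (fun x => v (cl δ x)) x ^ 2 := by
      rw [intervalIntegral.integral_of_le (by linarith), integral_Ioc_eq_integral_Ioo]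
      apply setIntegral_nonneg measurableSet_Ioo
      intro x hx
      exact mul_nonneg (h.wpos x ⟨by linarith [hx.1], hx.2⟩).le (sq_nonneg _)
    have z3 : ∫ x in δ..(1 - δ), (g x - f x) * (fun x => v (cl δ x)) x ^ 2
        = ∫ x in δ..(1 - δ), cw f g δ x * v x ^ 2 := by
      apply intervalIntegral.integral_congr
      intro x hx
      rw [uIcc_of_le hδ2] at hx
      simp only [cl_of_mem hx.1 hx.2, cw_eq hx]
    rw [z3]
    linarith
  have c4 : ∫ x in δ..(1 - δ), (2 * α - Λ * cw f g δ x) * v x ^ 2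
      = 2 * α * (∫ x in δ..(1 - δ), v x ^ 2) - Λ * ∫ x in δ..(1 - δ), cw f g δ x * v x ^ 2 := by
    have i1 : IntervalIntegrable (fun x => v x ^ 2) volume δ (1 - δ) :=
      (hvcont.pow 2).intervalIntegrable _ _
    have i2 : IntervalIntegrable (fun x => cw f g δ x * v x ^ 2) volume δ (1 - δ) :=
      (hcw.mul (hvcont.pow 2)).intervalIntegrable _ _
    rw [← intervalIntegral.integral_const_mul, ← intervalIntegral.integral_const_mul,
      ← intervalIntegral.integral_sub (i1.const_mul _) (i2.const_mul _)]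
    congr 1
    ext x
    ring
  rw [c1] at a1
  rw [c4]
  have d1 := mul_le_mul_of_nonneg_left (a2.trans (add_le_add_left c2 e)) hα
  have d2 := mul_le_mul_of_nonneg_left (le_trans (sub_le_sub_right c3 e) a3) hΛ
  nlinarith

end Thin

end Pool.Agent.MP_e32423_an
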