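import Pool.Agent.Lib.MP_e32423_an.Gap1

/-!
The gap of a thin domain is at least `1` for small Robin constants.
-/

namespace Pool.Agent.MP_e32423_an

open MeasureTheory Set Filter
open scoped Topology RealInnerProductSpace NNReal ENNReal

/-- the interval on which a concave function is nonnegative -/
lemma exists_interval {q : ℝ → ℝ} {a b D xm : ℝ} (hab : a < b) (hqc : Continuous q)
    (hq : ConcaveOn ℝ (Icc a b) q) (hxm : xm ∈ Icc a b) (hD : q xm = D) (hD0 : 0 < D) :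
    ∃ j₁ j₂, a ≤ j₁ ∧ j₁ < j₂ ∧ j₂ ≤ b ∧ xm ∈ Icc j₁ j₂ ∧ (∀ x ∈ Icc j₁ j₂, 0 ≤ q x) ∧
      (∀ x ∈ Icc a j₁, x ≠ j₁ → q x ≤ 0) ∧ (∀ x ∈ Icc j₂ b, x ≠ j₂ → q x ≤ 0) := by
  set S : Set ℝ := Icc a b ∩ {x | 0 ≤ q x} with hS
  have hcS : IsCompact S := isCompact_Icc.inter_right (isClosed_le continuous_const hqc)
  have hmS : xm ∈ S := ⟨hxm, by rw [mem_setOf_eq, hD]; exact hD0.le⟩
  have hne : S.Nonempty := ⟨xm, hmS⟩
  have h1 := hcS.sInf_mem hne
  have h2 := hcS.sSup_mem hne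
  have hle1 : ∀ x ∈ S, sInf S ≤ x := fun x hx => csInf_le hcS.bddBelow hx
  have hle2 : ∀ x ∈ S, x ≤ sSup S := fun x hx => le_csSup hcS.bddAbove hx
  have hpos : ∀ᶠ y in 𝓝 xm, 0 < q y :=
    hqc.continuousAt.eventually (lt_mem_nhds (by rw [hD]; exact hD0))
  obtain ⟨ε, hε, hball⟩ := Metric.eventually_nhds_iff.mp hpos
  have hlt : sInf S < sSup S := by
    rcases lt_or_ge xm b with hb | hb
    · set y := min b (xm + ε / 2) with hy
      have hy1 : xm < y := lt_min hb (by linarith)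
      have hy2 : y ≤ xm + ε / 2 := min_le_right _ _
      have hyS : y ∈ S := by
        refine ⟨⟨by linarith [hxm.1], min_le_left _ _⟩, ?_⟩
        refine le_of_lt (a := 0) (b := q y) ?_
        apply hball
        rw [Real.dist_eq, abs_of_pos (by linarith)]
        linarith
      exact lt_of_le_of_lt (hle1 _ hmS) (lt_of_lt_of_le hy1 (hle2 _ hyS))
    · have hb' : xm = b := le_antisymm hxm.2 hb
      set y := max a (xm - ε / 2) with hy
      have hy1 : y < xm := max_lt (by linarith) (by linarith)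
      have hy2 : xm - ε / 2 ≤ y := le_max_right _ _
      have hyS : y ∈ S := by
        refine ⟨⟨le_max_left _ _, by linarith⟩, ?_⟩
        refine le_of_lt (a := 0) (b := q y) ?_
        apply hball
        rw [Real.dist_eq, abs_of_neg (by linarith)]
        linarith
      exact lt_of_le_of_lt (hle1 _ hyS) (lt_of_lt_of_le hy1 (hle2 _ hmS))
  refine ⟨sInf S, sSup S, h1.1.1, hlt, h2.1.2, ⟨hle1 _ hmS, hle2 _ hmS⟩, ?_, ?_, ?_⟩
  · intro x hx
    have := hq.min_le_of_mem_Icc h1.1 h2.1 hx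
    exact (le_min h1.2 h2.2).trans this
  · intro x hx hne
    by_contra hcon
    push Not at hcon
    have hxS : x ∈ S := ⟨⟨hx.1, by linarith [hx.2, h1.1.2]⟩, hcon.le⟩
    exact hne (le_antisymm hx.2 (hle1 x hxS))
  · intro x hx hne
    by_contra hcon
    push Not at hcon
    have hxS : x ∈ S := ⟨⟨by linarith [hx.1, h2.1.1], hx.2⟩, hcon.le⟩
    exact hne (le_antisymm (hle2 x hxS) hx.1)

namespace Thin

variable {Ω : Set Plane} {p : Plane} {b : OrthonormalBasis (Fin 2) ℝ Plane}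
    {f g : ℝ → ℝ} {W : ℝ}

/-- the second eigenvalue is at most `7/5 κ` -/
lemma spec_two (h : Thin Ω p b f g W) {M : ℝ} (hM : M ∈ Ioo (0 : ℝ) 1)
    (hMW : 99 / 100 * W ≤ g M - f M) {α κ : ℝ} (hα0 : 0 < α) (hα1 : α ≤ 1)
    (hκ : κ * W = 2 * α) (hκ1 : 4000000 ≤ κ) :
    7 / 5 * κ ∈ specSet α Ω (fun _ => 0) 2 := by
  have hW0 := h.W0
  have hw0 : ∀ x ∈ Ioo (0 : ℝ) 1, 0 ≤ (fun x => g x - f x) x := fun x hx => (h.wpos x hx).le
  have key : ∀ x ∈ Ioo (0 : ℝ) 1, 3 / 4 * (99 / 100 * W) ≤ g x - f x →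
      2 * α - 7 / 5 * κ * (g x - f x) ≤ -(39 / 1000 * κ * W) := by
    intro x hx hle
    have h1 := mul_le_mul_of_nonneg_left hle (show (0 : ℝ) ≤ 7 / 5 * κ by linarith)
    have h2 : 0 ≤ κ * W := by positivity
    nlinarith
  have hc : 32 / (1 / 32 : ℝ) + 4 * α ≤ 39 / 1000 * κ * (81 / 256 * (1 / 32)) := by
    norm_num
    nlinarith
  rcases le_total M (1 / 2) with hM2 | hM2
  · refine h.mem_two_bumps (c := M + 1 / 32) (c' := M + 3 / 32) (r := 1 / 32)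
      (A := 39 / 1000 * κ) hα0.le (by linarith [hM.1]) (by norm_num) (by linarith)
      (by linarith [hM.2]) (by linarith) ?_ hc
    intro x hx
    have hx1 : M < x := by linarith [hx.1]
    have hx2 : x < M + 1 / 8 := by linarith [hx.2]
    have hx01 : x ∈ Ioo (0 : ℝ) 1 := ⟨by linarith [hM.1], by linarith⟩
    apply key x hx01
    have h1 := concave_right h.wconc hw0 hM.1 hx1.le hx01.2
    have h2 := h.wpos x hx01
    have h3 : (1 - x) * (99 / 100 * W) ≤ (1 - M) * (g x - f x) :=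
      (mul_le_mul_of_nonneg_left hMW (by linarith)).trans h1
    by_contra hcon
    push Not at hcon
    have h4 : (1 - M) * (g x - f x) < (1 - M) * (3 / 4 * (99 / 100 * W)) :=
      mul_lt_mul_of_pos_left hcon (by linarith)
    nlinarith
  · refine h.mem_two_bumps (c := M - 3 / 32) (c' := M - 1 / 32) (r := 1 / 32)
      (A := 39 / 1000 * κ) hα0.le (by linarith [hM.1]) (by norm_num) (by linarith)
      (by linarith [hM.2]) (by linarith) ?_ hc
    intro x hx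
    have hx1 : x < M := by linarith [hx.2]
    have hx2 : M - 1 / 8 < x := by linarith [hx.1]
    have hx01 : x ∈ Ioo (0 : ℝ) 1 := ⟨by linarith, by linarith [hM.2]⟩
    apply key x hx01
    have h1 := concave_left h.wconc hw0 hx01.1 hx1.le hM.2
    have h2 := h.wpos x hx01
    have h3 : x * (99 / 100 * W) ≤ M * (g x - f x) :=
      (mul_le_mul_of_nonneg_left hMW (by linarith)).trans h1
    by_contra hcon
    push Not at hcon
    have h4 : M * (g x - f x) < M * (3 / 4 * (99 / 100 * W)) :=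
      mul_lt_mul_of_pos_left hcon (by linarith)
    nlinarith

end Thin

/-- The numerical parameters of the argument. -/
structure Par (W α κ l Λ δ θ Λ2 : ℝ) : Prop where
  hW0 : 0 < W
  hα0 : 0 < α
  hα1 : α ≤ 1 / 1000000000000
  hκ : κ * W = 2 * α
  hκ1 : 4000000 ≤ κ
  hl0 : 0 ≤ l
  hΛ : Λ = l + 1 / 100
  hδ : δ = 10000 * W
  hδ1 : δ ≤ 1 / 1000000
  hΛδ : Λ * δ ≤ 3 / 100000000
  hζ : 12 * Λ * δ ^ 2 ≤ 1 / 1000000000
  hΛW2 : Λ * W ^ 2 ≤ 1 / 100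
  hWδ : (W / δ) ^ 2 = 1 / 100000000
  hθ : θ = (1 - 12 * Λ * δ ^ 2) / (1 + 1 / 10000000) - 12 * Λ * δ
  hθ1 : 1 - 1 / 1000000 ≤ θ
  hθ2 : θ ≤ 1
  hΛ2 : Λ2 = Λ + 16 * α ^ 2 + 96 * Λ * δ
  hν : Λ2 - Λ ≤ 3 / 1000000
  hν0 : 0 ≤ Λ2 - Λ
  hΛ2κ : Λ2 ≤ 3 / 2 * κ

lemma exists_par {W α κ l : ℝ} (hW0 : 0 < W) (hα0 : 0 < α) (hα1 : α ≤ 1 / 1000000000000)
    (hWα : W ≤ α / 2000000) (hκ : κ * W = 2 * α) (hκ1 : 4000000 ≤ κ) (hl0 : 0 ≤ l)
    (hl1 : l ≤ 7 / 5 * κ) : ∃ Λ δ θ Λ2, Par W α κ l Λ δ θ Λ2 := by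
  obtain ⟨Λ, hΛ⟩ : ∃ Λ : ℝ, Λ = l + 1 / 100 := ⟨_, rfl⟩
  have hΛ0 : 0 ≤ Λ := by linarith
  have hΛκ : Λ ≤ 141 / 100 * κ := by linarith
  have hΛW : Λ * W ≤ 282 / 100 * α := by
    have := mul_le_mul_of_nonneg_right hΛκ hW0.le
    linarith
  have hΛWn : 0 ≤ Λ * W := mul_nonneg hΛ0 hW0.le
  obtain ⟨δ, hδ⟩ : ∃ δ : ℝ, δ = 10000 * W := ⟨_, rfl⟩
  have hδ0 : 0 < δ := by rw [hδ]; positivity
  have hδ1 : δ ≤ 1 / 1000000 := by rw [hδ]; linarith
  have hW1 : W ≤ 1 := by linarith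
  have hΛδ : Λ * δ ≤ 3 / 100000000 := by
    have : Λ * δ = 10000 * (Λ * W) := by rw [hδ]; ring
    rw [this]
    linarith
  have hΛδ0 : 0 ≤ Λ * δ := mul_nonneg hΛ0 hδ0.le
  have hζ : 12 * Λ * δ ^ 2 ≤ 1 / 1000000000 := by
    have h1 : 12 * Λ * δ ^ 2 = 12 * ((Λ * δ) * δ) := by ring
    rw [h1]
    have := mul_le_mul hΛδ hδ1 hδ0.le (by norm_num)
    linarith
  have hζ0 : 0 ≤ 12 * Λ * δ ^ 2 := by positivity
  have hΛW2 : Λ * W ^ 2 ≤ 1 / 100 := by
    have h1 : Λ * W ^ 2 = (Λ * W) * W := by ring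
    rw [h1]
    have := mul_le_mul hΛW hW1 hW0.le (by linarith)
    linarith
  have hWδ : (W / δ) ^ 2 = 1 / 100000000 := by
    have : W / δ = 1 / 10000 := by
      rw [hδ]
      field_simp
    rw [this]
    norm_num
  obtain ⟨θ, hθ⟩ : ∃ θ : ℝ, θ = (1 - 12 * Λ * δ ^ 2) / (1 + 1 / 10000000) - 12 * Λ * δ := ⟨_, rfl⟩
  have hθ1 : 1 - 1 / 1000000 ≤ θ := by
    have h1 : 1 - 2 / 10000000 ≤ (1 - 12 * Λ * δ ^ 2) / (1 + 1 / 10000000) := by
      rw [le_div_iff₀ (by norm_num)]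
      linarith
    rw [hθ]
    linarith
  have hθ2 : θ ≤ 1 := by
    have h1 : (1 - 12 * Λ * δ ^ 2) / (1 + 1 / 10000000) ≤ 1 := by
      rw [div_le_one (by norm_num)]
      linarith
    rw [hθ]
    linarith
  obtain ⟨Λ2, hΛ2⟩ : ∃ Λ2 : ℝ, Λ2 = Λ + 16 * α ^ 2 + 96 * Λ * δ := ⟨_, rfl⟩
  have hα2 : α ^ 2 ≤ 1 / 1000000000000 := by
    have := mul_le_mul hα1 (show α ≤ 1 by linarith) hα0.le (by norm_num)
    rw [pow_two]
    linarith
  have hν : Λ2 - Λ ≤ 3 / 1000000 := by rw [hΛ2]; linarith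
  have hν0 : 0 ≤ Λ2 - Λ := by rw [hΛ2]; linarith [sq_nonneg α]
  have hΛ2κ : Λ2 ≤ 3 / 2 * κ := by linarith
  exact ⟨Λ, δ, θ, Λ2, ⟨hW0, hα0, hα1, hκ, hκ1, hl0, hΛ, hδ, hδ1, hΛδ, hζ, hΛW2, hWδ, hθ, hθ1,
    hθ2, hΛ2, hν, hν0, hΛ2κ⟩⟩

namespace Par

variable {W α κ l Λ δ θ Λ2 : ℝ}

lemma hδ0 (P : Par W α κ l Λ δ θ Λ2) : 0 < δ := by
  have h1 := P.hδ
  have h2 := P.hW0
  rw [h1]
  positivity

lemma hδ12 (P : Par W α κ l Λ δ θ Λ2) : δ ≤ 1 / 12 := by
  have := P.hδ1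
  linarith

lemma hδ2 (P : Par W α κ l Λ δ θ Λ2) : δ < 1 - δ := by
  have := P.hδ1
  linarith

lemma hΛ0 (P : Par W α κ l Λ δ θ Λ2) : 0 ≤ Λ := by
  have h1 := P.hΛ
  have h2 := P.hl0
  linarith

lemma hW1 (P : Par W α κ l Λ δ θ Λ2) : W ≤ 1 := by
  have h1 := P.hδ
  have h2 := P.hδ1
  linarith

lemma hα (P : Par W α κ l Λ δ θ Λ2) : 0 ≤ α := P.hα0.le

lemma hθ0 (P : Par W α κ l Λ δ θ Λ2) : 0 < θ := by
  have := P.hθ1
  linarith

lemma hT (P : Par W α κ l Λ δ θ Λ2) :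
    (1 - 12 * Λ * δ ^ 2) * (1 / (1 / 10000000) * (W / δ) ^ 2) + 1 / 4 + 4 * Λ * W ^ 2
      ≤ 1 - 12 * Λ * δ ^ 2 := by
  have h1 := P.hζ
  have h2 := P.hΛW2
  have h3 : 0 ≤ Λ * δ ^ 2 := mul_nonneg P.hΛ0 (sq_nonneg _)
  rw [P.hWδ]
  norm_num
  linarith

lemma hαW (P : Par W α κ l Λ δ θ Λ2) : 2 * α / W = κ := by
  have h1 := P.hκ
  have h2 := P.hW0
  rw [← h1]
  field_simp

end Par

/-- numerical part of the estimate of the second eigenvalue -/
lemma arith_hc {α D L : ℝ} (hα0 : 0 < α) (hα1 : α ≤ 1 / 1000000000000) (hL0 : 0 < L)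
    (hL1 : L ≤ 1) (hcon : 28160 < D * L ^ 2) :
    32 / (L / 8) + 4 * α ≤ (D / 4 - 21 / 1000) * (81 / 256 * (L / 8)) := by
  have h1 : 32 / (L / 8) + 4 * α = (32 + 4 * α * (L / 8)) / (L / 8) := by
    field_simp
  rw [h1, div_le_iff₀ (by positivity)]
  have h2 : α * L ≤ 1 / 1000 := by
    have := mul_le_mul hα1 hL1 hL0.le (by norm_num)
    linarith
  have hL2 : L ^ 2 ≤ 1 := by
    have := mul_le_mul hL1 hL1 hL0.le zero_le_one
    rw [pow_two]
    linarith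
  have h3 : (D / 4 - 21 / 1000) * (81 / 256 * (L / 8)) * (L / 8)
      = 81 / 65536 * (D * L ^ 2) - 21 / 1000 * (81 / 16384) * L ^ 2 := by ring
  rw [h3]
  linarith

/-- numerical part of the final estimate -/
lemma arith_final {θ K P D L : ℝ} (hθ1 : 1 - 1 / 1000000 ≤ θ) (hθ2 : θ ≤ 1) (hK0 : 0 ≤ K)
    (hL0 : 0 < L) (hL1 : L ≤ 1) (hDL : D * L ^ 2 ≤ 28160)
    (hE : θ * K - P ≤ -(6 / 5 * θ / L)) (hK : θ * K ≤ 2 * D * L) :
    K - P ≤ -(11 / 10 + 3 / 100) := by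
  obtain ⟨I, hI⟩ : ∃ I : ℝ, I = 1 / L := ⟨_, rfl⟩
  have hI1 : 1 ≤ I := by rw [hI, le_div_iff₀ hL0]; linarith
  have hE' : θ * K - P ≤ -(6 / 5 * θ * I) := by
    refine hE.trans (le_of_eq ?_)
    rw [hI]
    ring
  have hDL' : D * L ≤ 28160 * I := by
    rw [hI, mul_one_div, le_div_iff₀ hL0]
    linarith
  have h1 : θ * K ≤ 56320 * I := by linarith
  have h0 : (1 - 1 / 1000000) * K ≤ θ * K := mul_le_mul_of_nonneg_right hθ1 hK0
  have h2 : K ≤ 56400 * I := by linarith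
  have h3 : (1 - θ) * K ≤ 1 / 1000000 * K := mul_le_mul_of_nonneg_right (by linarith) hK0
  have h4 : (1 - 1 / 1000000) * I ≤ θ * I := mul_le_mul_of_nonneg_right hθ1 (by linarith)
  linarith

namespace Thin

variable {Ω : Set Plane} {p : Plane} {b : OrthonormalBasis (Fin 2) ℝ Plane}
    {f g : ℝ → ℝ} {W : ℝ} {α κ l Λ δ θ Λ2 : ℝ}

/-- the reduced potential -/
noncomputable def qq (f g : ℝ → ℝ) (W α Λ2 δ : ℝ) (x : ℝ) : ℝ :=
  Λ2 * (cw f g δ x / W) - 2 * α / W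

lemma qq_cont (h : Thin Ω p b f g W) (P : Par W α κ l Λ δ θ Λ2) :
    Continuous (qq f g W α Λ2 δ) :=
  (continuous_const.mul ((h.cw_cont P.hδ0 P.hδ12).div_const W)).sub continuous_const

lemma qq_concave (h : Thin Ω p b f g W) (P : Par W α κ l Λ δ θ Λ2) :
    ConcaveOn ℝ (Icc δ (1 - δ)) (qq f g W α Λ2 δ) := by
  have hδ0 := P.hδ0
  have hΛ0 := P.hΛ0
  have hν0 := P.hν0
  have hW0 := P.hW0
  have hΛ2 : 0 ≤ Λ2 := by linarith
  refine ⟨convex_Icc _ _, ?_⟩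
  intro x hx y hy s t hs ht hst
  have hsub : ∀ {z : ℝ}, z ∈ Icc δ (1 - δ) → z ∈ Ioo (0 : ℝ) 1 := fun hz =>
    ⟨by linarith [hz.1], by linarith [hz.2]⟩
  have hmem := (convex_Icc δ (1 - δ)) hx hy hs ht hst
  have hc := h.wconc.2 (hsub hx) (hsub hy) hs ht hst
  simp only [smul_eq_mul] at hc hmem ⊢
  simp only [qq]
  rw [cw_eq hx, cw_eq hy, cw_eq hmem]
  have h1 := mul_le_mul_of_nonneg_left hc (div_nonneg hΛ2 hW0.le)
  have e : s * (Λ2 * ((g x - f x) / W) - 2 * α / W) + t * (Λ2 * ((g y - f y) / W) - 2 * α / W)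
      = Λ2 / W * (s * (g x - f x) + t * (g y - f y)) - (s + t) * (2 * α / W) := by ring
  rw [e, hst, one_mul]
  refine (sub_le_sub_right h1 _).trans (le_of_eq ?_)
  ring

/-- functions with negative energy and prescribed zero -/
lemma exists_neg (h : Thin Ω p b f g W) (P : Par W α κ l Λ δ θ Λ2) {Λ' : ℝ}
    (hΛ'mem : Λ' ∈ specSet α Ω (fun _ => 0) 2) (hΛ'lt : Λ' < Λ) (z : ℝ) :
    ∃ v, Lip v ∧ v z = 0 ∧
      En θ (fun x => cw f g δ x / W) (qq f g W α Λ2 δ) δ (1 - δ) v < 0 := by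
  obtain ⟨u, hu, huz, huF⟩ := exists_vanish (p := p) (b := b) h.dom.isOpen h.dom.isBounded
    hΛ'mem hΛ'lt (f := f) (g := g) δ z
  refine ⟨av p b f g δ u, h.av_lip P.hW1 P.hδ0 P.hδ12 hu, huz, ?_⟩
  have hlow := h.lower_bound P.hW1 P.hδ0 P.hδ12 hu P.hα P.hΛ0 (P.hζ.trans (by norm_num))
    (show (0 : ℝ) < 1 / 10000000 by norm_num) P.hT
  rw [← P.hθ, ← P.hΛ2] at hlow
  by_contra hcon
  push Not at hcon
  have := mul_nonneg P.hW0.le hcon
  have e : qq f g W α Λ2 δ = fun x => Λ2 * (cw f g δ x / W) - 2 * α / W := rfl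
  rw [e] at this
  linarith

/-- The product of the depth and the square of the width of the well is bounded. -/
lemma bound_DL (h : Thin Ω p b f g W) (P : Par W α κ l Λ δ θ Λ2)
    (hl : l = robinEigenvalue α Ω (fun _ => 0) 2) {D j₁ j₂ xm : ℝ} (hD0 : 0 < D)
    (ha : δ ≤ j₁) (hj : j₁ < j₂) (hbb : j₂ ≤ 1 - δ) (hxj : xm ∈ Icc j₁ j₂)
    (hD : qq f g W α Λ2 δ xm = D) (hJ : ∀ x ∈ Icc j₁ j₂, 0 ≤ qq f g W α Λ2 δ x) :
    D * (j₂ - j₁) ^ 2 ≤ 28160 := by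
  obtain ⟨L, hL⟩ : ∃ L : ℝ, L = j₂ - j₁ := ⟨_, rfl⟩
  have hδ0 := P.hδ0
  have hW0 := P.hW0
  have hL0 : 0 < L := by rw [hL]; linarith
  have hL1 : L ≤ 1 := by rw [hL]; linarith
  rw [← hL]
  by_contra hcon
  push Not at hcon
  have hL2 : L ^ 2 ≤ 1 := by
    have := mul_le_mul hL1 hL1 hL0.le zero_le_one
    rw [pow_two]
    linarith
  have hD1 : 28160 < D := by
    have := mul_le_mul_of_nonneg_left hL2 hD0.le
    linarith
  have hmem : l - 1 / 100 ∈ specSet α Ω (fun _ => 0) 2 := by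
    refine h.mem_two_bumps (c := j₁ + 3 * L / 8) (c' := j₁ + 5 * L / 8) (r := L / 8)
      (A := D / 4 - 21 / 1000) P.hα (by linarith) (by positivity) (by linarith)
      (by linarith) (by linarith) ?_ (arith_hc P.hα0 P.hα1 hL0 hL1 hcon)
    intro x hx
    have hx1 : j₁ + L / 4 < x := by linarith [hx.1]
    have hx2 : x < j₁ + 3 * L / 4 := by linarith [hx.2]
    have hxδ : x ∈ Icc δ (1 - δ) := ⟨by linarith, by linarith⟩
    have hx01 : x ∈ Ioo (0 : ℝ) 1 := ⟨by linarith [hxδ.1], by linarith [hxδ.2]⟩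
    have h1 := concave_quarter ((h.qq_concave P).subset (Icc_subset_Icc ha hbb)
      (convex_Icc _ _)) hj
      (hJ j₁ (left_mem_Icc.mpr hj.le)) (hJ j₂ (right_mem_Icc.mpr hj.le)) hxj hD hD0
      (x := x) (by rw [← hL]; linarith) (by rw [← hL]; linarith)
    simp only [qq, P.hαW] at h1
    rw [cw_eq hxδ] at h1
    have h2 : (D / 4) * W ≤ Λ2 * (g x - f x) - κ * W := by
      have := mul_le_mul_of_nonneg_right h1 hW0.le
      have e : (Λ2 * ((g x - f x) / W) - κ) * W = Λ2 * (g x - f x) - κ * W := by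
        field_simp
      rwa [e] at this
    have h3 : (Λ2 - (l - 1 / 100)) * (g x - f x) ≤ 21 / 1000 * W := by
      have h4 : Λ2 - (l - 1 / 100) ≤ 21 / 1000 := by
        have h5 := P.hν
        have h6 := P.hΛ
        linarith
      exact mul_le_mul h4 (h.width x hx01) (h.wpos x hx01).le (by norm_num)
    have h7 := P.hκ
    linarith
  have := csInf_le (eig_zero_bdd P.hα h.dom.isOpen h.dom.isBounded two_ne_zero) hmem
  rw [← robinEigenvalue_eq, ← hl] at this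
  linarith

/-- from a good function of one variable to the first eigenvalue -/
lemma eig_one_bound (h : Thin Ω p b f g W) (P : Par W α κ l Λ δ θ Λ2) {v : ℝ → ℝ} (hv : Lip v)
    (hv1 : ∀ x, 0 ≤ v x ∧ v x ≤ 1)
    (hKP : (∫ x in δ..(1 - δ), cw f g δ x / W * deriv v x ^ 2) -
      (∫ x in δ..(1 - δ), qq f g W α Λ2 δ x * v x ^ 2) ≤ -(11 / 10 + 3 / 100)) :
    robinEigenvalue α Ω (fun _ => 0) 1 ≤ Λ - 11 / 10 := by
  have hW0 := P.hW0
  have hΛ0 := P.hΛ0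
  have hα := P.hα
  have hα1 := P.hα1
  have hδ0 := P.hδ0
  have hδ12 := P.hδ12
  have hδ2 := P.hδ2
  obtain ⟨e, he⟩ : ∃ e : ℝ, e = W / (100 * (1 + 2 * α + Λ)) := ⟨_, rfl⟩
  have hsum : 0 < 1 + 2 * α + Λ := by linarith
  have he0 : 0 < e := by rw [he]; positivity
  have he1 : e * (1 + 2 * α + Λ) = W / 100 := by rw [he]; field_simp
  obtain ⟨k, hk, hk1, hkF⟩ := h.trial hδ0 hδ12 hv hv1 hα hΛ0 he0
  rw [he1] at hkF
  have hvc := hv.continuous
  have hcwc := h.cw_cont hδ0 hδ12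
  have hqc := h.qq_cont P
  have c1 : ∫ x in δ..(1 - δ), cw f g δ x * deriv v x ^ 2
      = W * ∫ x in δ..(1 - δ), cw f g δ x / W * deriv v x ^ 2 := by
    rw [← intervalIntegral.integral_const_mul]
    congr 1
    ext x
    field_simp
  have c2 : ∫ x in δ..(1 - δ), (2 * α - Λ * cw f g δ x) * v x ^ 2
      = (Λ2 - Λ) * (∫ x in δ..(1 - δ), cw f g δ x * v x ^ 2) -
        W * ∫ x in δ..(1 - δ), qq f g W α Λ2 δ x * v x ^ 2 := by
    have i1 : IntervalIntegrable (fun x => qq f g W α Λ2 δ x * v x ^ 2) volume δ (1 - δ) :=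
      (hqc.mul (hvc.pow 2)).intervalIntegrable _ _
    have i2 : IntervalIntegrable (fun x => cw f g δ x * v x ^ 2) volume δ (1 - δ) :=
      (hcwc.mul (hvc.pow 2)).intervalIntegrable _ _
    rw [← intervalIntegral.integral_const_mul, ← intervalIntegral.integral_const_mul,
      ← intervalIntegral.integral_sub (i2.const_mul _) (i1.const_mul _)]
    congr 1
    ext x
    simp only [qq]
    field_simp
    ring
  have c3 : ∫ x in δ..(1 - δ), cw f g δ x * v x ^ 2 ≤ W := by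
    have i2 : IntervalIntegrable (fun x => cw f g δ x * v x ^ 2) volume δ (1 - δ) :=
      (hcwc.mul (hvc.pow 2)).intervalIntegrable _ _
    have : ∫ x in δ..(1 - δ), cw f g δ x * v x ^ 2 ≤ ∫ x in δ..(1 - δ), W := by
      apply intervalIntegral.integral_mono_on hδ2.le i2 intervalIntegrable_const
      intro x _
      have h1 := hv1 x
      have h2 : v x ^ 2 ≤ 1 := by
        rw [pow_two]
        exact mul_le_one₀ h1.2 h1.1 h1.2
      have h3 := h.cw_le hδ0 hδ12 x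
      have h4 := h.cw_pos hδ0 hδ12 x
      calc cw f g δ x * v x ^ 2 ≤ cw f g δ x * 1 := mul_le_mul_of_nonneg_left h2 h4.le
        _ ≤ W := by linarith
    rw [intervalIntegral.integral_const, smul_eq_mul] at this
    have h5 : (1 - δ - δ) * W ≤ 1 * W := mul_le_mul_of_nonneg_right (by linarith) hW0.le
    linarith
  have hfin : robinForm α Ω (fun _ => 0) (fun z => k (cx p b z)) -
      Λ * ∫ z in Ω, k (cx p b z) ^ 2 ≤ -(11 / 10) * W := by
    have h1 : (Λ2 - Λ) * ∫ x in δ..(1 - δ), cw f g δ x * v x ^ 2 ≤ 3 / 1000000 * W :=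
      (mul_le_mul_of_nonneg_left c3 P.hν0).trans (mul_le_mul_of_nonneg_right P.hν hW0.le)
    have h2 := mul_le_mul_of_nonneg_left hKP hW0.le
    have h3 : 4 * α * δ ≤ 1 / 1000 * W := by
      rw [P.hδ]
      have := mul_le_mul_of_nonneg_right hα1 hW0.le
      linarith
    have h4 : 4 * α * W ≤ 1 / 1000 * W := mul_le_mul_of_nonneg_right (by linarith) hW0.le
    rw [c1, c2] at hkF
    rw [mul_sub] at h2
    linarith
  obtain ⟨m, hm⟩ : ∃ m : ℝ, m = ∫ z in Ω, k (cx p b z) ^ 2 := ⟨_, rfl⟩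
  rw [← hm] at hfin
  have hmW : m ≤ W := by
    rw [hm, h.mass_cx hk]
    have hi := h.width_int (F := fun x => k x ^ 2) (hk.continuous.pow 2)
    have : ∫ x in (0 : ℝ)..1, (g x - f x) * k x ^ 2 ≤ ∫ x in (0 : ℝ)..1, W := by
      apply intervalIntegral.integral_mono_on_of_le_Ioo zero_le_one hi intervalIntegrable_const
      intro x hx
      have h1 := hk1 x
      have h2 : k x ^ 2 ≤ 1 := by
        rw [pow_two]
        exact mul_le_one₀ h1.2 h1.1 h1.2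
      have h3 := h.width x hx
      have h4 := h.wpos x hx
      calc (g x - f x) * k x ^ 2 ≤ (g x - f x) * 1 := mul_le_mul_of_nonneg_left h2 h4.le
        _ ≤ W := by linarith
    rw [intervalIntegral.integral_const, smul_eq_mul] at this
    linarith
  have hF0 : 0 ≤ robinForm α Ω (fun _ => 0) (fun z => k (cx p b z)) :=
    form_nonneg hα (fun _ => le_rfl) _
  have hm0 : 0 < m := by
    by_contra hcon
    push Not at hcon
    have := mul_nonpos_of_nonneg_of_nonpos hΛ0 hcon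
    linarith
  have hray := rayleigh (V := fun _ => 0) hα (fun _ => le_rfl) h.dom.isOpen h.dom.isBounded
    (contDiff_comp_cx p b hk)
  rw [← hm] at hray
  by_contra hcon
  push Not at hcon
  have h1 := mul_lt_mul_of_pos_right hcon hm0
  rw [sub_mul] at h1
  linarith

/-- the gap of thin domains -/
theorem gap (h : Thin Ω p b f g W) {M : ℝ} (hM : M ∈ Ioo (0 : ℝ) 1)
    (hMW : 99 / 100 * W ≤ g M - f M) {α : ℝ} (hα0 : 0 < α) (hα1 : α ≤ 1 / 1000000000000)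
    (hWα : W ≤ α / 2000000) : 1 ≤ fundamentalGap α Ω (fun _ => 0) := by
  have hW0 := h.W0
  have hα : 0 ≤ α := hα0.le
  obtain ⟨κ, hκ⟩ : ∃ κ : ℝ, κ * W = 2 * α := ⟨2 * α / W, by field_simp⟩
  have hκ1 : 4000000 ≤ κ := by
    by_contra hcon
    push Not at hcon
    have := mul_lt_mul_of_pos_right hcon hW0
    linarith
  have ho := h.dom.isOpen
  have hb := h.dom.isBounded
  have hs2 := h.spec_two hM hMW hα0 (hα1.trans (by norm_num)) hκ hκ1
  have hbdd := eig_zero_bdd hα ho hb (k := 2) two_ne_zero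
  obtain ⟨l, hl⟩ : ∃ l, l = robinEigenvalue α Ω (fun _ => 0) 2 := ⟨_, rfl⟩
  have hl1 : l ≤ 7 / 5 * κ := by rw [hl]; exact csInf_le hbdd hs2
  have hl0 : 0 ≤ l := by
    rw [hl]
    exact le_csInf ⟨_, hs2⟩
      fun _ hΛ => specSet_nonneg hα (fun _ => le_rfl) ho hb two_ne_zero hΛ
  obtain ⟨Λ, δ, θ, Λ2, P⟩ := exists_par hW0 hα0 hα1 hWα hκ hκ1 hl0 hl1
  obtain ⟨Λ', hΛ'mem, hΛ'lt⟩ := exists_lt_of_csInf_lt ⟨_, hs2⟩ (show sInf _ < Λ by
    rw [← robinEigenvalue_eq, ← hl, P.hΛ]; linarith)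
  have hvan := fun z => h.exists_neg P hΛ'mem hΛ'lt z
  have hδ0 := P.hδ0
  have hδ12 := P.hδ12
  have hδ2 := P.hδ2
  have hθ0 := P.hθ0
  have hqc := h.qq_cont P
  have hcwc := h.cw_cont hδ0 hδ12
  have hω01 : ∀ x, 0 < cw f g δ x / W ∧ cw f g δ x / W ≤ 1 := fun x =>
    ⟨div_pos (h.cw_pos hδ0 hδ12 x) hW0, (div_le_one hW0).mpr (h.cw_le hδ0 hδ12 x)⟩
  obtain ⟨xm, hxm, hxmax⟩ := isCompact_Icc.exists_isMaxOn (nonempty_Icc.mpr hδ2.le)
    hqc.continuousOn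
  rw [isMaxOn_iff] at hxmax
  obtain ⟨D, hD⟩ : ∃ D : ℝ, qq f g W α Λ2 δ xm = D := ⟨_, rfl⟩
  rw [hD] at hxmax
  have hD0 : 0 < D := by
    by_contra hcon
    push Not at hcon
    obtain ⟨v, hv, _, hE⟩ := hvan δ
    have : 0 ≤ En θ (fun x => cw f g δ x / W) (qq f g W α Λ2 δ) δ (1 - δ) v := by
      unfold En
      apply intervalIntegral.integral_nonneg hδ2.le
      intro x hx
      have h1 : qq f g W α Λ2 δ x ≤ 0 := (hxmax x hx).trans hcon
      have h2 : 0 ≤ θ * (cw f g δ x / W * deriv v x ^ 2) :=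
        mul_nonneg hθ0.le (mul_nonneg (hω01 x).1.le (sq_nonneg _))
      have h3 : qq f g W α Λ2 δ x * v x ^ 2 ≤ 0 :=
        mul_nonpos_of_nonpos_of_nonneg h1 (sq_nonneg _)
      linarith
    linarith
  obtain ⟨j₁, j₂, ha, hj, hbb, hxj, hJ, hJ1, hJ2⟩ :=
    exists_interval hδ2 hqc (h.qq_concave P) hxm hD hD0
  have hJω : ∀ x ∈ Icc j₁ j₂, 2 / 3 ≤ cw f g δ x / W := by
    intro x hx
    have h1 := hJ x hx
    simp only [qq, P.hαW] at h1
    by_contra hcon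
    push Not at hcon
    have h3 := (hω01 x).1
    have h4 := mul_le_mul_of_nonneg_right P.hΛ2κ h3.le
    have h5 : 3 / 2 * κ * (cw f g δ x / W) < 3 / 2 * κ * (2 / 3) :=
      mul_lt_mul_of_pos_left hcon (by linarith)
    linarith
  have hdata : Data1 δ (1 - δ) (fun x => cw f g δ x / W) (qq f g W α Λ2 δ) θ D j₁ j₂ :=
    { hω := hcwc.div_const W
      hq := hqc
      hω0 := fun x _ => (hω01 x).1.le
      hD := hxmax
      hD0 := hD0
      hθ := hθ0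
      ha := ha
      hj := hj
      hb := hbb
      hJ := fun x hx => ⟨hJ x hx, hJω x hx⟩
      hJ1 := hJ1
      hJ2 := hJ2 }
  have hDL := h.bound_DL P hl hD0 ha hj hbb hxj hD hJ
  obtain ⟨v, hv, hv1, -, hvE, hvK⟩ := hdata.main (fun z _ => hvan z)
  rw [En_eq θ (hcwc.div_const W) hqc hv δ (1 - δ)] at hvE
  have hK0 : 0 ≤ ∫ x in δ..(1 - δ), cw f g δ x / W * deriv v x ^ 2 := by
    apply intervalIntegral.integral_nonneg hδ2.le
    intro x _
    exact mul_nonneg (hω01 x).1.le (sq_nonneg _)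
  have hKP := arith_final P.hθ1 P.hθ2 hK0 (sub_pos.mpr hj) (by linarith) hDL hvE hvK
  have hlam1 := h.eig_one_bound P hv hv1 hKP
  unfold fundamentalGap
  rw [← hl]
  have := P.hΛ
  linarith

end Thin

end Pool.Agent.MP_e32423_an
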