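import Pool.Agent.Lib.MP_e32423_an.Gap2

/-!
The limit gap of degenerating domains is at least `1` for small Robin constants.
-/

namespace Pool.Agent.MP_e32423_an

open MeasureTheory Set Filter
open scoped Topology RealInnerProductSpace NNReal ENNReal

/-- a convex domain of diameter one close to a segment of length one is thin -/
lemma exists_thin {Ω : Set Plane} (hΩ : IsConvexDomain 1 Ω) {P Q : Plane} (hPQ : dist P Q = 1)
    {ε : ℝ} (hε0 : 0 < ε) (hε : ε ≤ 1 / 4)
    (hH : Metric.hausdorffDist Ω (segment ℝ P Q) < ε) :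
    ∃ (p : Plane) (b : OrthonormalBasis (Fin 2) ℝ Plane) (f g : ℝ → ℝ),
      Thin Ω p b f g (4 * ε) := by
  obtain ⟨p, b, hp, hq⟩ := exists_frame hΩ
  obtain ⟨f, g, hG, hf, hg, hs⟩ := exists_graph hΩ hp hq
  exact ⟨p, b, f, g,
    { dom := hΩ, hp := hp, hq := hq, graph := hG, fconv := hf, gconc := hg, sgn := hs
      width := width_le hΩ hp hq hG hPQ hε hH
      W0 := by positivity }⟩

/-- the gap of convex domains close to a segment -/
lemma gap_of_close {Ω : Set Plane} (hΩ : IsConvexDomain 1 Ω) {P Q : Plane} (hPQ : dist P Q = 1)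
    {α : ℝ} (hα0 : 0 < α) (hα1 : α ≤ 1 / 1000000000000)
    (hH : Metric.hausdorffDist Ω (segment ℝ P Q) < α / 8000000) :
    1 ≤ fundamentalGap α Ω (fun _ => 0) := by
  obtain ⟨p, b, f, g, hT⟩ := exists_thin hΩ hPQ (by positivity) (by linarith) hH
  obtain ⟨W', hW', hT', M, hM, hMW⟩ := hT.exists_sup
  exact hT'.gap hM hMW hα0 hα1 (by linarith)

theorem gammaSeg_ge {α : ℝ} (hα0 : 0 < α) (hα1 : α ≤ 1 / 1000000000000) :
    1 ≤ gammaSeg 1 α := by
  unfold gammaSeg
  apply le_iInf
  intro Ω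
  apply le_iInf
  rintro ⟨hΩ, P, Q, hPQ, hlim⟩
  apply le_liminf_of_le
  · exact isCobounded_ge_of_top
  · have h1 : ∀ᶠ k in atTop, Metric.hausdorffDist (Ω k) (segment ℝ P Q) < α / 8000000 :=
      (tendsto_order.mp hlim).2 _ (by positivity)
    filter_upwards [h1] with k hk
    have h2 := gap_of_close (hΩ k) hPQ hα0 hα1 hk
    exact_mod_cast h2

end Pool.Agent.MP_e32423_an
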