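import Pool.Agent.Lib.MP_e32423_an.Frame

/-!
A convex domain of diameter one as the region between two graphs over its diameter.
-/

namespace Pool.Agent.MP_e32423_an

open MeasureTheory Set Filter
open scoped Topology RealInnerProductSpace

variable {p : Plane} {b : OrthonormalBasis (Fin 2) ℝ Plane} {Ω : Set Plane}

lemma cx_comb (z z' : Plane) (s t : ℝ) (h : s + t = 1) :
    cx p b (s • z + t • z') = s * cx p b z + t * cx p b z' := by
  have : s • z + t • z' - p = s • (z - p) + t • (z' - p) := by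
    have hp : p = (s + t) • p := by rw [h, one_smul]
    conv_lhs => rw [hp]
    rw [add_smul, smul_sub, smul_sub]
    abel
  rw [cx, this, inner_add_right, inner_smul_right, inner_smul_right]
  rfl

lemma cy_comb (z z' : Plane) (s t : ℝ) (h : s + t = 1) :
    cy p b (s • z + t • z') = s * cy p b z + t * cy p b z' := by
  have : s • z + t • z' - p = s • (z - p) + t • (z' - p) := by
    have hp : p = (s + t) • p := by rw [h, one_smul]
    conv_lhs => rw [hp]
    rw [add_smul, smul_sub, smul_sub]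
    abel
  rw [cy, this, inner_add_right, inner_smul_right, inner_smul_right]
  rfl

lemma pt_comb (x y x' y' s t : ℝ) (h : s + t = 1) :
    s • pt p b x y + t • pt p b x' y' = pt p b (s * x + t * x') (s * y + t * y') := by
  rw [← pt_c p b (s • pt p b x y + t • pt p b x' y'), cx_comb _ _ _ _ h, cy_comb _ _ _ _ h]
  simp

lemma dist_closure_le (hΩ : IsConvexDomain 1 Ω) {z z' : Plane} (hz : z ∈ closure Ω)
    (hz' : z' ∈ closure Ω) : dist z z' ≤ 1 := by
  have := Metric.dist_le_diam_of_mem hΩ.isBounded.closure hz hz'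
  rwa [Metric.diam_closure, hΩ.diam_eq] at this

lemma pt_zero : pt p b 0 0 = p := by simp [pt]

lemma pt_one : pt p b 1 0 = p + b 0 := by simp [pt]

section

variable (hΩ : IsConvexDomain 1 Ω) (hp : p ∈ closure Ω) (hq : p + b 0 ∈ closure Ω)

include hΩ hp hq

lemma closure_range {x y : ℝ} (hz : pt p b x y ∈ closure Ω) :
    0 ≤ x ∧ x ≤ 1 ∧ -1 ≤ y ∧ y ≤ 1 := by
  have h1 := dist_closure_le hΩ hz hp
  have h2 := dist_closure_le hΩ hz hq
  rw [← pt_zero (p := p) (b := b)] at h1
  rw [← pt_one] at h2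
  have h3 := dist_sq_pt p b x y 0 0
  have h4 := dist_sq_pt p b x y 1 0
  rw [pt_zero] at h3 h1
  have h5 : dist (pt p b x y) p ^ 2 ≤ 1 := by
    have := dist_nonneg (x := pt p b x y) (y := p)
    nlinarith
  have h6 : dist (pt p b x y) (pt p b 1 0) ^ 2 ≤ 1 := by
    have := dist_nonneg (x := pt p b x y) (y := pt p b 1 0)
    nlinarith
  rw [h3] at h5
  rw [h4] at h6
  refine ⟨?_, ?_, ?_, ?_⟩ <;> nlinarith [sq_nonneg y, sq_nonneg x, sq_nonneg (x - 1)]

lemma mem_range' {x y : ℝ} (hz : pt p b x y ∈ Ω) : 0 < x ∧ x < 1 := by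
  have hc : Continuous fun t : ℝ => pt p b t y :=
    (continuous_pt p b).comp (continuous_id.prodMk continuous_const)
  have ho : IsOpen {t : ℝ | pt p b t y ∈ Ω} := hΩ.isOpen.preimage hc
  obtain ⟨ε, hε, hball⟩ := Metric.isOpen_iff.mp ho x hz
  have h1 : x - ε / 2 ∈ Metric.ball x ε := by
    rw [Metric.mem_ball, Real.dist_eq, show x - ε / 2 - x = -(ε / 2) by ring, abs_neg,
      abs_of_pos (by linarith)]
    linarith
  have h2 : x + ε / 2 ∈ Metric.ball x ε := by
    rw [Metric.mem_ball, Real.dist_eq, show x + ε / 2 - x = ε / 2 by ring,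
      abs_of_pos (by linarith)]
    linarith
  have h3 := closure_range hΩ hp hq (subset_closure (hball h1))
  have h4 := closure_range hΩ hp hq (subset_closure (hball h2))
  constructor <;> linarith [h3.1, h4.2.1]

lemma fiber_nonempty {x : ℝ} (hx0 : 0 < x) (hx1 : x < 1) : ∃ y, pt p b x y ∈ Ω := by
  obtain ⟨z₁, hz₁, hd₁⟩ := Metric.mem_closure_iff.mp hp x hx0
  obtain ⟨z₂, hz₂, hd₂⟩ := Metric.mem_closure_iff.mp hq (1 - x) (by linarith)
  have e1 := dist_sq_eq p b p z₁
  have e2 := dist_sq_eq p b (p + b 0) z₂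
  have c0 : cx p b p = 0 := by simp [cx]
  have c1 : cx p b (p + b 0) = 1 := by rw [← pt_one, cx_pt]
  rw [c0] at e1
  rw [c1] at e2
  have hx₁ : cx p b z₁ < x := by
    have h1 : dist p z₁ ^ 2 < x ^ 2 := pow_lt_pow_left₀ hd₁ dist_nonneg (by norm_num)
    nlinarith [sq_nonneg (cy p b p - cy p b z₁), sq_nonneg (cx p b z₁ - x)]
  have hx₂ : x < cx p b z₂ := by
    have h1 : dist (p + b 0) z₂ ^ 2 < (1 - x) ^ 2 :=
      pow_lt_pow_left₀ hd₂ dist_nonneg (by norm_num)
    nlinarith [sq_nonneg (cy p b (p + b 0) - cy p b z₂), sq_nonneg (cx p b z₂ - x)]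
  set x₁ := cx p b z₁ with hx₁'
  set x₂ := cx p b z₂ with hx₂'
  have hpos : 0 < x₂ - x₁ := by linarith
  set t := (x - x₁) / (x₂ - x₁) with ht
  have ht0 : 0 ≤ t := div_nonneg (by linarith) hpos.le
  have ht1 : t ≤ 1 := by rw [ht, div_le_one hpos]; linarith
  have hmem := hΩ.convex hz₁ hz₂ (sub_nonneg.mpr ht1) ht0 (by ring)
  refine ⟨cy p b ((1 - t) • z₁ + t • z₂), ?_⟩
  have hcx : cx p b ((1 - t) • z₁ + t • z₂) = x := by
    rw [cx_comb _ _ _ _ (by ring), ← hx₁', ← hx₂']
    have : t * (x₂ - x₁) = x - x₁ := by rw [ht]; field_simp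
    linarith
  have := pt_c p b ((1 - t) • z₁ + t • z₂)
  rw [hcx] at this
  rw [this]
  exact hmem

/-- The domain as region between graphs. -/
theorem exists_graph : ∃ f g : ℝ → ℝ, IsGraph Ω p b f g ∧ ConvexOn ℝ (Ioo 0 1) f ∧
    ConcaveOn ℝ (Ioo 0 1) g ∧ ∀ x ∈ Ioo (0 : ℝ) 1, f x ≤ 0 ∧ 0 ≤ g x := by
  set S : ℝ → Set ℝ := fun x => {y | pt p b x y ∈ Ω} with hS
  have hSb : ∀ x, BddAbove (S x) := fun x => ⟨1, fun y hy =>
    (closure_range hΩ hp hq (subset_closure hy)).2.2.2⟩
  have hSb' : ∀ x, BddBelow (S x) := fun x => ⟨-1, fun y hy =>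
    (closure_range hΩ hp hq (subset_closure hy)).2.2.1⟩
  have hSo : ∀ x, IsOpen (S x) := fun x => hΩ.isOpen.preimage
    ((continuous_pt p b).comp (continuous_const.prodMk continuous_id))
  have hSn : ∀ x, 0 < x → x < 1 → (S x).Nonempty := fun x h0 h1 =>
    fiber_nonempty hΩ hp hq h0 h1
  have hcomb : ∀ {x y x' y' s t : ℝ}, y ∈ S x → y' ∈ S x' → 0 ≤ s → 0 ≤ t → s + t = 1 →
      s * y + t * y' ∈ S (s * x + t * x') := by
    intro x y x' y' s t hy hy' hs ht hst
    have := hΩ.convex hy hy' hs ht hst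
    rw [pt_comb _ _ _ _ _ _ hst] at this
    exact this
  set f : ℝ → ℝ := fun x => sInf (S x) with hf
  set g : ℝ → ℝ := fun x => sSup (S x) with hg
  have hlt_g : ∀ x y, y ∈ S x → y < g x := by
    intro x y hy
    obtain ⟨ε, hε, hball⟩ := Metric.isOpen_iff.mp (hSo x) y hy
    have h2 : y + ε / 2 ∈ Metric.ball y ε := by
      rw [Metric.mem_ball, Real.dist_eq, show y + ε / 2 - y = ε / 2 by ring,
        abs_of_pos (by linarith)]
      linarith
    have := le_csSup (hSb x) (hball h2)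
    linarith
  have hf_lt : ∀ x y, y ∈ S x → f x < y := by
    intro x y hy
    obtain ⟨ε, hε, hball⟩ := Metric.isOpen_iff.mp (hSo x) y hy
    have h2 : y - ε / 2 ∈ Metric.ball y ε := by
      rw [Metric.mem_ball, Real.dist_eq, show y - ε / 2 - y = -(ε / 2) by ring, abs_neg,
        abs_of_pos (by linarith)]
      linarith
    have := csInf_le (hSb' x) (hball h2)
    linarith
  have hmem : ∀ x y, 0 < x → x < 1 → f x < y → y < g x → y ∈ S x := by
    intro x y h0 h1 hy1 hy2
    obtain ⟨y₁, hy₁, hl₁⟩ := exists_lt_of_csInf_lt (hSn x h0 h1) hy1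
    obtain ⟨y₂, hy₂, hl₂⟩ := exists_lt_of_lt_csSup (hSn x h0 h1) hy2
    have hpos : 0 < y₂ - y₁ := by linarith
    have ht0 : 0 ≤ (y - y₁) / (y₂ - y₁) := div_nonneg (by linarith) hpos.le
    have ht1 : (y - y₁) / (y₂ - y₁) ≤ 1 := by rw [div_le_one hpos]; linarith
    have := hcomb hy₁ hy₂ (sub_nonneg.mpr ht1) ht0 (by ring)
    have e1 : (1 - (y - y₁) / (y₂ - y₁)) * x + (y - y₁) / (y₂ - y₁) * x = x := by ring
    have e2 : (1 - (y - y₁) / (y₂ - y₁)) * y₁ + (y - y₁) / (y₂ - y₁) * y₂ = y := by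
      field_simp
      ring
    rw [e1, e2] at this
    exact this
  refine ⟨f, g, ⟨?_, ?_⟩, ⟨convex_Ioo 0 1, ?_⟩, ⟨convex_Ioo 0 1, ?_⟩, ?_⟩
  · intro x y
    constructor
    · intro h
      exact ⟨mem_range' hΩ hp hq h, hf_lt x y h, hlt_g x y h⟩
    · rintro ⟨⟨h0, h1⟩, h2, h3⟩
      exact hmem x y h0 h1 h2 h3
  · intro x h0 h1
    obtain ⟨y, hy⟩ := hSn x h0 h1
    exact (hf_lt x y hy).trans (hlt_g x y hy)
  · intro x hx x' hx' s t hs ht hst
    simp only [smul_eq_mul]
    apply le_of_forall_pos_le_add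
    intro ε hε
    obtain ⟨y, hy, hyl⟩ := exists_lt_of_csInf_lt (hSn x hx.1 hx.2)
      (show sInf (S x) < f x + ε from by simp only [hf]; linarith)
    obtain ⟨y', hy', hyl'⟩ := exists_lt_of_csInf_lt (hSn x' hx'.1 hx'.2)
      (show sInf (S x') < f x' + ε from by simp only [hf]; linarith)
    have h1 := hf_lt _ _ (hcomb hy hy' hs ht hst)
    have h2 : s * y ≤ s * (f x + ε) := mul_le_mul_of_nonneg_left hyl.le hs
    have h3 : t * y' ≤ t * (f x' + ε) := mul_le_mul_of_nonneg_left hyl'.le ht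
    have h4 : s * (f x + ε) + t * (f x' + ε) = s * f x + t * f x' + (s + t) * ε := by ring
    rw [hst] at h4
    linarith
  · intro x hx x' hx' s t hs ht hst
    simp only [smul_eq_mul]
    apply le_of_forall_pos_le_add
    intro ε hε
    obtain ⟨y, hy, hyl⟩ := exists_lt_of_lt_csSup (hSn x hx.1 hx.2)
      (show g x - ε < sSup (S x) from by simp only [hg]; linarith)
    obtain ⟨y', hy', hyl'⟩ := exists_lt_of_lt_csSup (hSn x' hx'.1 hx'.2)
      (show g x' - ε < sSup (S x') from by simp only [hg]; linarith)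
    have h1 := hlt_g _ _ (hcomb hy hy' hs ht hst)
    have h2 : s * (g x - ε) ≤ s * y := mul_le_mul_of_nonneg_left hyl.le hs
    have h3 : t * (g x' - ε) ≤ t * y' := mul_le_mul_of_nonneg_left hyl'.le ht
    have h4 : s * (g x - ε) + t * (g x' - ε) = s * g x + t * g x' - (s + t) * ε := by ring
    rw [hst] at h4
    linarith
  · intro x hx
    have hcl : pt p b x 0 ∈ closure Ω := by
      have h1 := hΩ.convex.closure hp hq (sub_nonneg.mpr hx.2.le) hx.1.le (by ring)
      have h2 : pt p b x 0 = (1 - x) • p + x • (p + b 0) := by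
        rw [pt, smul_add, sub_smul]
        simp only [one_smul, zero_smul, add_zero]
        abel
      rw [h2]
      exact h1
    obtain ⟨y₀, hy₀⟩ := hSn x hx.1 hx.2
    have hseg : ∀ t : ℝ, 0 ≤ t → t < 1 → (1 - t) * y₀ ∈ S x := by
      intro t ht0 ht1
      have hint : pt p b x y₀ ∈ interior Ω := by rw [hΩ.isOpen.interior_eq]; exact hy₀
      rcases ht0.eq_or_lt with rfl | htpos
      · simpa using hy₀
      have h1 := hΩ.convex.openSegment_interior_closure_subset_interior hint hcl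
      rw [hΩ.isOpen.interior_eq] at h1
      have h2 : (1 - t) • pt p b x y₀ + t • pt p b x 0 ∈ Ω :=
        h1 ⟨1 - t, t, by linarith, htpos, by ring, rfl⟩
      rw [pt_comb _ _ _ _ _ _ (by ring)] at h2
      have e1 : (1 - t) * x + t * x = x := by ring
      rw [e1] at h2
      have e2 : (1 - t) * y₀ + t * 0 = (1 - t) * y₀ := by ring
      rw [e2] at h2
      exact h2
    constructor
    · by_contra hcon
      push Not at hcon
      have hy0 : f x < y₀ := hf_lt x y₀ hy₀
      have hy0' : 0 < y₀ := hcon.trans hy0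
      -- choose t with (1 - t) y₀ < f x
      have h1 := hseg (1 - f x / 2 / y₀) (by
        rw [sub_nonneg, div_le_one hy0']; linarith) (by
        have : 0 < f x / 2 / y₀ := by positivity
        linarith)
      have h2 := hf_lt _ _ h1
      have h3 : (1 - (1 - f x / 2 / y₀)) * y₀ = f x / 2 := by field_simp; ring
      rw [h3] at h2
      linarith
    · by_contra hcon
      push Not at hcon
      have hy0 : y₀ < g x := hlt_g x y₀ hy₀
      have hy0' : y₀ < 0 := hy0.trans hcon
      have h1 := hseg (1 - g x / 2 / y₀) (by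
        rw [sub_nonneg, div_le_one_of_neg hy0']; linarith) (by
        have : 0 < g x / 2 / y₀ := div_pos_of_neg_of_neg (by linarith) hy0'
        linarith)
      have h2 := hlt_g _ _ h1
      have h3 : (1 - (1 - g x / 2 / y₀)) * y₀ = g x / 2 := by
        have := hy0'.ne
        field_simp
        ring
      rw [h3] at h2
      linarith

end

end Pool.Agent.MP_e32423_an
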