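import Mathlib

/-!
Basic facts on Lipschitz functions of one real variable: integrability of the derivative,
the fundamental theorem of calculus and the Cauchy-Schwarz inequality.
-/

namespace Pool.Agent.MP_e32423_an

open MeasureTheory Set Filter
open scoped NNReal Topology

/-- `g : ℝ → ℝ` is Lipschitz. -/
def Lip (g : ℝ → ℝ) : Prop := ∃ C : ℝ≥0, LipschitzWith C g

lemma Lip.continuous {g : ℝ → ℝ} (h : Lip g) : Continuous g := by
  obtain ⟨C, hC⟩ := h
  exact hC.continuous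

lemma Lip.const (c : ℝ) : Lip (fun _ => c) := ⟨0, LipschitzWith.const c⟩

lemma Lip.comp {f g : ℝ → ℝ} (hf : Lip f) (hg : Lip g) : Lip (fun x => f (g x)) := by
  obtain ⟨C, hC⟩ := hf
  obtain ⟨D, hD⟩ := hg
  exact ⟨C * D, hC.comp hD⟩

lemma Lip.id : Lip (fun x => x) := ⟨1, LipschitzWith.id⟩

lemma Lip.min_const (c : ℝ) : Lip (fun x => min x c) := ⟨1, LipschitzWith.id.min_const c⟩

lemma Lip.max_const (c : ℝ) : Lip (fun x => max x c) := ⟨1, LipschitzWith.id.max_const c⟩

lemma Lip.add {f g : ℝ → ℝ} (hf : Lip f) (hg : Lip g) : Lip (fun x => f x + g x) := by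
  obtain ⟨C, hC⟩ := hf
  obtain ⟨D, hD⟩ := hg
  exact ⟨C + D, hC.add hD⟩

lemma Lip.abs {f : ℝ → ℝ} (hf : Lip f) : Lip (fun x => |f x|) := by
  obtain ⟨C, hC⟩ := hf
  refine ⟨1 * C, LipschitzWith.comp (g := f) (f := fun x => |x|) ?_ hC⟩
  exact lipschitzWith_one_norm

lemma Lip.const_mul {f : ℝ → ℝ} (c : ℝ) (hf : Lip f) : Lip (fun x => c * f x) := by
  obtain ⟨C, hC⟩ := hf
  refine ⟨‖c‖₊ * C, LipschitzWith.of_dist_le_mul fun x y => ?_⟩
  have := hC.dist_le_mul x y
  rw [Real.dist_eq] at this ⊢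
  rw [← mul_sub, abs_mul]
  push_cast
  rw [mul_assoc]
  exact mul_le_mul_of_nonneg_left this (abs_nonneg _)

lemma Lip.exists_bound {g : ℝ → ℝ} (h : Lip g) : ∃ C : ℝ, 0 ≤ C ∧ ∀ x, |deriv g x| ≤ C := by
  obtain ⟨C, hC⟩ := h
  exact ⟨C, C.2, fun x => norm_deriv_le_of_lipschitz hC⟩

lemma Lip.ae_diff {g : ℝ → ℝ} (h : Lip g) : ∀ᵐ x, DifferentiableAt ℝ g x := by
  obtain ⟨C, hC⟩ := h
  exact hC.ae_differentiableAt_real

lemma Lip.integrable_sq {g : ℝ → ℝ} (h : Lip g) (a b : ℝ) :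
    IntervalIntegrable (fun x => (deriv g x) ^ 2) volume a b := by
  obtain ⟨C, hC0, hC⟩ := h.exists_bound
  refine IntervalIntegrable.mono_fun (g := fun x => (deriv g x) ^ 2) (f := fun _ => C ^ 2)
    intervalIntegrable_const ((measurable_deriv g).pow_const 2).aestronglyMeasurable ?_
  filter_upwards with x
  simp only [Real.norm_eq_abs, abs_pow, sq_abs]
  have := hC x
  have h0 := abs_nonneg (deriv g x)
  nlinarith [sq_abs (deriv g x)]

lemma Lip.integrable_deriv {g : ℝ → ℝ} (h : Lip g) (a b : ℝ) :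
    IntervalIntegrable (deriv g) volume a b := by
  obtain ⟨C, hC0, hC⟩ := h.exists_bound
  refine IntervalIntegrable.mono_fun (f := fun _ => C)
    intervalIntegrable_const (measurable_deriv g).aestronglyMeasurable ?_
  filter_upwards with x
  simpa [Real.norm_eq_abs, abs_of_nonneg hC0] using hC x

lemma Lip.integral_deriv {g : ℝ → ℝ} (h : Lip g) (a b : ℝ) :
    ∫ x in a..b, deriv g x = g b - g a := by
  obtain ⟨C, hC⟩ := h
  exact ((hC.lipschitzOnWith (s := uIcc a b)).absolutelyContinuousOnInterval).integral_deriv_eq_sub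

/-- Cauchy-Schwarz with the constant function. -/
lemma sq_integral_le {f : ℝ → ℝ} {a b : ℝ} (hab : a ≤ b) (hf : IntervalIntegrable f volume a b)
    (hf2 : IntervalIntegrable (fun x => f x ^ 2) volume a b) :
    (∫ x in a..b, f x) ^ 2 ≤ (b - a) * ∫ x in a..b, f x ^ 2 := by
  rcases hab.eq_or_lt with rfl | hlt
  · simp
  have hpos : 0 < b - a := sub_pos.mpr hlt
  set c := (∫ x in a..b, f x) / (b - a) with hc
  have h0 : 0 ≤ ∫ x in a..b, (f x - c) ^ 2 :=
    intervalIntegral.integral_nonneg hab fun x _ => sq_nonneg _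
  have h1 : ∫ x in a..b, (f x - c) ^ 2
      = (∫ x in a..b, f x ^ 2) - 2 * c * (∫ x in a..b, f x) + c ^ 2 * (b - a) := by
    have : (fun x => (f x - c) ^ 2) = fun x => f x ^ 2 - 2 * c * f x + c ^ 2 := by
      ext x; ring
    rw [this, intervalIntegral.integral_add (hf2.sub (hf.const_mul _)) intervalIntegrable_const,
      intervalIntegral.integral_sub hf2 (hf.const_mul _), intervalIntegral.integral_const_mul,
      intervalIntegral.integral_const]
    simp [mul_comm]
  have h2 : (∫ x in a..b, f x) = c * (b - a) := by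
    rw [hc]; field_simp
  rw [h1] at h0
  rw [h2] at h0 ⊢
  nlinarith [mul_le_mul_of_nonneg_left h0 hpos.le]

lemma Lip.sq_sub_le {g : ℝ → ℝ} (h : Lip g) {a b : ℝ} (hab : a ≤ b) :
    (g b - g a) ^ 2 ≤ (b - a) * ∫ x in a..b, (deriv g x) ^ 2 := by
  rw [← h.integral_deriv a b]
  exact sq_integral_le hab (h.integrable_deriv a b) (h.integrable_sq a b)

end Pool.Agent.MP_e32423_an
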