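import Pool.Agent.Lib.MP_e32423_an.Coord
import Pool.Agent.Lib.MP_e32423_an.OneD2

/-!
Lower bound for the Robin form on a thin convex domain by a one-dimensional energy of the fibre
average.
-/

namespace Pool.Agent.MP_e32423_an

open MeasureTheory Set Filter
open scoped Topology RealInnerProductSpace NNReal ENNReal

lemma strip {w v : ℝ → ℝ} (hw : Continuous w) (hv : Lip v) {δ : ℝ} (hδ0 : 0 < δ)
    (hδ : δ ≤ 1 / 12) (hw0 : ∀ x ∈ Icc δ (1 - δ), 0 ≤ w x)
    (hmon : ∀ x t, δ ≤ x → x ≤ t → t ≤ 1 / 2 → w x ≤ 2 * w t) :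
    ∫ x in (2 * δ)..(3 * δ), w x * v x ^ 2 ≤
      δ * (16 * (∫ x in δ..(1 - δ), w x * v x ^ 2) +
        2 * ∫ x in δ..(1 - δ), w x * (deriv v x) ^ 2) := by
  set m := ∫ x in δ..(1 - δ), w x * v x ^ 2 with hm
  set K := ∫ x in δ..(1 - δ), w x * (deriv v x) ^ 2 with hK
  have kin_mono : ∀ x y, δ ≤ x → x ≤ y → y ≤ 1 - δ →
      ∫ t in x..y, w t * (deriv v t) ^ 2 ≤ K := by
    intro x y h1 h2 h3
    have ki : ∀ s t, IntervalIntegrable (fun x => w x * (deriv v x) ^ 2) volume s t :=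
      fun s t => kin_integrable hw hv s t
    have s1 := intervalIntegral.integral_add_adjacent_intervals (ki δ x) (ki x y)
    have s2 := intervalIntegral.integral_add_adjacent_intervals (ki δ y) (ki y (1 - δ))
    have n1 : 0 ≤ ∫ t in δ..x, w t * (deriv v t) ^ 2 :=
      intervalIntegral.integral_nonneg h1 fun t ht =>
        mul_nonneg (hw0 t ⟨ht.1, by linarith [ht.2]⟩) (sq_nonneg _)
    have n2 : 0 ≤ ∫ t in y..(1 - δ), w t * (deriv v t) ^ 2 :=
      intervalIntegral.integral_nonneg h3 fun t ht =>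
        mul_nonneg (hw0 t ⟨by linarith [ht.1], ht.2⟩) (sq_nonneg _)
    linarith
  have mass_mono : ∫ t in (1 / 4 : ℝ)..(1 / 2), w t * v t ^ 2 ≤ m := by
    have ki : ∀ s t, IntervalIntegrable (fun x => w x * v x ^ 2) volume s t :=
      fun s t => pot_integrable hw hv s t
    have s1 := intervalIntegral.integral_add_adjacent_intervals (ki δ (1 / 4)) (ki (1 / 4) (1 / 2))
    have s2 := intervalIntegral.integral_add_adjacent_intervals (ki δ (1 / 2))
      (ki (1 / 2) (1 - δ))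
    have n1 : 0 ≤ ∫ t in δ..(1 / 4), w t * v t ^ 2 :=
      intervalIntegral.integral_nonneg (by linarith) fun t ht =>
        mul_nonneg (hw0 t ⟨ht.1, by linarith [ht.2]⟩) (sq_nonneg _)
    have n2 : 0 ≤ ∫ t in (1 / 2 : ℝ)..(1 - δ), w t * v t ^ 2 :=
      intervalIntegral.integral_nonneg (by linarith) fun t ht =>
        mul_nonneg (hw0 t ⟨by linarith [ht.1], ht.2⟩) (sq_nonneg _)
    linarith
  have hpt : ∀ x ∈ Icc (2 * δ) (3 * δ), w x * v x ^ 2 ≤ 16 * m + 2 * K := by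
    intro x hx
    have h1 : ∀ y ∈ Icc (1 / 4 : ℝ) (1 / 2), w x * v x ^ 2 ≤ 4 * (w y * v y ^ 2) + 2 * K := by
      intro y hy
      have hxy : x ≤ y := by linarith [hx.2, hy.1]
      have hwx : 0 ≤ w x := hw0 x ⟨by linarith [hx.1], by linarith [hx.2]⟩
      have h2 := hv.sq_sub_le hxy
      have h3 : w x * ∫ t in x..y, (deriv v t) ^ 2 ≤ 2 * K := by
        rw [← intervalIntegral.integral_const_mul]
        have h4 : ∫ t in x..y, w x * (deriv v t) ^ 2 ≤ ∫ t in x..y, 2 * (w t * (deriv v t) ^ 2) := by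
          apply intervalIntegral.integral_mono_on hxy ((hv.integrable_sq x y).const_mul _)
            ((kin_integrable hw hv x y).const_mul _)
          intro t ht
          have := hmon x t (by linarith [hx.1]) ht.1 (by linarith [ht.2, hy.2])
          nlinarith [sq_nonneg (deriv v t)]
        have e4 : ∫ t in x..y, 2 * (w t * (deriv v t) ^ 2)
            = 2 * ∫ t in x..y, w t * (deriv v t) ^ 2 := intervalIntegral.integral_const_mul _ _
        rw [e4] at h4
        have h5 := kin_mono x y (by linarith [hx.1]) hxy (by linarith [hy.2])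
        linarith
      have h6 : v x ^ 2 ≤ 2 * v y ^ 2 + 2 * (v y - v x) ^ 2 := by
        nlinarith [sq_nonneg (2 * v y - v x)]
      have h7 := hmon x y (by linarith [hx.1]) hxy hy.2
      have hI0 : 0 ≤ ∫ t in x..y, (deriv v t) ^ 2 :=
        intervalIntegral.integral_nonneg hxy fun t _ => sq_nonneg _
      have hK0 : 0 ≤ K := by
        have := mul_nonneg hwx hI0
        linarith
      have h8 : w x * (v y - v x) ^ 2 ≤ 1 / 2 * (2 * K) := by
        calc w x * (v y - v x) ^ 2 ≤ w x * ((y - x) * ∫ t in x..y, (deriv v t) ^ 2) :=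
              mul_le_mul_of_nonneg_left h2 hwx
          _ = (y - x) * (w x * ∫ t in x..y, (deriv v t) ^ 2) := by ring
          _ ≤ (y - x) * (2 * K) := mul_le_mul_of_nonneg_left h3 (by linarith)
          _ ≤ 1 / 2 * (2 * K) := by
              apply mul_le_mul_of_nonneg_right _ (by linarith)
              linarith [hy.2, hx.1]
      have h9 : w x * v x ^ 2 ≤ 2 * (w x * v y ^ 2) + 2 * (w x * (v y - v x) ^ 2) := by
        nlinarith
      have h10 : w x * v y ^ 2 ≤ 2 * (w y * v y ^ 2) := by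
        nlinarith [sq_nonneg (v y)]
      linarith
    have h2 : ∫ y in (1 / 4 : ℝ)..(1 / 2), w x * v x ^ 2 ≤
        ∫ y in (1 / 4 : ℝ)..(1 / 2), (4 * (w y * v y ^ 2) + 2 * K) := by
      apply intervalIntegral.integral_mono_on (by norm_num) intervalIntegrable_const
        (((pot_integrable hw hv _ _).const_mul 4).add intervalIntegrable_const)
      exact h1
    have e3 : ∫ y in (1 / 4 : ℝ)..(1 / 2), 4 * (w y * v y ^ 2)
        = 4 * ∫ y in (1 / 4 : ℝ)..(1 / 2), w y * v y ^ 2 := intervalIntegral.integral_const_mul _ _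
    rw [intervalIntegral.integral_add ((pot_integrable hw hv _ _).const_mul 4)
      intervalIntegrable_const, e3,
      intervalIntegral.integral_const, intervalIntegral.integral_const, smul_eq_mul,
      smul_eq_mul] at h2
    linarith
  have h1 : ∫ x in (2 * δ)..(3 * δ), w x * v x ^ 2 ≤ ∫ x in (2 * δ)..(3 * δ), (16 * m + 2 * K) := by
    apply intervalIntegral.integral_mono_on (by linarith) (pot_integrable hw hv _ _)
      intervalIntegrable_const hpt
  rw [intervalIntegral.integral_const, smul_eq_mul] at h1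
  refine h1.trans (le_of_eq ?_)
  ring

lemma strip' {w v : ℝ → ℝ} (hw : Continuous w) (hv : Lip v) {δ : ℝ} (hδ0 : 0 < δ)
    (hδ : δ ≤ 1 / 12) (hw0 : ∀ x ∈ Icc δ (1 - δ), 0 ≤ w x)
    (hmon : ∀ x t, 1 / 2 ≤ t → t ≤ x → x ≤ 1 - δ → w x ≤ 2 * w t) :
    ∫ x in (1 - 3 * δ)..(1 - 2 * δ), w x * v x ^ 2 ≤
      δ * (16 * (∫ x in δ..(1 - δ), w x * v x ^ 2) +
        2 * ∫ x in δ..(1 - δ), w x * (deriv v x) ^ 2) := by
  have h1 := strip (w := fun x => w (1 - x)) (v := fun x => v (1 - x))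
    (hw.comp (continuous_const.sub continuous_id)) (hv.reflect 1) hδ0 hδ
    (fun x hx => hw0 _ ⟨by linarith [hx.2], by linarith [hx.1]⟩)
    (fun x t h1 h2 h3 => hmon _ _ (by linarith) (by linarith) (by linarith))
  have e1 : ∫ x in (2 * δ)..(3 * δ), w (1 - x) * v (1 - x) ^ 2
      = ∫ x in (1 - 3 * δ)..(1 - 2 * δ), w x * v x ^ 2 :=
    intervalIntegral.integral_comp_sub_left (fun x => w x * v x ^ 2) 1
  have e2 : ∫ x in δ..(1 - δ), w (1 - x) * v (1 - x) ^ 2
      = ∫ x in δ..(1 - δ), w x * v x ^ 2 := by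
    have := intervalIntegral.integral_comp_sub_left (a := δ) (b := 1 - δ)
      (fun x => w x * v x ^ 2) 1
    rw [sub_sub_cancel] at this
    exact this
  have e3 : ∫ x in δ..(1 - δ), w (1 - x) * (deriv (fun x => v (1 - x)) x) ^ 2
      = ∫ x in δ..(1 - δ), w x * (deriv v x) ^ 2 := by
    have := intervalIntegral.integral_comp_sub_left (a := δ) (b := 1 - δ)
      (fun x => w x * (deriv v x) ^ 2) 1
    rw [sub_sub_cancel] at this
    rw [← this]
    congr 1
    ext x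
    rw [deriv_comp_const_sub]
    ring
  rw [e1, e2, e3] at h1
  exact h1

namespace Thin

variable {Ω : Set Plane} {p : Plane} {b : OrthonormalBasis (Fin 2) ℝ Plane}
    {f g : ℝ → ℝ} {W : ℝ}

lemma F_lip (h : Thin Ω p b f g W) {δ : ℝ} (hδ0 : 0 < δ) (hδ1 : δ ≤ 1 / 12) :
    LipschitzWith ⟨W / δ, div_nonneg h.W0.le hδ0.le⟩ (fun x => f (cl δ x)) := by
  have key : ∀ x y, δ ≤ x → x ≤ y → y ≤ 1 - δ → |f y - f x| ≤ W / δ * (y - x) := by
    intro x y h1 h2 h3
    have := concave_slope (w := fun x => - f x) (W := W) h.fconv.neg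
      (fun x hx => by linarith [(h.fb hx).2]) (fun x hx => by linarith [(h.fb hx).1]) hδ0 h1 h2 h3
    have e : (fun x => -f x) y - (fun x => -f x) x = -(f y - f x) := by simp only []; ring
    rwa [e, abs_neg] at this
  refine LipschitzWith.of_dist_le_mul fun x y => ?_
  have hc := (cl_lip δ).dist_le_mul x y
  rw [Real.dist_eq, NNReal.coe_one, one_mul] at hc
  rw [Real.dist_eq]
  have hx := cl_mem (δ := δ) (by linarith) x
  have hy := cl_mem (δ := δ) (by linarith) y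
  have hWδ : 0 ≤ W / δ := div_nonneg h.W0.le hδ0.le
  have h1 : |f (cl δ x) - f (cl δ y)| ≤ W / δ * |cl δ x - cl δ y| := by
    rcases le_total (cl δ x) (cl δ y) with hle | hle
    · have := key _ _ hx.1 hle hy.2
      rw [abs_sub_comm, abs_sub_comm (cl δ x), abs_of_nonneg (sub_nonneg.mpr hle)]
      exact this
    · have := key _ _ hy.1 hle hx.2
      rw [abs_of_nonneg (sub_nonneg.mpr hle)]
      exact this
  exact h1.trans (mul_le_mul_of_nonneg_left hc hWδ)

lemma G_lip (h : Thin Ω p b f g W) {δ : ℝ} (hδ0 : 0 < δ) (hδ1 : δ ≤ 1 / 12) :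
    LipschitzWith ⟨W / δ, div_nonneg h.W0.le hδ0.le⟩ (fun x => g (cl δ x)) := by
  have key : ∀ x y, δ ≤ x → x ≤ y → y ≤ 1 - δ → |g y - g x| ≤ W / δ * (y - x) := by
    intro x y h1 h2 h3
    exact concave_slope h.gconc (fun x hx => (h.gb hx).1) (fun x hx => (h.gb hx).2) hδ0 h1 h2 h3
  refine LipschitzWith.of_dist_le_mul fun x y => ?_
  have hc := (cl_lip δ).dist_le_mul x y
  rw [Real.dist_eq, NNReal.coe_one, one_mul] at hc
  rw [Real.dist_eq]
  have hx := cl_mem (δ := δ) (by linarith) x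
  have hy := cl_mem (δ := δ) (by linarith) y
  have hWδ : 0 ≤ W / δ := div_nonneg h.W0.le hδ0.le
  have h1 : |g (cl δ x) - g (cl δ y)| ≤ W / δ * |cl δ x - cl δ y| := by
    rcases le_total (cl δ x) (cl δ y) with hle | hle
    · have := key _ _ hx.1 hle hy.2
      rw [abs_sub_comm, abs_sub_comm (cl δ x), abs_of_nonneg (sub_nonneg.mpr hle)]
      exact this
    · have := key _ _ hy.1 hle hx.2
      rw [abs_of_nonneg (sub_nonneg.mpr hle)]
      exact this
  exact h1.trans (mul_le_mul_of_nonneg_left hc hWδ)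

/-- clamped width -/
noncomputable def cw (f g : ℝ → ℝ) (δ x : ℝ) : ℝ := g (cl δ x) - f (cl δ x)

lemma cw_cont (h : Thin Ω p b f g W) {δ : ℝ} (hδ0 : 0 < δ) (hδ1 : δ ≤ 1 / 12) :
    Continuous (cw f g δ) :=
  (h.G_lip hδ0 hδ1).continuous.sub (h.F_lip hδ0 hδ1).continuous

lemma cw_eq {δ x : ℝ} (hx : x ∈ Icc δ (1 - δ)) : cw f g δ x = g x - f x := by
  unfold cw
  rw [cl_of_mem hx.1 hx.2]

lemma cw_pos (h : Thin Ω p b f g W) {δ : ℝ} (hδ0 : 0 < δ) (hδ1 : δ ≤ 1 / 12) (x : ℝ) :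
    0 < cw f g δ x := by
  have := cl_mem (δ := δ) (by linarith) x
  exact h.wpos _ ⟨by linarith [this.1], by linarith [this.2]⟩

lemma cw_le (h : Thin Ω p b f g W) {δ : ℝ} (hδ0 : 0 < δ) (hδ1 : δ ≤ 1 / 12) (x : ℝ) :
    cw f g δ x ≤ W := by
  have := cl_mem (δ := δ) (by linarith) x
  exact h.width _ ⟨by linarith [this.1], by linarith [this.2]⟩

/-- the fibre average on a thin domain -/
noncomputable def av (p : Plane) (b : OrthonormalBasis (Fin 2) ℝ Plane) (f g : ℝ → ℝ) (δ : ℝ)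
    (u : Plane → ℝ) : ℝ → ℝ :=
  avg p b δ (fun x => f (cl δ x)) (fun x => g (cl δ x)) u

lemma F_abs (h : Thin Ω p b f g W) (hW1 : W ≤ 1) {δ : ℝ} (hδ0 : 0 < δ) (hδ1 : δ ≤ 1 / 12)
    (x : ℝ) : |f (cl δ x)| ≤ 1 := by
  have h1 := cl_mem (δ := δ) (by linarith) x
  have h2 := h.fb (x := cl δ x) ⟨by linarith [h1.1], by linarith [h1.2]⟩
  rw [abs_le]
  constructor <;> linarith

lemma G_abs (h : Thin Ω p b f g W) (hW1 : W ≤ 1) {δ : ℝ} (hδ0 : 0 < δ) (hδ1 : δ ≤ 1 / 12)
    (x : ℝ) : |g (cl δ x)| ≤ 1 := by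
  have h1 := cl_mem (δ := δ) (by linarith) x
  have h2 := h.gb (x := cl δ x) ⟨by linarith [h1.1], by linarith [h1.2]⟩
  rw [abs_le]
  constructor <;> linarith

lemma av_lip (h : Thin Ω p b f g W) (hW1 : W ≤ 1) {δ : ℝ} (hδ0 : 0 < δ) (hδ1 : δ ≤ 1 / 12)
    {u : Plane → ℝ} (hu : ContDiff ℝ 1 u) : Lip (av p b f g δ u) :=
  avg_lip hu hδ0 (by linarith) (h.F_lip hδ0 hδ1) (h.G_lip hδ0 hδ1)
    (h.F_abs hW1 hδ0 hδ1) (h.G_abs hW1 hδ0 hδ1)

/-- The pointwise inequality on almost every fibre. -/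
lemma pointwise (h : Thin Ω p b f g W) (hW1 : W ≤ 1) {δ : ℝ} (hδ0 : 0 < δ) (hδ1 : δ ≤ 1 / 12)
    {u : Plane → ℝ} (hu : ContDiff ℝ 1 u) {α Λ ζ η : ℝ} (hα : 0 ≤ α) (hΛ : 0 ≤ Λ)
    (hζ : ζ ≤ 1) (hη : 0 < η)
    (hT : (1 - ζ) * (1 / η * (W / δ) ^ 2) + 1 / 4 + 4 * Λ * W ^ 2 ≤ 1 - ζ) :
    ∀ᵐ x, x ∈ Icc δ (1 - δ) →
      (1 - ζ) / (1 + η) * (cw f g δ x * (deriv (av p b f g δ u) x) ^ 2) +
        (2 * α * av p b f g δ u x ^ 2 - (Λ + 16 * α ^ 2) * (cw f g δ x * av p b f g δ u x ^ 2)) +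
        3 * Λ * W ^ 2 * fib p b f g (fun z => fderiv ℝ u z (b 1) ^ 2) x ≤
      (1 - ζ) * (fib p b f g (fun z => fderiv ℝ u z (b 0) ^ 2) x +
        fib p b f g (fun z => fderiv ℝ u z (b 1) ^ 2) x) +
        α * (u (pt p b x (g x)) ^ 2 + u (pt p b x (f x)) ^ 2) -
        Λ * fib p b f g (fun z => u z ^ 2) x := by
  have hF := (h.F_lip hδ0 hδ1).ae_differentiableAt_real
  have hG := (h.G_lip hδ0 hδ1).ae_differentiableAt_real
  have e1 : ∀ᵐ x ∂(volume : Measure ℝ), x ≠ δ := Measure.ae_ne volume δ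
  have e2 : ∀ᵐ x ∂(volume : Measure ℝ), x ≠ 1 - δ := Measure.ae_ne volume (1 - δ)
  filter_upwards [hF, hG, e1, e2] with x hFd hGd hx1 hx2 hx
  have hx' : x ∈ Ioo δ (1 - δ) := ⟨lt_of_le_of_ne hx.1 (Ne.symm hx1), lt_of_le_of_ne hx.2 hx2⟩
  have hx01 : x ∈ Ioo (0 : ℝ) 1 := ⟨by linarith [hx'.1], by linarith [hx'.2]⟩
  have hclx : cl δ x = x := cl_of_mem hx.1 hx.2
  have hlt : f x < g x := h.graph.lt x hx01.1 hx01.2
  set v := av p b f g δ u x with hv
  set w := cw f g δ x with hw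
  have hweq : w = g x - f x := cw_eq hx
  have hwW : w ≤ W := h.cw_le hδ0 hδ1 x
  have hwpos : 0 < w := h.cw_pos hδ0 hδ1 x
  have hder := avg_deriv_le (p := p) (b := b) hu hδ0 (by linarith) (h.F_lip hδ0 hδ1)
    (h.G_lip hδ0 hδ1) (h.F_abs hW1 hδ0 hδ1) (h.G_abs hW1 hδ0 hδ1) hx'
    (by simp only [hclx]; exact hlt) hFd hGd hη
  simp only [hclx] at hder
  have hmean : (g x - f x) * v = ∫ y in (f x)..(g x), u (pt p b x y) := by
    have := avg_mul (p := p) (b := b) (δ := δ) (F := fun x => f (cl δ x))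
      (G := fun x => g (cl δ x)) (u := u) (x := x) (by simp only [hclx]; exact hlt)
    simp only [hclx] at this
    exact this
  -- the function on the fibre
  have hfd : Continuous fun z => fderiv ℝ u z := hu.continuous_fderiv (by norm_num)
  have hptc : Continuous fun y : ℝ => pt p b x y := by unfold pt; fun_prop
  have hφ : ∀ y, HasDerivAt (fun y => u (pt p b x y)) (fderiv ℝ u (pt p b x y) (b 1)) y := by
    intro y
    have h1 : HasDerivAt (fun y => pt p b x y) (b 1) y := by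
      unfold pt
      have := (((hasDerivAt_id y).smul_const (b 1)).const_add (x • b 0)).const_add p
      simpa using this
    exact ((hu.differentiable (by norm_num) _).hasFDerivAt).comp_hasDerivAt y h1
  have hψ : Continuous fun y => fderiv ℝ u (pt p b x y) (b 1) :=
    (hfd.comp hptc).clm_apply continuous_const
  have hmass := fiber_mass hlt hφ hψ hmean
  have hbd := fiber_bdry hlt hφ hψ hα hmean
  set X := fib p b f g (fun z => fderiv ℝ u z (b 0) ^ 2) x with hX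
  set T := fib p b f g (fun z => fderiv ℝ u z (b 1) ^ 2) x with hTdef
  set M := fib p b f g (fun z => u z ^ 2) x with hM
  have hX' : ∫ y in (f x)..(g x), fderiv ℝ u (pt p b x y) (b 0) ^ 2 = X := rfl
  have hT' : ∫ y in (f x)..(g x), fderiv ℝ u (pt p b x y) (b 1) ^ 2 = T := rfl
  have hM' : ∫ y in (f x)..(g x), u (pt p b x y) ^ 2 = M := rfl
  rw [hX', hT'] at hder
  rw [hT', hM'] at hmass
  rw [hT'] at hbd
  rw [← hweq] at hder hmass hbd
  have hT0 : 0 ≤ T := intervalIntegral.integral_nonneg hlt.le fun _ _ => sq_nonneg _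
  set D := deriv (av p b f g δ u) x with hD
  have hder' : w * D ^ 2 ≤ (1 + η) * X + (1 + 1 / η) * (W / δ) ^ 2 * T := hder
  -- algebra
  have hη1 : 0 < 1 + η := by linarith
  have hk : (1 - ζ) / (1 + η) * (w * D ^ 2) ≤
      (1 - ζ) * X + (1 - ζ) * (1 / η * (W / δ) ^ 2) * T := by
    have h1 : 0 ≤ (1 - ζ) / (1 + η) := div_nonneg (by linarith) hη1.le
    have h2 := mul_le_mul_of_nonneg_left hder' h1
    refine h2.trans (le_of_eq ?_)
    field_simp
    ring
  have hm2 : Λ * M ≤ Λ * (w * v ^ 2) + Λ * W ^ 2 * T := by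
    have h1 := mul_le_mul_of_nonneg_left hmass hΛ
    have h2 : w ^ 2 ≤ W ^ 2 := pow_le_pow_left₀ hwpos.le hwW 2
    have h3 : Λ * (w ^ 2 * T) ≤ Λ * (W ^ 2 * T) :=
      mul_le_mul_of_nonneg_left (mul_le_mul_of_nonneg_right h2 hT0) hΛ
    linarith
  have hT2 := mul_le_mul_of_nonneg_right hT hT0
  linarith

end Thin

end Pool.Agent.MP_e32423_an
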