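import Pool.Agent.Lib.MP_e32423_an.Lower

/-!
Lower bound for the Robin form: assembly.
-/

namespace Pool.Agent.MP_e32423_an

open MeasureTheory Set Filter
open scoped Topology RealInnerProductSpace NNReal ENNReal

lemma robinForm_zero (α : ℝ) (Ω : Set Plane) (u : Plane → ℝ) :
    robinForm α Ω (fun _ => 0) u =
      (∫ z in Ω, ‖fderiv ℝ u z‖ ^ 2) + α * ∫ z in frontier Ω, u z ^ 2 ∂arc := by
  unfold robinForm
  simp

namespace Thin

variable {Ω : Set Plane} {p : Plane} {b : OrthonormalBasis (Fin 2) ℝ Plane}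
    {f g : ℝ → ℝ} {W : ℝ}

lemma mass_pt (h : Thin Ω p b f g W) {δ : ℝ} (hδ0 : 0 < δ) (hδ1 : δ ≤ 1 / 12)
    {u : Plane → ℝ} (hu : ContDiff ℝ 1 u) {x : ℝ} (hx : x ∈ Icc δ (1 - δ)) :
    fib p b f g (fun z => u z ^ 2) x ≤ cw f g δ x * av p b f g δ u x ^ 2 +
      W ^ 2 * fib p b f g (fun z => fderiv ℝ u z (b 1) ^ 2) x := by
  have hx01 : x ∈ Ioo (0 : ℝ) 1 := ⟨by linarith [hx.1], by linarith [hx.2]⟩
  have hclx : cl δ x = x := cl_of_mem hx.1 hx.2
  have hlt : f x < g x := h.graph.lt x hx01.1 hx01.2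
  set v := av p b f g δ u x with hv
  set w := cw f g δ x with hw
  have hweq : w = g x - f x := cw_eq hx
  have hwW : w ≤ W := h.cw_le hδ0 hδ1 x
  have hwpos : 0 < w := h.cw_pos hδ0 hδ1 x
  have hmean : (g x - f x) * v = ∫ y in (f x)..(g x), u (pt p b x y) := by
    have := avg_mul (p := p) (b := b) (δ := δ) (F := fun x => f (cl δ x))
      (G := fun x => g (cl δ x)) (u := u) (x := x) (by simp only [hclx]; exact hlt)
    simp only [hclx] at this
    exact this
  have hfd : Continuous fun z => fderiv ℝ u z := hu.continuous_fderiv (by norm_num)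
  have hptc : Continuous fun y : ℝ => pt p b x y := by unfold pt; fun_prop
  have hφ : ∀ y, HasDerivAt (fun y => u (pt p b x y)) (fderiv ℝ u (pt p b x y) (b 1)) y := by
    intro y
    have h1 : HasDerivAt (fun y => pt p b x y) (b 1) y := by
      unfold pt
      have := (((hasDerivAt_id y).smul_const (b 1)).const_add (x • b 0)).const_add p
      simpa using this
    exact ((hu.differentiable (by norm_num) _).hasFDerivAt).comp_hasDerivAt y h1
  have hψ : Continuous fun y => fderiv ℝ u (pt p b x y) (b 1) :=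
    (hfd.comp hptc).clm_apply continuous_const
  have hmass := fiber_mass hlt hφ hψ hmean
  set T := fib p b f g (fun z => fderiv ℝ u z (b 1) ^ 2) x with hTdef
  set M := fib p b f g (fun z => u z ^ 2) x with hM
  have hT' : ∫ y in (f x)..(g x), fderiv ℝ u (pt p b x y) (b 1) ^ 2 = T := rfl
  have hM' : ∫ y in (f x)..(g x), u (pt p b x y) ^ 2 = M := rfl
  rw [hT', hM', ← hweq] at hmass
  have hT0 : 0 ≤ T := intervalIntegral.integral_nonneg hlt.le fun _ _ => sq_nonneg _
  have h2 : w ^ 2 ≤ W ^ 2 := pow_le_pow_left₀ hwpos.le hwW 2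
  have h3 : w ^ 2 * T ≤ W ^ 2 * T := mul_le_mul_of_nonneg_right h2 hT0
  linarith

lemma fib_N {u : Plane → ℝ} (hu : ContDiff ℝ 1 u) (x : ℝ) :
    fib p b f g (fun z => ‖fderiv ℝ u z‖ ^ 2) x =
      fib p b f g (fun z => fderiv ℝ u z (b 0) ^ 2) x +
        fib p b f g (fun z => fderiv ℝ u z (b 1) ^ 2) x := by
  have hfd : Continuous fun z => fderiv ℝ u z := hu.continuous_fderiv (by norm_num)
  have hptc : Continuous fun y : ℝ => pt p b x y := by unfold pt; fun_prop
  have h0 : Continuous fun y => fderiv ℝ u (pt p b x y) (b 0) ^ 2 :=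
    ((hfd.comp hptc).clm_apply continuous_const).pow 2
  have h1 : Continuous fun y => fderiv ℝ u (pt p b x y) (b 1) ^ 2 :=
    ((hfd.comp hptc).clm_apply continuous_const).pow 2
  unfold fib
  rw [← intervalIntegral.integral_add (h0.intervalIntegrable _ _) (h1.intervalIntegrable _ _)]
  simp only [norm_sq_form b]

set_option maxHeartbeats 1000000 in
/-- The lower bound for the Robin form. -/
theorem lower_bound (h : Thin Ω p b f g W) (hW1 : W ≤ 1) {δ : ℝ} (hδ0 : 0 < δ)
    (hδ1 : δ ≤ 1 / 12) {u : Plane → ℝ} (hu : ContDiff ℝ 1 u) {α Λ η : ℝ} (hα : 0 ≤ α)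
    (hΛ : 0 ≤ Λ) (hζ : 12 * Λ * δ ^ 2 ≤ 1) (hη : 0 < η)
    (hT : (1 - 12 * Λ * δ ^ 2) * (1 / η * (W / δ) ^ 2) + 1 / 4 + 4 * Λ * W ^ 2
      ≤ 1 - 12 * Λ * δ ^ 2) :
    W * En ((1 - 12 * Λ * δ ^ 2) / (1 + η) - 12 * Λ * δ) (fun x => cw f g δ x / W)
        (fun x => (Λ + 16 * α ^ 2 + 96 * Λ * δ) * (cw f g δ x / W) - 2 * α / W) δ (1 - δ)
        (av p b f g δ u) ≤
      robinForm α Ω (fun _ => 0) u - Λ * ∫ z in Ω, u z ^ 2 := by
  have hW0 := h.W0
  have hfd : Continuous fun z => fderiv ℝ u z := hu.continuous_fderiv (by norm_num)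
  have hcu : Continuous fun z => u z ^ 2 := hu.continuous.pow 2
  have hcN : Continuous fun z => ‖fderiv ℝ u z‖ ^ 2 := hfd.norm.pow 2
  have hc0 : Continuous fun z => fderiv ℝ u z (b 0) ^ 2 := (hfd.clm_apply continuous_const).pow 2
  have hc1 : Continuous fun z => fderiv ℝ u z (b 1) ^ 2 := (hfd.clm_apply continuous_const).pow 2
  set ζ := 12 * Λ * δ ^ 2 with hζdef
  have hζ0 : 0 ≤ ζ := by positivity
  set v := av p b f g δ u with hv
  have hvl : Lip v := h.av_lip hW1 hδ0 hδ1 hu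
  set w := cw f g δ with hw
  have hwc : Continuous w := h.cw_cont hδ0 hδ1
  have hw0 : ∀ x, 0 < w x := h.cw_pos hδ0 hδ1
  set X := fib p b f g (fun z => fderiv ℝ u z (b 0) ^ 2) with hX
  set T := fib p b f g (fun z => fderiv ℝ u z (b 1) ^ 2) with hTdef
  set M := fib p b f g (fun z => u z ^ 2) with hM
  set N := fib p b f g (fun z => ‖fderiv ℝ u z‖ ^ 2) with hN
  have hNXT : ∀ x, N x = X x + T x := fun x => fib_N hu x
  have hmemδ : δ ∈ Icc (0 : ℝ) 1 := ⟨hδ0.le, by linarith⟩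
  have hmemδ' : 1 - δ ∈ Icc (0 : ℝ) 1 := ⟨by linarith, by linarith⟩
  have hfl : ∀ x, 0 < x → x < 1 → f x ≤ g x := fun x h0 h1 => (h.graph.lt x h0 h1).le
  -- nonnegativity of the fibre integrals on (0,1)
  have hN0 : ∀ x, 0 < x → x < 1 → 0 ≤ N x := fun x h0 h1 =>
    intervalIntegral.integral_nonneg (hfl x h0 h1) fun _ _ => sq_nonneg _
  have hT0 : ∀ x, 0 < x → x < 1 → 0 ≤ T x := fun x h0 h1 =>
    intervalIntegral.integral_nonneg (hfl x h0 h1) fun _ _ => sq_nonneg _
  have nonneg_int : ∀ (Y : ℝ → ℝ), (∀ x, 0 < x → x < 1 → 0 ≤ Y x) → ∀ a c, 0 ≤ a → a ≤ c →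
      c ≤ 1 → 0 ≤ ∫ x in a..c, Y x := by
    intro Y hY a c ha hac hc
    rw [intervalIntegral.integral_of_le hac, integral_Ioc_eq_integral_Ioo]
    exact setIntegral_nonneg measurableSet_Ioo fun x hx => hY x (by linarith [hx.1])
      (by linarith [hx.2])
  -- interval integrability
  have hMi : ∀ a c, a ∈ Icc (0 : ℝ) 1 → c ∈ Icc (0 : ℝ) 1 → IntervalIntegrable M volume a c :=
    fun a c ha hc => h.fib_int' hcu ha hc
  have hNi : ∀ a c, a ∈ Icc (0 : ℝ) 1 → c ∈ Icc (0 : ℝ) 1 → IntervalIntegrable N volume a c :=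
    fun a c ha hc => h.fib_int' hcN ha hc
  have hXi : ∀ a c, a ∈ Icc (0 : ℝ) 1 → c ∈ Icc (0 : ℝ) 1 → IntervalIntegrable X volume a c :=
    fun a c ha hc => h.fib_int' hc0 ha hc
  have hTi : ∀ a c, a ∈ Icc (0 : ℝ) 1 → c ∈ Icc (0 : ℝ) 1 → IntervalIntegrable T volume a c :=
    fun a c ha hc => h.fib_int' hc1 ha hc
  have m0 : (0 : ℝ) ∈ Icc (0 : ℝ) 1 := ⟨le_rfl, zero_le_one⟩
  have m1 : (1 : ℝ) ∈ Icc (0 : ℝ) 1 := ⟨zero_le_one, le_rfl⟩
  have m2 : 2 * δ ∈ Icc (0 : ℝ) 1 := ⟨by linarith, by linarith⟩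
  have m3 : 3 * δ ∈ Icc (0 : ℝ) 1 := ⟨by linarith, by linarith⟩
  have m2' : 1 - 2 * δ ∈ Icc (0 : ℝ) 1 := ⟨by linarith, by linarith⟩
  have m3' : 1 - 3 * δ ∈ Icc (0 : ℝ) 1 := ⟨by linarith, by linarith⟩
  -- the boundary
  have hbfin := h.arc_lt
  have hbi : IntegrableOn (fun z => u z ^ 2) (frontier Ω) arc :=
    integrableOn_frontier h.dom.isBounded hbfin hcu
  obtain ⟨hGi, hFi, hB⟩ := h.graph.boundary_ge h.fcont h.gcont hcu (fun z => sq_nonneg _) hbi
  have hsub : Ioc δ (1 - δ) ⊆ Ioo (0 : ℝ) 1 := fun x hx => ⟨by linarith [hx.1], by linarith [hx.2]⟩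
  have hle : δ ≤ 1 - δ := by linarith
  have hGI : IntervalIntegrable (fun x => u (pt p b x (g x)) ^ 2) volume δ (1 - δ) := by
    rw [intervalIntegrable_iff_integrableOn_Ioc_of_le hle]
    exact hGi.mono_set hsub
  have hFI : IntervalIntegrable (fun x => u (pt p b x (f x)) ^ 2) volume δ (1 - δ) := by
    rw [intervalIntegrable_iff_integrableOn_Ioc_of_le hle]
    exact hFi.mono_set hsub
  set GI := ∫ x in δ..(1 - δ), u (pt p b x (g x)) ^ 2 with hGIdef
  set FI := ∫ x in δ..(1 - δ), u (pt p b x (f x)) ^ 2 with hFIdef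
  set Bd := ∫ z in frontier Ω, u z ^ 2 ∂arc with hBd
  have hGle : GI ≤ ∫ x in Ioo (0 : ℝ) 1, u (pt p b x (g x)) ^ 2 := by
    rw [hGIdef, intervalIntegral.integral_of_le hle]
    exact setIntegral_mono_set hGi (by filter_upwards with x using sq_nonneg _)
      hsub.eventuallyLE
  have hFle : FI ≤ ∫ x in Ioo (0 : ℝ) 1, u (pt p b x (f x)) ^ 2 := by
    rw [hFIdef, intervalIntegral.integral_of_le hle]
    exact setIntegral_mono_set hFi (by filter_upwards with x using sq_nonneg _)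
      hsub.eventuallyLE
  have hBd' : GI + FI ≤ Bd := by linarith
  -- pointwise inequality, integrated
  have hpw := h.pointwise hW1 hδ0 hδ1 hu hα hΛ hζ hη hT
  set K := ∫ x in δ..(1 - δ), w x * (deriv v x) ^ 2 with hK
  set m := ∫ x in δ..(1 - δ), w x * v x ^ 2 with hm
  set P := ∫ x in δ..(1 - δ), v x ^ 2 with hP
  set XI := ∫ x in δ..(1 - δ), X x with hXI
  set TI := ∫ x in δ..(1 - δ), T x with hTI
  set MI := ∫ x in δ..(1 - δ), M x with hMI
  have iK := kin_integrable hwc hvl δ (1 - δ)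
  have im := pot_integrable hwc hvl δ (1 - δ)
  have iP : IntervalIntegrable (fun x => v x ^ 2) volume δ (1 - δ) :=
    (hvl.continuous.pow 2).intervalIntegrable _ _
  have iX := hXi δ (1 - δ) hmemδ hmemδ'
  have iT := hTi δ (1 - δ) hmemδ hmemδ'
  have iM := hMi δ (1 - δ) hmemδ hmemδ'
  have hint : (1 - ζ) / (1 + η) * K + (2 * α * P - (Λ + 16 * α ^ 2) * m) + 3 * Λ * W ^ 2 * TI ≤
      (1 - ζ) * (XI + TI) + α * (GI + FI) - Λ * MI := by
    have h1 : ∫ x in δ..(1 - δ), ((1 - ζ) / (1 + η) * (w x * (deriv v x) ^ 2) +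
        (2 * α * v x ^ 2 - (Λ + 16 * α ^ 2) * (w x * v x ^ 2)) + 3 * Λ * W ^ 2 * T x) ≤
      ∫ x in δ..(1 - δ), ((1 - ζ) * (X x + T x) +
        α * (u (pt p b x (g x)) ^ 2 + u (pt p b x (f x)) ^ 2) - Λ * M x) := by
      apply intervalIntegral.integral_mono_ae_restrict hle
      · exact ((iK.const_mul _).add ((iP.const_mul _).sub (im.const_mul _))).add (iT.const_mul _)
      · exact (((iX.add iT).const_mul _).add ((hGI.add hFI).const_mul _)).sub (iM.const_mul _)
      · rw [EventuallyLE, ae_restrict_iff' measurableSet_Icc]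
        exact hpw
    have h2 : ∫ x in δ..(1 - δ), ((1 - ζ) / (1 + η) * (w x * (deriv v x) ^ 2) +
        (2 * α * v x ^ 2 - (Λ + 16 * α ^ 2) * (w x * v x ^ 2)) + 3 * Λ * W ^ 2 * T x) =
        (1 - ζ) / (1 + η) * K + (2 * α * P - (Λ + 16 * α ^ 2) * m) + 3 * Λ * W ^ 2 * TI := by
      rw [intervalIntegral.integral_add ((iK.const_mul _).add ((iP.const_mul _).sub
        (im.const_mul _))) (iT.const_mul _), intervalIntegral.integral_add (iK.const_mul _)
        ((iP.const_mul _).sub (im.const_mul _)), intervalIntegral.integral_sub (iP.const_mul _)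
        (im.const_mul _), intervalIntegral.integral_const_mul, intervalIntegral.integral_const_mul,
        intervalIntegral.integral_const_mul, intervalIntegral.integral_const_mul]
    have h3 : ∫ x in δ..(1 - δ), ((1 - ζ) * (X x + T x) +
        α * (u (pt p b x (g x)) ^ 2 + u (pt p b x (f x)) ^ 2) - Λ * M x) =
        (1 - ζ) * (XI + TI) + α * (GI + FI) - Λ * MI := by
      rw [intervalIntegral.integral_sub (((iX.add iT).const_mul _).add
        ((hGI.add hFI).const_mul _)) (iM.const_mul _), intervalIntegral.integral_add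
        ((iX.add iT).const_mul _) ((hGI.add hFI).const_mul _),
        intervalIntegral.integral_const_mul, intervalIntegral.integral_const_mul,
        intervalIntegral.integral_const_mul, intervalIntegral.integral_add iX iT,
        intervalIntegral.integral_add hGI hFI]
    rw [h2, h3] at h1
    exact h1
  -- the ends
  have hL := h.left_end hu hδ0 hδ1
  have hR := h.right_end hu hδ0 hδ1
  -- the strips
  have hmonL : ∀ x t, δ ≤ x → x ≤ t → t ≤ 1 / 2 → w x ≤ 2 * w t := by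
    intro x t h1 h2 h3
    have e1 : w x = g x - f x := cw_eq ⟨h1, by linarith⟩
    have e2 : w t = g t - f t := cw_eq ⟨by linarith, by linarith⟩
    have h4 := concave_right h.wconc (fun x hx => (h.wpos x hx).le) (x := x) (t := t)
      (by linarith) h2 (by linarith)
    simp only [← e1, ← e2] at h4
    have := hw0 x
    have := hw0 t
    nlinarith
  have hmonR : ∀ x t, 1 / 2 ≤ t → t ≤ x → x ≤ 1 - δ → w x ≤ 2 * w t := by
    intro x t h1 h2 h3
    have e1 : w x = g x - f x := cw_eq ⟨by linarith, h3⟩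
    have e2 : w t = g t - f t := cw_eq ⟨by linarith, by linarith⟩
    have h4 := concave_left h.wconc (fun x hx => (h.wpos x hx).le) (x := x) (t := t)
      (by linarith) h2 (by linarith)
    simp only [← e1, ← e2] at h4
    have := hw0 x
    have := hw0 t
    nlinarith
  have hsL := strip hwc hvl hδ0 hδ1 (fun x _ => (hw0 x).le) hmonL
  have hsR := strip' hwc hvl hδ0 hδ1 (fun x _ => (hw0 x).le) hmonR
  have hSL : ∫ x in (2 * δ)..(3 * δ), M x ≤ (∫ x in (2 * δ)..(3 * δ), w x * v x ^ 2) +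
      W ^ 2 * ∫ x in (2 * δ)..(3 * δ), T x := by
    rw [← intervalIntegral.integral_const_mul, ← intervalIntegral.integral_add
      (pot_integrable hwc hvl _ _) ((hTi _ _ m2 m3).const_mul _)]
    apply intervalIntegral.integral_mono_on (by linarith) (hMi _ _ m2 m3)
      ((pot_integrable hwc hvl _ _).add ((hTi _ _ m2 m3).const_mul _))
    intro x hx
    exact h.mass_pt hδ0 hδ1 hu ⟨by linarith [hx.1], by linarith [hx.2]⟩
  have hSR : ∫ x in (1 - 3 * δ)..(1 - 2 * δ), M x ≤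
      (∫ x in (1 - 3 * δ)..(1 - 2 * δ), w x * v x ^ 2) +
      W ^ 2 * ∫ x in (1 - 3 * δ)..(1 - 2 * δ), T x := by
    rw [← intervalIntegral.integral_const_mul, ← intervalIntegral.integral_add
      (pot_integrable hwc hvl _ _) ((hTi _ _ m3' m2').const_mul _)]
    apply intervalIntegral.integral_mono_on (by linarith) (hMi _ _ m3' m2')
      ((pot_integrable hwc hvl _ _).add ((hTi _ _ m3' m2').const_mul _))
    intro x hx
    exact h.mass_pt hδ0 hδ1 hu ⟨by linarith [hx.1], by linarith [hx.2]⟩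
  -- T on the strips
  have hTs : (∫ x in (2 * δ)..(3 * δ), T x) + (∫ x in (1 - 3 * δ)..(1 - 2 * δ), T x) ≤ TI := by
    have a1 := intervalIntegral.integral_add_adjacent_intervals (hTi δ (2 * δ) hmemδ m2)
      (hTi (2 * δ) (3 * δ) m2 m3)
    have a2 := intervalIntegral.integral_add_adjacent_intervals (hTi δ (3 * δ) hmemδ m3)
      (hTi (3 * δ) (1 - 3 * δ) m3 m3')
    have a3 := intervalIntegral.integral_add_adjacent_intervals (hTi δ (1 - 3 * δ) hmemδ m3')
      (hTi (1 - 3 * δ) (1 - 2 * δ) m3' m2')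
    have a4 := intervalIntegral.integral_add_adjacent_intervals (hTi δ (1 - 2 * δ) hmemδ m2')
      (hTi (1 - 2 * δ) (1 - δ) m2' hmemδ')
    have n1 := nonneg_int T hT0 δ (2 * δ) hδ0.le (by linarith) (by linarith)
    have n2 := nonneg_int T hT0 (3 * δ) (1 - 3 * δ) (by linarith) (by linarith) (by linarith)
    have n3 := nonneg_int T hT0 (1 - 2 * δ) (1 - δ) (by linarith) (by linarith) (by linarith)
    linarith only [a1, a2, a3, a4, n1, n2, n3]
  -- N on [0,1]
  have hNint : (∫ x in (0 : ℝ)..(3 * δ), N x) + (∫ x in (1 - 3 * δ)..(1 : ℝ), N x)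
      ≤ ∫ x in (0 : ℝ)..1, N x := by
    have a1 := intervalIntegral.integral_add_adjacent_intervals (hNi 0 (3 * δ) m0 m3)
      (hNi (3 * δ) (1 - 3 * δ) m3 m3')
    have a2 := intervalIntegral.integral_add_adjacent_intervals (hNi 0 (1 - 3 * δ) m0 m3')
      (hNi (1 - 3 * δ) 1 m3' m1)
    have n1 := nonneg_int N hN0 (3 * δ) (1 - 3 * δ) (by linarith) (by linarith) (by linarith)
    linarith only [a1, a2, n1]
  have hNint2 : XI + TI ≤ ∫ x in (0 : ℝ)..1, N x := by
    have a1 := intervalIntegral.integral_add_adjacent_intervals (hNi 0 δ m0 hmemδ)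
      (hNi δ (1 - δ) hmemδ hmemδ')
    have a2 := intervalIntegral.integral_add_adjacent_intervals (hNi 0 (1 - δ) m0 hmemδ')
      (hNi (1 - δ) 1 hmemδ' m1)
    have n1 := nonneg_int N hN0 0 δ le_rfl (by linarith) (by linarith)
    have n2 := nonneg_int N hN0 (1 - δ) 1 (by linarith) (by linarith) le_rfl
    have e : ∫ x in δ..(1 - δ), N x = XI + TI := by
      rw [hXI, hTI, ← intervalIntegral.integral_add iX iT]
      simp only [hNXT]
    linarith only [a1, a2, n1, n2, e]
  have hMint : ∫ x in (0 : ℝ)..1, M x =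
      (∫ x in (0 : ℝ)..δ, M x) + MI + ∫ x in (1 - δ)..(1 : ℝ), M x := by
    have a1 := intervalIntegral.integral_add_adjacent_intervals (hMi 0 δ m0 hmemδ)
      (hMi δ (1 - δ) hmemδ hmemδ')
    have a2 := intervalIntegral.integral_add_adjacent_intervals (hMi 0 (1 - δ) m0 hmemδ')
      (hMi (1 - δ) 1 hmemδ' m1)
    linarith only [a1, a2, hMI]
  -- rewriting both sides
  rw [robinForm_zero, h.integral_eq hcN, h.integral_eq hcu, ← hBd, ← hN, ← hM, hMint]
  have hEn : W * En ((1 - ζ) / (1 + η) - 12 * Λ * δ) (fun x => w x / W)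
        (fun x => (Λ + 16 * α ^ 2 + 96 * Λ * δ) * (w x / W) - 2 * α / W) δ (1 - δ) v =
      ((1 - ζ) / (1 + η) - 12 * Λ * δ) * K -
        ((Λ + 16 * α ^ 2 + 96 * Λ * δ) * m - 2 * α * P) := by
    rw [En, ← intervalIntegral.integral_const_mul, hK, hm, hP,
      ← intervalIntegral.integral_const_mul, ← intervalIntegral.integral_const_mul,
      ← intervalIntegral.integral_const_mul, ← intervalIntegral.integral_sub
      (im.const_mul _) (iP.const_mul _), ← intervalIntegral.integral_sub (iK.const_mul _)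
      ((im.const_mul _).sub (iP.const_mul _))]
    congr 1
    ext x
    field_simp
  rw [hEn]
  set MR := ∫ x in (1 - δ)..(1 : ℝ), M x with hMR
  set ML := ∫ x in (0 : ℝ)..δ, M x with hML
  set N1 := ∫ x in (0 : ℝ)..1, N x with hN1
  set SL := ∫ x in (2 * δ)..(3 * δ), M x with hSLd
  set SR := ∫ x in (1 - 3 * δ)..(1 - 2 * δ), M x with hSRd
  set NL := ∫ x in (0 : ℝ)..(3 * δ), N x with hNL
  set NR := ∫ x in (1 - 3 * δ)..(1 : ℝ), N x with hNR
  -- final arithmetic
  have f1 : Λ * (ML + MR) ≤ 3 * Λ * (SL + SR) + ζ * N1 := by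
    have h1 := mul_le_mul_of_nonneg_left (add_le_add hL hR) hΛ
    have h2 := mul_le_mul_of_nonneg_left hNint hζ0
    have h3 : Λ * (3 * SL + 12 * δ ^ 2 * NL + (3 * SR + 12 * δ ^ 2 * NR))
        = 3 * Λ * (SL + SR) + ζ * (NL + NR) := by rw [hζdef]; ring
    rw [h3] at h1
    linarith only [h1, h2]
  have f2 : 3 * Λ * (SL + SR) ≤ 6 * Λ * δ * (16 * m + 2 * K) + 3 * Λ * W ^ 2 * TI := by
    have h1 : SL + SR ≤ 2 * (δ * (16 * m + 2 * K)) + W ^ 2 * TI := by
      have h2 := mul_le_mul_of_nonneg_left hTs (sq_nonneg W)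
      linarith only [h2, hSL, hSR, hsL, hsR]
    have h3 := mul_le_mul_of_nonneg_left h1 (show 0 ≤ 3 * Λ by linarith)
    linarith only [h3]
  have f3 : (1 - ζ) * (XI + TI) ≤ (1 - ζ) * N1 :=
    mul_le_mul_of_nonneg_left hNint2 (by linarith)
  have f4 : α * (GI + FI) ≤ α * Bd := mul_le_mul_of_nonneg_left hBd' hα
  linarith only [f1, f2, f3, f4, hint]

end Thin

end Pool.Agent.MP_e32423_an
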