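import Pool.Agent.Lib.MP_e32423_an.Lip

/-!
The one-dimensional estimate: from functions with negative energy which vanish at a prescribed
point, build a function with very negative energy and controlled kinetic part.
-/

namespace Pool.Agent.MP_e32423_an

open MeasureTheory Set Filter
open scoped NNReal Topology

/-- The one-dimensional energy on `[a, b]`. -/
noncomputable def En (θ : ℝ) (ω q : ℝ → ℝ) (a b : ℝ) (g : ℝ → ℝ) : ℝ :=
  ∫ x in a..b, (θ * (ω x * (deriv g x) ^ 2) - q x * g x ^ 2)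

lemma kin_integrable {ω g : ℝ → ℝ} (hω : Continuous ω) (hg : Lip g) (a b : ℝ) :
    IntervalIntegrable (fun x => ω x * (deriv g x) ^ 2) volume a b :=
  (hg.integrable_sq a b).continuousOn_mul hω.continuousOn

lemma pot_integrable {q g : ℝ → ℝ} (hq : Continuous q) (hg : Lip g) (a b : ℝ) :
    IntervalIntegrable (fun x => q x * g x ^ 2) volume a b :=
  (hq.mul (hg.continuous.pow 2)).intervalIntegrable a b

lemma en_integrable {ω q g : ℝ → ℝ} (θ : ℝ) (hω : Continuous ω) (hq : Continuous q) (hg : Lip g)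
    (a b : ℝ) :
    IntervalIntegrable (fun x => θ * (ω x * (deriv g x) ^ 2) - q x * g x ^ 2) volume a b :=
  ((kin_integrable hω hg a b).const_mul θ).sub (pot_integrable hq hg a b)

lemma En_eq {ω q g : ℝ → ℝ} (θ : ℝ) (hω : Continuous ω) (hq : Continuous q) (hg : Lip g)
    (a b : ℝ) :
    En θ ω q a b g = θ * (∫ x in a..b, ω x * (deriv g x) ^ 2) - ∫ x in a..b, q x * g x ^ 2 := by
  rw [En, intervalIntegral.integral_sub ((kin_integrable hω hg a b).const_mul θ)
    (pot_integrable hq hg a b), intervalIntegral.integral_const_mul]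

lemma En_add {ω q g : ℝ → ℝ} (θ : ℝ) (hω : Continuous ω) (hq : Continuous q) (hg : Lip g)
    (a b c : ℝ) : En θ ω q a b g + En θ ω q b c g = En θ ω q a c g :=
  intervalIntegral.integral_add_adjacent_intervals (en_integrable θ hω hq hg a b)
    (en_integrable θ hω hq hg b c)

lemma abs_deriv_abs_le (g : ℝ → ℝ) (hg : Continuous g) (x : ℝ) :
    |deriv (fun y => |g y|) x| ≤ |deriv g x| := by
  rcases lt_trichotomy (g x) 0 with h | h | h
  · have : (fun y => |g y|) =ᶠ[𝓝 x] fun y => - g y := by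
      filter_upwards [hg.continuousAt.eventually (gt_mem_nhds h)] with y hy
      exact abs_of_neg hy
    rw [this.deriv_eq, deriv.fun_neg, abs_neg]
  · have : IsLocalMin (fun y => |g y|) x := by
      filter_upwards with y
      simp [h]
    rw [this.deriv_eq_zero]
    simp
  · have : (fun y => |g y|) =ᶠ[𝓝 x] g := by
      filter_upwards [hg.continuousAt.eventually (lt_mem_nhds h)] with y hy
      exact abs_of_pos hy
    rw [this.deriv_eq]

lemma abs_deriv_min_le (g : ℝ → ℝ) (hg : Continuous g) (c x : ℝ) :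
    |deriv (fun y => min (g y) c) x| ≤ |deriv g x| := by
  rcases lt_trichotomy (g x) c with h | h | h
  · have : (fun y => min (g y) c) =ᶠ[𝓝 x] g := by
      filter_upwards [hg.continuousAt.eventually (gt_mem_nhds h)] with y hy
      exact min_eq_left hy.le
    rw [this.deriv_eq]
  · have : IsLocalMax (fun y => min (g y) c) x := by
      filter_upwards with y
      simp [h]
    rw [this.deriv_eq_zero]
    simp
  · have : (fun y => min (g y) c) =ᶠ[𝓝 x] fun _ => c := by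
      filter_upwards [hg.continuousAt.eventually (lt_mem_nhds h)] with y hy
      exact min_eq_right hy.le
    rw [this.deriv_eq]
    simp

/-- The data of the one-dimensional problem. -/
structure Data1 (a b : ℝ) (ω q : ℝ → ℝ) (θ D j₁ j₂ : ℝ) : Prop where
  hω : Continuous ω
  hq : Continuous q
  hω0 : ∀ x ∈ Icc a b, 0 ≤ ω x
  hD : ∀ x ∈ Icc a b, q x ≤ D
  hD0 : 0 < D
  hθ : 0 < θ
  ha : a ≤ j₁
  hj : j₁ < j₂
  hb : j₂ ≤ b
  hJ : ∀ x ∈ Icc j₁ j₂, 0 ≤ q x ∧ 2 / 3 ≤ ω x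
  hJ1 : ∀ x ∈ Icc a j₁, x ≠ j₁ → q x ≤ 0
  hJ2 : ∀ x ∈ Icc j₂ b, x ≠ j₂ → q x ≤ 0

lemma Data1.reflect {a b : ℝ} {ω q : ℝ → ℝ} {θ D j₁ j₂ : ℝ} (h : Data1 a b ω q θ D j₁ j₂) :
    Data1 a b (fun x => ω (a + b - x)) (fun x => q (a + b - x)) θ D (a + b - j₂) (a + b - j₁) where
  hω := h.hω.comp (continuous_const.sub continuous_id)
  hq := h.hq.comp (continuous_const.sub continuous_id)
  hω0 := fun x hx => h.hω0 _ ⟨by linarith [hx.2], by linarith [hx.1]⟩
  hD := fun x hx => h.hD _ ⟨by linarith [hx.2], by linarith [hx.1]⟩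
  hD0 := h.hD0
  hθ := h.hθ
  ha := by linarith [h.hb]
  hj := by linarith [h.hj]
  hb := by linarith [h.ha]
  hJ := fun x hx => h.hJ _ ⟨by linarith [hx.2], by linarith [hx.1]⟩
  hJ1 := fun x hx hne => h.hJ2 _ ⟨by linarith [hx.2], by linarith [hx.1]⟩
    (fun e => hne (by linarith))
  hJ2 := fun x hx hne => h.hJ1 _ ⟨by linarith [hx.2], by linarith [hx.1]⟩
    (fun e => hne (by linarith))

lemma En_reflect (θ : ℝ) (ω q g : ℝ → ℝ) (c s t : ℝ) :
    En θ (fun x => ω (c - x)) (fun x => q (c - x)) s t (fun x => g (c - x))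
      = En θ ω q (c - t) (c - s) g := by
  unfold En
  rw [← intervalIntegral.integral_comp_sub_left
    (fun x => θ * (ω x * (deriv g x) ^ 2) - q x * g x ^ 2) c]
  congr 1
  ext x
  rw [deriv_comp_const_sub]
  ring

/-- there is a function vanishing at `z` with negative energy on `[a, z]` -/
def LeftGood (θ : ℝ) (ω q : ℝ → ℝ) (a z : ℝ) : Prop :=
  ∃ g, Lip g ∧ g z = 0 ∧ En θ ω q a z g < 0

/-- there is a function vanishing at `z` with negative energy on `[z, b]` -/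
def RightGood (θ : ℝ) (ω q : ℝ → ℝ) (b z : ℝ) : Prop :=
  ∃ g, Lip g ∧ g z = 0 ∧ En θ ω q z b g < 0

lemma Lip.reflect {g : ℝ → ℝ} (hg : Lip g) (c : ℝ) : Lip (fun x => g (c - x)) := by
  have : Lip (fun x : ℝ => c - x) := by
    refine ⟨1, LipschitzWith.of_dist_le_mul fun x y => ?_⟩
    rw [Real.dist_eq, Real.dist_eq, show c - x - (c - y) = -(x - y) by ring, abs_neg]
    simp
  exact hg.comp this

lemma RightGood.reflect {a b : ℝ} {ω q : ℝ → ℝ} {θ z : ℝ} (h : RightGood θ ω q b z) :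
    LeftGood θ (fun x => ω (a + b - x)) (fun x => q (a + b - x)) a (a + b - z) := by
  obtain ⟨g, hg, h0, hE⟩ := h
  refine ⟨fun x => g (a + b - x), hg.reflect _, by simpa using h0, ?_⟩
  rw [En_reflect]
  simpa using hE

section Left

variable {a b : ℝ} {ω q : ℝ → ℝ} {θ D j₁ j₂ : ℝ}

lemma Data1.q_nonpos_ae (h : Data1 a b ω q θ D j₁ j₂) (g : ℝ → ℝ) {z : ℝ} (hz : z ≤ j₁)
    (haz : a ≤ z) : 0 ≤ - ∫ x in a..z, q x * g x ^ 2 := by
  rw [← intervalIntegral.integral_neg]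
  apply intervalIntegral.integral_nonneg_of_ae_restrict haz
  have : ∀ᵐ x ∂volume, x ≠ j₁ := Measure.ae_ne volume j₁
  filter_upwards [ae_restrict_of_ae this, ae_restrict_mem measurableSet_Icc] with x hx hx2
  have := h.hJ1 x ⟨hx2.1, hx2.2.trans hz⟩ hx
  simp only [Pi.zero_apply]
  nlinarith [sq_nonneg (g x)]

lemma kin_nonneg {a' b' : ℝ} (h : Data1 a b ω q θ D j₁ j₂) (g : ℝ → ℝ) (h1 : a ≤ a')
    (h2 : b' ≤ b) (h3 : a' ≤ b') : 0 ≤ ∫ x in a'..b', ω x * (deriv g x) ^ 2 :=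
  intervalIntegral.integral_nonneg h3 fun x hx =>
    mul_nonneg (h.hω0 x ⟨h1.trans hx.1, hx.2.trans h2⟩) (sq_nonneg _)

lemma Data1.en_nonneg_left (h : Data1 a b ω q θ D j₁ j₂) {g : ℝ → ℝ} (hg : Lip g) {z : ℝ}
    (hz : z ≤ j₁) (haz : a ≤ z) : 0 ≤ En θ ω q a z g := by
  rw [En_eq θ h.hω h.hq hg]
  have h1 := h.q_nonpos_ae g hz haz
  have h2 := kin_nonneg h g le_rfl (hz.trans (h.hj.le.trans h.hb)) haz
  have := mul_nonneg h.hθ.le h2
  linarith

/-- on `J` the kinetic energy controls the unweighted kinetic energy -/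
lemma Data1.kin_ge (h : Data1 a b ω q θ D j₁ j₂) {g : ℝ → ℝ} (hg : Lip g) {s t : ℝ}
    (hs : j₁ ≤ s) (hst : s ≤ t) (ht : t ≤ j₂) :
    2 / 3 * ∫ x in s..t, (deriv g x) ^ 2 ≤ ∫ x in s..t, ω x * (deriv g x) ^ 2 := by
  rw [← intervalIntegral.integral_const_mul]
  apply intervalIntegral.integral_mono_on hst ((hg.integrable_sq s t).const_mul _)
    (kin_integrable h.hω hg s t)
  intro x hx
  exact mul_le_mul_of_nonneg_right (h.hJ x ⟨hs.trans hx.1, hx.2.trans ht⟩).2 (sq_nonneg _)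

lemma Data1.left_quant (h : Data1 a b ω q θ D j₁ j₂) {z : ℝ} (haz : a ≤ z) (hzj : z ≤ j₂)
    (hz : LeftGood θ ω q a z) : j₁ < z ∧ 2 / 3 * θ < D * (z - j₁) ^ 2 := by
  obtain ⟨g, hg, h0, hE⟩ := hz
  have hjz : j₁ < z := by
    by_contra hcon
    have := h.en_nonneg_left hg (not_lt.mp hcon) haz
    linarith
  refine ⟨hjz, ?_⟩
  have hE2 : En θ ω q j₁ z g < 0 := by
    have h1 := h.en_nonneg_left hg le_rfl h.ha
    have h2 := En_add θ h.hω h.hq hg a j₁ z
    linarith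
  rw [En_eq θ h.hω h.hq hg] at hE2
  set K := ∫ x in j₁..z, (deriv g x) ^ 2 with hK
  have hK0 : 0 ≤ K := intervalIntegral.integral_nonneg hjz.le fun x _ => sq_nonneg _
  have h1 := h.kin_ge hg le_rfl hjz.le hzj
  have h2 : ∫ x in j₁..z, q x * g x ^ 2 ≤ ∫ x in j₁..z, D * ((z - j₁) * K) := by
    apply intervalIntegral.integral_mono_on hjz.le (pot_integrable h.hq hg j₁ z)
      intervalIntegrable_const
    intro x hx
    have hx' : x ∈ Icc a b := ⟨h.ha.trans hx.1, hx.2.trans (hzj.trans h.hb)⟩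
    have h3 : g x ^ 2 ≤ (z - j₁) * K := by
      have h4 := hg.sq_sub_le hx.2
      rw [h0, zero_sub, neg_sq] at h4
      have h5 : ∫ t in x..z, (deriv g t) ^ 2 ≤ K := by
        rw [hK, ← intervalIntegral.integral_add_adjacent_intervals (hg.integrable_sq j₁ x)
          (hg.integrable_sq x z)]
        have : 0 ≤ ∫ t in j₁..x, (deriv g t) ^ 2 :=
          intervalIntegral.integral_nonneg hx.1 fun x _ => sq_nonneg _
        linarith
      have h6 : 0 ≤ ∫ t in x..z, (deriv g t) ^ 2 :=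
        intervalIntegral.integral_nonneg hx.2 fun x _ => sq_nonneg _
      calc g x ^ 2 ≤ (z - x) * ∫ t in x..z, (deriv g t) ^ 2 := h4
        _ ≤ (z - j₁) * K := by
          apply mul_le_mul (by linarith [hx.1]) h5 h6 (by linarith)
    have h7 := (h.hJ x ⟨hx.1, hx.2.trans hzj⟩).1
    calc q x * g x ^ 2 ≤ q x * ((z - j₁) * K) := mul_le_mul_of_nonneg_left h3 h7
      _ ≤ D * ((z - j₁) * K) := mul_le_mul_of_nonneg_right (h.hD x hx')
        (mul_nonneg (by linarith) hK0)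
  rw [intervalIntegral.integral_const, smul_eq_mul] at h2
  have h8 : 2 / 3 * θ * K < D * (z - j₁) ^ 2 * K := by
    have := mul_le_mul_of_nonneg_left h1 h.hθ.le
    nlinarith
  exact lt_of_mul_lt_mul_right h8 hK0

/-- truncation -/
lemma Data1.trunc (h : Data1 a b ω q θ D j₁ j₂) {g : ℝ → ℝ} (hg : Lip g) {z A : ℝ}
    (haz : a ≤ z) (hzj : z ≤ j₂) (hA : 0 < A) (hgA : ∀ x ∈ Icc j₁ z, |g x| ≤ A) :
    En θ ω q a z (fun x => min (A⁻¹ * |g x|) 1) ≤ (A⁻¹) ^ 2 * En θ ω q a z g := by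
  have hl : Lip (fun x => min (A⁻¹ * |g x|) 1) := (Lip.min_const 1).comp (hg.abs.const_mul A⁻¹)
  rw [En, En, ← intervalIntegral.integral_const_mul]
  apply intervalIntegral.integral_mono_ae_restrict haz (en_integrable θ h.hω h.hq hl a z)
    ((en_integrable θ h.hω h.hq hg a z).const_mul _)
  have : ∀ᵐ x ∂volume, x ≠ j₁ := Measure.ae_ne volume j₁
  filter_upwards [ae_restrict_of_ae this, ae_restrict_mem measurableSet_Icc] with x hx hx2
  have hx' : x ∈ Icc a b := ⟨hx2.1, hx2.2.trans (hzj.trans h.hb)⟩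
  have hAi : 0 < A⁻¹ := inv_pos.mpr hA
  have hd : |deriv (fun y => min (A⁻¹ * |g y|) 1) x| ≤ A⁻¹ * |deriv g x| := by
    refine (abs_deriv_min_le _ ((hg.abs.const_mul A⁻¹).continuous) 1 x).trans ?_
    have : deriv (fun y => A⁻¹ * |g y|) x = A⁻¹ * deriv (fun y => |g y|) x := by
      exact deriv_const_mul_field _
    rw [this, abs_mul, abs_of_pos hAi]
    exact mul_le_mul_of_nonneg_left (abs_deriv_abs_le g hg.continuous x) hAi.le
  have hd2 : (deriv (fun y => min (A⁻¹ * |g y|) 1) x) ^ 2 ≤ (A⁻¹) ^ 2 * (deriv g x) ^ 2 := by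
    have := pow_le_pow_left₀ (abs_nonneg _) hd 2
    rwa [sq_abs, mul_pow, sq_abs] at this
  have hk : θ * (ω x * (deriv (fun y => min (A⁻¹ * |g y|) 1) x) ^ 2)
      ≤ (A⁻¹) ^ 2 * (θ * (ω x * (deriv g x) ^ 2)) := by
    have := mul_le_mul_of_nonneg_left (mul_le_mul_of_nonneg_left hd2 (h.hω0 x hx')) h.hθ.le
    nlinarith
  have hp : (A⁻¹) ^ 2 * (q x * g x ^ 2) ≤ q x * (min (A⁻¹ * |g x|) 1) ^ 2 := by
    have hsq : (A⁻¹ * |g x|) ^ 2 = (A⁻¹) ^ 2 * g x ^ 2 := by rw [mul_pow, sq_abs]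
    by_cases hxj : x < j₁
    · have hq0 := h.hJ1 x ⟨hx2.1, hxj.le⟩ hx
      have h1 : (min (A⁻¹ * |g x|) 1) ^ 2 ≤ (A⁻¹ * |g x|) ^ 2 :=
        pow_le_pow_left₀ (le_min (by positivity) zero_le_one) (min_le_left _ _) 2
      rw [hsq] at h1
      nlinarith
    · have h1 : A⁻¹ * |g x| ≤ 1 := by
        have := hgA x ⟨not_lt.mp hxj, hx2.2⟩
        rw [inv_mul_le_iff₀ hA]
        linarith
      rw [min_eq_left h1, hsq]
      linarith
  nlinarith

lemma Data1.left_piece (h : Data1 a b ω q θ D j₁ j₂) {z : ℝ} (haz : a ≤ z) (hzj : z ≤ j₂)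
    (hz : LeftGood θ ω q a z) :
    ∃ f, Lip f ∧ (∀ x, 0 ≤ f x ∧ f x ≤ 1) ∧ f z = 0 ∧ (∃ x₀ ∈ Icc j₁ z, f x₀ = 1) ∧
      En θ ω q a z f < 0 := by
  have hjz := (h.left_quant haz hzj hz).1
  obtain ⟨g, hg, h0, hE⟩ := hz
  obtain ⟨x₀, hx₀, hmax⟩ := (isCompact_Icc (a := j₁) (b := z)).exists_isMaxOn
    ⟨j₁, ⟨le_rfl, hjz.le⟩⟩ (hg.continuous.abs.continuousOn)
  have hmax' : ∀ x ∈ Icc j₁ z, |g x| ≤ |g x₀| := fun x hx => hmax hx
  have hA : 0 < |g x₀| := by
    by_contra hcon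
    have hz0 : ∀ x ∈ Icc j₁ z, g x = 0 := by
      intro x hx
      have := hmax' x hx
      have h2 := abs_nonneg (g x)
      have h3 : |g x| = 0 := le_antisymm (this.trans (not_lt.mp hcon)) h2
      exact abs_eq_zero.mp h3
    have h1 := h.en_nonneg_left hg le_rfl h.ha
    have h2 := En_add θ h.hω h.hq hg a j₁ z
    have h3 : 0 ≤ En θ ω q j₁ z g := by
      rw [En_eq θ h.hω h.hq hg]
      have h4 := kin_nonneg h g h.ha (hzj.trans h.hb) hjz.le
      have h5 : ∫ x in j₁..z, q x * g x ^ 2 = 0 := by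
        apply intervalIntegral.integral_zero_ae
        filter_upwards with x hx
        rw [uIoc_of_le hjz.le] at hx
        rw [hz0 x ⟨hx.1.le, hx.2⟩]
        ring
      rw [h5]
      have := mul_nonneg h.hθ.le h4
      linarith
    linarith
  refine ⟨fun x => min (|g x₀|⁻¹ * |g x|) 1, (Lip.min_const 1).comp (hg.abs.const_mul _), ?_, ?_,
    ⟨x₀, hx₀, ?_⟩, ?_⟩
  · intro x
    exact ⟨le_min (by positivity) zero_le_one, min_le_right _ _⟩
  · simp [h0]
  · simp only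
    rw [inv_mul_cancel₀ hA.ne', min_self]
  · refine (h.trunc hg haz hzj hA hmax').trans_lt ?_
    exact mul_neg_of_pos_of_neg (by positivity) hE

end Left

end Pool.Agent.MP_e32423_an
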