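import Pool.Agent.Lib.MP_e32423_an.Upper

/-!
The rhombus `|x| + 4 |y| < 1/2`: geometry.
-/

namespace Pool.Agent.MP_e32423_an

open MeasureTheory Set Filter
open scoped Topology RealInnerProductSpace NNReal ENNReal

/-- The rhombus with vertices `(±1/2, 0)` and `(0, ±1/8)`. -/
def rhombus : Set Plane := {z | |z 0| + 4 * |z 1| < 1 / 2}

/-- The left vertex. -/
noncomputable def pr : Plane := !₂[(-1 / 2 : ℝ), 0]

/-- The standard basis. -/
noncomputable def br : OrthonormalBasis (Fin 2) ℝ Plane := EuclideanSpace.basisFun (Fin 2) ℝ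

/-- The upper side. -/
noncomputable def gr (x : ℝ) : ℝ := (1 / 2 - |x - 1 / 2|) / 4

/-- The lower side. -/
noncomputable def fr (x : ℝ) : ℝ := -gr x

lemma pt_zero_apply (x y : ℝ) : (pt pr br x y) 0 = x - 1 / 2 := by
  simp [pt, pr, br]
  ring

lemma pt_one_apply (x y : ℝ) : (pt pr br x y) 1 = y := by
  simp [pt, pr, br]

lemma cx_r (z : Plane) : cx pr br z = z 0 + 1 / 2 := by
  have h := congrArg (fun w : Plane => w 0) (pt_c pr br z)
  simp only [pt_zero_apply] at h
  linarith

lemma cy_r (z : Plane) : cy pr br z = z 1 := by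
  have h := congrArg (fun w : Plane => w 1) (pt_c pr br z)
  simp only [pt_one_apply] at h
  exact h

lemma mem_rhombus (z : Plane) : z ∈ rhombus ↔ |z 0| + 4 * |z 1| < 1 / 2 := Iff.rfl

lemma rhombus_open : IsOpen rhombus := by
  apply isOpen_lt _ continuous_const
  fun_prop

lemma rhombus_graph : IsGraph rhombus pr br fr gr where
  mem_iff := by
    intro x y
    rw [mem_rhombus, pt_zero_apply, pt_one_apply]
    unfold fr gr
    constructor
    · intro h
      have h1 := abs_nonneg y
      have h2 := abs_nonneg (x - 1 / 2)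
      have h3 := le_abs_self (x - 1 / 2)
      have h4 := neg_abs_le (x - 1 / 2)
      have h5 := le_abs_self y
      have h6 := neg_abs_le y
      exact ⟨⟨by linarith, by linarith⟩, ⟨by linarith, by linarith⟩⟩
    · rintro ⟨_, h1, h2⟩
      have : |y| < (1 / 2 - |x - 1 / 2|) / 4 := abs_lt.mpr ⟨h1, h2⟩
      linarith
  lt := by
    intro x h0 h1
    unfold fr gr
    have : |x - 1 / 2| < 1 / 2 := abs_lt.mpr ⟨by linarith, by linarith⟩
    linarith

lemma rhombus_convex : Convex ℝ rhombus := by
  intro z hz w hw a c ha hc hac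
  rw [mem_rhombus] at *
  have e : ∀ i, (a • z + c • w) i = a * z i + c * w i := fun i => by simp
  rw [e, e]
  have h0 := abs_add_le (a * z 0) (c * w 0)
  have h1 := abs_add_le (a * z 1) (c * w 1)
  rw [abs_mul, abs_mul, abs_of_nonneg ha, abs_of_nonneg hc] at h0 h1
  have hc' : c = 1 - a := by linarith
  rcases ha.eq_or_lt with rfl | ha'
  · have : c = 1 := by linarith
    subst this
    linarith
  · have h2 := mul_lt_mul_of_pos_left hz ha'
    have h3 := mul_le_mul_of_nonneg_left hw.le hc
    subst hc'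
    linarith

lemma dist_sq_r (z w : Plane) : dist z w ^ 2 = (z 0 - w 0) ^ 2 + (z 1 - w 1) ^ 2 := by
  rw [dist_sq_eq pr br, cx_r, cx_r, cy_r, cy_r]
  ring

lemma rhombus_dist_le {z w : Plane} (hz : z ∈ rhombus) (hw : w ∈ rhombus) : dist z w ≤ 1 := by
  rw [mem_rhombus] at hz hw
  have h := dist_sq_r z w
  have h0 := abs_sub (z 0) (w 0)
  have h1 := abs_sub (z 1) (w 1)
  have n0 := abs_nonneg (z 0 - w 0)
  have n1 := abs_nonneg (z 1 - w 1)
  rw [← sq_abs (z 0 - w 0), ← sq_abs (z 1 - w 1)] at h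
  have h2 : |z 0 - w 0| + 4 * |z 1 - w 1| ≤ 1 := by linarith
  have h3 : dist z w ^ 2 ≤ 1 ^ 2 := by
    rw [h]
    nlinarith
  exact (pow_le_pow_iff_left₀ dist_nonneg zero_le_one two_ne_zero).mp h3

lemma rhombus_bounded : Bornology.IsBounded rhombus :=
  Metric.isBounded_iff.mpr ⟨1, fun _ hz _ hw => rhombus_dist_le hz hw⟩

lemma mem_axis {t : ℝ} (h0 : 0 < t) (h1 : t < 1) : pt pr br t 0 ∈ rhombus := by
  rw [rhombus_graph.mem_iff]
  have := rhombus_graph.lt t h0 h1
  unfold fr at this
  exact ⟨⟨h0, h1⟩, by unfold fr; constructor <;> linarith⟩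

lemma pr_mem : pr ∈ closure rhombus := by
  have hc : Continuous fun t : ℝ => pt pr br t 0 := by unfold pt; fun_prop
  have h : (0 : ℝ) ∈ closure (Ioo (0 : ℝ) 1) := by
    rw [closure_Ioo zero_ne_one]
    exact ⟨le_rfl, zero_le_one⟩
  have h2 := (hc.continuousAt.continuousWithinAt (s := Ioo (0 : ℝ) 1)).mem_closure_image h
  have e : pt pr br 0 0 = pr := by simp [pt]
  rw [e] at h2
  refine closure_mono ?_ h2
  rintro z ⟨t, ht, rfl⟩
  exact mem_axis ht.1 ht.2

lemma pr_add_mem : pr + br 0 ∈ closure rhombus := by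
  have hc : Continuous fun t : ℝ => pt pr br t 0 := by unfold pt; fun_prop
  have h : (1 : ℝ) ∈ closure (Ioo (0 : ℝ) 1) := by
    rw [closure_Ioo zero_ne_one]
    exact ⟨zero_le_one, le_rfl⟩
  have h2 := (hc.continuousAt.continuousWithinAt (s := Ioo (0 : ℝ) 1)).mem_closure_image h
  have e : pt pr br 1 0 = pr + br 0 := by simp [pt]
  rw [e] at h2
  refine closure_mono ?_ h2
  rintro z ⟨t, ht, rfl⟩
  exact mem_axis ht.1 ht.2

lemma rhombus_dom : IsConvexDomain 1 rhombus where
  isOpen := rhombus_open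
  convex := rhombus_convex
  nonempty := ⟨_, mem_axis (t := 1 / 2) (by norm_num) (by norm_num)⟩
  isBounded := rhombus_bounded
  diam_eq := by
    apply le_antisymm
    · exact Metric.diam_le_of_forall_dist_le zero_le_one fun _ hz _ hw => rhombus_dist_le hz hw
    · rw [← Metric.diam_closure]
      have h := Metric.dist_le_diam_of_mem rhombus_bounded.closure pr_mem pr_add_mem
      refine le_trans (le_of_eq ?_) h
      rw [dist_eq_norm, sub_add_cancel_left, norm_neg, br.norm_eq_one]

lemma gr_concave : ConcaveOn ℝ (Ioo 0 1) gr := by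
  refine ⟨convex_Ioo 0 1, ?_⟩
  intro x _ y _ s t hs ht hst
  simp only [smul_eq_mul, gr]
  have e : s * x + t * y - 1 / 2 = s * (x - 1 / 2) + t * (y - 1 / 2) := by
    have : (s + t) * (1 / 2) = 1 / 2 := by rw [hst, one_mul]
    linarith
  rw [e]
  have h := abs_add_le (s * (x - 1 / 2)) (t * (y - 1 / 2))
  rw [abs_mul, abs_mul, abs_of_nonneg hs, abs_of_nonneg ht] at h
  have e2 : (s + t) * (1 / 2) = 1 / 2 := by rw [hst, one_mul]
  linarith

lemma rhombus_thin : Thin rhombus pr br fr gr (1 / 4) where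
  dom := rhombus_dom
  hp := pr_mem
  hq := pr_add_mem
  graph := rhombus_graph
  fconv := gr_concave.neg
  gconc := gr_concave
  sgn := by
    intro x hx
    have : |x - 1 / 2| < 1 / 2 := abs_lt.mpr ⟨by linarith [hx.1], by linarith [hx.2]⟩
    unfold fr gr
    constructor <;> linarith
  width := by
    intro x _
    have := abs_nonneg (x - 1 / 2)
    unfold fr gr
    linarith
  W0 := by norm_num

/-! ### the reflection -/

/-- The reflection `(x, y) ↦ (-x, y)`. -/
noncomputable def refl' : Plane ≃ₗᵢ[ℝ] Plane :=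
  LinearIsometryEquiv.piLpCongrRight 2 (fun i : Fin 2 =>
    if i = 0 then LinearIsometryEquiv.neg ℝ else LinearIsometryEquiv.refl ℝ ℝ)

lemma refl'_zero (z : Plane) : (refl' z) 0 = - z 0 := by
  simp [refl']

lemma refl'_one (z : Plane) : (refl' z) 1 = z 1 := by
  simp [refl']

lemma refl'_refl' (z : Plane) : refl' (refl' z) = z := by
  ext i
  fin_cases i
  · show (refl' (refl' z)) 0 = z 0
    rw [refl'_zero, refl'_zero, neg_neg]
  · show (refl' (refl' z)) 1 = z 1
    rw [refl'_one, refl'_one]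

lemma cx_refl' (z : Plane) : cx pr br (refl' z) = 1 - cx pr br z := by
  rw [cx_r, cx_r, refl'_zero]
  ring

lemma refl'_mem (z : Plane) : refl' z ∈ rhombus ↔ z ∈ rhombus := by
  rw [mem_rhombus, mem_rhombus, refl'_zero, refl'_one, abs_neg]

lemma preimage_refl' : refl' ⁻¹' rhombus = rhombus := by
  ext z
  exact refl'_mem z

lemma preimage_refl'_frontier : refl' ⁻¹' (frontier rhombus) = frontier rhombus := by
  have h := refl'.toHomeomorph.preimage_frontier rhombus
  have e : (refl'.toHomeomorph : Plane → Plane) = refl' := rfl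
  rw [e, preimage_refl'] at h
  exact h

lemma integral_refl' (φ : Plane → ℝ) :
    ∫ z in rhombus, φ (refl' z) = ∫ z in rhombus, φ z := by
  have h := (refl'.measurePreserving).setIntegral_preimage_emb
    refl'.toHomeomorph.measurableEmbedding φ rhombus
  rw [preimage_refl'] at h
  exact h

lemma integral_refl'_frontier (φ : Plane → ℝ) :
    ∫ z in frontier rhombus, φ (refl' z) ∂(Measure.hausdorffMeasure 1)
      = ∫ z in frontier rhombus, φ z ∂(Measure.hausdorffMeasure 1) := by
  have h := (refl'.toIsometryEquiv.measurePreserving_hausdorffMeasure 1).setIntegral_preimage_emb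
    refl'.toHomeomorph.measurableEmbedding φ (frontier rhombus)
  have e : (refl'.toIsometryEquiv : Plane → Plane) = refl' := rfl
  rw [e, preimage_refl'_frontier] at h
  exact h

lemma fderiv_refl' {u : Plane → ℝ} (hu : ContDiff ℝ 1 u) (z : Plane) :
    ‖fderiv ℝ (fun z => u (refl' z)) z‖ = ‖fderiv ℝ u (refl' z)‖ := by
  have h1 : fderiv ℝ (fun z => u (refl' z)) z
      = (fderiv ℝ u (refl' z)).comp (refl'.toContinuousLinearEquiv : Plane →L[ℝ] Plane) := by
    have h2 := (hu.differentiable (by norm_num) (refl' z)).hasFDerivAt.comp z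
      (refl'.toContinuousLinearEquiv.hasFDerivAt (x := z))
    exact h2.fderiv
  rw [h1]
  exact ContinuousLinearMap.opNorm_comp_linearIsometryEquiv _ refl'

lemma form_refl' {α : ℝ} {V : Plane → ℝ} (hV : ∀ z, V (refl' z) = V z) {u : Plane → ℝ}
    (hu : ContDiff ℝ 1 u) :
    robinForm α rhombus V (fun z => u (refl' z)) = robinForm α rhombus V u := by
  unfold robinForm
  rw [← integral_refl' (fun z => ‖fderiv ℝ u z‖ ^ 2 + V z * u z ^ 2),
    ← integral_refl'_frontier (fun z => u z ^ 2)]
  simp only [fderiv_refl' hu, hV]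

end Pool.Agent.MP_e32423_an
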