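import Pool.Agent.Lib.MP_e32423_an.Tip

/-!
The gap of the rhombus with the potential `K² y²` is small for large `K`.
-/

namespace Pool.Agent.MP_e32423_an

open MeasureTheory Set Filter
open scoped Topology RealInnerProductSpace NNReal ENNReal

/-- cutoff angle for the middle -/
noncomputable def phiM (t : ℝ) : ℝ :=
  Real.pi / 2 * Real.smoothTransition (64 / 5 * ((t - 1 / 2) ^ 2 - 1 / 16))

/-- cutoff angle for the right side -/
noncomputable def phiR (t : ℝ) : ℝ := Real.pi / 2 * Real.smoothTransition (8 * (t - 5 / 8))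

lemma phiM_contDiff : ContDiff ℝ 1 phiM := by
  unfold phiM
  exact contDiff_const.mul (Real.smoothTransition.contDiff.comp (by fun_prop))

lemma phiR_contDiff : ContDiff ℝ 1 phiR := by
  unfold phiR
  exact contDiff_const.mul (Real.smoothTransition.contDiff.comp (by fun_prop))

lemma phiM_zero {t : ℝ} (h : |t - 1 / 2| ≤ 1 / 4) : phiM t = 0 := by
  unfold phiM
  rw [Real.smoothTransition.zero_of_nonpos, mul_zero]
  have := pow_le_pow_left₀ (abs_nonneg _) h 2
  rw [sq_abs] at this
  linarith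

lemma phiM_one {t : ℝ} (h : 3 / 8 ≤ |t - 1 / 2|) : phiM t = Real.pi / 2 := by
  unfold phiM
  rw [Real.smoothTransition.one_of_one_le, mul_one]
  have := pow_le_pow_left₀ (by norm_num) h 2
  rw [sq_abs] at this
  linarith

lemma phiR_zero {t : ℝ} (h : t ≤ 5 / 8) : phiR t = 0 := by
  unfold phiR
  rw [Real.smoothTransition.zero_of_nonpos, mul_zero]
  linarith

lemma phiR_one {t : ℝ} (h : 3 / 4 ≤ t) : phiR t = Real.pi / 2 := by
  unfold phiR
  rw [Real.smoothTransition.one_of_one_le, mul_one]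
  linarith

lemma phiR_deriv_left {t : ℝ} (h : t < 5 / 8) : deriv phiR t = 0 := by
  have : phiR =ᶠ[𝓝 t] fun _ => 0 := by
    filter_upwards [Iio_mem_nhds h] with s hs
    exact phiR_zero (le_of_lt hs)
  rw [this.deriv_eq]
  simp

lemma phiR_deriv_right {t : ℝ} (h : 3 / 4 < t) : deriv phiR t = 0 := by
  have : phiR =ᶠ[𝓝 t] fun _ => Real.pi / 2 := by
    filter_upwards [Ioi_mem_nhds h] with s hs
    exact phiR_one (le_of_lt hs)
  rw [this.deriv_eq]
  simp

lemma exists_bound_sq {ψ : ℝ → ℝ} (hψ : Continuous ψ) :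
    ∃ C : ℝ, 0 ≤ C ∧ ∀ t ∈ Icc (0 : ℝ) 1, ψ t ^ 2 ≤ C := by
  obtain ⟨C, hC⟩ := (isCompact_Icc (a := (0 : ℝ)) (b := 1)).exists_bound_of_continuousOn
    (hψ.pow 2).continuousOn
  refine ⟨max C 0, le_max_right _ _, fun t ht => ?_⟩
  exact ((le_abs_self _).trans (hC t ht)).trans (le_max_left _ _)

lemma cx_mem_r {z : Plane} (hz : z ∈ rhombus) : cx pr br z ∈ Icc (0 : ℝ) 1 := by
  have := (rhombus_thin.mem_coords hz).1
  exact ⟨this.1.le, this.2.le⟩

lemma int_r {F : Plane → ℝ} (hF : Continuous F) : IntegrableOn F rhombus :=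
  integrableOn_aux rhombus_bounded hF

lemma mass_sin_cos {φ : ℝ → ℝ} (hφ : ContDiff ℝ 1 φ) {u : Plane → ℝ} (hu : ContDiff ℝ 1 u) :
    (∫ z in rhombus, loc (fun t => Real.sin (φ t)) u z ^ 2) +
      (∫ z in rhombus, loc (fun t => Real.cos (φ t)) u z ^ 2) = ∫ z in rhombus, u z ^ 2 := by
  have hs : ContDiff ℝ 1 fun t => Real.sin (φ t) := Real.contDiff_sin.comp hφ
  have hc : ContDiff ℝ 1 fun t => Real.cos (φ t) := Real.contDiff_cos.comp hφ
  have hus := loc_contDiff hs hu
  have huc := loc_contDiff hc hu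
  have I1 : IntegrableOn (fun z => loc (fun t => Real.sin (φ t)) u z ^ 2) rhombus :=
    int_r (hus.continuous.pow 2)
  have I2 : IntegrableOn (fun z => loc (fun t => Real.cos (φ t)) u z ^ 2) rhombus :=
    int_r (huc.continuous.pow 2)
  rw [← integral_add I1 I2]
  congr 1
  ext z
  simp only [loc]
  have h1 := Real.sin_sq_add_cos_sq (φ (cx pr br z))
  calc _ = (Real.sin (φ (cx pr br z)) ^ 2 + Real.cos (φ (cx pr br z)) ^ 2) * u z ^ 2 := by ring
    _ = u z ^ 2 := by rw [h1, one_mul]

/-- the mass in the middle is small -/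
lemma middle_mass {K α ε C₀ : ℝ} (hK : 15360 ≤ K) (hα : 0 ≤ α)
    (hC : ∀ t ∈ Icc (0 : ℝ) 1, deriv phiM t ^ 2 ≤ C₀)
    (hlam : robinEigenvalue α rhombus (VK K) 1 ≤ 4 / 10 * K) {u : Plane → ℝ}
    (hu : ContDiff ℝ 1 u)
    (hle : robinForm α rhombus (VK K) u ≤
      (robinEigenvalue α rhombus (VK K) 1 + ε) * ∫ z in rhombus, u z ^ 2) :
    1 / 2 * K * (∫ z in rhombus, loc (fun t => Real.cos (phiM t)) u z ^ 2) ≤
      (ε + C₀) * ∫ z in rhombus, u z ^ 2 := by
  have hs : ContDiff ℝ 1 fun t => Real.sin (phiM t) := Real.contDiff_sin.comp phiM_contDiff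
  have hc : ContDiff ℝ 1 fun t => Real.cos (phiM t) := Real.contDiff_cos.comp phiM_contDiff
  have hus := loc_contDiff hs hu
  have huc := loc_contDiff hc hu
  have h1 := ims phiM_contDiff (VK_cont K) hu (α := α)
  have h2 := mass_sin_cos phiM_contDiff hu
  have h3 := rayleigh hα (VK_nonneg K) rhombus_open rhombus_bounded hus
  have h4 := middle_bound hK huc (by
    intro z hz
    simp only [loc]
    rw [phiM_one hz, Real.cos_pi_div_two, zero_mul])
  have h5 : 9 / 10 * K * ∫ z in rhombus, loc (fun t => Real.cos (phiM t)) u z ^ 2 ≤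
      robinForm α rhombus (VK K) (loc (fun t => Real.cos (phiM t)) u) := by
    refine h4.trans ?_
    unfold robinForm
    have : 0 ≤ α * ∫ z in frontier rhombus, loc (fun t => Real.cos (phiM t)) u z ^ 2
        ∂(Measure.hausdorffMeasure 1) :=
      mul_nonneg hα (integral_nonneg fun _ => sq_nonneg _)
    linarith
  have h6 : ∫ z in rhombus, deriv phiM (cx pr br z) ^ 2 * u z ^ 2 ≤
      C₀ * ∫ z in rhombus, u z ^ 2 := by
    rw [← integral_const_mul]
    apply setIntegral_mono_on
    · exact int_r ((((phiM_contDiff.continuous_deriv (by norm_num)).comp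
        (continuous_cx pr br)).pow 2).mul (hu.continuous.pow 2))
    · exact int_r (continuous_const.mul (hu.continuous.pow 2))
    · exact rhombus_open.measurableSet
    · intro z hz
      exact mul_le_mul_of_nonneg_right (hC _ (cx_mem_r hz)) (sq_nonneg _)
  set lam := robinEigenvalue α rhombus (VK K) 1
  set ms := ∫ z in rhombus, loc (fun t => Real.sin (phiM t)) u z ^ 2
  set mc := ∫ z in rhombus, loc (fun t => Real.cos (phiM t)) u z ^ 2 with hmc
  set m := ∫ z in rhombus, u z ^ 2
  have hmc0 : 0 ≤ mc := mass_nonneg _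
  have h7 : lam * mc ≤ 4 / 10 * K * mc := mul_le_mul_of_nonneg_right hlam hmc0
  have h8 : lam * m = lam * ms + lam * mc := by rw [← h2]; ring
  linarith

/-- the part of `u` on the right -/
lemma right_part {K α ε C₁ : ℝ} (hα : 0 ≤ α) (hC0 : 0 ≤ C₁)
    (hC : ∀ t ∈ Icc (0 : ℝ) 1, deriv phiR t ^ 2 ≤ C₁) {u : Plane → ℝ}
    (hu : ContDiff ℝ 1 u)
    (hle : robinForm α rhombus (VK K) u ≤
      (robinEigenvalue α rhombus (VK K) 1 + ε) * ∫ z in rhombus, u z ^ 2) :
    robinForm α rhombus (VK K) (loc (fun t => Real.sin (phiR t)) u) ≤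
      robinEigenvalue α rhombus (VK K) 1 *
        (∫ z in rhombus, loc (fun t => Real.sin (phiR t)) u z ^ 2) +
      ε * (∫ z in rhombus, u z ^ 2) +
      C₁ * ∫ z in rhombus, loc (fun t => Real.cos (phiM t)) u z ^ 2 := by
  have hc : ContDiff ℝ 1 fun t => Real.cos (phiR t) := Real.contDiff_cos.comp phiR_contDiff
  have hcM : ContDiff ℝ 1 fun t => Real.cos (phiM t) := Real.contDiff_cos.comp phiM_contDiff
  have huc := loc_contDiff hc hu
  have hucM := loc_contDiff hcM hu
  have h1 := ims phiR_contDiff (VK_cont K) hu (α := α)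
  have h2 := mass_sin_cos phiR_contDiff hu
  have h3 := rayleigh hα (VK_nonneg K) rhombus_open rhombus_bounded huc
  have h6 : ∫ z in rhombus, deriv phiR (cx pr br z) ^ 2 * u z ^ 2 ≤
      C₁ * ∫ z in rhombus, loc (fun t => Real.cos (phiM t)) u z ^ 2 := by
    rw [← integral_const_mul]
    apply setIntegral_mono_on
    · exact int_r ((((phiR_contDiff.continuous_deriv (by norm_num)).comp
        (continuous_cx pr br)).pow 2).mul (hu.continuous.pow 2))
    · exact int_r (continuous_const.mul (hucM.continuous.pow 2))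
    · exact rhombus_open.measurableSet
    · intro z hz
      simp only [loc]
      by_cases hm : |cx pr br z - 1 / 2| ≤ 1 / 4
      · rw [phiM_zero hm, Real.cos_zero, one_mul]
        exact mul_le_mul_of_nonneg_right (hC _ (cx_mem_r hz)) (sq_nonneg _)
      · have h0 : deriv phiR (cx pr br z) = 0 := by
          rw [abs_le, not_and_or] at hm
          rcases hm with hm | hm
          · exact phiR_deriv_left (by linarith)
          · exact phiR_deriv_right (by linarith)
        rw [h0]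
        have : 0 ≤ C₁ * (Real.cos (phiM (cx pr br z)) * u z) ^ 2 := by positivity
        linarith
  set lam := robinEigenvalue α rhombus (VK K) 1
  set ms := ∫ z in rhombus, loc (fun t => Real.sin (phiR t)) u z ^ 2
  set mc := ∫ z in rhombus, loc (fun t => Real.cos (phiR t)) u z ^ 2
  set m := ∫ z in rhombus, u z ^ 2
  have h8 : lam * m = lam * ms + lam * mc := by rw [← h2]; ring
  linarith

/-- one of the two sides carries mass -/
lemma mass_sides {u : Plane → ℝ} (hu : ContDiff ℝ 1 u) :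
    ∫ z in rhombus, u z ^ 2 ≤
      (∫ z in rhombus, loc (fun t => Real.sin (phiR t)) u z ^ 2) +
      (∫ z in rhombus, loc (fun t => Real.sin (phiR t)) (fun z => u (refl' z)) z ^ 2) +
      ∫ z in rhombus, loc (fun t => Real.cos (phiM t)) u z ^ 2 := by
  have hs : ContDiff ℝ 1 fun t => Real.sin (phiR t) := Real.contDiff_sin.comp phiR_contDiff
  have hcM : ContDiff ℝ 1 fun t => Real.cos (phiM t) := Real.contDiff_cos.comp phiM_contDiff
  have e1 : ∫ z in rhombus, loc (fun t => Real.sin (phiR t)) (fun z => u (refl' z)) z ^ 2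
      = ∫ z in rhombus, (Real.sin (phiR (1 - cx pr br z)) * u z) ^ 2 := by
    rw [← integral_refl' (fun z => (Real.sin (phiR (1 - cx pr br z)) * u z) ^ 2)]
    simp only [cx_refl', loc, sub_sub_cancel]
  rw [e1]
  have hcx := continuous_cx pr br
  have hphR := phiR_contDiff.continuous
  have huc := hu.continuous
  have I1 : IntegrableOn (fun z => loc (fun t => Real.sin (phiR t)) u z ^ 2) rhombus :=
    int_r ((loc_contDiff hs hu).continuous.pow 2)
  have I2 : IntegrableOn (fun z => (Real.sin (phiR (1 - cx pr br z)) * u z) ^ 2) rhombus :=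
    int_r (by fun_prop)
  have I3 : IntegrableOn (fun z => loc (fun t => Real.cos (phiM t)) u z ^ 2) rhombus :=
    int_r ((loc_contDiff hcM hu).continuous.pow 2)
  have I12 : IntegrableOn (fun z => loc (fun t => Real.sin (phiR t)) u z ^ 2 +
      (Real.sin (phiR (1 - cx pr br z)) * u z) ^ 2) rhombus := I1.add I2
  rw [← integral_add I1 I2, ← integral_add I12 I3]
  apply setIntegral_mono_on (int_r (huc.pow 2)) (I12.add I3) rhombus_open.measurableSet
  intro z _
  simp only [loc, Pi.add_apply, Pi.pow_apply]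
  have n1 := sq_nonneg (Real.sin (phiR (cx pr br z)) * u z)
  have n2 := sq_nonneg (Real.sin (phiR (1 - cx pr br z)) * u z)
  have n3 := sq_nonneg (Real.cos (phiM (cx pr br z)) * u z)
  by_cases hm : |cx pr br z - 1 / 2| ≤ 1 / 4
  · rw [phiM_zero hm, Real.cos_zero, one_mul]
    rw [phiM_zero hm, Real.cos_zero, one_mul] at n3
    linarith
  · rw [abs_le, not_and_or] at hm
    rcases hm with hm | hm
    · rw [phiR_one (t := 1 - cx pr br z) (by linarith), Real.sin_pi_div_two, one_mul]
      linarith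
    · rw [phiR_one (t := cx pr br z) (by linarith), Real.sin_pi_div_two, one_mul]
      linarith

/-- the localised function and its reflection have disjoint supports -/
lemma loc_disj (u : Plane → ℝ) :
    Disj (loc (fun t => Real.sin (phiR t)) u)
      (fun z => loc (fun t => Real.sin (phiR t)) u (refl' z)) := by
  have key : ∀ z, cx pr br z < 5 / 8 → loc (fun t => Real.sin (phiR t)) u z = 0 := by
    intro z hz
    simp only [loc]
    rw [phiR_zero hz.le, Real.sin_zero, zero_mul]
  intro z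
  rcases le_total (cx pr br z) (1 / 2) with h | h
  · left
    have hz : cx pr br z < 5 / 8 := by linarith
    refine ⟨key z hz, ?_⟩
    have : loc (fun t => Real.sin (phiR t)) u =ᶠ[𝓝 z] fun _ => 0 := by
      filter_upwards [(continuous_cx pr br).continuousAt.eventually (gt_mem_nhds hz)] with w hw
      exact key w hw
    rw [this.fderiv_eq]
    simp
  · right
    have hz : cx pr br (refl' z) < 5 / 8 := by rw [cx_refl']; linarith
    refine ⟨key _ hz, ?_⟩
    have hcont : Continuous fun w => cx pr br (refl' w) :=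
      (continuous_cx pr br).comp refl'.continuous
    have : (fun z => loc (fun t => Real.sin (phiR t)) u (refl' z)) =ᶠ[𝓝 z] fun _ => 0 := by
      filter_upwards [hcont.continuousAt.eventually (gt_mem_nhds hz)] with w hw
      exact key _ hw
    rw [this.fderiv_eq]
    simp

/-- The gap of the rhombus can be made small. -/
theorem rhombus_gap {α ε : ℝ} (hα0 : 0 ≤ α) (hα1 : α ≤ 1 / 100) (hε : 0 < ε) :
    ∃ K : ℝ, 0 < K ∧ fundamentalGap α rhombus (VK K) < ε := by
  obtain ⟨C₀, hC0, hC₀⟩ := exists_bound_sq (phiM_contDiff.continuous_deriv (by norm_num))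
  obtain ⟨C₁, hC1, hC₁⟩ := exists_bound_sq (phiR_contDiff.continuous_deriv (by norm_num))
  obtain ⟨K, hK1, hK2, hK3'⟩ : ∃ K : ℝ, 15360 ≤ K ∧ 12 * (ε / 10 + C₀) ≤ K ∧
      20 * C₁ * (ε / 10 + C₀) / ε ≤ K :=
    ⟨max 15360 (max (12 * (ε / 10 + C₀)) (20 * C₁ * (ε / 10 + C₀) / ε)), le_max_left _ _,
      (le_max_left _ _).trans (le_max_right _ _), (le_max_right _ _).trans (le_max_right _ _)⟩
  have hK3 : 20 * C₁ * (ε / 10 + C₀) ≤ K * ε := (div_le_iff₀ hε).mp hK3'
  have hK0 : 0 < K := by linarith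
  refine ⟨K, hK0, ?_⟩
  obtain ⟨lam, hlamdef⟩ : ∃ lam, lam = robinEigenvalue α rhombus (VK K) 1 := ⟨_, rfl⟩
  have hmem := eig_one_tip hα0 hα1 (show 192 ≤ K by linarith)
  have hbd1 := specSet_bddBelow hα0 (VK_nonneg K) rhombus_open rhombus_bounded (k := 1) one_ne_zero
  have hbd2 := specSet_bddBelow hα0 (VK_nonneg K) rhombus_open rhombus_bounded (k := 2) two_ne_zero
  have hlam : robinEigenvalue α rhombus (VK K) 1 ≤ 4 / 10 * K := csInf_le hbd1 hmem
  -- an almost minimiser
  obtain ⟨Λ', ⟨E, hE, hEc, hEne, hEle⟩, hΛ'⟩ := exists_lt_of_csInf_lt ⟨_, hmem⟩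
    (show sInf (specSet α rhombus (VK K) 1) < lam + ε / 10 by
      rw [← robinEigenvalue_eq, ← hlamdef]; linarith)
  have hEn : E ≠ ⊥ := by
    rintro rfl
    rw [finrank_bot] at hE
    exact zero_ne_one hE
  obtain ⟨u₀, hu₀E, hu₀⟩ := E.exists_mem_ne_zero_of_ne_bot hEn
  obtain ⟨z₀, hz₀, huz₀⟩ := hEne u₀ hu₀E hu₀
  have hu₀c := hEc u₀ hu₀E
  have hm₀ := mass_pos rhombus_open rhombus_bounded hu₀c.continuous hz₀ huz₀
  have hF₀ : robinForm α rhombus (VK K) u₀ ≤ (lam + ε / 10) * ∫ z in rhombus, u₀ z ^ 2 :=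
    (hEle u₀ hu₀E).trans (mul_le_mul_of_nonneg_right hΛ'.le hm₀.le)
  rw [hlamdef] at hF₀
  -- the mass in the middle
  have hmid : ∀ u : Plane → ℝ, ContDiff ℝ 1 u →
      robinForm α rhombus (VK K) u ≤ (robinEigenvalue α rhombus (VK K) 1 + ε / 10) *
        (∫ z in rhombus, u z ^ 2) →
      (∫ z in rhombus, loc (fun t => Real.cos (phiM t)) u z ^ 2) ≤
        1 / 6 * (∫ z in rhombus, u z ^ 2) ∧
      C₁ * (∫ z in rhombus, loc (fun t => Real.cos (phiM t)) u z ^ 2) ≤
        ε / 10 * (∫ z in rhombus, u z ^ 2) := by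
    intro u hu hle
    have h1 := middle_mass hK1 hα0 hC₀ hlam hu hle
    have hm : 0 ≤ ∫ z in rhombus, u z ^ 2 := mass_nonneg _
    have hmc : 0 ≤ ∫ z in rhombus, loc (fun t => Real.cos (phiM t)) u z ^ 2 := mass_nonneg _
    obtain ⟨m, hmdef⟩ : ∃ m, m = ∫ z in rhombus, u z ^ 2 := ⟨_, rfl⟩
    obtain ⟨mc, hmcdef⟩ : ∃ mc, mc = ∫ z in rhombus, loc (fun t => Real.cos (phiM t)) u z ^ 2 :=
      ⟨_, rfl⟩
    rw [← hmdef] at hm h1 ⊢
    rw [← hmcdef] at hmc h1 ⊢
    constructor
    · by_contra hcon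
      push Not at hcon
      have h2 := mul_lt_mul_of_pos_left hcon (show 0 < 1 / 2 * K by linarith)
      have h3 := mul_le_mul_of_nonneg_right hK2 hm
      linarith
    · have h4 := mul_le_mul_of_nonneg_left h1 hC1
      have h5 := mul_le_mul_of_nonneg_right hK3 hm
      have h6 : K * (C₁ * mc) ≤ K * (ε / 10 * m) := by
        have e1 : C₁ * (1 / 2 * K * mc) = 1 / 2 * (K * (C₁ * mc)) := by ring
        have e2 : C₁ * ((ε / 10 + C₀) * m) = 1 / 20 * (20 * C₁ * (ε / 10 + C₀) * m) := by ring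
        rw [e1, e2] at h4
        linarith
      exact le_of_mul_le_mul_left h6 hK0
  -- choose the side
  obtain ⟨u, hu, hmu, hF, hside⟩ : ∃ u : Plane → ℝ, ContDiff ℝ 1 u ∧
      0 < (∫ z in rhombus, u z ^ 2) ∧
      robinForm α rhombus (VK K) u ≤ (robinEigenvalue α rhombus (VK K) 1 + ε / 10) *
        (∫ z in rhombus, u z ^ 2) ∧
      1 / 3 * (∫ z in rhombus, u z ^ 2) ≤
        ∫ z in rhombus, loc (fun t => Real.sin (phiR t)) u z ^ 2 := by
    have h1 := mass_sides hu₀c
    have h2 := (hmid u₀ hu₀c hF₀).1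
    have hmr : ∫ z in rhombus, (fun z => u₀ (refl' z)) z ^ 2 = ∫ z in rhombus, u₀ z ^ 2 :=
      integral_refl' (fun z => u₀ z ^ 2)
    by_cases hcase : 1 / 3 * (∫ z in rhombus, u₀ z ^ 2) ≤
        ∫ z in rhombus, loc (fun t => Real.sin (phiR t)) u₀ z ^ 2
    · exact ⟨u₀, hu₀c, hm₀, hF₀, hcase⟩
    · push Not at hcase
      refine ⟨fun z => u₀ (refl' z), hu₀c.comp refl'.contDiff, ?_, ?_, ?_⟩
      · rw [hmr]
        exact hm₀
      · rw [form_refl' (VK_refl' K) hu₀c, hmr]
        exact hF₀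
      · rw [hmr]
        linarith
  have h1 := right_part hα0 hC1 hC₁ hu hF (K := K)
  have h2 := (hmid u hu hF).2
  obtain ⟨v, hv⟩ : ∃ v, v = loc (fun t => Real.sin (phiR t)) u := ⟨_, rfl⟩
  have hvc : ContDiff ℝ 1 v := by
    rw [hv]
    exact loc_contDiff (Real.contDiff_sin.comp phiR_contDiff) hu
  have hdisj := loc_disj u
  rw [← hv] at h1 hside hdisj
  rw [← hlamdef] at h1
  have hmv : 0 < ∫ z in rhombus, v z ^ 2 := by linarith
  have hFv : robinForm α rhombus (VK K) v ≤ (lam + 6 / 10 * ε) * ∫ z in rhombus, v z ^ 2 := by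
    have h7 := mul_le_mul_of_nonneg_left hside hε.le
    rw [add_mul]
    linarith
  obtain ⟨z, hz, hvz⟩ : ∃ z ∈ rhombus, v z ≠ 0 := by
    by_contra hcon
    push Not at hcon
    have : ∫ z in rhombus, v z ^ 2 = 0 := by
      rw [setIntegral_eq_zero_of_forall_eq_zero]
      intro z hz
      rw [hcon z hz]
      norm_num
    linarith
  have hmem2 : lam + 6 / 10 * ε ∈ specSet α rhombus (VK K) 2 := by
    refine mem_specSet_two rhombus_bounded rhombus_thin.arc_lt (VK_cont K)
      (u := v) (v := fun z => v (refl' z)) hvc (hvc.comp refl'.contDiff) hdisj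
      (zu := z) (zv := refl' z) hz ((refl'_mem z).mpr hz) hvz ?_ hFv ?_
    · rw [refl'_refl']
      exact hvz
    · rw [form_refl' (VK_refl' K) hvc]
      have : ∫ z in rhombus, (fun z => v (refl' z)) z ^ 2 = ∫ z in rhombus, v z ^ 2 :=
        integral_refl' (fun z => v z ^ 2)
      rw [this]
      exact hFv
  have hlam2 : robinEigenvalue α rhombus (VK K) 2 ≤ lam + 6 / 10 * ε := csInf_le hbd2 hmem2
  unfold fundamentalGap
  rw [← hlamdef]
  linarith

end Pool.Agent.MP_e32423_an
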