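import Pool.Agent.Lib.MP_e32423_an.Defs

/-!
Elementary consequences of the minimum-maximum definition of the eigenvalues.
-/

namespace Pool.Agent.MP_e32423_an

open MeasureTheory Set Filter
open scoped Topology

/-- the set of admissible upper bounds -/
def specSet (α : ℝ) (Ω : Set Plane) (V : Plane → ℝ) (k : ℕ) : Set ℝ :=
  {Λ : ℝ | ∃ W : Submodule ℝ (Plane → ℝ), Module.finrank ℝ W = k ∧
    (∀ u ∈ W, ContDiff ℝ 1 u) ∧ (∀ u ∈ W, u ≠ 0 → ∃ z ∈ Ω, u z ≠ 0) ∧
    ∀ u ∈ W, robinForm α Ω V u ≤ Λ * ∫ z in Ω, u z ^ 2}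

lemma robinEigenvalue_eq (α : ℝ) (Ω : Set Plane) (V : Plane → ℝ) (k : ℕ) :
    robinEigenvalue α Ω V k = sInf (specSet α Ω V k) := rfl

variable {α : ℝ} {Ω : Set Plane} {V : Plane → ℝ}

lemma mass_pos (ho : IsOpen Ω) (hb : Bornology.IsBounded Ω) {u : Plane → ℝ} (hu : Continuous u)
    {z : Plane} (hz : z ∈ Ω) (huz : u z ≠ 0) : 0 < ∫ z in Ω, u z ^ 2 := by
  have hi : IntegrableOn (fun z => u z ^ 2) Ω :=
    ((hu.pow 2).continuousOn.integrableOn_compact hb.isCompact_closure).mono_set subset_closure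
  rw [setIntegral_pos_iff_support_of_nonneg_ae (by filter_upwards with z using sq_nonneg _) hi]
  have hsub : (Function.support fun z => u z ^ 2) ∩ Ω = {z | u z ≠ 0} ∩ Ω := by
    ext w
    simp [Function.mem_support]
  rw [hsub]
  have hop : IsOpen ({z | u z ≠ 0} ∩ Ω) := (isOpen_ne_fun hu continuous_const).inter ho
  exact hop.measure_pos volume ⟨z, huz, hz⟩

lemma mass_nonneg (u : Plane → ℝ) : 0 ≤ ∫ z in Ω, u z ^ 2 :=
  integral_nonneg fun _ => sq_nonneg _

lemma form_nonneg (hα : 0 ≤ α) (hV : ∀ z, 0 ≤ V z) (u : Plane → ℝ) :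
    0 ≤ robinForm α Ω V u := by
  unfold robinForm
  have h1 : 0 ≤ ∫ z in Ω, (‖fderiv ℝ u z‖ ^ 2 + V z * u z ^ 2) :=
    integral_nonneg fun z => add_nonneg (sq_nonneg _) (mul_nonneg (hV z) (sq_nonneg _))
  have h2 : 0 ≤ ∫ z in frontier Ω, u z ^ 2 ∂(Measure.hausdorffMeasure 1) :=
    integral_nonneg fun _ => sq_nonneg _
  positivity

lemma specSet_nonneg (hα : 0 ≤ α) (hV : ∀ z, 0 ≤ V z) (ho : IsOpen Ω)
    (hb : Bornology.IsBounded Ω) {k : ℕ} (hk : k ≠ 0) {Λ : ℝ} (hΛ : Λ ∈ specSet α Ω V k) :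
    0 ≤ Λ := by
  obtain ⟨W, hW, hc, hne, hle⟩ := hΛ
  have hWn : W ≠ ⊥ := by
    rintro rfl
    rw [finrank_bot] at hW
    exact hk hW.symm
  obtain ⟨u, huW, hu0⟩ := W.exists_mem_ne_zero_of_ne_bot hWn
  obtain ⟨z, hz, huz⟩ := hne u huW hu0
  have hpos := mass_pos ho hb (hc u huW).continuous hz huz
  have h1 := (form_nonneg hα hV u).trans (hle u huW)
  by_contra hcon
  push Not at hcon
  have := mul_neg_of_neg_of_pos hcon hpos
  linarith

lemma specSet_bddBelow (hα : 0 ≤ α) (hV : ∀ z, 0 ≤ V z) (ho : IsOpen Ω)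
    (hb : Bornology.IsBounded Ω) {k : ℕ} (hk : k ≠ 0) : BddBelow (specSet α Ω V k) :=
  ⟨0, fun _ hΛ => specSet_nonneg hα hV ho hb hk hΛ⟩

lemma robinForm_smul (c : ℝ) (u : Plane → ℝ) :
    robinForm α Ω V (c • u) = c ^ 2 * robinForm α Ω V u := by
  unfold robinForm
  have h1 : ∀ z, ‖fderiv ℝ (c • u) z‖ ^ 2 + V z * (c • u) z ^ 2
      = c ^ 2 * (‖fderiv ℝ u z‖ ^ 2 + V z * u z ^ 2) := by
    intro z
    have e : (c • u) z = c * u z := rfl
    rw [fderiv_const_smul_field, Pi.smul_apply, norm_smul, Real.norm_eq_abs, mul_pow,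
      sq_abs, e]
    ring
  have h2 : ∀ z, (c • u) z ^ 2 = c ^ 2 * u z ^ 2 := by
    intro z
    rw [Pi.smul_apply, smul_eq_mul]
    ring
  rw [show (fun z => ‖fderiv ℝ (c • u) z‖ ^ 2 + V z * (c • u) z ^ 2) = fun z =>
      c ^ 2 * (‖fderiv ℝ u z‖ ^ 2 + V z * u z ^ 2) from funext h1,
    show (fun z => (c • u) z ^ 2) = fun z => c ^ 2 * u z ^ 2 from funext h2,
    integral_const_mul, integral_const_mul]
  ring

lemma mass_smul (c : ℝ) (u : Plane → ℝ) :
    ∫ z in Ω, (c • u) z ^ 2 = c ^ 2 * ∫ z in Ω, u z ^ 2 := by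
  have h2 : ∀ z, (c • u) z ^ 2 = c ^ 2 * u z ^ 2 := by
    intro z
    rw [Pi.smul_apply, smul_eq_mul]
    ring
  simp only [h2, integral_const_mul]

/-- membership for `k = 1` -/
lemma mem_specSet_one {u : Plane → ℝ} (hu : ContDiff ℝ 1 u) {z : Plane} (hz : z ∈ Ω)
    (huz : u z ≠ 0) {Λ : ℝ} (hle : robinForm α Ω V u ≤ Λ * ∫ z in Ω, u z ^ 2) :
    Λ ∈ specSet α Ω V 1 := by
  have hu0 : u ≠ 0 := by
    rintro rfl
    exact huz rfl
  refine ⟨Submodule.span ℝ {u}, finrank_span_singleton hu0, ?_, ?_, ?_⟩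
  · intro v hv
    obtain ⟨c, rfl⟩ := Submodule.mem_span_singleton.mp hv
    exact hu.const_smul c
  · intro v hv hv0
    obtain ⟨c, rfl⟩ := Submodule.mem_span_singleton.mp hv
    have hc : c ≠ 0 := by
      rintro rfl
      exact hv0 (zero_smul ℝ u)
    exact ⟨z, hz, mul_ne_zero hc huz⟩
  · intro v hv
    obtain ⟨c, rfl⟩ := Submodule.mem_span_singleton.mp hv
    rw [robinForm_smul, mass_smul]
    nlinarith [sq_nonneg c, mul_le_mul_of_nonneg_left hle (sq_nonneg c)]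

lemma eig_one_le (hα : 0 ≤ α) (hV : ∀ z, 0 ≤ V z) (ho : IsOpen Ω)
    (hb : Bornology.IsBounded Ω) {u : Plane → ℝ} (hu : ContDiff ℝ 1 u) {z : Plane} (hz : z ∈ Ω)
    (huz : u z ≠ 0) {Λ : ℝ} (hle : robinForm α Ω V u ≤ Λ * ∫ z in Ω, u z ^ 2) :
    robinEigenvalue α Ω V 1 ≤ Λ :=
  csInf_le (specSet_bddBelow hα hV ho hb one_ne_zero) (mem_specSet_one hu hz huz hle)

/-- the Rayleigh inequality -/
lemma rayleigh (hα : 0 ≤ α) (hV : ∀ z, 0 ≤ V z) (ho : IsOpen Ω)
    (hb : Bornology.IsBounded Ω) {u : Plane → ℝ} (hu : ContDiff ℝ 1 u) :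
    robinEigenvalue α Ω V 1 * ∫ z in Ω, u z ^ 2 ≤ robinForm α Ω V u := by
  by_cases h : ∃ z ∈ Ω, u z ≠ 0
  · obtain ⟨z, hz, huz⟩ := h
    have hpos := mass_pos ho hb hu.continuous hz huz
    have h1 := eig_one_le (Λ := robinForm α Ω V u / ∫ z in Ω, u z ^ 2) hα hV ho hb hu hz huz
      (by rw [div_mul_cancel₀ _ hpos.ne'])
    rwa [le_div_iff₀ hpos] at h1
  · push Not at h
    have h0 : ∫ z in Ω, u z ^ 2 = 0 := by
      rw [setIntegral_eq_zero_of_forall_eq_zero]
      intro z hz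
      rw [h z hz]
      ring
    rw [h0, mul_zero]
    exact form_nonneg hα hV u

/-- two functions, one of which vanishes together with its derivative at every point -/
def Disj (u v : Plane → ℝ) : Prop :=
  ∀ z, (u z = 0 ∧ fderiv ℝ u z = 0) ∨ (v z = 0 ∧ fderiv ℝ v z = 0)

lemma integrableOn_aux (hb : Bornology.IsBounded Ω) {φ : Plane → ℝ} (hφ : Continuous φ) :
    IntegrableOn φ Ω :=
  (hφ.continuousOn.integrableOn_compact hb.isCompact_closure).mono_set subset_closure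

lemma robinForm_add (hb : Bornology.IsBounded Ω)
    (hfr : Measure.hausdorffMeasure 1 (frontier Ω) < ⊤) (hVc : Continuous V)
    {u v : Plane → ℝ} (hu : ContDiff ℝ 1 u) (hv : ContDiff ℝ 1 v) (hd : Disj u v) :
    robinForm α Ω V (u + v) = robinForm α Ω V u + robinForm α Ω V v := by
  have hfu : Continuous fun z => fderiv ℝ u z := hu.continuous_fderiv (by norm_num)
  have hfv : Continuous fun z => fderiv ℝ v z := hv.continuous_fderiv (by norm_num)
  have hcu := hu.continuous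
  have hcv := hv.continuous
  have h1 : ∀ z, ‖fderiv ℝ (u + v) z‖ ^ 2 + V z * (u + v) z ^ 2
      = (‖fderiv ℝ u z‖ ^ 2 + V z * u z ^ 2) + (‖fderiv ℝ v z‖ ^ 2 + V z * v z ^ 2) := by
    intro z
    rw [fderiv_add (hu.differentiable (by norm_num) z) (hv.differentiable (by norm_num) z),
      Pi.add_apply]
    rcases hd z with ⟨h0, h1⟩ | ⟨h0, h1⟩
    · rw [h0, h1]; simp
    · rw [h0, h1]; simp
  have h2 : ∀ z, (u + v) z ^ 2 = u z ^ 2 + v z ^ 2 := by
    intro z
    rw [Pi.add_apply]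
    rcases hd z with ⟨h0, _⟩ | ⟨h0, _⟩
    · rw [h0]; simp
    · rw [h0]; simp
  have hifr : ∀ φ : Plane → ℝ, Continuous φ →
      IntegrableOn φ (frontier Ω) (Measure.hausdorffMeasure 1) := by
    intro φ hφ
    have hc : IsCompact (frontier Ω) :=
      hb.isCompact_closure.of_isClosed_subset isClosed_frontier frontier_subset_closure
    obtain ⟨C, hC⟩ := hc.exists_bound_of_continuousOn hφ.continuousOn
    exact Measure.integrableOn_of_bounded hfr.ne hφ.aestronglyMeasurable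
      (by filter_upwards [ae_restrict_mem isClosed_frontier.measurableSet] with z hz
            using hC z hz)
  have i1 := hifr (fun z => u z ^ 2) (hcu.pow 2)
  have i2 := hifr (fun z => v z ^ 2) (hcv.pow 2)
  unfold robinForm
  rw [show (fun z => ‖fderiv ℝ (u + v) z‖ ^ 2 + V z * (u + v) z ^ 2) = fun z =>
      (‖fderiv ℝ u z‖ ^ 2 + V z * u z ^ 2) + (‖fderiv ℝ v z‖ ^ 2 + V z * v z ^ 2) from funext h1,
    show (fun z => (u + v) z ^ 2) = fun z => u z ^ 2 + v z ^ 2 from funext h2,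
    integral_add (integrableOn_aux hb (by fun_prop)) (integrableOn_aux hb (by fun_prop)),
    integral_add i1 i2]
  ring

lemma mass_add (hb : Bornology.IsBounded Ω)
    {u v : Plane → ℝ} (hu : ContDiff ℝ 1 u) (hv : ContDiff ℝ 1 v) (hd : Disj u v) :
    ∫ z in Ω, (u + v) z ^ 2 = (∫ z in Ω, u z ^ 2) + ∫ z in Ω, v z ^ 2 := by
  have hcu := hu.continuous
  have hcv := hv.continuous
  have h2 : ∀ z, (u + v) z ^ 2 = u z ^ 2 + v z ^ 2 := by
    intro z
    rw [Pi.add_apply]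
    rcases hd z with ⟨h0, _⟩ | ⟨h0, _⟩
    · rw [h0]; simp
    · rw [h0]; simp
  simp only [h2]
  rw [integral_add (integrableOn_aux hb (by fun_prop)) (integrableOn_aux hb (by fun_prop))]

lemma Disj.smul {u v : Plane → ℝ} (hd : Disj u v) (c d : ℝ) : Disj (c • u) (d • v) := by
  intro z
  rcases hd z with ⟨h0, h1⟩ | ⟨h0, h1⟩
  · left
    refine ⟨by rw [Pi.smul_apply, h0, smul_zero], ?_⟩
    rw [fderiv_const_smul_field, Pi.smul_apply, h1, smul_zero]
  · right
    refine ⟨by rw [Pi.smul_apply, h0, smul_zero], ?_⟩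
    rw [fderiv_const_smul_field, Pi.smul_apply, h1, smul_zero]

/-- membership for `k = 2` -/
lemma mem_specSet_two (hb : Bornology.IsBounded Ω)
    (hfr : Measure.hausdorffMeasure 1 (frontier Ω) < ⊤) (hVc : Continuous V)
    {u v : Plane → ℝ} (hu : ContDiff ℝ 1 u) (hv : ContDiff ℝ 1 v) (hd : Disj u v)
    {zu zv : Plane} (hzu : zu ∈ Ω) (hzv : zv ∈ Ω) (huz : u zu ≠ 0) (hvz : v zv ≠ 0) {Λ : ℝ}
    (hle : robinForm α Ω V u ≤ Λ * ∫ z in Ω, u z ^ 2)
    (hle' : robinForm α Ω V v ≤ Λ * ∫ z in Ω, v z ^ 2) : Λ ∈ specSet α Ω V 2 := by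
  have hvu : v zu = 0 := by
    rcases hd zu with ⟨h0, _⟩ | ⟨h0, _⟩
    · exact absurd h0 huz
    · exact h0
  have huv : u zv = 0 := by
    rcases hd zv with ⟨h0, _⟩ | ⟨h0, _⟩
    · exact h0
    · exact absurd h0 hvz
  have hli : LinearIndependent ℝ ![u, v] := by
    rw [LinearIndependent.pair_iff]
    intro s t hst
    have h1 := congrFun hst zu
    have h2 := congrFun hst zv
    simp only [Pi.add_apply, Pi.smul_apply, smul_eq_mul, Pi.zero_apply, hvu, huv, mul_zero,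
      add_zero, zero_add, mul_eq_zero] at h1 h2
    exact ⟨h1.resolve_right huz, h2.resolve_right hvz⟩
  have hrange : Set.range ![u, v] = {u, v} := by
    simp [Matrix.range_cons, Matrix.range_empty, Set.pair_comm]
  refine ⟨Submodule.span ℝ {u, v}, ?_, ?_, ?_, ?_⟩
  · have := finrank_span_eq_card hli
    rw [hrange] at this
    simpa using this
  · intro w hw
    obtain ⟨s, t, rfl⟩ := Submodule.mem_span_pair.mp hw
    exact (hu.const_smul s).add (hv.const_smul t)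
  · intro w hw hw0
    obtain ⟨s, t, rfl⟩ := Submodule.mem_span_pair.mp hw
    by_cases hs : s = 0
    · have ht : t ≠ 0 := by
        rintro rfl
        apply hw0
        rw [hs]
        simp
      refine ⟨zv, hzv, ?_⟩
      simp only [Pi.add_apply, Pi.smul_apply, smul_eq_mul, huv, mul_zero, zero_add]
      exact mul_ne_zero ht hvz
    · refine ⟨zu, hzu, ?_⟩
      simp only [Pi.add_apply, Pi.smul_apply, smul_eq_mul, hvu, mul_zero, add_zero]
      exact mul_ne_zero hs huz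
  · intro w hw
    obtain ⟨s, t, rfl⟩ := Submodule.mem_span_pair.mp hw
    have hd' := hd.smul s t
    have hsu : ContDiff ℝ 1 (s • u) := hu.const_smul s
    have htv : ContDiff ℝ 1 (t • v) := hv.const_smul t
    rw [robinForm_add hb hfr hVc hsu htv hd', mass_add hb hsu htv hd', robinForm_smul,
      robinForm_smul, mass_smul, mass_smul]
    have h1 := mul_le_mul_of_nonneg_left hle (sq_nonneg s)
    have h2 := mul_le_mul_of_nonneg_left hle' (sq_nonneg t)
    linarith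

end Pool.Agent.MP_e32423_an
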