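import Pool.Agent.Lib.MP_e32423_an.Geom

/-!
Thin convex domains: concave functions, slopes, existence of the frame, width.
-/

namespace Pool.Agent.MP_e32423_an

open MeasureTheory Set Filter
open scoped Topology RealInnerProductSpace NNReal

section Concave

variable {w : ℝ → ℝ} {W : ℝ}

/-- three point inequality -/
lemma concave_three (hw : ConcaveOn ℝ (Ioo 0 1) w) {r x t : ℝ} (h0 : 0 < r) (hrx : r ≤ x)
    (hxt : x ≤ t) (ht : t < 1) (hrt : r < t) :
    (t - x) * w r + (x - r) * w t ≤ (t - r) * w x := by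
  have hpos : 0 < t - r := by linarith
  have h1 := hw.2 (show r ∈ Ioo (0 : ℝ) 1 from ⟨h0, by linarith⟩)
    (show t ∈ Ioo (0 : ℝ) 1 from ⟨by linarith, ht⟩)
    (show 0 ≤ (t - x) / (t - r) from div_nonneg (by linarith) hpos.le)
    (show 0 ≤ (x - r) / (t - r) from div_nonneg (by linarith) hpos.le)
    (by field_simp; ring)
  simp only [smul_eq_mul] at h1
  have e : (t - x) / (t - r) * r + (x - r) / (t - r) * t = x := by
    field_simp
    ring
  rw [e] at h1
  have e2 : (t - x) / (t - r) * w r + (x - r) / (t - r) * w t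
      = ((t - x) * w r + (x - r) * w t) / (t - r) := by ring
  rw [e2, div_le_iff₀ hpos] at h1
  linarith

lemma concave_right (hw : ConcaveOn ℝ (Ioo 0 1) w) (hw0 : ∀ x ∈ Ioo (0 : ℝ) 1, 0 ≤ w x)
    {x t : ℝ} (h0 : 0 < x) (hxt : x ≤ t) (ht : t < 1) : (1 - t) * w x ≤ (1 - x) * w t := by
  have key : ∀ s ∈ Ioo t 1, (s - t) * w x ≤ (s - x) * w t := by
    intro s hs
    have h1 := concave_three hw h0 hxt hs.1.le hs.2 (by linarith [hs.1])
    have h2 : 0 ≤ (t - x) * w s :=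
      mul_nonneg (by linarith) (hw0 s ⟨by linarith [hs.1], hs.2⟩)
    linarith
  have hne : (𝓝[Ioo t 1] (1 : ℝ)).NeBot := by
    rw [← mem_closure_iff_nhdsWithin_neBot, closure_Ioo ht.ne]
    exact ⟨ht.le, le_rfl⟩
  refine le_of_tendsto_of_tendsto (b := 𝓝[Ioo t 1] (1 : ℝ))
    (f := fun s => (s - t) * w x) (g := fun s => (s - x) * w t) ?_ ?_ ?_
  · exact ((continuous_id.sub continuous_const).mul continuous_const).continuousWithinAt
  · exact ((continuous_id.sub continuous_const).mul continuous_const).continuousWithinAt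
  · filter_upwards [self_mem_nhdsWithin] with s hs
    exact key s hs

lemma concave_reflect (hw : ConcaveOn ℝ (Ioo 0 1) w) :
    ConcaveOn ℝ (Ioo 0 1) (fun x => w (1 - x)) := by
  refine ⟨convex_Ioo 0 1, ?_⟩
  intro x hx y hy s t hs ht hst
  have h1 := hw.2 (show 1 - x ∈ Ioo (0 : ℝ) 1 from ⟨by linarith [hx.2], by linarith [hx.1]⟩)
    (show 1 - y ∈ Ioo (0 : ℝ) 1 from ⟨by linarith [hy.2], by linarith [hy.1]⟩) hs ht hst
  simp only [smul_eq_mul] at h1 ⊢
  have e : s * (1 - x) + t * (1 - y) = 1 - (s * x + t * y) := by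
    have : s * (1 - x) + t * (1 - y) = (s + t) - (s * x + t * y) := by ring
    rw [this, hst]
  rwa [e] at h1

lemma concave_left (hw : ConcaveOn ℝ (Ioo 0 1) w) (hw0 : ∀ x ∈ Ioo (0 : ℝ) 1, 0 ≤ w x)
    {x t : ℝ} (h0 : 0 < t) (htx : t ≤ x) (hx : x < 1) : t * w x ≤ x * w t := by
  have h1 := concave_right (w := fun x => w (1 - x)) (concave_reflect hw)
    (fun y hy => hw0 _ ⟨by linarith [hy.2], by linarith [hy.1]⟩) (x := 1 - x) (t := 1 - t)
    (by linarith) (by linarith) (by linarith)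
  simpa using h1

lemma concave_slope (hw : ConcaveOn ℝ (Ioo 0 1) w) (hw0 : ∀ x ∈ Ioo (0 : ℝ) 1, 0 ≤ w x)
    (hW : ∀ x ∈ Ioo (0 : ℝ) 1, w x ≤ W) {δ x y : ℝ} (hδ : 0 < δ) (hx : δ ≤ x) (hxy : x ≤ y)
    (hy : y ≤ 1 - δ) : |w y - w x| ≤ W / δ * (y - x) := by
  have hx1 : x ∈ Ioo (0 : ℝ) 1 := ⟨by linarith, by linarith⟩
  have hy1 : y ∈ Ioo (0 : ℝ) 1 := ⟨by linarith, by linarith⟩
  have hr := concave_right hw hw0 hx1.1 hxy hy1.2
  have hl := concave_left hw hw0 hx1.1 hxy hy1.2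
  have h1 := hW x hx1
  have h2 := hW y hy1
  have h3 := hw0 x hx1
  have h4 := hw0 y hy1
  rw [abs_le, div_mul_eq_mul_div, neg_div', div_le_iff₀ hδ, le_div_iff₀ hδ]
  constructor
  · -- (w x - w y) δ ≤ W (y - x)
    -- from hr : (1 - y) w x ≤ (1 - x) w y, so (1 - x) (w x - w y) ≤ (y - x) w x
    have h5 : (1 - x) * (w x - w y) ≤ (y - x) * W := by nlinarith
    by_cases h6 : w x ≤ w y
    · nlinarith [mul_nonneg (sub_nonneg.mpr hxy) (h3.trans h1)]
    · push Not at h6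
      nlinarith
  · have h5 : y * (w y - w x) ≤ (y - x) * W := by nlinarith
    by_cases h6 : w y ≤ w x
    · nlinarith [mul_nonneg (sub_nonneg.mpr hxy) (h3.trans h1)]
    · push Not at h6
      nlinarith

end Concave

lemma exists_basis (v : Plane) (hv : ‖v‖ = 1) :
    ∃ b : OrthonormalBasis (Fin 2) ℝ Plane, b 0 = v := by
  have hcard : Module.finrank ℝ Plane = Fintype.card (Fin 2) := by simp
  have ho : Orthonormal ℝ (({0} : Set (Fin 2)).domRestrict (fun _ => v)) := by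
    rw [orthonormal_iff_ite]
    rintro ⟨i, hi⟩ ⟨j, hj⟩
    rw [Set.mem_singleton_iff] at hi hj
    subst hi
    subst hj
    simp [Set.domRestrict, hv]
  obtain ⟨b, hb⟩ := ho.exists_orthonormalBasis_extension_of_card_eq hcard
  exact ⟨b, hb 0 rfl⟩

lemma exists_frame {Ω : Set Plane} (hΩ : IsConvexDomain 1 Ω) :
    ∃ (p : Plane) (b : OrthonormalBasis (Fin 2) ℝ Plane), p ∈ closure Ω ∧ p + b 0 ∈ closure Ω := by
  have hc : IsCompact (closure Ω) := hΩ.isBounded.isCompact_closure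
  have hne : (closure Ω).Nonempty := hΩ.nonempty.closure
  obtain ⟨⟨p, q⟩, hpq, hmax⟩ := IsCompact.exists_isMaxOn (hc.prod hc) (hne.prod hne)
    (f := fun z : Plane × Plane => dist z.1 z.2) (Continuous.continuousOn (by fun_prop))
  rw [isMaxOn_iff] at hmax
  rw [mem_prod] at hpq
  simp only at hpq hmax
  have hmax' : ∀ x ∈ closure Ω, ∀ y ∈ closure Ω, dist x y ≤ dist p q :=
    fun x hx y hy => hmax (x, y) (mk_mem_prod hx hy)
  have h1 : dist p q ≤ 1 := dist_closure_le hΩ hpq.1 hpq.2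
  have h2 : 1 ≤ dist p q := by
    rw [← hΩ.diam_eq]
    exact Metric.diam_le_of_forall_dist_le dist_nonneg
      fun x hx y hy => hmax' x (subset_closure hx) y (subset_closure hy)
  have h3 : dist p q = 1 := le_antisymm h1 h2
  obtain ⟨b, hb⟩ := exists_basis (q - p) (by rw [← dist_eq_norm, dist_comm]; exact h3)
  refine ⟨p, b, hpq.1, ?_⟩
  rw [hb]
  simpa using hpq.2

lemma width_le {Ω : Set Plane} (hΩ : IsConvexDomain 1 Ω) {p : Plane}
    {b : OrthonormalBasis (Fin 2) ℝ Plane} (hp : p ∈ closure Ω) (hq : p + b 0 ∈ closure Ω)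
    {f g : ℝ → ℝ} (hG : IsGraph Ω p b f g) {P Q : Plane} (hPQ : dist P Q = 1) {ε : ℝ}
    (hε : ε ≤ 1 / 4) (hH : Metric.hausdorffDist Ω (segment ℝ P Q) < ε) :
    ∀ x ∈ Ioo (0 : ℝ) 1, g x - f x ≤ 4 * ε := by
  have hε0 : 0 < ε := lt_of_le_of_lt Metric.hausdorffDist_nonneg hH
  obtain ⟨b', hb'⟩ := exists_basis (Q - P) (by rw [← dist_eq_norm, dist_comm]; exact hPQ)
  set ν := b' 1 with hν
  have hν1 : ‖ν‖ = 1 := b'.norm_eq_one 1
  have hseg : ∀ w ∈ segment ℝ P Q, ⟪ν, w - P⟫ = 0 := by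
    rintro w ⟨s, t, hs, ht, hst, rfl⟩
    have : s • P + t • Q - P = t • (Q - P) := by
      have hP : P = (s + t) • P := by rw [hst, one_smul]
      conv_lhs => rw [hP]
      rw [add_smul, smul_sub]
      simp only [smul_add]
      have e : s • (s • P) + s • (t • P) = s • P := by
        rw [← smul_add, ← add_smul, hst, one_smul]
      rw [e]
      abel
    rw [this, ← hb', inner_smul_right, inner10 b', mul_zero]
  have hne : (segment ℝ P Q).Nonempty := ⟨P, left_mem_segment ℝ P Q⟩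
  have hbd : Bornology.IsBounded (segment ℝ P Q) := by
    rw [segment_eq_image]
    exact (isCompact_Icc.image (by fun_prop)).isBounded
  have hfin := Metric.hausdorffEDist_ne_top_of_nonempty_of_bounded hΩ.nonempty hne hΩ.isBounded hbd
  have hstrip : ∀ z ∈ closure Ω, |⟪ν, z - P⟫| ≤ ε := by
    intro z hz
    have hcl : IsClosed {z : Plane | |⟪ν, z - P⟫| ≤ ε} := by
      apply isClosed_le _ continuous_const
      fun_prop
    refine closure_minimal ?_ hcl hz
    intro z hz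
    obtain ⟨w, hw, hd⟩ := Metric.exists_dist_lt_of_hausdorffDist_lt hz hH hfin
    have h1 : ⟪ν, z - P⟫ = ⟪ν, z - w⟫ := by
      have : z - P = (z - w) + (w - P) := by abel
      rw [this, inner_add_right, hseg w hw, add_zero]
    simp only [mem_ofPred_eq]
    rw [h1]
    refine (abs_real_inner_le_norm _ _).trans ?_
    rw [hν1, one_mul, ← dist_eq_norm]
    exact hd.le
  have hb0 : |⟪ν, b 0⟫| ≤ 2 * ε := by
    have : ⟪ν, b 0⟫ = ⟪ν, p + b 0 - P⟫ - ⟪ν, p - P⟫ := by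
      rw [← inner_sub_right]
      congr 1
      abel
    rw [this]
    have h1 := abs_le.mp (hstrip _ hp)
    have h2 := abs_le.mp (hstrip _ hq)
    rw [abs_le]
    constructor <;> linarith [h1.1, h1.2, h2.1, h2.2]
  have hsum : ⟪ν, b 0⟫ ^ 2 + ⟪ν, b 1⟫ ^ 2 = 1 := by
    have h1 : ‖ν‖ ^ 2 = (⟪b 0, ν⟫) ^ 2 + ⟪b 1, ν⟫ ^ 2 := by
      conv_lhs => rw [← pt_c 0 b ν, pt, zero_add, norm_sq_comb b]
      simp only [cx, cy, sub_zero]
    have c0 : ⟪ν, b 0⟫ = ⟪b 0, ν⟫ := real_inner_comm _ _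
    have c1 : ⟪ν, b 1⟫ = ⟪b 1, ν⟫ := real_inner_comm _ _
    rw [hν1] at h1
    rw [c0, c1]
    linarith
  have hb1 : 1 / 2 ≤ |⟪ν, b 1⟫| := by
    by_contra hcon
    push Not at hcon
    have h1 : ⟪ν, b 1⟫ ^ 2 < (1 / 2) ^ 2 := by
      rw [← sq_abs]
      exact pow_lt_pow_left₀ hcon (abs_nonneg _) (by norm_num)
    have h2 : ⟪ν, b 0⟫ ^ 2 ≤ (2 * ε) ^ 2 := by
      rw [← sq_abs]
      exact pow_le_pow_left₀ (abs_nonneg _) hb0 2
    nlinarith
  have hchord : ∀ x y₁ y₂ : ℝ, pt p b x y₁ ∈ Ω → pt p b x y₂ ∈ Ω → y₂ - y₁ ≤ 4 * ε := by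
    intro x y₁ y₂ h1 h2
    have h3 := abs_le.mp (hstrip _ (subset_closure h1))
    have h4 := abs_le.mp (hstrip _ (subset_closure h2))
    have h5 : ⟪ν, pt p b x y₂ - P⟫ - ⟪ν, pt p b x y₁ - P⟫ = (y₂ - y₁) * ⟪ν, b 1⟫ := by
      rw [← inner_sub_right]
      have : pt p b x y₂ - P - (pt p b x y₁ - P) = (y₂ - y₁) • b 1 := by
        simp only [pt, sub_smul]
        abel
      rw [this, inner_smul_right]
    have h6 : |(y₂ - y₁) * ⟪ν, b 1⟫| ≤ 2 * ε := by
      rw [← h5, abs_le]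
      constructor <;> linarith [h3.1, h3.2, h4.1, h4.2]
    rw [abs_mul] at h6
    have h7 := le_abs_self (y₂ - y₁)
    have h8 := abs_nonneg (y₂ - y₁)
    nlinarith
  intro x hx
  have hlt := hG.lt x hx.1 hx.2
  by_contra hcon
  push Not at hcon
  set m := (g x - f x - 4 * ε) / 4 with hm
  have hm0 : 0 < m := by rw [hm]; linarith
  have h1 : pt p b x (f x + m) ∈ Ω := by
    rw [hG.mem_iff]
    exact ⟨⟨hx.1, hx.2⟩, by linarith, by linarith⟩
  have h2 : pt p b x (g x - m) ∈ Ω := by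
    rw [hG.mem_iff]
    exact ⟨⟨hx.1, hx.2⟩, by linarith, by linarith⟩
  have := hchord x _ _ h1 h2
  linarith

end Pool.Agent.MP_e32423_an
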