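import Pool.Agent.Lib.MP_e32423_an.Well

/-!
A trial function near a vertex of the rhombus.
-/

namespace Pool.Agent.MP_e32423_an

open MeasureTheory Set Filter
open scoped Topology RealInnerProductSpace NNReal ENNReal

lemma gr_right {x : ℝ} (hx : 1 / 2 ≤ x) : gr x = (1 - x) / 4 := by
  unfold gr
  rw [abs_of_nonneg (by linarith)]
  ring

section

variable {ℓ : ℝ}

lemma bump_tip (hℓ : 0 < ℓ) {x : ℝ} (h1 : 1 - ℓ ≤ x) (h2 : x ≤ 1) :
    bump 1 ℓ x = (1 - ((x - 1) / ℓ) ^ 2) ^ 2 ∧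
      deriv (bump 1 ℓ) x = 2 * (1 - ((x - 1) / ℓ) ^ 2) * (-(2 * ((x - 1) / ℓ) / ℓ)) := by
  have h3 : 0 ≤ 1 - ((x - 1) / ℓ) ^ 2 := by
    have : ((x - 1) / ℓ) ^ 2 ≤ 1 := by
      rw [sq_le_one_iff_abs_le_one, abs_div, abs_of_pos hℓ, div_le_one hℓ]
      exact abs_le.mpr ⟨by linarith, by linarith⟩
    linarith
  rw [bump_deriv]
  unfold bump
  simp only [max_eq_right h3]
  exact ⟨trivial, trivial⟩

/-- derivative of powers of `T = 1 - ((x-1)/ℓ)²` -/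
lemma tip_deriv (x : ℝ) :
    HasDerivAt (fun x : ℝ => 1 - ((x - 1) / ℓ) ^ 2) (-(2 * ((x - 1) / ℓ) / ℓ)) x := by
  have := ((((hasDerivAt_id x).sub_const 1).div_const ℓ).pow 2).const_sub 1
  refine this.congr_deriv ?_
  simp only [id, Nat.cast_ofNat, Nat.add_one_sub_one, pow_one]
  ring

lemma tip_split (hℓ : 0 < ℓ) (hℓ1 : ℓ ≤ 1 / 2) {F G H : ℝ → ℝ}
    (hF : IntervalIntegrable F volume 0 1)
    (hz : ∀ x, x ≤ 1 - ℓ → F x = 0) (hFG : ∀ x ∈ Icc (1 - ℓ) 1, F x = G x)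
    (hH : ∀ x, HasDerivAt H (G x) x) (hG : Continuous G) :
    ∫ x in (0 : ℝ)..1, F x = H 1 - H (1 - ℓ) := by
  have hmono : ∀ {s t : ℝ}, s ∈ Icc (0 : ℝ) 1 →
      t ∈ Icc (0 : ℝ) 1 → IntervalIntegrable F volume s t := by
    intro s t hs ht
    apply hF.mono_set
    rw [uIcc_of_le (zero_le_one (α := ℝ))]
    exact uIcc_subset_Icc hs ht
  have m0 : (0 : ℝ) ∈ Icc (0 : ℝ) 1 := ⟨le_rfl, zero_le_one⟩
  have m1 : (1 : ℝ) ∈ Icc (0 : ℝ) 1 := ⟨zero_le_one, le_rfl⟩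
  have ma : 1 - ℓ ∈ Icc (0 : ℝ) 1 := ⟨by linarith, by linarith⟩
  rw [← intervalIntegral.integral_add_adjacent_intervals (hmono m0 ma) (hmono ma m1)]
  have z1 : ∫ x in (0 : ℝ)..(1 - ℓ), F x = 0 := by
    rw [intervalIntegral.integral_congr (g := fun _ => 0), intervalIntegral.integral_zero]
    intro x hx
    rw [uIcc_of_le (by linarith)] at hx
    exact hz x hx.2
  have z2 : ∫ x in (1 - ℓ)..(1 : ℝ), F x = ∫ x in (1 - ℓ)..(1 : ℝ), G x := by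
    apply intervalIntegral.integral_congr
    intro x hx
    rw [uIcc_of_le (by linarith)] at hx
    exact hFG x hx
  rw [z1, z2, intervalIntegral.integral_eq_sub_of_hasDerivAt (fun x _ => hH x)
    (hG.intervalIntegrable _ _), zero_add]

lemma tip_T_left (hℓ : 0 < ℓ) : 1 - ((1 - ℓ - 1) / ℓ) ^ 2 = 0 := by
  have : (1 - ℓ - 1) / ℓ = -1 := by field_simp; ring
  rw [this]
  norm_num

lemma tip_T_right : 1 - (((1 : ℝ) - 1) / ℓ) ^ 2 = 1 := by simp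

lemma bump_zero_left (hℓ : 0 < ℓ) {x : ℝ} (hx : x ≤ 1 - ℓ) :
    bump 1 ℓ x = 0 ∧ deriv (bump 1 ℓ) x = 0 := by
  apply bump_eq_zero hℓ
  rw [abs_sub_comm]
  exact le_trans (by linarith) (le_abs_self _)

lemma tip_mass (hℓ : 0 < ℓ) (hℓ1 : ℓ ≤ 1 / 2) :
    ∫ x in (0 : ℝ)..1, (gr x - fr x) * bump 1 ℓ x ^ 2 = ℓ ^ 2 / 20 := by
  rw [tip_split hℓ hℓ1 (F := fun x => (gr x - fr x) * bump 1 ℓ x ^ 2)
    (G := fun x => (1 - x) / 2 * (1 - ((x - 1) / ℓ) ^ 2) ^ 4)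
    (H := fun x => ℓ ^ 2 / 20 * (1 - ((x - 1) / ℓ) ^ 2) ^ 5)]
  · simp only [tip_T_left hℓ, tip_T_right]
    ring
  · exact rhombus_thin.width_int ((bump_contDiff 1 ℓ).continuous.pow 2)
  · intro x hx
    rw [(bump_zero_left hℓ hx).1]
    ring
  · intro x hx
    rw [(bump_tip hℓ hx.1 hx.2).1]
    simp only [fr, gr_right (show 1 / 2 ≤ x by linarith [hx.1])]
    ring
  · intro x
    have h := ((tip_deriv (ℓ := ℓ) x).pow 5).const_mul (ℓ ^ 2 / 20)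
    refine h.congr_deriv ?_
    norm_num
    field_simp
    ring
  · fun_prop

lemma tip_kin (hℓ : 0 < ℓ) (hℓ1 : ℓ ≤ 1 / 2) :
    ∫ x in (0 : ℝ)..1, (gr x - fr x) * deriv (bump 1 ℓ) x ^ 2 = 1 / 3 := by
  rw [tip_split hℓ hℓ1 (F := fun x => (gr x - fr x) * deriv (bump 1 ℓ) x ^ 2)
    (G := fun x => (1 - x) / 2 * (2 * (1 - ((x - 1) / ℓ) ^ 2) * (-(2 * ((x - 1) / ℓ) / ℓ))) ^ 2)
    (H := fun x => 4 / 3 * (1 - ((x - 1) / ℓ) ^ 2) ^ 3 - (1 - ((x - 1) / ℓ) ^ 2) ^ 4)]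
  · simp only [tip_T_left hℓ, tip_T_right]
    norm_num
  · exact rhombus_thin.width_int (((bump_contDiff 1 ℓ).continuous_deriv (by norm_num)).pow 2)
  · intro x hx
    rw [(bump_zero_left hℓ hx).2]
    ring
  · intro x hx
    rw [(bump_tip hℓ hx.1 hx.2).2]
    simp only [fr, gr_right (show 1 / 2 ≤ x by linarith [hx.1])]
    ring
  · intro x
    have h := (((tip_deriv (ℓ := ℓ) x).pow 3).const_mul (4 / 3)).sub
      ((tip_deriv (ℓ := ℓ) x).pow 4)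
    refine h.congr_deriv ?_
    norm_num
    field_simp
    ring
  · fun_prop

lemma tip_pot (hℓ : 0 < ℓ) (hℓ1 : ℓ ≤ 1 / 2) (K : ℝ) :
    ∫ z in rhombus, VK K z * bump 1 ℓ (cx pr br z) ^ 2 = K ^ 2 * ℓ ^ 4 / 5760 := by
  have hc : Continuous fun z => VK K z * bump 1 ℓ (cx pr br z) ^ 2 :=
    (VK_cont K).mul (((bump_contDiff 1 ℓ).continuous.comp (continuous_cx pr br)).pow 2)
  have hfib : ∀ x, fib pr br fr gr (fun z => VK K z * bump 1 ℓ (cx pr br z) ^ 2) x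
      = K ^ 2 * (2 / 3) * gr x ^ 3 * bump 1 ℓ x ^ 2 := by
    intro x
    unfold fib
    simp only [VK_pt, cx_pt]
    have e : ∀ y : ℝ, K ^ 2 * y ^ 2 * bump 1 ℓ x ^ 2 = (K ^ 2 * bump 1 ℓ x ^ 2) * y ^ 2 := by
      intro y; ring
    simp only [e]
    rw [intervalIntegral.integral_const_mul, integral_pow]
    simp only [fr]
    norm_num
    ring
  have hfi := rhombus_thin.fib_int hc
  rw [rhombus_thin.integral_eq hc]
  have hfe : fib pr br fr gr (fun z => VK K z * bump 1 ℓ (cx pr br z) ^ 2)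
      = fun x => K ^ 2 * (2 / 3) * gr x ^ 3 * bump 1 ℓ x ^ 2 := funext hfib
  rw [hfe] at hfi ⊢
  rw [tip_split hℓ hℓ1 (F := fun x => K ^ 2 * (2 / 3) * gr x ^ 3 * bump 1 ℓ x ^ 2)
    (G := fun x => K ^ 2 * (2 / 3) * ((1 - x) / 4) ^ 3 * ((1 - ((x - 1) / ℓ) ^ 2) ^ 2) ^ 2)
    (H := fun x => K ^ 2 * ℓ ^ 4 / 192 * (1 / 5 * (1 - ((x - 1) / ℓ) ^ 2) ^ 5 -
      1 / 6 * (1 - ((x - 1) / ℓ) ^ 2) ^ 6))]
  · simp only [tip_T_left hℓ, tip_T_right]
    ring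
  · exact hfi
  · intro x hx
    rw [(bump_zero_left hℓ hx).1]
    ring
  · intro x hx
    rw [(bump_tip hℓ hx.1 hx.2).1]
    simp only [gr_right (show 1 / 2 ≤ x by linarith [hx.1])]
  · intro x
    have h := ((((tip_deriv (ℓ := ℓ) x).pow 5).const_mul (1 / 5)).sub
      (((tip_deriv (ℓ := ℓ) x).pow 6).const_mul (1 / 6))).const_mul (K ^ 2 * ℓ ^ 4 / 192)
    refine h.congr_deriv ?_
    norm_num
    field_simp
    ring
  · fun_prop

end

lemma robinForm_split {α : ℝ} {Ω : Set Plane} (hb : Bornology.IsBounded Ω) {V : Plane → ℝ}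
    (hV : Continuous V) {u : Plane → ℝ} (hu : ContDiff ℝ 1 u) :
    robinForm α Ω V u = robinForm α Ω (fun _ => 0) u + ∫ z in Ω, V z * u z ^ 2 := by
  have hfd : Continuous fun z => fderiv ℝ u z := hu.continuous_fderiv (by norm_num)
  have I1 : IntegrableOn (fun z => ‖fderiv ℝ u z‖ ^ 2) Ω := integrableOn_aux hb (hfd.norm.pow 2)
  have I2 : IntegrableOn (fun z => V z * u z ^ 2) Ω :=
    integrableOn_aux hb (hV.mul (hu.continuous.pow 2))
  rw [robinForm_zero]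
  unfold robinForm
  rw [integral_add I1 I2]
  have e4 : (arc : Measure Plane) = Measure.hausdorffMeasure 1 := rfl
  rw [e4]
  ring

/-- the first eigenvalue for the potential `K² y²` -/
lemma eig_one_tip {α K : ℝ} (hα0 : 0 ≤ α) (hα1 : α ≤ 1 / 100) (hK : 192 ≤ K) :
    4 / 10 * K ∈ specSet α rhombus (VK K) 1 := by
  have hK0 : 0 < K := by linarith
  obtain ⟨ℓ, hℓ0, hℓ2⟩ : ∃ ℓ : ℝ, 0 < ℓ ∧ ℓ ^ 2 = 48 / K :=
    ⟨Real.sqrt (48 / K), Real.sqrt_pos.mpr (by positivity), Real.sq_sqrt (by positivity)⟩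
  have hℓ1 : ℓ ≤ 1 / 2 := by
    by_contra hcon
    push Not at hcon
    have h1 : (1 / 2) ^ 2 < ℓ ^ 2 := pow_lt_pow_left₀ hcon (by norm_num) two_ne_zero
    rw [hℓ2, lt_div_iff₀ hK0] at h1
    linarith
  have hk := bump_contDiff 1 ℓ
  have hcomp := contDiff_comp_cx pr br hk
  obtain ⟨z, hz, hzc⟩ := rhombus_thin.center_mem' (c := 1 - ℓ / 2) ⟨by linarith, by linarith⟩
  refine mem_specSet_one (u := fun z => bump 1 ℓ (cx pr br z)) hcomp hz ?_ ?_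
  · simp only [hzc]
    rw [(bump_tip hℓ0 (by linarith) (by linarith)).1]
    have : (1 - ℓ / 2 - 1) / ℓ = -1 / 2 := by field_simp; ring
    rw [this]
    norm_num
  · rw [robinForm_split rhombus_bounded (VK_cont K) hcomp]
    have h1 := rhombus_thin.form_cx_le hk (bump_bounds 1 ℓ) hα0
    rw [tip_kin hℓ0 hℓ1] at h1
    have h2 := tip_pot hℓ0 hℓ1 K
    have h3 := rhombus_thin.mass_cx hk
    rw [tip_mass hℓ0 hℓ1] at h3
    rw [h2, h3]
    have h4 : ∫ x in (0 : ℝ)..1, bump 1 ℓ x ^ 2 ≤ 1 := by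
      have : ∫ x in (0 : ℝ)..1, bump 1 ℓ x ^ 2 ≤ ∫ x in (0 : ℝ)..1, (1 : ℝ) := by
        apply intervalIntegral.integral_mono_on zero_le_one
          ((hk.continuous.pow 2).intervalIntegrable _ _) intervalIntegrable_const
        intro x _
        have h5 := bump_bounds 1 ℓ x
        have h6 : bump 1 ℓ x ^ 2 ≤ 1 := by
          rw [pow_two]
          exact mul_le_one₀ h5.2 h5.1 h5.2
        exact h6
      simpa using this
    have h5 : K ^ 2 * ℓ ^ 4 / 5760 = 4 / 10 := by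
      have : ℓ ^ 4 = (ℓ ^ 2) ^ 2 := by ring
      rw [this, hℓ2]
      field_simp
      norm_num
    have h6 : 4 / 10 * K * (ℓ ^ 2 / 20) = 96 / 100 := by
      rw [hℓ2]
      field_simp
      norm_num
    have h7 : α * (2 * (∫ x in (0 : ℝ)..1, bump 1 ℓ x ^ 2) + 4 * (1 / 4)) ≤ 1 / 100 * 3 :=
      mul_le_mul hα1 (by linarith) (by
        have : 0 ≤ ∫ x in (0 : ℝ)..1, bump 1 ℓ x ^ 2 :=
          intervalIntegral.integral_nonneg zero_le_one fun _ _ => sq_nonneg _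
        linarith) (by norm_num)
    rw [h5, h6]
    linarith

end Pool.Agent.MP_e32423_an
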