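import Pool.Agent.Lib.MP_e32423_an.Lower2
import Pool.Agent.Lib.MP_e32423_an.Spectral

/-!
Trial functions depending only on the first coordinate, and bump functions.
-/

namespace Pool.Agent.MP_e32423_an

open MeasureTheory Set Filter
open scoped Topology RealInnerProductSpace NNReal ENNReal

section

variable (p : Plane) (b : OrthonormalBasis (Fin 2) ℝ Plane)

lemma hasFDerivAt_cx (z : Plane) : HasFDerivAt (cx p b) (innerSL ℝ (b 0)) z := by
  have h := (innerSL ℝ (b 0)).hasFDerivAt.comp z ((hasFDerivAt_id z).sub_const p)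
  rw [ContinuousLinearMap.comp_id] at h
  exact h

lemma hasFDerivAt_comp_cx {k : ℝ → ℝ} {k' : ℝ} {z : Plane} (hk : HasDerivAt k k' (cx p b z)) :
    HasFDerivAt (fun z => k (cx p b z)) (k' • innerSL ℝ (b 0)) z :=
  hk.comp_hasFDerivAt z (hasFDerivAt_cx p b z)

lemma fderiv_comp_cx {k : ℝ → ℝ} (hk : ContDiff ℝ 1 k) (z : Plane) :
    fderiv ℝ (fun z => k (cx p b z)) z = deriv k (cx p b z) • innerSL ℝ (b 0) :=
  (hasFDerivAt_comp_cx p b (hk.differentiable (by norm_num) _).hasDerivAt).fderiv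

lemma norm_fderiv_comp_cx {k : ℝ → ℝ} (hk : ContDiff ℝ 1 k) (z : Plane) :
    ‖fderiv ℝ (fun z => k (cx p b z)) z‖ ^ 2 = deriv k (cx p b z) ^ 2 := by
  rw [fderiv_comp_cx p b hk, norm_smul, innerSL_apply_norm, b.norm_eq_one, mul_one,
    Real.norm_eq_abs, sq_abs]

lemma contDiff_cx : ContDiff ℝ 1 (cx p b) := by
  unfold cx
  exact contDiff_const.inner ℝ (contDiff_id.sub contDiff_const)

lemma contDiff_comp_cx {k : ℝ → ℝ} (hk : ContDiff ℝ 1 k) :
    ContDiff ℝ 1 (fun z => k (cx p b z)) := hk.comp (contDiff_cx p b)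

end

namespace Thin

variable {Ω : Set Plane} {p : Plane} {b : OrthonormalBasis (Fin 2) ℝ Plane}
    {f g : ℝ → ℝ} {W : ℝ}

lemma fib_cx (F : ℝ → ℝ) (x : ℝ) : fib p b f g (fun z => F (cx p b z)) x = (g x - f x) * F x := by
  unfold fib
  simp

lemma width_int (h : Thin Ω p b f g W) {F : ℝ → ℝ} (hF : Continuous F) :
    IntervalIntegrable (fun x => (g x - f x) * F x) volume 0 1 := by
  have := h.fib_int (φ := fun z => F (cx p b z)) (hF.comp (continuous_cx p b))
  rwa [show fib p b f g (fun z => F (cx p b z)) = fun x => (g x - f x) * F x from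
    funext (fib_cx F)] at this

lemma integral_cx (h : Thin Ω p b f g W) {F : ℝ → ℝ} (hF : Continuous F) :
    ∫ z in Ω, F (cx p b z) = ∫ x in (0 : ℝ)..1, (g x - f x) * F x := by
  rw [h.integral_eq (φ := fun z => F (cx p b z)) (hF.comp (continuous_cx p b))]
  simp only [fib_cx]

lemma mass_cx (h : Thin Ω p b f g W) {k : ℝ → ℝ} (hk : ContDiff ℝ 1 k) :
    ∫ z in Ω, k (cx p b z) ^ 2 = ∫ x in (0 : ℝ)..1, (g x - f x) * k x ^ 2 :=
  h.integral_cx (F := fun x => k x ^ 2) (hk.continuous.pow 2)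

lemma kin_cx (h : Thin Ω p b f g W) {k : ℝ → ℝ} (hk : ContDiff ℝ 1 k) :
    ∫ z in Ω, ‖fderiv ℝ (fun z => k (cx p b z)) z‖ ^ 2
      = ∫ x in (0 : ℝ)..1, (g x - f x) * deriv k x ^ 2 := by
  simp only [norm_fderiv_comp_cx p b hk]
  exact h.integral_cx (F := fun x => deriv k x ^ 2) ((hk.continuous_deriv (by norm_num)).pow 2)

lemma form_cx_le (h : Thin Ω p b f g W) {k : ℝ → ℝ} (hk : ContDiff ℝ 1 k)
    (hk1 : ∀ x, 0 ≤ k x ∧ k x ≤ 1) {α : ℝ} (hα : 0 ≤ α) :
    robinForm α Ω (fun _ => 0) (fun z => k (cx p b z)) ≤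
      (∫ x in (0 : ℝ)..1, (g x - f x) * deriv k x ^ 2) +
        α * (2 * (∫ x in (0 : ℝ)..1, k x ^ 2) + 4 * W) := by
  rw [robinForm_zero, h.kin_cx hk]
  have h1 := h.graph.boundary_le h.fcont h.gcont h.dom.isBounded h.W0.le h.arc_le
    (k := fun x => k x ^ 2) (hk.continuous.pow 2)
    (fun x => ⟨sq_nonneg _, by nlinarith [hk1 x]⟩)
  have h2 := mul_le_mul_of_nonneg_left h1 hα
  linarith

lemma center_mem' (h : Thin Ω p b f g W) {c : ℝ} (hc : c ∈ Ioo (0 : ℝ) 1) :
    ∃ z ∈ Ω, cx p b z = c := by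
  have h1 := h.graph.lt c hc.1 hc.2
  refine ⟨pt p b c ((f c + g c) / 2), ?_, by simp⟩
  exact (h.graph.mem_iff _ _).mpr ⟨⟨hc.1, hc.2⟩, by constructor <;> linarith⟩

end Thin

/-! ### bumps -/

lemma hasDerivAt_max_sq (t : ℝ) : HasDerivAt (fun s : ℝ => (max 0 s) ^ 2) (2 * max 0 t) t := by
  rcases lt_trichotomy t 0 with h | h | h
  · have e : (fun s : ℝ => (max 0 s) ^ 2) =ᶠ[𝓝 t] fun _ => 0 := by
      filter_upwards [Iio_mem_nhds h] with s hs
      rw [max_eq_left (le_of_lt hs)]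
      norm_num
    rw [max_eq_left h.le, mul_zero]
    exact (hasDerivAt_const t (0 : ℝ)).congr_of_eventuallyEq e
  · subst h
    rw [max_self, mul_zero, hasDerivAt_iff_isLittleO_nhds_zero]
    have h1 : (fun h : ℝ => (max 0 (0 + h)) ^ 2 - (max 0 (0 : ℝ)) ^ 2 - h • (0 : ℝ))
        =O[𝓝 0] fun h : ℝ => h ^ 2 := by
      apply Asymptotics.IsBigO.of_bound 1
      filter_upwards with s
      have : |max 0 s| ≤ |s| := by
        rw [abs_of_nonneg (le_max_left _ _)]
        exact max_le (abs_nonneg _) (le_abs_self _)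
      have h2 := pow_le_pow_left₀ (abs_nonneg _) this 2
      simpa only [zero_add, max_self, smul_zero, sub_zero, one_mul, Real.norm_eq_abs, ne_eq,
        OfNat.ofNat_ne_zero, not_false_eq_true, zero_pow, abs_pow] using h2
    refine h1.trans_isLittleO ?_
    exact Asymptotics.isLittleO_pow_id (by norm_num)
  · have e : (fun s : ℝ => (max 0 s) ^ 2) =ᶠ[𝓝 t] fun s => s ^ 2 := by
      filter_upwards [Ioi_mem_nhds h] with s hs
      rw [max_eq_right (le_of_lt hs)]
    rw [max_eq_right h.le]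
    have := (hasDerivAt_pow 2 t).congr_of_eventuallyEq e
    simpa using this

/-- The bump function with centre `c` and radius `r`. -/
noncomputable def bump (c r x : ℝ) : ℝ := (max 0 (1 - ((x - c) / r) ^ 2)) ^ 2

lemma bump_hasDerivAt (c r x : ℝ) :
    HasDerivAt (bump c r) (2 * max 0 (1 - ((x - c) / r) ^ 2) * (-(2 * ((x - c) / r) / r))) x := by
  have h1 : HasDerivAt (fun x : ℝ => 1 - ((x - c) / r) ^ 2) (-(2 * ((x - c) / r) / r)) x := by
    have := ((((hasDerivAt_id x).sub_const c).div_const r).pow 2).const_sub 1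
    refine this.congr_deriv ?_
    simp only [id, Nat.cast_ofNat, Nat.add_one_sub_one, pow_one]
    ring
  exact (hasDerivAt_max_sq _).comp x h1

lemma bump_deriv (c r : ℝ) :
    deriv (bump c r) = fun x => 2 * max 0 (1 - ((x - c) / r) ^ 2) * (-(2 * ((x - c) / r) / r)) :=
  funext fun x => (bump_hasDerivAt c r x).deriv

lemma bump_contDiff (c r : ℝ) : ContDiff ℝ 1 (bump c r) := by
  rw [contDiff_one_iff_deriv]
  refine ⟨fun x => (bump_hasDerivAt c r x).differentiableAt, ?_⟩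
  rw [bump_deriv]
  fun_prop

lemma bump_bounds (c r x : ℝ) : 0 ≤ bump c r x ∧ bump c r x ≤ 1 := by
  unfold bump
  have h1 : 0 ≤ max 0 (1 - ((x - c) / r) ^ 2) := le_max_left _ _
  have h2 : max 0 (1 - ((x - c) / r) ^ 2) ≤ 1 :=
    max_le zero_le_one (by nlinarith [sq_nonneg ((x - c) / r)])
  exact ⟨by positivity, by nlinarith⟩

lemma bump_eq_zero {c r x : ℝ} (hr : 0 < r) (hx : r ≤ |x - c|) :
    bump c r x = 0 ∧ deriv (bump c r) x = 0 := by
  have h1 : max 0 (1 - ((x - c) / r) ^ 2) = 0 := by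
    apply max_eq_left
    have : 1 ≤ ((x - c) / r) ^ 2 := by
      rw [div_pow, one_le_div (by positivity), ← sq_abs (x - c)]
      exact pow_le_pow_left₀ hr.le hx 2
    linarith
  constructor
  · unfold bump
    rw [h1]
    norm_num
  · rw [bump_deriv]
    simp only [h1]
    ring

lemma bump_ge {c r x : ℝ} (hr : 0 < r) (hx : |x - c| ≤ r / 2) : 81 / 256 ≤ bump c r x ^ 2 := by
  have h1 : ((x - c) / r) ^ 2 ≤ 1 / 4 := by
    rw [div_pow, div_le_iff₀ (by positivity), ← sq_abs (x - c)]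
    have := pow_le_pow_left₀ (abs_nonneg _) hx 2
    linarith
  have h2 : 3 / 4 ≤ max 0 (1 - ((x - c) / r) ^ 2) := le_max_of_le_right (by linarith)
  unfold bump
  have h3 : (3 / 4 : ℝ) ^ 2 ≤ (max 0 (1 - ((x - c) / r) ^ 2)) ^ 2 :=
    pow_le_pow_left₀ (by norm_num) h2 2
  nlinarith

lemma bump_deriv_le {c r x : ℝ} (hr : 0 < r) : (deriv (bump c r) x) ^ 2 ≤ 16 / r ^ 2 := by
  by_cases hx : r ≤ |x - c|
  · rw [(bump_eq_zero hr hx).2, zero_pow (by norm_num)]
    positivity
  · push Not at hx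
    rw [bump_deriv]
    have h1 : 0 ≤ max 0 (1 - ((x - c) / r) ^ 2) := le_max_left _ _
    have h2 : max 0 (1 - ((x - c) / r) ^ 2) ≤ 1 :=
      max_le zero_le_one (by nlinarith [sq_nonneg ((x - c) / r)])
    have h3 : ((x - c) / r) ^ 2 ≤ 1 := by
      rw [div_pow, div_le_iff₀ (by positivity), ← sq_abs (x - c)]
      have := pow_le_pow_left₀ (abs_nonneg _) hx.le 2
      linarith
    have e : (2 * max 0 (1 - ((x - c) / r) ^ 2) * (-(2 * ((x - c) / r) / r))) ^ 2
        = 16 / r ^ 2 * ((max 0 (1 - ((x - c) / r) ^ 2)) ^ 2 * ((x - c) / r) ^ 2) := by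
      field_simp
      ring
    simp only [e]
    have h4 : (max 0 (1 - ((x - c) / r) ^ 2)) ^ 2 * ((x - c) / r) ^ 2 ≤ 1 := by
      have h5 : (max 0 (1 - ((x - c) / r) ^ 2)) ^ 2 ≤ 1 := by nlinarith
      have h6 := sq_nonneg ((x - c) / r)
      nlinarith
    have h7 : 0 ≤ 16 / r ^ 2 := by positivity
    nlinarith

/-- restricting the integral of a function which vanishes outside `[c - r, c + r]` -/
lemma integral_supp {c r : ℝ} (h0 : 0 ≤ c - r) (hr : 0 ≤ r) (h1 : c + r ≤ 1) {F : ℝ → ℝ}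
    (hF : IntervalIntegrable F volume 0 1) (hz : ∀ x, r ≤ |x - c| → F x = 0) :
    ∫ x in (0 : ℝ)..1, F x = ∫ x in (c - r)..(c + r), F x := by
  have hi : ∀ s t, s ∈ Icc (0 : ℝ) 1 → t ∈ Icc (0 : ℝ) 1 → IntervalIntegrable F volume s t := by
    intro s t hs ht
    apply hF.mono_set
    rw [uIcc_of_le (zero_le_one (α := ℝ))]
    exact uIcc_subset_Icc hs ht
  have m0 : (0 : ℝ) ∈ Icc (0 : ℝ) 1 := ⟨le_rfl, zero_le_one⟩
  have m1 : (1 : ℝ) ∈ Icc (0 : ℝ) 1 := ⟨zero_le_one, le_rfl⟩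
  have ma : c - r ∈ Icc (0 : ℝ) 1 := ⟨h0, by linarith⟩
  have mb : c + r ∈ Icc (0 : ℝ) 1 := ⟨by linarith, h1⟩
  rw [← intervalIntegral.integral_add_adjacent_intervals (hi 0 (c - r) m0 ma) (hi _ 1 ma m1),
    ← intervalIntegral.integral_add_adjacent_intervals (hi (c - r) (c + r) ma mb) (hi _ 1 mb m1)]
  have e1 : ∫ x in (0 : ℝ)..(c - r), F x = 0 := by
    rw [intervalIntegral.integral_congr (g := fun _ => 0), intervalIntegral.integral_zero]
    intro x hx
    rw [uIcc_of_le h0] at hx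
    apply hz
    rw [abs_sub_comm]
    exact le_trans (by linarith [hx.2]) (le_abs_self _)
  have e2 : ∫ x in (c + r)..(1 : ℝ), F x = 0 := by
    rw [intervalIntegral.integral_congr (g := fun _ => 0), intervalIntegral.integral_zero]
    intro x hx
    rw [uIcc_of_le h1] at hx
    apply hz
    exact le_trans (by linarith [hx.1]) (le_abs_self _)
  rw [e1, e2]
  ring

lemma bump_sq_integral {c r : ℝ} (h0 : 0 ≤ c - r) (hr : 0 < r) (h1 : c + r ≤ 1) :
    81 / 256 * r ≤ ∫ x in (0 : ℝ)..1, bump c r x ^ 2 ∧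
      ∫ x in (0 : ℝ)..1, bump c r x ^ 2 ≤ 2 * r := by
  have hc : Continuous fun x => bump c r x ^ 2 := (bump_contDiff c r).continuous.pow 2
  have hi : ∀ s t, IntervalIntegrable (fun x => bump c r x ^ 2) volume s t :=
    fun s t => hc.intervalIntegrable s t
  rw [integral_supp h0 hr.le h1 (hi 0 1) (fun x hx => by rw [(bump_eq_zero hr hx).1]; norm_num)]
  constructor
  · have e : ∫ x in (c - r)..(c + r), bump c r x ^ 2 = (∫ x in (c - r)..(c - r / 2), bump c r x ^ 2)
        + ((∫ x in (c - r / 2)..(c + r / 2), bump c r x ^ 2) +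
          ∫ x in (c + r / 2)..(c + r), bump c r x ^ 2) := by
      rw [intervalIntegral.integral_add_adjacent_intervals (hi _ _) (hi _ _),
        intervalIntegral.integral_add_adjacent_intervals (hi _ _) (hi _ _)]
    have n1 : 0 ≤ ∫ x in (c - r)..(c - r / 2), bump c r x ^ 2 :=
      intervalIntegral.integral_nonneg (by linarith) fun _ _ => sq_nonneg _
    have n2 : 0 ≤ ∫ x in (c + r / 2)..(c + r), bump c r x ^ 2 :=
      intervalIntegral.integral_nonneg (by linarith) fun _ _ => sq_nonneg _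
    have n3 : ∫ x in (c - r / 2)..(c + r / 2), (81 / 256 : ℝ) ≤
        ∫ x in (c - r / 2)..(c + r / 2), bump c r x ^ 2 := by
      apply intervalIntegral.integral_mono_on (by linarith) intervalIntegrable_const (hi _ _)
      intro x hx
      exact bump_ge hr (abs_le.mpr ⟨by linarith [hx.1], by linarith [hx.2]⟩)
    rw [intervalIntegral.integral_const, smul_eq_mul] at n3
    rw [e]
    linarith
  · have n3 : ∫ x in (c - r)..(c + r), bump c r x ^ 2 ≤ ∫ x in (c - r)..(c + r), (1 : ℝ) := by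
      apply intervalIntegral.integral_mono_on (by linarith) (hi _ _) intervalIntegrable_const
      intro x hx
      have := bump_bounds c r x
      nlinarith
    rw [intervalIntegral.integral_const, smul_eq_mul] at n3
    linarith

lemma bump_kin_integral {c r W : ℝ} (h0 : 0 ≤ c - r) (hr : 0 < r) (h1 : c + r ≤ 1) {w : ℝ → ℝ}
    (hw : ∀ x ∈ Ioo (0 : ℝ) 1, 0 ≤ w x ∧ w x ≤ W) (hW : 0 ≤ W)
    (hwi : IntervalIntegrable (fun x => w x * deriv (bump c r) x ^ 2) volume 0 1) :
    ∫ x in (0 : ℝ)..1, w x * deriv (bump c r) x ^ 2 ≤ W * (32 / r) := by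
  rw [integral_supp h0 hr.le h1 hwi (fun x hx => by rw [(bump_eq_zero hr hx).2]; norm_num)]
  have hwi' : IntervalIntegrable (fun x => w x * deriv (bump c r) x ^ 2) volume (c - r) (c + r) := by
    apply hwi.mono_set
    rw [uIcc_of_le (zero_le_one (α := ℝ))]
    exact uIcc_subset_Icc ⟨h0, by linarith⟩ ⟨by linarith, h1⟩
  have n3 : ∫ x in (c - r)..(c + r), w x * deriv (bump c r) x ^ 2 ≤
      ∫ x in (c - r)..(c + r), W * (16 / r ^ 2) := by
    apply intervalIntegral.integral_mono_on_of_le_Ioo (by linarith) hwi' intervalIntegrable_const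
    intro x hx
    have hx' : x ∈ Ioo (0 : ℝ) 1 := ⟨by linarith [hx.1], by linarith [hx.2]⟩
    exact mul_le_mul (hw x hx').2 (bump_deriv_le hr) (sq_nonneg _) hW
  rw [intervalIntegral.integral_const, smul_eq_mul] at n3
  refine n3.trans (le_of_eq ?_)
  field_simp
  ring

lemma bump_disj (p : Plane) (b : OrthonormalBasis (Fin 2) ℝ Plane) {c c' r : ℝ} (hr : 0 < r)
    (hcc : c + r ≤ c' - r) :
    Disj (fun z => bump c r (cx p b z)) (fun z => bump c' r (cx p b z)) := by
  intro z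
  rcases le_total (c + r) (cx p b z) with h | h
  · left
    have h1 : r ≤ |cx p b z - c| := le_trans (by linarith) (le_abs_self _)
    refine ⟨(bump_eq_zero hr h1).1, ?_⟩
    rw [fderiv_comp_cx p b (bump_contDiff c r), (bump_eq_zero hr h1).2, zero_smul]
  · right
    have h1 : r ≤ |cx p b z - c'| := by
      rw [abs_sub_comm]
      exact le_trans (by linarith) (le_abs_self _)
    refine ⟨(bump_eq_zero hr h1).1, ?_⟩
    rw [fderiv_comp_cx p b (bump_contDiff c' r), (bump_eq_zero hr h1).2, zero_smul]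

end Pool.Agent.MP_e32423_an
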