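import Pool.Agent.Lib.MP_e32423_an.Rhombus

/-!
Estimates for the potential `K² y²` on the rhombus.
-/

namespace Pool.Agent.MP_e32423_an

open MeasureTheory Set Filter
open scoped Topology RealInnerProductSpace NNReal ENNReal

/-- the oscillator inequality on `[-a, a]` with `K a² = 15` -/
lemma osc_inner {K a : ℝ} (hK : 0 < K) (ha : 0 < a) (hKa : K * a ^ 2 = 15) {φ ψ : ℝ → ℝ}
    (hφ : ∀ y, HasDerivAt φ (ψ y) y) (hψ : Continuous ψ) :
    9 / 10 * K * ∫ y in (-a)..a, φ y ^ 2 ≤
      ∫ y in (-a)..a, (ψ y ^ 2 + K ^ 2 * y ^ 2 * φ y ^ 2) := by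
  have hφc : Continuous φ := continuous_iff_continuousAt.mpr fun y => (hφ y).continuousAt
  set G : ℝ → ℝ := fun y => -(9 / 10 * K * y - 6 / 100 * K ^ 2 * y ^ 3) with hG
  have hGd : ∀ y, HasDerivAt G (-(9 / 10 * K - 18 / 100 * K ^ 2 * y ^ 2)) y := by
    intro y
    have h1 := (((hasDerivAt_id y).const_mul (9 / 10 * K)).sub
      ((hasDerivAt_pow 3 y).const_mul (6 / 100 * K ^ 2))).neg
    refine h1.congr_deriv ?_
    norm_num
    ring
  have hGc : Continuous G := by simp only [hG]; fun_prop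
  set H' : ℝ → ℝ := fun y => -(9 / 10 * K - 18 / 100 * K ^ 2 * y ^ 2) * φ y ^ 2 +
    G y * (2 * φ y * ψ y) with hH'
  have hHd : ∀ y, HasDerivAt (fun y => G y * φ y ^ 2) (H' y) y := by
    intro y
    have h1 := (hGd y).mul ((hφ y).pow 2)
    refine h1.congr_deriv ?_
    simp only [hH']
    norm_num
  have hH'c : Continuous H' := by simp only [hH']; fun_prop
  have hint : ∫ y in (-a)..a, H' y = 0 := by
    rw [intervalIntegral.integral_eq_sub_of_hasDerivAt (fun y _ => hHd y)
      (hH'c.intervalIntegrable _ _)]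
    have e1 : G a = 0 := by
      simp only [hG]
      have : 9 / 10 * K * a - 6 / 100 * K ^ 2 * a ^ 3 = K * a * (9 / 10 - 6 / 100 * (K * a ^ 2)) := by
        ring
      rw [this, hKa]
      norm_num
    have e2 : G (-a) = 0 := by
      simp only [hG]
      have : 9 / 10 * K * (-a) - 6 / 100 * K ^ 2 * (-a) ^ 3
          = -(K * a * (9 / 10 - 6 / 100 * (K * a ^ 2))) := by
        ring
      rw [this, hKa]
      norm_num
    rw [e1, e2]
    ring
  have hcont : Continuous fun y => ψ y ^ 2 + K ^ 2 * y ^ 2 * φ y ^ 2 := by fun_prop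
  have hmono : ∫ y in (-a)..a, (9 / 10 * K * φ y ^ 2 + H' y) ≤
      ∫ y in (-a)..a, (ψ y ^ 2 + K ^ 2 * y ^ 2 * φ y ^ 2) := by
    apply intervalIntegral.integral_mono_on (by linarith)
      ((Continuous.add (by fun_prop) hH'c).intervalIntegrable _ _) (hcont.intervalIntegrable _ _)
    intro y hy
    have hy2 : y ^ 2 ≤ a ^ 2 := sq_le_sq' hy.1 hy.2
    obtain ⟨s, hs⟩ : ∃ s, s = K * y ^ 2 := ⟨_, rfl⟩
    have hs0 : 0 ≤ s := by rw [hs]; positivity
    have hs15 : s ≤ 15 := by
      rw [hs, ← hKa]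
      exact mul_le_mul_of_nonneg_left hy2 hK.le
    have e : ψ y ^ 2 + K ^ 2 * y ^ 2 * φ y ^ 2 - (9 / 10 * K * φ y ^ 2 + H' y)
        = (ψ y - G y * φ y) ^ 2 + φ y ^ 2 * (K * (s * (1 / 100 + 108 / 1000 * s -
          36 / 10000 * s ^ 2))) := by
      simp only [hH', hG, hs]
      ring
    have h1 : 0 ≤ s * (1 / 100 + 108 / 1000 * s - 36 / 10000 * s ^ 2) := by
      apply mul_nonneg hs0
      nlinarith
    have h2 : 0 ≤ φ y ^ 2 * (K * (s * (1 / 100 + 108 / 1000 * s - 36 / 10000 * s ^ 2))) := by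
      positivity
    have h3 := sq_nonneg (ψ y - G y * φ y)
    have h4 : 0 ≤ ψ y ^ 2 + K ^ 2 * y ^ 2 * φ y ^ 2 - (9 / 10 * K * φ y ^ 2 + H' y) := by
      rw [e]
      exact add_nonneg h3 h2
    exact sub_nonneg.mp h4
  have I1 : IntervalIntegrable (fun y => 9 / 10 * K * φ y ^ 2) volume (-a) a :=
    (continuous_const.mul (hφc.pow 2)).intervalIntegrable _ _
  rw [intervalIntegral.integral_add I1
    (hH'c.intervalIntegrable _ _), hint, intervalIntegral.integral_const_mul, add_zero] at hmono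
  exact hmono

/-- the oscillator inequality -/
lemma osc {K a h : ℝ} (hK : 0 < K) (ha : 0 < a) (hKa : K * a ^ 2 = 15) (hah : a ≤ h)
    {φ ψ : ℝ → ℝ} (hφ : ∀ y, HasDerivAt φ (ψ y) y) (hψ : Continuous ψ) :
    9 / 10 * K * ∫ y in (-h)..h, φ y ^ 2 ≤
      ∫ y in (-h)..h, (ψ y ^ 2 + K ^ 2 * y ^ 2 * φ y ^ 2) := by
  have hφc : Continuous φ := continuous_iff_continuousAt.mpr fun y => (hφ y).continuousAt
  have hc1 : Continuous fun y => φ y ^ 2 := hφc.pow 2
  have hc2 : Continuous fun y => ψ y ^ 2 + K ^ 2 * y ^ 2 * φ y ^ 2 := by fun_prop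
  have i1 : ∀ s t, IntervalIntegrable (fun y => φ y ^ 2) volume s t :=
    fun s t => hc1.intervalIntegrable s t
  have i2 : ∀ s t, IntervalIntegrable (fun y => ψ y ^ 2 + K ^ 2 * y ^ 2 * φ y ^ 2) volume s t :=
    fun s t => hc2.intervalIntegrable s t
  have key : ∀ s t, s ≤ t → (∀ y ∈ Icc s t, a ^ 2 ≤ y ^ 2) →
      9 / 10 * K * ∫ y in s..t, φ y ^ 2 ≤
        ∫ y in s..t, (ψ y ^ 2 + K ^ 2 * y ^ 2 * φ y ^ 2) := by
    intro s t hst hy
    rw [← intervalIntegral.integral_const_mul]
    apply intervalIntegral.integral_mono_on hst ((i1 s t).const_mul _) (i2 s t)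
    intro y hy'
    have h1 := mul_le_mul_of_nonneg_left (hy y hy') (show 0 ≤ K ^ 2 by positivity)
    have h2 : K ^ 2 * a ^ 2 = 15 * K := by rw [pow_two, mul_assoc, hKa]; ring
    have h3 : 9 / 10 * K ≤ K ^ 2 * y ^ 2 := by linarith
    have h4 := mul_le_mul_of_nonneg_right h3 (sq_nonneg (φ y))
    linarith [sq_nonneg (ψ y)]
  have k1 := key (-h) (-a) (by linarith) (fun y hy => by
    have : a ≤ -y := by linarith [hy.2]
    have := pow_le_pow_left₀ ha.le this 2
    simpa using this)
  have k2 := key a h hah (fun y hy => pow_le_pow_left₀ ha.le hy.1 2)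
  have k3 := osc_inner hK ha hKa hφ hψ
  rw [← intervalIntegral.integral_add_adjacent_intervals (i1 (-h) (-a)) (i1 (-a) h),
    ← intervalIntegral.integral_add_adjacent_intervals (i1 (-a) a) (i1 a h),
    ← intervalIntegral.integral_add_adjacent_intervals (i2 (-h) (-a)) (i2 (-a) h),
    ← intervalIntegral.integral_add_adjacent_intervals (i2 (-a) a) (i2 a h)]
  linarith

/-- The potential. -/
noncomputable def VK (K : ℝ) (z : Plane) : ℝ := K ^ 2 * (z 1) ^ 2

lemma VK_nonneg (K : ℝ) (z : Plane) : 0 ≤ VK K z := by unfold VK; positivity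

lemma VK_cont (K : ℝ) : Continuous (VK K) := by unfold VK; fun_prop

lemma VK_refl' (K : ℝ) (z : Plane) : VK K (refl' z) = VK K z := by
  unfold VK
  rw [refl'_one]

lemma VK_pt (K x y : ℝ) : VK K (pt pr br x y) = K ^ 2 * y ^ 2 := by
  unfold VK
  rw [pt_one_apply]

/-- functions supported in the middle -/
lemma middle_bound {K : ℝ} (hK : 15360 ≤ K) {v : Plane → ℝ} (hv : ContDiff ℝ 1 v)
    (hsupp : ∀ z, 3 / 8 ≤ |cx pr br z - 1 / 2| → v z = 0) :
    9 / 10 * K * ∫ z in rhombus, v z ^ 2 ≤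
      ∫ z in rhombus, (‖fderiv ℝ v z‖ ^ 2 + VK K z * v z ^ 2) := by
  have hK0 : 0 < K := by linarith
  have hfd : Continuous fun z => fderiv ℝ v z := hv.continuous_fderiv (by norm_num)
  have hvc := hv.continuous
  have hVc := VK_cont K
  have hc1 : Continuous fun z => v z ^ 2 := hvc.pow 2
  have hc2 : Continuous fun z => ‖fderiv ℝ v z‖ ^ 2 + VK K z * v z ^ 2 :=
    (hfd.norm.pow 2).add (hVc.mul hc1)
  rw [rhombus_thin.integral_eq hc1, rhombus_thin.integral_eq hc2,
    ← intervalIntegral.integral_const_mul]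
  apply intervalIntegral.integral_mono_on_of_le_Ioo zero_le_one
    ((rhombus_thin.fib_int hc1).const_mul _) (rhombus_thin.fib_int hc2)
  intro x hx
  have hptc : Continuous fun y : ℝ => pt pr br x y := by unfold pt; fun_prop
  have hlt : fr x < gr x := rhombus_graph.lt x hx.1 hx.2
  by_cases hxm : 3 / 8 ≤ |x - 1 / 2|
  · have h0 : fib pr br fr gr (fun z => v z ^ 2) x = 0 := by
      unfold fib
      have : ∀ y, v (pt pr br x y) = 0 := fun y => hsupp _ (by rw [cx_pt]; exact hxm)
      simp only [this]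
      simp
    rw [h0, mul_zero]
    unfold fib
    apply intervalIntegral.integral_nonneg hlt.le
    intro y _
    have := VK_nonneg K (pt pr br x y)
    positivity
  · push Not at hxm
    set a := Real.sqrt (15 / K) with ha
    have ha0 : 0 < a := Real.sqrt_pos.mpr (by positivity)
    have hKa : K * a ^ 2 = 15 := by
      rw [ha, Real.sq_sqrt (by positivity)]
      field_simp
    have hah : a ≤ gr x := by
      have h1 : 1 / 32 ≤ gr x := by unfold gr; linarith
      have h2 : a ≤ 1 / 32 := by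
        rw [ha, Real.sqrt_le_left (by norm_num), div_le_iff₀ hK0]
        norm_num
        linarith
      linarith
    have hφ : ∀ y, HasDerivAt (fun y => v (pt pr br x y)) (fderiv ℝ v (pt pr br x y) (br 1)) y := by
      intro y
      have h1 : HasDerivAt (fun y => pt pr br x y) (br 1) y := by
        unfold pt
        have := (((hasDerivAt_id y).smul_const (br 1)).const_add (x • br 0)).const_add pr
        simpa using this
      exact ((hv.differentiable (by norm_num) _).hasFDerivAt).comp_hasDerivAt y h1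
    have hψ : Continuous fun y => fderiv ℝ v (pt pr br x y) (br 1) :=
      (hfd.comp hptc).clm_apply continuous_const
    have h1 := osc hK0 ha0 hKa hah hφ hψ
    have h2 : fib pr br fr gr (fun z => v z ^ 2) x
        = ∫ y in (-gr x)..(gr x), (fun y => v (pt pr br x y)) y ^ 2 := rfl
    rw [h2]
    refine h1.trans ?_
    unfold fib
    have e : fr x = -gr x := rfl
    rw [e]
    rw [e] at hlt
    apply intervalIntegral.integral_mono_on hlt.le
    · apply Continuous.intervalIntegrable
      have := hvc.comp hptc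
      fun_prop
    · apply Continuous.intervalIntegrable
      exact hc2.comp hptc
    · intro y _
      simp only [VK_pt]
      have h3 := norm_sq_form br (fderiv ℝ v (pt pr br x y))
      have h4 := sq_nonneg (fderiv ℝ v (pt pr br x y) (br 0))
      linarith

/-! ### localisation -/

/-- multiplication by a function of the first coordinate -/
noncomputable def loc (χ : ℝ → ℝ) (u : Plane → ℝ) (z : Plane) : ℝ := χ (cx pr br z) * u z

lemma loc_contDiff {χ : ℝ → ℝ} (hχ : ContDiff ℝ 1 χ) {u : Plane → ℝ} (hu : ContDiff ℝ 1 u) :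
    ContDiff ℝ 1 (loc χ u) := (contDiff_comp_cx pr br hχ).mul hu

lemma loc_fderiv {χ : ℝ → ℝ} (hχ : ContDiff ℝ 1 χ) {u : Plane → ℝ} (hu : ContDiff ℝ 1 u)
    (z : Plane) :
    fderiv ℝ (loc χ u) z (br 0) = χ (cx pr br z) * fderiv ℝ u z (br 0) +
      deriv χ (cx pr br z) * u z ∧
    fderiv ℝ (loc χ u) z (br 1) = χ (cx pr br z) * fderiv ℝ u z (br 1) := by
  have h1 : HasFDerivAt (fun z => χ (cx pr br z)) (deriv χ (cx pr br z) • innerSL ℝ (br 0)) z :=
    hasFDerivAt_comp_cx pr br (hχ.differentiable (by norm_num) _).hasDerivAt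
  have h2 : HasFDerivAt u (fderiv ℝ u z) z := (hu.differentiable (by norm_num) z).hasFDerivAt
  have h3 : HasFDerivAt (loc χ u) (χ (cx pr br z) • fderiv ℝ u z +
      u z • (deriv χ (cx pr br z) • innerSL ℝ (br 0))) z := h1.mul h2
  rw [h3.fderiv]
  constructor
  · simp
    ring
  · simp [inner01 br]

/-- the localisation formula -/
lemma ims {φ : ℝ → ℝ} (hφ : ContDiff ℝ 1 φ) {α : ℝ} {V : Plane → ℝ} (hV : Continuous V)
    {u : Plane → ℝ} (hu : ContDiff ℝ 1 u) :
    robinForm α rhombus V (loc (fun t => Real.sin (φ t)) u) +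
      robinForm α rhombus V (loc (fun t => Real.cos (φ t)) u) =
    robinForm α rhombus V u + ∫ z in rhombus, deriv φ (cx pr br z) ^ 2 * u z ^ 2 := by
  have hs : ContDiff ℝ 1 fun t => Real.sin (φ t) := Real.contDiff_sin.comp hφ
  have hc : ContDiff ℝ 1 fun t => Real.cos (φ t) := Real.contDiff_cos.comp hφ
  have hus := loc_contDiff hs hu
  have huc := loc_contDiff hc hu
  have hdφ : Continuous (deriv φ) := hφ.continuous_deriv (by norm_num)
  have hd : ∀ t, HasDerivAt φ (deriv φ t) t := fun t =>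
    (hφ.differentiable (by norm_num) t).hasDerivAt
  have hds : ∀ t, deriv (fun t => Real.sin (φ t)) t = Real.cos (φ t) * deriv φ t :=
    fun t => (hd t).sin.deriv
  have hdc : ∀ t, deriv (fun t => Real.cos (φ t)) t = -Real.sin (φ t) * deriv φ t :=
    fun t => (hd t).cos.deriv
  have fs : Continuous fun z => fderiv ℝ (loc (fun t => Real.sin (φ t)) u) z :=
    hus.continuous_fderiv (by norm_num)
  have fc : Continuous fun z => fderiv ℝ (loc (fun t => Real.cos (φ t)) u) z :=
    huc.continuous_fderiv (by norm_num)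
  have fu : Continuous fun z => fderiv ℝ u z := hu.continuous_fderiv (by norm_num)
  have hcx := continuous_cx pr br
  have hint : ∀ {F : Plane → ℝ}, Continuous F → IntegrableOn F rhombus :=
    fun hF => integrableOn_aux rhombus_bounded hF
  have hintf : ∀ {F : Plane → ℝ}, Continuous F → IntegrableOn F (frontier rhombus) arc :=
    fun hF => integrableOn_frontier rhombus_bounded rhombus_thin.arc_lt hF
  have e1 : (∫ z in rhombus, (‖fderiv ℝ (loc (fun t => Real.sin (φ t)) u) z‖ ^ 2 +
        V z * loc (fun t => Real.sin (φ t)) u z ^ 2)) +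
      (∫ z in rhombus, (‖fderiv ℝ (loc (fun t => Real.cos (φ t)) u) z‖ ^ 2 +
        V z * loc (fun t => Real.cos (φ t)) u z ^ 2)) =
      (∫ z in rhombus, (‖fderiv ℝ u z‖ ^ 2 + V z * u z ^ 2)) +
        ∫ z in rhombus, deriv φ (cx pr br z) ^ 2 * u z ^ 2 := by
    have I1 : IntegrableOn (fun z => ‖fderiv ℝ (loc (fun t => Real.sin (φ t)) u) z‖ ^ 2 +
        V z * loc (fun t => Real.sin (φ t)) u z ^ 2) rhombus :=
      hint ((fs.norm.pow 2).add (hV.mul (hus.continuous.pow 2)))
    have I2 : IntegrableOn (fun z => ‖fderiv ℝ (loc (fun t => Real.cos (φ t)) u) z‖ ^ 2 +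
        V z * loc (fun t => Real.cos (φ t)) u z ^ 2) rhombus :=
      hint ((fc.norm.pow 2).add (hV.mul (huc.continuous.pow 2)))
    have I3 : IntegrableOn (fun z => ‖fderiv ℝ u z‖ ^ 2 + V z * u z ^ 2) rhombus :=
      hint ((fu.norm.pow 2).add (hV.mul (hu.continuous.pow 2)))
    have I4 : IntegrableOn (fun z => deriv φ (cx pr br z) ^ 2 * u z ^ 2) rhombus :=
      hint (((hdφ.comp hcx).pow 2).mul (hu.continuous.pow 2))
    rw [← integral_add I1 I2, ← integral_add I3 I4]
    congr 1
    ext z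
    rw [norm_sq_form br, norm_sq_form br (fderiv ℝ (loc (fun t => Real.cos (φ t)) u) z),
      norm_sq_form br (fderiv ℝ u z), (loc_fderiv hs hu z).1, (loc_fderiv hs hu z).2,
      (loc_fderiv hc hu z).1, (loc_fderiv hc hu z).2, hds, hdc]
    simp only [loc]
    have h1 := Real.sin_sq_add_cos_sq (φ (cx pr br z))
    have h2 : Real.cos (φ (cx pr br z)) ^ 2 = 1 - Real.sin (φ (cx pr br z)) ^ 2 := by linarith
    ring_nf
    rw [h2]
    ring
  have e2 : (∫ z in frontier rhombus, loc (fun t => Real.sin (φ t)) u z ^ 2 ∂arc) +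
      (∫ z in frontier rhombus, loc (fun t => Real.cos (φ t)) u z ^ 2 ∂arc) =
      ∫ z in frontier rhombus, u z ^ 2 ∂arc := by
    have I1 : IntegrableOn (fun z => loc (fun t => Real.sin (φ t)) u z ^ 2) (frontier rhombus) arc :=
      hintf (hus.continuous.pow 2)
    have I2 : IntegrableOn (fun z => loc (fun t => Real.cos (φ t)) u z ^ 2) (frontier rhombus) arc :=
      hintf (huc.continuous.pow 2)
    rw [← integral_add I1 I2]
    congr 1
    ext z
    simp only [loc]
    have h1 := Real.sin_sq_add_cos_sq (φ (cx pr br z))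
    calc _ = (Real.sin (φ (cx pr br z)) ^ 2 + Real.cos (φ (cx pr br z)) ^ 2) * u z ^ 2 := by ring
      _ = u z ^ 2 := by rw [h1, one_mul]
  unfold robinForm
  have e3 := congrArg (fun t => α * t) e2
  simp only [mul_add] at e3
  have e4 : (arc : Measure Plane) = Measure.hausdorffMeasure 1 := rfl
  rw [e4] at e3
  linarith

end Pool.Agent.MP_e32423_an
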